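import Pool.Agent.Lib.MP_437bdf_an.Sol

/-! Exterior ball barrier. -/

open Set Metric Filter Topology MeasureTheory
open InnerProductSpace Laplacian

namespace Pool.Agent.Lib.MP_437bdf_an

set_option linter.unusedSectionVars false

variable {E : Type*} [NormedAddCommGroup E] [InnerProductSpace ℝ E]

/-- two-sided ball condition with radius `ρ` -/
def TwoSidedBall (Ω : Set E) (ρ : ℝ) : Prop :=
  ∀ p ∈ frontier Ω, ∃ N : E, ‖N‖ = 1 ∧ ball (p + ρ • N) ρ ⊆ Ω ∧ ball (p - ρ • N) ρ ⊆ Ωᶜ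

/-- points of `closure Ω` are outside of an exterior ball -/
theorem le_norm_of_mem_closure {Ω : Set E} {c y : E} {ρ : ℝ} (hb : ball c ρ ⊆ Ωᶜ)
    (hy : y ∈ closure Ω) : ρ ≤ ‖y - c‖ := by
  by_contra h
  push Not at h
  have h1 : ball c ρ ∈ 𝓝 y := isOpen_ball.mem_nhds (by rwa [mem_ball, dist_eq_norm])
  obtain ⟨z, hz1, hz2⟩ := mem_closure_iff_nhds.mp hy _ h1
  exact hb hz1 hz2

theorem half_ball_sq {Ω : Set E} {p N y : E} {ρ : ℝ} (hρ : 0 < ρ) (hN : ‖N‖ = 1)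
    (hb : ball (p - ρ • N) ρ ⊆ Ωᶜ) (hy : y ∈ closure Ω) :
    (ρ / 2) ^ 2 + ‖y - p‖ ^ 2 / 2 ≤ ‖y - (p - (ρ / 2) • N)‖ ^ 2 := by
  have h1 := le_norm_of_mem_closure hb hy
  have h2 : ρ ^ 2 ≤ ‖y - (p - ρ • N)‖ ^ 2 := by gcongr
  have e1 : ∀ s : ℝ, ‖y - (p - s • N)‖ ^ 2 = ‖y - p‖ ^ 2 + 2 * s * inner ℝ (y - p) N + s ^ 2 := by
    intro s
    rw [show y - (p - s • N) = (y - p) + s • N by abel, norm_add_sq_real, inner_smul_right,
      norm_smul, hN, mul_one, Real.norm_eq_abs, sq_abs]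
    ring
  rw [e1] at h2 ⊢
  nlinarith

variable [FiniteDimensional ℝ E]

theorem boundary_estimate {r ρ L : ℝ} (hr : 0 < r) (hρ : 0 < ρ) (hL : 0 ≤ L) :
    ∃ C : ℝ, 0 < C ∧ ∀ (Ω : Set E), IsOpen Ω → ∀ (p N : E), ‖N‖ = 1 →
      ball (p - ρ • N) ρ ⊆ Ωᶜ → ∀ (w : E → ℝ) (S : ℝ), 0 ≤ S →
      ContinuousOn w (closure Ω ∩ closedBall p r) →
      (∀ x ∈ frontier Ω, x ∈ closedBall p r → w x ≤ 0) →
      (∀ x ∈ Ω, x ∈ ball p r → 0 < w x → ContDiffAt ℝ 2 w x ∧ -(Δ w) x ≤ L * S) →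
      (∀ x ∈ closure Ω ∩ closedBall p r, w x ≤ S) →
      ∀ x ∈ Ω, x ∈ ball p r → w x ≤ C * S * dist x p := by
  set n : ℝ := ((Module.finrank ℝ E : ℕ) : ℝ) with hn
  have hn0 : 0 ≤ n := Nat.cast_nonneg _
  set ρ' := ρ / 2 with hρ'
  have hρ'0 : 0 < ρ' := by positivity
  set k := (n + 1) / (2 * ρ' ^ 2) with hk
  have hk0 : 0 < k := by positivity
  have hk1 : 2 * ρ' ^ 2 * k = n + 1 := by rw [hk]; field_simp
  set m := 2 * k * Real.exp (-(k * (r + ρ') ^ 2)) with hm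
  have hm0 : 0 < m := by positivity
  set m₂ := Real.exp (-(k * ρ' ^ 2)) * (1 - Real.exp (-(k * (r ^ 2 / 2)))) with hm₂
  have hm₂0 : 0 < m₂ := by
    apply mul_pos (Real.exp_pos _)
    rw [sub_pos, Real.exp_lt_one_iff, neg_lt_zero]
    positivity
  set A := (L + 1) / m + 1 / m₂ with hA
  have hA0 : 0 < A := by positivity
  have hAm : L < A * m := by
    have : A * m = L + 1 + m / m₂ := by rw [hA]; field_simp
    rw [this]
    have : 0 < m / m₂ := by positivity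
    linarith
  have hAm₂ : 1 ≤ A * m₂ := by
    have : A * m₂ = (L + 1) * m₂ / m + 1 := by rw [hA]; field_simp
    rw [this]
    have : 0 < (L + 1) * m₂ / m := by positivity
    linarith
  refine ⟨A * (k * (2 * ρ' + r)), by positivity, ?_⟩
  intro Ω hΩ p N hN hb w S hS hwc hwf hwd hwS x hx hxb
  set c := p - ρ' • N with hc
  set φ : ℝ → ℝ := fun t => Real.exp (-(k * ρ' ^ 2)) - Real.exp (-(k * t)) with hφ
  set ψ : E → ℝ := fun y => φ (‖y - c‖ ^ 2) with hψ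
  have hφd : ∀ t, HasDerivAt φ (k * Real.exp (-(k * t))) t := by
    intro t
    have h1 : HasDerivAt (fun t : ℝ => -(k * t)) (-k) t := by
      simpa [neg_mul] using (hasDerivAt_id' t).const_mul (-k)
    have h2 := h1.exp.const_sub (Real.exp (-(k * ρ' ^ 2)))
    refine h2.congr_deriv ?_
    ring
  have hφdd : ∀ t, HasDerivAt (fun t : ℝ => k * Real.exp (-(k * t)))
      (-(k ^ 2 * Real.exp (-(k * t)))) t := by
    intro t
    have h1 : HasDerivAt (fun t : ℝ => -(k * t)) (-k) t := by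
      simpa [neg_mul] using (hasDerivAt_id' t).const_mul (-k)
    have h2 := h1.exp.const_mul k
    refine h2.congr_deriv ?_
    ring
  have hψc : ContDiff ℝ 2 ψ := by
    have : ContDiff ℝ 2 φ := by
      simp only [hφ]; fun_prop
    exact this.comp ((contDiff_id.sub contDiff_const).norm_sq ℝ)
  have hψlap : ∀ y, (Δ ψ) y = -((4 * k ^ 2 * ‖y - c‖ ^ 2 - 2 * n * k)
      * Real.exp (-(k * ‖y - c‖ ^ 2))) := by
    intro y
    have := lap_radial (E := E) (c := c) (x := y) (Eventually.of_forall hφd) (hφdd _)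
    rw [hψ, this]
    ring
  have hsq : ∀ y ∈ closure Ω, ρ' ^ 2 + ‖y - p‖ ^ 2 / 2 ≤ ‖y - c‖ ^ 2 := fun y hy =>
    half_ball_sq hρ hN hb hy
  have hcy : ∀ y : E, ‖y - c‖ ≤ ‖y - p‖ + ρ' := by
    intro y
    calc ‖y - c‖ = ‖(y - p) + ρ' • N‖ := by rw [hc]; congr 1; abel
      _ ≤ ‖y - p‖ + ‖ρ' • N‖ := norm_add_le _ _
      _ = ‖y - p‖ + ρ' := by rw [norm_smul, hN, mul_one, Real.norm_of_nonneg hρ'0.le]
  have hψ0 : ∀ y ∈ closure Ω, 0 ≤ ψ y := by
    intro y hy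
    simp only [hψ, hφ, sub_nonneg]
    apply Real.exp_le_exp.mpr
    have := hsq y hy
    have h2 : 0 ≤ ‖y - p‖ ^ 2 / 2 := by positivity
    nlinarith
  have hψr : ∀ y ∈ closure Ω, r ≤ ‖y - p‖ → m₂ ≤ ψ y := by
    intro y hy hyr
    have h1 := hsq y hy
    have h2 : r ^ 2 ≤ ‖y - p‖ ^ 2 := by gcongr
    simp only [hψ, hφ, hm₂]
    have h3 : Real.exp (-(k * ‖y - c‖ ^ 2))
        ≤ Real.exp (-(k * ρ' ^ 2)) * Real.exp (-(k * (r ^ 2 / 2))) := by
      rw [← Real.exp_add]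
      apply Real.exp_le_exp.mpr
      nlinarith
    linarith
  have hψΔ : ∀ y ∈ closure Ω, ‖y - p‖ ≤ r → m ≤ -(Δ ψ) y := by
    intro y hy hyr
    rw [hψlap, neg_neg, hm]
    have h1 := hsq y hy
    have h1' : ρ' ^ 2 ≤ ‖y - c‖ ^ 2 := by
      have : 0 ≤ ‖y - p‖ ^ 2 / 2 := by positivity
      linarith
    have h2 : 2 * k ≤ 4 * k ^ 2 * ‖y - c‖ ^ 2 - 2 * n * k := by
      have h3 : 4 * k ^ 2 * ρ' ^ 2 = 2 * k * (n + 1) := by rw [← hk1]; ring
      have h4 : 4 * k ^ 2 * ρ' ^ 2 ≤ 4 * k ^ 2 * ‖y - c‖ ^ 2 := by gcongr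
      nlinarith
    have h5 : Real.exp (-(k * (r + ρ') ^ 2)) ≤ Real.exp (-(k * ‖y - c‖ ^ 2)) := by
      apply Real.exp_le_exp.mpr
      have h6 : ‖y - c‖ ^ 2 ≤ (r + ρ') ^ 2 := by
        have := hcy y
        have h7 : ‖y - c‖ ≤ r + ρ' := by linarith
        gcongr
      nlinarith
    exact mul_le_mul h2 h5 (Real.exp_pos _).le (by nlinarith)
  -- comparison
  have hmain : w x ≤ S * A * ψ x := by
    by_contra hcon
    push Not at hcon
    have hSpos : 0 < S := by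
      rcases hS.eq_or_lt with h | h
      · rw [← h, zero_mul, zero_mul] at hcon
        have := hwS x ⟨subset_closure hx, ball_subset_closedBall hxb⟩
        linarith
      · exact h
    have hcdψ : ContDiff ℝ 2 (fun y => S * A * ψ y) := contDiff_const.mul hψc
    obtain ⟨y, hy, hmax, hle⟩ := exists_localMax (w := fun y => w y - S * A * ψ y)
      (K := closure Ω ∩ closedBall p r) (U := Ω ∩ ball p r)
      ((isCompact_closedBall p r).inter_left isClosed_closure)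
      (hΩ.inter isOpen_ball) (inter_subset_inter subset_closure ball_subset_closedBall)
      (hwc.sub hcdψ.continuous.continuousOn)
      (x₀ := x) ⟨subset_closure hx, ball_subset_closedBall hxb⟩ (by
        intro z hz hzU
        have hpos : 0 < w x - S * A * ψ x := by linarith
        refine lt_of_le_of_lt ?_ hpos
        have hz0 := hψ0 z hz.1
        by_cases hzΩ : z ∈ Ω
        · have hzb : z ∉ ball p r := fun h => hzU ⟨hzΩ, h⟩
          rw [mem_ball, not_lt, dist_eq_norm] at hzb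
          have h1 := hψr z hz.1 hzb
          have h2 := hwS z hz
          have h3 : S * 1 ≤ S * (A * ψ z) := by
            apply mul_le_mul_of_nonneg_left _ hS
            exact hAm₂.trans (mul_le_mul_of_nonneg_left h1 hA0.le)
          have h4 : S * (A * ψ z) = S * A * ψ z := by ring
          linarith
        · have h1 := hwf z (mem_frontier_of_mem_closure hΩ hz.1 hzΩ) hz.2
          have : 0 ≤ S * A * ψ z := by positivity
          linarith)
    have hyψ := hψ0 y (subset_closure hy.1)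
    have hwy : 0 < w y := by
      have : 0 ≤ S * A * ψ y := by positivity
      have hle' : w x - S * A * ψ x ≤ w y - S * A * ψ y := hle
      linarith
    obtain ⟨hcd, hlap⟩ := hwd y hy.1 hy.2 hwy
    have h1 := lap_nonpos_of_isLocalMax (hcd.sub hcdψ.contDiffAt) hmax
    have h2 : (Δ (fun y => w y - S * A * ψ y)) y = (Δ w) y - S * A * (Δ ψ) y := by
      rw [lap_sub' hcd hcdψ.contDiffAt, lap_const_mul' _ hψc.contDiffAt]
    have h2' : (Δ (fun y => w y - S * A * ψ y)) y ≤ 0 := h1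
    rw [h2] at h2'
    have h3 := hψΔ y (subset_closure hy.1) (by
      have := hy.2
      rw [mem_ball, dist_eq_norm] at this
      exact this.le)
    have h4 : S * (A * m) ≤ S * (A * (-(Δ ψ) y)) := by gcongr
    have h5 : S * L < S * (A * m) := mul_lt_mul_of_pos_left hAm hSpos
    have h6 : S * (A * (-(Δ ψ) y)) = -(S * A * (Δ ψ) y) := by ring
    have h7 : L * S = S * L := by ring
    linarith
  refine hmain.trans ?_
  have hψx : ψ x ≤ k * (2 * ρ' + r) * dist x p := by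
    have hxp : ‖x - p‖ ≤ r := by
      rw [mem_ball, dist_eq_norm] at hxb; exact hxb.le
    have h1 := hcy x
    have h2 : ‖x - c‖ ^ 2 - ρ' ^ 2 ≤ (2 * ρ' + r) * ‖x - p‖ := by
      have h3 : ‖x - c‖ ^ 2 ≤ (‖x - p‖ + ρ') ^ 2 := by gcongr
      nlinarith [norm_nonneg (x - p)]
    have h4 := hsq x (subset_closure hx)
    have h5 : 0 ≤ ‖x - c‖ ^ 2 - ρ' ^ 2 := by
      have : 0 ≤ ‖x - p‖ ^ 2 / 2 := by positivity
      linarith
    have h6 : ψ x = Real.exp (-(k * ρ' ^ 2)) * (1 - Real.exp (-(k * (‖x - c‖ ^ 2 - ρ' ^ 2)))) := by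
      simp only [hψ, hφ]
      rw [mul_sub, mul_one, ← Real.exp_add]
      congr 2
      ring
    have h7 : 1 - Real.exp (-(k * (‖x - c‖ ^ 2 - ρ' ^ 2))) ≤ k * (‖x - c‖ ^ 2 - ρ' ^ 2) := by
      have := Real.add_one_le_exp (-(k * (‖x - c‖ ^ 2 - ρ' ^ 2)))
      linarith
    have h8 : Real.exp (-(k * ρ' ^ 2)) ≤ 1 := by
      rw [Real.exp_le_one_iff]; nlinarith [sq_nonneg ρ']
    have h9 : 0 ≤ 1 - Real.exp (-(k * (‖x - c‖ ^ 2 - ρ' ^ 2))) := by
      rw [sub_nonneg, Real.exp_le_one_iff]; nlinarith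
    rw [dist_eq_norm, h6]
    calc _ ≤ 1 * (k * (‖x - c‖ ^ 2 - ρ' ^ 2)) := mul_le_mul h8 h7 h9 zero_le_one
      _ = k * (‖x - c‖ ^ 2 - ρ' ^ 2) := one_mul _
      _ ≤ k * ((2 * ρ' + r) * ‖x - p‖) := by gcongr
      _ = k * (2 * ρ' + r) * ‖x - p‖ := by ring
  calc S * A * ψ x ≤ S * A * (k * (2 * ρ' + r) * dist x p) := by gcongr
    _ = _ := by ring

/-- the nearest boundary point -/
theorem exists_nearest {Ω : Set E} (hΩ : IsOpen Ω) (hne : Ωᶜ.Nonempty) {x : E} (hx : x ∈ Ω) :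
    ∃ p ∈ frontier Ω, dist x p = infDist x Ωᶜ ∧ 0 < infDist x Ωᶜ ∧ ball x (infDist x Ωᶜ) ⊆ Ω := by
  obtain ⟨p, hp, hd⟩ := hΩ.isClosed_compl.exists_infDist_eq_dist hne x
  have hpos : 0 < infDist x Ωᶜ :=
    (hΩ.isClosed_compl.notMem_iff_infDist_pos hne).mp (fun h => h hx)
  have hball : ball x (infDist x Ωᶜ) ⊆ Ω := by
    intro y hy
    by_contra h
    have : infDist x Ωᶜ ≤ dist x y := infDist_le_dist_of_mem h
    rw [mem_ball, dist_comm] at hy
    linarith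
  refine ⟨p, ?_, hd.symm, hpos, hball⟩
  rw [hΩ.frontier_eq]
  refine ⟨?_, hp⟩
  have h1 : p ∈ closure (ball x (infDist x Ωᶜ)) := by
    rw [closure_ball x hpos.ne', mem_closedBall, dist_comm, hd]
  exact closure_mono hball h1

end Pool.Agent.Lib.MP_437bdf_an
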