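import Pool.Agent.Lib.MP_437bdf_an.Deep

/-! Harnack chains, reachable sets and a global Carleson type estimate. -/

open Set Metric Filter Topology MeasureTheory
open InnerProductSpace Laplacian

namespace Pool.Agent.Lib.MP_437bdf_an

set_option linter.unusedSectionVars false
set_option linter.unusedVariables false

variable {E : Type*} [NormedAddCommGroup E] [InnerProductSpace ℝ E]

/-- points reachable from `x` inside `Ω` with `k` steps of length `< r` -/
def reach (Ω : Set E) (r : ℝ) (x : E) : ℕ → Set E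
  | 0 => {x}
  | k + 1 => {b | b ∈ Ω ∧ ∃ a ∈ reach Ω r x k, dist b a < r}

theorem mem_reach_succ {Ω : Set E} {r : ℝ} {x a b : E} {k : ℕ} (ha : a ∈ reach Ω r x k)
    (hb : b ∈ Ω) (hd : dist b a < r) : b ∈ reach Ω r x (k + 1) := ⟨hb, a, ha, hd⟩

theorem reach_subset {Ω : Set E} {r : ℝ} {x : E} (hx : x ∈ Ω) (k : ℕ) : reach Ω r x k ⊆ Ω := by
  cases k with
  | zero => intro b hb; rw [show b = x from hb]; exact hx
  | succ k => intro b hb; exact hb.1

theorem dist_le_of_mem_reach {Ω : Set E} {r : ℝ} {x : E} :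
    ∀ (k : ℕ) (b : E), b ∈ reach Ω r x k → dist b x ≤ k * r := by
  intro k
  induction k with
  | zero => intro b hb; rw [show b = x from hb]; simp
  | succ k ih =>
    rintro b ⟨_, a, ha, hd⟩
    have := dist_triangle b a x
    have := ih a ha
    push_cast
    linarith

theorem reach_subset_succ {Ω : Set E} {r : ℝ} (hr : 0 < r) {x : E} (hx : x ∈ Ω) (k : ℕ) :
    reach Ω r x k ⊆ reach Ω r x (k + 1) := fun b hb =>
  mem_reach_succ hb (reach_subset hx k hb) (by simpa using hr)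

theorem reach_mono {Ω : Set E} {r : ℝ} (hr : 0 < r) {x : E} (hx : x ∈ Ω) {j k : ℕ} (h : j ≤ k) :
    reach Ω r x j ⊆ reach Ω r x k := by
  induction k, h using Nat.le_induction with
  | base => exact subset_rfl
  | succ k _ ih => exact ih.trans (reach_subset_succ hr hx k)

theorem self_mem_reach {Ω : Set E} {r : ℝ} (hr : 0 < r) {x : E} (hx : x ∈ Ω) (k : ℕ) :
    x ∈ reach Ω r x k := reach_mono hr hx (Nat.zero_le k) rfl

variable [FiniteDimensional ℝ E] [MeasurableSpace E] [BorelSpace E]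

/-- Harnack chain along a segment -/
theorem segment_harnack {Ω : Set E} {u : E → ℝ} {C η : ℝ} (hC : 1 ≤ C) (hη : 0 < η)
    (hH : ∀ x y : E, closedBall x η ⊆ Ω → dist x y ≤ η / 4 → u y ≤ C * u x)
    (hpos : ∀ x ∈ Ω, 0 < u x) :
    ∀ (n : ℕ) (x y : E), (∀ z ∈ segment ℝ x y, closedBall z η ⊆ Ω) → dist x y ≤ n * (η / 4) →
      u y ≤ C ^ n * u x := by
  intro n
  induction n with
  | zero =>
    intro x y _ hd
    have : x = y := dist_le_zero.mp (by simpa using hd)
    rw [this]; simp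
  | succ n ih =>
    intro x y hseg hd
    set t : ℝ := n / (n + 1) with ht
    have hn1 : (0 : ℝ) < n + 1 := by positivity
    have ht0 : 0 ≤ t := by positivity
    have ht1 : t ≤ 1 := by rw [ht, div_le_one hn1]; linarith
    set z := x + t • (y - x) with hz
    have hzseg : z ∈ segment ℝ x y := by
      rw [segment_eq_image']
      exact ⟨t, ⟨ht0, ht1⟩, rfl⟩
    have hsub : segment ℝ x z ⊆ segment ℝ x y :=
      (convex_segment x y).segment_subset (left_mem_segment ℝ x y) hzseg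
    have hxz : dist x z ≤ n * (η / 4) := by
      rw [dist_comm, dist_eq_norm, hz, add_sub_cancel_left, norm_smul, Real.norm_of_nonneg ht0,
        ← dist_eq_norm, dist_comm, ht]
      calc (n : ℝ) / (n + 1) * dist x y ≤ n / (n + 1) * ((n + 1 : ℕ) * (η / 4)) := by gcongr
        _ = n * (η / 4) := by push_cast; field_simp
    have hzy : dist z y ≤ η / 4 := by
      have e : y - z = (1 - t) • (y - x) := by rw [hz, sub_smul, one_smul]; abel
      rw [dist_comm, dist_eq_norm, e, norm_smul, Real.norm_of_nonneg (by linarith),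
        ← dist_eq_norm, dist_comm]
      have e2 : 1 - t = 1 / (n + 1) := by rw [ht]; field_simp; ring
      rw [e2]
      calc 1 / ((n : ℝ) + 1) * dist x y ≤ 1 / (n + 1) * ((n + 1 : ℕ) * (η / 4)) := by gcongr
        _ = η / 4 := by push_cast; field_simp
    have h1 := ih x z (fun w hw => hseg w (hsub hw)) hxz
    have h2 := hH z y (hseg z hzseg) hzy
    calc u y ≤ C * u z := h2
      _ ≤ C * (C ^ n * u x) := by gcongr
      _ = C ^ (n + 1) * u x := by ring

variable (E) in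
/-- comparison of the values of a solution at a point and at its associated deep point -/
theorem deep_compare {f : ℝ → ℝ} {L κ δ ρ η : ℝ} (hf : RData f L κ δ) (hρ : 0 < ρ) (hη : 0 < η) :
    ∃ C : ℝ, 1 ≤ C ∧ ∀ (Ω : Set E) (u : E → ℝ), IsOpen Ω → Sol f Ω u → ∀ a a' : E, a ∈ Ω →
      IsDeep Ω ρ a a' → η ≤ infDist a Ωᶜ → u a ≤ C * u a' ∧ u a' ≤ C * u a := by
  obtain ⟨C, r₀, hC, hr₀, hH⟩ := Sol.harnack E hf
  set η' := min (η / 2) (min (ρ / 4) r₀) with hη'
  have hη'0 : 0 < η' := by positivity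
  obtain ⟨n, hn⟩ := exists_nat_ge ((ρ / 2) / (η' / 4))
  have hn' : ρ / 2 ≤ n * (η' / 4) := by rwa [div_le_iff₀ (by positivity)] at hn
  refine ⟨C ^ n, one_le_pow₀ hC, ?_⟩
  intro Ω u hΩ hu a a' haΩ ha hda
  have hH' : ∀ x y : E, closedBall x η' ⊆ Ω → dist x y ≤ η' / 4 → u y ≤ C * u x := by
    intro x y hs hd
    exact (hH Ω u hΩ hu x y η' hη'0 ((min_le_right _ _).trans (min_le_right _ _)) hs).1 hd
  rcases ha with ⟨h1, rfl⟩ | ⟨p, N, hN, hb1, hb2, hs, hs', hae, rfl⟩
  · have hCn : 1 ≤ C ^ n := one_le_pow₀ hC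
    have hp := hu.pos _ haΩ
    constructor <;> nlinarith
  · set s := infDist a Ωᶜ with hsdef
    have hdist : dist a (p + (ρ / 2) • N) ≤ ρ / 2 := by
      rw [dist_eq_norm]
      have : a - (p + (ρ / 2) • N) = (s - ρ / 2) • N := by
        conv_lhs => rw [hae]
        rw [sub_smul]; abel
      rw [this, norm_smul, hN, mul_one, Real.norm_eq_abs, abs_of_nonpos (by linarith)]
      linarith
    have hseg : ∀ z ∈ segment ℝ a (p + (ρ / 2) • N), closedBall z η' ⊆ Ω := by
      intro z hz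
      rw [segment_eq_image'] at hz
      obtain ⟨θ, ⟨hθ0, hθ1⟩, rfl⟩ := hz
      set τ := s + θ * (ρ / 2 - s) with hτ
      have hτs : s ≤ τ := by
        have : 0 ≤ θ * (ρ / 2 - s) := mul_nonneg hθ0 (by linarith)
        linarith
      have hτρ : τ ≤ ρ := by nlinarith
      have hzeq : a + θ • (p + (ρ / 2) • N - a) = p + τ • N := by
        have e1 : a = p + s • N := hae
        rw [e1, hτ]
        module
      show closedBall (a + θ • (p + (ρ / 2) • N - a)) η' ⊆ Ω
      rw [hzeq]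
      refine (closedBall_subset_ball ?_).trans (ball_along_normal hN hτρ hb1)
      have : η' ≤ η / 2 := min_le_left _ _
      linarith
    have hd' : dist (p + (ρ / 2) • N) a ≤ n * (η' / 4) := by rw [dist_comm]; linarith
    constructor
    · exact segment_harnack hC hη'0 hH' hu.pos n _ _ (by rw [segment_symm]; exact hseg) hd'
    · exact segment_harnack hC hη'0 hH' hu.pos n _ _ hseg (by linarith)

theorem isDeep_compl_nonempty_aux {Ω : Set E} {x : E} (h : 0 < infDist x Ωᶜ) : (Ωᶜ).Nonempty := by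
  by_contra hne
  rw [not_nonempty_iff_eq_empty] at hne
  rw [hne, infDist_empty] at h
  exact lt_irrefl _ h

/-- near the boundary a subsolution is small compared with its local supremum -/
theorem near_boundary {ρ r₁ L : ℝ} (hr₁ : 0 < r₁) (hρ : 0 < ρ) (hL : 0 ≤ L) :
    ∃ C : ℝ, 0 < C ∧ ∀ (Ω : Set E), IsOpen Ω → (Ωᶜ).Nonempty → TwoSidedBall Ω ρ →
      ∀ (w : E → ℝ) (S : ℝ) (y : E), 0 ≤ S → y ∈ Ω → infDist y Ωᶜ < r₁ / 2 →
      ContinuousOn w (closure Ω) → (∀ x ∈ frontier Ω, w x ≤ 0) →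
      (∀ x ∈ Ω, 0 < w x → ContDiffAt ℝ 2 w x ∧ -(Δ w) x ≤ L * w x) →
      (∀ x ∈ Ω, dist x y < r₁ → w x ≤ S) → w y ≤ C * S * infDist y Ωᶜ := by
  obtain ⟨C, hC, h⟩ := boundary_estimate (E := E) (r := r₁ / 2) (ρ := ρ) (L := L)
    (by positivity) hρ hL
  refine ⟨C, hC, ?_⟩
  intro Ω hΩ hne hT w S y hS hy hyd hwc hwf hwd hwS
  obtain ⟨p, hp, hd, hpos, hball⟩ := exists_nearest hΩ hne hy
  obtain ⟨N, hN, hb1, hb2⟩ := hT p hp
  have hdy : ∀ x, dist x p ≤ r₁ / 2 → dist x y < r₁ := by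
    intro x hx
    have := dist_triangle x p y
    rw [dist_comm p y] at this
    linarith
  rw [← hd]
  refine h Ω hΩ p N hN hb2 w S hS (hwc.mono inter_subset_left) (fun x hx _ => hwf x hx) ?_ ?_ y hy
    (by rw [mem_ball, hd]; exact hyd)
  · intro x hx hxb hwx
    obtain ⟨h1, h2⟩ := hwd x hx hwx
    refine ⟨h1, h2.trans ?_⟩
    exact mul_le_mul_of_nonneg_left (hwS x hx (hdy x (le_of_lt hxb))) hL
  · rintro x ⟨hx, hxb⟩
    by_cases hxΩ : x ∈ Ω
    · exact hwS x hxΩ (hdy x hxb)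
    · exact (hwf x (mem_frontier_of_mem_closure hΩ hx hxΩ)).trans hS

theorem isDeep_unique {Ω : Set E} {ρ : ℝ} (hρ : 0 < ρ) {a a' a'' : E} (h1 : IsDeep Ω ρ a a')
    (h2 : IsDeep Ω ρ a a'') : a' = a'' := by
  apply eq_of_forall_dist_le
  intro ε hε
  obtain ⟨r₁, hr₁, h⟩ := isDeep_adjacent (E := E) hρ hε
  exact (h Ω a a a' a'' h1 h2 (by simpa using hr₁)).le

variable (E) in
/-- Global Carleson type estimate: growth of a solution along reachable sets. -/
theorem carleson {f : ℝ → ℝ} {L κ δ ρ : ℝ} (hf : RData f L κ δ) (hρ : 0 < ρ) :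
    ∃ Λ r₁ C₂ : ℝ, 1 ≤ Λ ∧ 0 < r₁ ∧ 1 ≤ C₂ ∧ ∀ (Ω : Set E) (u : E → ℝ), IsOpen Ω →
      (Ωᶜ).Nonempty → TwoSidedBall Ω ρ → Sol f Ω u → ∀ x x' : E, x ∈ Ω → IsDeep Ω ρ x x' →
      ∀ (j : ℕ) (b : E), b ∈ reach Ω r₁ x j → u b ≤ C₂ * Λ ^ j * u x' := by
  obtain ⟨Λ, r₀, hΛ, hr₀, hH⟩ := Sol.harnack E hf
  set rh := min (ρ / 4) r₀ with hrh
  have hrh0 : 0 < rh := by positivity
  obtain ⟨r₁, hr₁, hadj⟩ := isDeep_adjacent (E := E) hρ (by positivity : 0 < rh / 4)
  obtain ⟨CD, hCD, hnb⟩ := near_boundary (E := E) hr₁ hρ hf.hL.le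
  have hΛ0 : 0 < Λ := by linarith
  set η := min (r₁ / 2) (1 / (2 * CD * Λ)) with hη
  have hη0 : 0 < η := by positivity
  have hηΛ : CD * η * Λ ≤ 1 / 2 := by
    have : η ≤ 1 / (2 * CD * Λ) := min_le_right _ _
    calc CD * η * Λ ≤ CD * (1 / (2 * CD * Λ)) * Λ := by gcongr
      _ = 1 / 2 := by field_simp
  have hη2 : CD * η ≤ 1 / 2 := by
    have : 0 < CD * η := by positivity
    nlinarith
  obtain ⟨C₂, hC₂, hcmp⟩ := deep_compare E hf hρ hη0
  refine ⟨Λ, r₁, C₂, hΛ, hr₁, hC₂, ?_⟩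
  intro Ω u hΩ hne hT hu x x' hx hxx'
  -- deep points
  have hx'Ω : x' ∈ Ω := hxx'.ball_subset hρ (mem_ball_self (by positivity))
  have hx'pos : 0 < u x' := hu.pos _ hx'Ω
  have hdeep : ∀ (j : ℕ) (b b' : E), b ∈ reach Ω r₁ x j → IsDeep Ω ρ b b' → u b' ≤ Λ ^ j * u x' := by
    intro j
    induction j with
    | zero =>
      intro b b' hb hbb'
      have hbx : b = x := hb
      rw [hbx] at hbb'
      rw [isDeep_unique hρ hbb' hxx']
      simp
    | succ j ih =>
      rintro b b' ⟨hbΩ, a, ha, hba⟩ hbb'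
      obtain ⟨a', haa'⟩ := exists_isDeep hΩ hne hρ hT (reach_subset hx j ha)
      have h1 := ih a a' ha haa'
      have h2 : dist a' b' < rh / 4 := hadj Ω a b a' b' haa' hbb' (by rwa [dist_comm])
      have hsub : closedBall a' rh ⊆ Ω :=
        (closedBall_subset_ball (by
          have : rh ≤ ρ / 4 := min_le_left _ _
          linarith)).trans (haa'.ball_subset hρ)
      have h3 := (hH Ω u hΩ hu a' b' rh hrh0 (min_le_right _ _) hsub).1 h2.le
      calc u b' ≤ Λ * u a' := h3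
        _ ≤ Λ * (Λ ^ j * u x') := by gcongr
        _ = Λ ^ (j + 1) * u x' := by ring
  -- iteration
  have hit : ∀ (n : ℕ) (j : ℕ) (b : E), b ∈ reach Ω r₁ x j →
      u b ≤ max (C₂ * Λ ^ j * u x') ((CD * η) ^ n) := by
    intro n
    induction n with
    | zero =>
      intro j b hb
      rw [pow_zero]
      exact (hu.le_one b (reach_subset hx j hb)).trans (le_max_right _ _)
    | succ n ih =>
      intro j b hb
      have hbΩ := reach_subset hx j hb
      rcases le_or_gt η (infDist b Ωᶜ) with h | h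
      · obtain ⟨b', hbb'⟩ := exists_isDeep hΩ hne hρ hT hbΩ
        have h1 := (hcmp Ω u hΩ hu b b' hbΩ hbb' h).1
        have h2 := hdeep j b b' hb hbb'
        refine le_trans ?_ (le_max_left _ _)
        calc u b ≤ C₂ * u b' := h1
          _ ≤ C₂ * (Λ ^ j * u x') := by gcongr
          _ = C₂ * Λ ^ j * u x' := by ring
      · set S := max (C₂ * Λ ^ (j + 1) * u x') ((CD * η) ^ n) with hS
        have hS0 : 0 ≤ S := le_trans (by positivity) (le_max_left _ _)
        have h1 := hnb Ω hΩ hne hT u S b hS0 hbΩ (h.trans_le (min_le_left _ _)) hu.cont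
          (fun x hx => (hu.bdry x hx).le)
          (fun x hx _ => ⟨hu.c2.contDiffAt (hΩ.mem_nhds hx), by
            rw [hu.eqn x hx]; exact hf.le (hu.pos x hx).le (hu.le_one x hx)⟩)
          (fun z hz hzb => ih (j + 1) z (mem_reach_succ hb hz hzb))
        have h2 : u b ≤ CD * η * S := by
          calc u b ≤ CD * S * infDist b Ωᶜ := h1
            _ ≤ CD * S * η := by gcongr
            _ = CD * η * S := by ring
        refine h2.trans ?_
        rw [hS, mul_max_of_nonneg _ _ (by positivity)]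
        apply max_le_max
        · have : 0 ≤ C₂ * Λ ^ j * u x' := by positivity
          calc CD * η * (C₂ * Λ ^ (j + 1) * u x') = (CD * η * Λ) * (C₂ * Λ ^ j * u x') := by ring
            _ ≤ 1 / 2 * (C₂ * Λ ^ j * u x') := by gcongr
            _ ≤ C₂ * Λ ^ j * u x' := by linarith
        · rw [pow_succ]; exact le_of_eq (mul_comm _ _)
  intro j b hb
  have hpos : 0 < C₂ * Λ ^ j * u x' := by positivity
  obtain ⟨n, hn⟩ := exists_pow_lt_of_lt_one hpos (by linarith : CD * η < 1)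
  have := hit n j b hb
  rwa [max_eq_left hn.le] at this

end Pool.Agent.Lib.MP_437bdf_an
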