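import Pool.Agent.Lib.MP_437bdf_an.SmallError

/-! The chain argument and the touching argument. -/

open Set Metric Filter Topology MeasureTheory
open InnerProductSpace Laplacian

namespace Pool.Agent.Lib.MP_437bdf_an

set_option linter.unusedSectionVars false
set_option linter.unusedVariables false

section chain
variable {E : Type*} [NormedAddCommGroup E]

/-- Almost maximality at scale `1 / (1 + ‖x‖)`: the harmonic series diverges. -/
theorem chain_lemma {T : Set E} {G : E → ℝ} {B ℓ ε : ℝ} (hB : ∀ x ∈ T, G x ≤ B)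
    {R : E → E → Prop} (hR : ∀ x y, x ∈ T → R x y → dist y x ≤ ℓ) {x₀ : E} (hx₀ : x₀ ∈ T)
    (hε : 0 < ε) : ∃ x₁ ∈ T, G x₀ ≤ G x₁ ∧ ∀ y ∈ T, R x₁ y → G y ≤ G x₁ + ε / (1 + ‖x₁‖) := by
  by_contra hcon
  push Not at hcon
  have hnext : ∀ s : {x : E // x ∈ T ∧ G x₀ ≤ G x}, ∃ t : {x : E // x ∈ T ∧ G x₀ ≤ G x},
      R s.1 t.1 ∧ G s.1 + ε / (1 + ‖s.1‖) < G t.1 := by
    rintro ⟨x, hx, hGx⟩
    obtain ⟨y, hy, hRy, hGy⟩ := hcon x hx hGx
    have hpos : 0 < ε / (1 + ‖x‖) := by positivity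
    exact ⟨⟨y, hy, by linarith⟩, hRy, hGy⟩
  choose next hnextR hnextG using hnext
  set s : ℕ → {x : E // x ∈ T ∧ G x₀ ≤ G x} := fun n => next^[n] ⟨x₀, hx₀, le_rfl⟩ with hs
  have hs0 : (s 0).1 = x₀ := rfl
  have hsucc : ∀ n, s (n + 1) = next (s n) := fun n => by
    simp only [hs, Function.iterate_succ_apply']
  have hℓ : ∀ n, dist (s (n + 1)).1 (s n).1 ≤ ℓ := fun n => by
    rw [hsucc]; exact hR _ _ (s n).2.1 (hnextR (s n))
  have hℓ0 : 0 ≤ ℓ := dist_nonneg.trans (hℓ 0)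
  have hnorm : ∀ n : ℕ, ‖(s n).1‖ ≤ ‖x₀‖ + n * ℓ := by
    intro n
    induction n with
    | zero => rw [hs0]; simp
    | succ n ih =>
      have h1 := hℓ n
      have h2 : ‖(s (n + 1)).1‖ ≤ ‖(s n).1‖ + dist (s (n + 1)).1 (s n).1 := by
        rw [dist_eq_norm]
        calc ‖(s (n + 1)).1‖ = ‖(s n).1 + ((s (n + 1)).1 - (s n).1)‖ := by congr 1; abel
          _ ≤ _ := norm_add_le _ _
      push_cast
      linarith
  set D := max (1 + ‖x₀‖) ℓ with hD
  have hD0 : 0 < D := lt_of_lt_of_le (by positivity) (le_max_left _ _)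
  have hsum : ∀ n : ℕ, G x₀ + ε / D * ∑ i ∈ Finset.range n, (1 / ((i : ℝ) + 1)) ≤ G (s n).1 := by
    intro n
    induction n with
    | zero => simp [hs0]
    | succ n ih =>
      have h1 := hnextG (s n)
      rw [← hsucc] at h1
      rw [Finset.sum_range_succ, mul_add]
      have h2 : ε / D * (1 / ((n : ℝ) + 1)) ≤ ε / (1 + ‖(s n).1‖) := by
        rw [div_mul_div_comm, mul_one]
        apply div_le_div_of_nonneg_left hε.le (by positivity)
        have h3 := hnorm n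
        have h4 : 1 + ‖x₀‖ ≤ D := le_max_left _ _
        have h5 : ℓ ≤ D := le_max_right _ _
        have h6 : (n : ℝ) * ℓ ≤ n * D := by gcongr
        linarith
      linarith
  have hdiv := Real.tendsto_sum_range_one_div_nat_succ_atTop
  have hdiv2 : Tendsto (fun n : ℕ => G x₀ + ε / D * ∑ i ∈ Finset.range n, (1 / ((i : ℝ) + 1)))
      atTop atTop :=
    tendsto_atTop_add_const_left _ _ (hdiv.const_mul_atTop (by positivity))
  obtain ⟨n, hn⟩ := (hdiv2.eventually_gt_atTop B).exists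
  have h1 := hsum n
  have h2 := hB _ (s n).2.1
  linarith

end chain

variable {E : Type*} [NormedAddCommGroup E] [InnerProductSpace ℝ E]

theorem smul_ball_subset {Ω : Set E} (hstar : ∀ x ∈ Ω, ∀ μ : ℝ, 1 ≤ μ → μ • x ∈ Ω) {x : E}
    {d μ : ℝ} (hb : ball x d ⊆ Ω) (hμ : 1 ≤ μ) : ball (μ • x) (μ * d) ⊆ Ω := by
  intro y hy
  have hμ0 : 0 < μ := by linarith
  have h1 : μ⁻¹ • y ∈ ball x d := by
    rw [mem_ball, dist_eq_norm] at hy ⊢
    have : μ⁻¹ • y - x = μ⁻¹ • (y - μ • x) := by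
      rw [smul_sub, smul_smul, inv_mul_cancel₀ hμ0.ne', one_smul]
    rw [this, norm_smul, norm_inv, Real.norm_of_nonneg hμ0.le, inv_mul_lt_iff₀ hμ0]
    exact hy
  have h2 := hstar _ (hb h1) μ hμ
  rwa [smul_smul, mul_inv_cancel₀ hμ0.ne', one_smul] at h2

variable [FiniteDimensional ℝ E]

/-- dilations of solutions are supersolutions -/
theorem Sol.superSol_smul {f : ℝ → ℝ} {L κ δ : ℝ} (hf : RData f L κ δ) {Ω : Set E}
    (hΩ : IsOpen Ω) (hstar : ∀ x ∈ Ω, ∀ μ : ℝ, 1 ≤ μ → μ • x ∈ Ω) {v : E → ℝ}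
    (hv : Sol f Ω v) {μ : ℝ} (hμ : 1 ≤ μ) : SuperSol f Ω (fun x => v (μ • x)) := by
  have hcl : ∀ x ∈ closure Ω, μ • x ∈ closure Ω := by
    intro x hx
    have h0 : MapsTo (fun x : E => μ • x) Ω Ω := fun x hx => hstar x hx μ hμ
    have h1 : MapsTo (fun x : E => μ • x) (closure Ω) (closure Ω) :=
      MapsTo.closure h0 (by fun_prop)
    exact h1 hx
  have hv0 : ∀ x ∈ closure Ω, 0 ≤ v x := by
    intro x hx
    by_cases h : x ∈ Ω
    · exact (hv.pos x h).le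
    · rw [hv.bdry x (mem_frontier_of_mem_closure hΩ hx h)]
  refine ⟨?_, ?_, ?_, ?_, ?_⟩
  · exact hv.c2.comp (by fun_prop) (fun x hx => hstar x hx μ hμ)
  · exact hv.cont.comp (by fun_prop) hcl
  · intro x hx; exact hv0 _ (hcl x hx)
  · intro x hx; exact hv.le_one _ (hstar x hx μ hμ)
  · intro x hx
    have hm := hstar x hx μ hμ
    have hcd : ContDiffAt ℝ 2 v ((0 : E) + μ • x) := by
      rw [zero_add]; exact hv.c2.contDiffAt (hΩ.mem_nhds hm)
    have h1 := lap_affine hcd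
    simp only [zero_add] at h1
    rw [h1, ← mul_neg, hv.eqn _ hm]
    have h2 := hf.nonneg (hv.pos _ hm).le (hv.le_one _ hm)
    have h3 : 1 ≤ μ ^ 2 := one_le_pow₀ hμ
    nlinarith

theorem touch_num1 {δ η m V : ℝ} (hδ : 0 < δ) (hδ' : δ ≤ 1 / 2) (hη0 : 0 < η)
    (hη : η ≤ δ / 8) (hm : m ≤ (1 + η) * (1 - δ)) (hV : |m - V| ≤ δ / 8 * m) :
    V ≤ 1 - δ / 2 := by
  have h0 := (abs_le.mp hV).1
  have h1 : V ≤ (1 + δ / 8) * m := by linarith
  have h2 : (1 + δ / 8) * m ≤ (1 + δ / 8) * ((1 + δ / 8) * (1 - δ)) := by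
    have h3 : (1 + η) * (1 - δ) ≤ (1 + δ / 8) * (1 - δ) :=
      mul_le_mul_of_nonneg_right (by linarith) (by linarith)
    exact mul_le_mul_of_nonneg_left (hm.trans h3) (by linarith)
  have h4 : (1 + δ / 8) * ((1 + δ / 8) * (1 - δ))
      = 1 - 3 / 4 * δ - 15 / 64 * δ ^ 2 - δ ^ 3 / 64 := by ring
  have h5 : 0 < δ ^ 2 := by positivity
  have h6 : 0 < δ ^ 3 := by positivity
  linarith

theorem touch_num2 {δ η m V a : ℝ} (hδ : 0 < δ) (hδ' : δ ≤ 1 / 2) (hη0 : 0 < η)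
    (hη : η ≤ 1 / 16) (ha : 0 < a) (hm : (1 - η) * a ≤ m) (hV : |m - V| ≤ δ / 8 * m) :
    a / 2 ≤ V := by
  have h0 := (abs_le.mp hV).2
  have h1 : (1 - δ / 8) * m ≤ V := by linarith
  have h2 : 15 / 16 * a ≤ (1 - η) * a := mul_le_mul_of_nonneg_right (by linarith) ha.le
  have h3 : 15 / 16 * (15 / 16 * a) ≤ (1 - δ / 8) * m :=
    mul_le_mul (by linarith) (h2.trans hm) (by positivity) (by linarith)
  linarith

theorem touch_num3 {η m a : ℝ} (hη : η ≤ 1 / 16) (ha : 0 < a) (hm : m ≤ (1 + η) * a) :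
    m ≤ 5 / 4 * a := by
  have h2 : (1 + η) * a ≤ 17 / 16 * a := mul_le_mul_of_nonneg_right (by linarith) ha.le
  linarith

variable [MeasurableSpace E] [BorelSpace E]

variable (E) in
/-- the touching argument -/
theorem touching {f : ℝ → ℝ} {L κ δ μ₀ M d₀ r₁ : ℝ} (hf : RData f L κ δ) (hμ₀ : 1 < μ₀)
    (hM : 1 ≤ M) (hd₀ : 0 < d₀) (hr₁ : 0 < r₁) : ∃ η ε : ℝ, 0 < η ∧ 0 < ε ∧
    ∀ (Ω : Set E) (u v : E → ℝ), IsOpen Ω → (∀ x ∈ Ω, ∀ μ : ℝ, 1 ≤ μ → μ • x ∈ Ω) →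
      Sol f Ω u → Sol f Ω v → ∀ (x : E) (μ₁ μ' : ℝ), x ∈ Ω → d₀ ≤ infDist x Ωᶜ → μ₀ ≤ μ₁ →
      μ₁ ≤ μ' → μ' ≤ M → (μ' - μ₁) * ‖x‖ ≤ ε → v (μ₁ • x) ≤ min (u x) (1 - δ) →
      (∀ y ∈ Ω, dist y x < r₁ → u y - v (μ' • y) ≤ η * u x) → False := by
  obtain ⟨C, r₀, hC, hr₀, hH⟩ := Sol.harnack E hf
  set n : ℝ := ((Module.finrank ℝ E : ℕ) : ℝ) with hn
  have hn0 : 0 ≤ n := Nat.cast_nonneg _
  have hC0 : 0 < C := by linarith
  have hδ := hf.hδ
  have hδ' := hf.hδ'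
  have hL := hf.hL
  set r := min (d₀ / 2) r₀ with hr
  have hr0 : 0 < r := by positivity
  obtain ⟨c, hc, hcs⟩ := hf.below (1 - δ / 2) (by linarith)
  set s := min (min (r / (8 * M)) (r * δ / (8 * C * M))) (min (r₁ / 2) (d₀ / 2)) with hs
  have hM0 : 0 < M := by linarith
  have hs0 : 0 < s := by positivity
  have hs1 : M * s ≤ r / 8 := by
    have : s ≤ r / (8 * M) := (min_le_left _ _).trans (min_le_left _ _)
    calc M * s ≤ M * (r / (8 * M)) := by gcongr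
      _ = r / 8 := by field_simp
  have hs2 : C / r * (M * s) ≤ δ / 8 := by
    have : s ≤ r * δ / (8 * C * M) := (min_le_left _ _).trans (min_le_right _ _)
    calc C / r * (M * s) ≤ C / r * (M * (r * δ / (8 * C * M))) := by gcongr
      _ = δ / 8 := by field_simp
  have hs3 : s < r₁ := lt_of_le_of_lt ((min_le_right _ _).trans (min_le_left _ _)) (by linarith)
  have hs4 : s < d₀ := lt_of_le_of_lt ((min_le_right _ _).trans (min_le_right _ _)) (by linarith)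
  have hgap : 0 < μ₀ ^ 2 - 1 := by nlinarith
  set η := min (δ / 8) ((μ₀ ^ 2 - 1) * c / (4 * (L + 10 * n / s ^ 2 + 1))) with hη
  have hη0 : 0 < η := by positivity
  have hη1 : η ≤ δ / 8 := min_le_left _ _
  have hη2 : η * (L + 10 * n / s ^ 2 + 1) ≤ (μ₀ ^ 2 - 1) * c / 4 := by
    have : η ≤ (μ₀ ^ 2 - 1) * c / (4 * (L + 10 * n / s ^ 2 + 1)) := min_le_right _ _
    have hp : 0 < L + 10 * n / s ^ 2 + 1 := by positivity
    calc η * (L + 10 * n / s ^ 2 + 1)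
        ≤ (μ₀ ^ 2 - 1) * c / (4 * (L + 10 * n / s ^ 2 + 1)) * (L + 10 * n / s ^ 2 + 1) := by gcongr
      _ = (μ₀ ^ 2 - 1) * c / 4 := by field_simp
  set ε := min (r / 8) (η * r / C) with hε
  have hε0 : 0 < ε := by positivity
  refine ⟨η, ε, hη0, hε0, ?_⟩
  intro Ω u v hΩ hstar hu hv x μ₁ μ' hx hxd hμ₀₁ hμ₁ hμ'M hεx hvx herr
  have hμ'1 : 1 ≤ μ' := by linarith
  have hux := hu.pos x hx
  have hbx : ball x d₀ ⊆ Ω := (ball_subset_ball hxd).trans ball_infDist_subset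
  have hball : ∀ μ : ℝ, 1 ≤ μ → closedBall (μ • x) r ⊆ Ω := by
    intro μ hμ
    refine (closedBall_subset_ball ?_).trans (smul_ball_subset hstar hbx hμ)
    have h1 : r ≤ d₀ / 2 := min_le_left _ _
    nlinarith
  have hV := hv.superSol_smul hf hΩ hstar hμ'1
  -- value at `x`
  set m := v (μ' • x) with hm
  have hμ'x : μ' • x ∈ Ω := hstar x hx μ' hμ'1
  have hμ₁x : μ₁ • x ∈ Ω := hstar x hx μ₁ (by linarith)
  have hm0 : 0 < m := hv.pos _ hμ'x
  have hm1 : m ≤ (1 + η) * v (μ₁ • x) := by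
    have hd : dist (μ₁ • x) (μ' • x) = (μ' - μ₁) * ‖x‖ := by
      rw [dist_comm, dist_eq_norm, ← sub_smul, norm_smul, Real.norm_of_nonneg (by linarith)]
    have h1 := (hH Ω v hΩ hv (μ₁ • x) (μ' • x) r hr0 (min_le_right _ _)
      (hball μ₁ (by linarith))).2 (by
        rw [hd]; exact hεx.trans (min_le_left _ _))
    rw [hd] at h1
    have h2 : C / r * ((μ' - μ₁) * ‖x‖) ≤ η := by
      have : (μ' - μ₁) * ‖x‖ ≤ η * r / C := hεx.trans (min_le_right _ _)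
      calc C / r * ((μ' - μ₁) * ‖x‖) ≤ C / r * (η * r / C) := by gcongr
        _ = η := by field_simp
    have h3 : C / r * ((μ' - μ₁) * ‖x‖) * v (μ₁ • x) ≤ η * v (μ₁ • x) :=
      mul_le_mul_of_nonneg_right h2 (hv.pos _ hμ₁x).le
    have h4 := neg_abs_le (v (μ₁ • x) - v (μ' • x))
    linarith
  have hmu : m ≤ (1 + η) * u x := hm1.trans (by
    gcongr; exact hvx.trans (min_le_left _ _))
  have hmδ : m ≤ (1 + η) * (1 - δ) := hm1.trans (by
    gcongr; exact hvx.trans (min_le_right _ _))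
  have hml : (1 - η) * u x ≤ m := by
    have := herr x hx (by simpa using hr₁)
    linarith
  -- values near `x`
  have hclosed : closedBall x s ⊆ Ω := (closedBall_subset_ball hs4).trans hbx
  have hVy : ∀ y ∈ closedBall x s, |m - v (μ' • y)| ≤ δ / 8 * m := by
    intro y hy
    have hd : dist (μ' • x) (μ' • y) ≤ M * s := by
      rw [dist_smul₀, Real.norm_of_nonneg (by linarith), dist_comm]
      exact mul_le_mul hμ'M hy dist_nonneg hM0.le
    have h1 := (hH Ω v hΩ hv (μ' • x) (μ' • y) r hr0 (min_le_right _ _)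
      (hball μ' hμ'1)).2 (hd.trans hs1)
    refine h1.trans ?_
    have : C / r * dist (μ' • x) (μ' • y) ≤ δ / 8 :=
      (mul_le_mul_of_nonneg_left hd (by positivity)).trans hs2
    exact mul_le_mul_of_nonneg_right this hm0.le
  set a := 4 * η / s ^ 2 with ha
  have ha0 : 0 < a := by positivity
  have has : a * s ^ 2 = 4 * η := by rw [ha]; field_simp
  have hη4 : η ≤ 1 / 16 := by linarith
  obtain ⟨y, hy, hmin, hle⟩ := exists_localMin
    (w := fun z => (v (μ' • z) - u z) + (a * m) * ‖z - x‖ ^ 2) (K := closedBall x s)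
    (U := ball x s) (isCompact_closedBall x s) isOpen_ball ball_subset_closedBall
    (((hV.c2.continuousOn.mono hclosed).sub (hu.c2.continuousOn.mono hclosed)).add
      (contDiff_sq (a * m) x (n := 0)).continuous.continuousOn)
    (x₀ := x) (mem_closedBall_self hs0.le) (by
      intro z hz hzb
      rw [mem_ball, not_lt, dist_eq_norm] at hzb
      have h1 : s ^ 2 ≤ ‖z - x‖ ^ 2 := by gcongr
      have h2 : a * m * s ^ 2 ≤ a * m * ‖z - x‖ ^ 2 := by gcongr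
      have h3 := herr z (hclosed hz) (lt_of_le_of_lt hz hs3)
      have h4 : a * m * ‖x - x‖ ^ 2 = 0 := by simp
      rw [h4]
      have h5 : a * m * s ^ 2 = 4 * η * m := by rw [← has]; ring
      have h6 : 4 * η * ((1 - η) * u x) ≤ 4 * η * m := by gcongr
      have h7 : 0 < η * u x := mul_pos hη0 hux
      have h8 : η * (η * u x) ≤ 1 / 16 * (η * u x) := mul_le_mul_of_nonneg_right hη4 h7.le
      have h9 : 4 * η * ((1 - η) * u x) = 4 * (η * u x) - 4 * (η * (η * u x)) := by ring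
      linarith)
  have hyc : y ∈ closedBall x s := ball_subset_closedBall hy
  have hyΩ := hclosed hyc
  have h0 : a * m * ‖x - x‖ ^ 2 = 0 := by simp
  have hle' : (v (μ' • y) - u y) + (a * m) * ‖y - x‖ ^ 2 ≤ (m - u x) + (a * m) * ‖x - x‖ ^ 2 := hle
  rw [h0, add_zero] at hle'
  have hnn : 0 ≤ (a * m) * ‖y - x‖ ^ 2 := by positivity
  have hup : v (μ' • y) - u y ≤ η * u x := by
    have : m - u x ≤ η * u x := by linarith
    linarith
  have hlow := herr y hyΩ (lt_of_le_of_lt hyc hs3)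
  have hμ'y : μ' • y ∈ Ω := hstar y hyΩ μ' hμ'1
  have hVpos := hv.pos _ hμ'y
  have hVle := hv.le_one _ hμ'y
  have hcdV : ContDiffAt ℝ 2 (fun z => v (μ' • z)) y := hV.c2.contDiffAt (hΩ.mem_nhds hyΩ)
  have hcdu : ContDiffAt ℝ 2 u y := hu.c2.contDiffAt (hΩ.mem_nhds hyΩ)
  have hlap1 := lap_nonneg_of_isLocalMin ((hcdV.sub hcdu).add (contDiff_sq (a * m) x).contDiffAt) hmin
  have hlap2 : (Δ (fun z => (v (μ' • z) - u z) + (a * m) * ‖z - x‖ ^ 2)) y
      = (Δ (fun z => v (μ' • z))) y - (Δ u) y + 2 * (a * m) * n := by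
    rw [lap_add' (hcdV.sub hcdu) (contDiff_sq (a * m) x).contDiffAt, lap_sub' hcdV hcdu, lap_sq]
  have hlap3 : 0 ≤ (Δ (fun z => (v (μ' • z) - u z) + (a * m) * ‖z - x‖ ^ 2)) y := hlap1
  rw [hlap2] at hlap3
  have hlapV : (Δ (fun z => v (μ' • z))) y = μ' ^ 2 * (Δ v) (μ' • y) := by
    have hcd : ContDiffAt ℝ 2 v ((0 : E) + μ' • y) := by
      rw [zero_add]; exact hv.c2.contDiffAt (hΩ.mem_nhds hμ'y)
    have h1 := lap_affine hcd
    simpa only [zero_add] using h1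
  have he1 := hv.eqn _ hμ'y
  have he2 := hu.eqn _ hyΩ
  -- lower bound for `f (V y)`
  have hVup : v (μ' • y) ≤ 1 - δ / 2 := touch_num1 hδ hδ' hη0 hη1 hmδ (hVy y hyc)
  have hVlow : u x / 2 ≤ v (μ' • y) := touch_num2 hδ hδ' hη0 hη4 hux hml (hVy y hyc)
  have hfV := hcs (v (μ' • y)) ⟨hVpos.le, hVup⟩
  have hfV2 : c * (u x / 2) ≤ f (v (μ' • y)) := le_trans (by gcongr) hfV
  -- upper bound
  have hfu : f (u y) ≤ f (v (μ' • y)) + L * (η * u x) := by
    have h1 := hf.lip (u y) (hu.mem_Icc hyΩ) (v (μ' • y)) ⟨hVpos.le, hVle⟩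
    have h2 : |u y - v (μ' • y)| ≤ η * u x := by
      rw [abs_le]; constructor <;> linarith
    have h3 := (le_abs_self _).trans h1
    have h4 : L * |u y - v (μ' • y)| ≤ L * (η * u x) := by gcongr
    linarith
  have hkey : (μ' ^ 2 - 1) * f (v (μ' • y)) ≤ L * (η * u x) + 2 * (a * m) * n := by
    rw [hlapV] at hlap3
    have : μ' ^ 2 * (Δ v) (μ' • y) = -(μ' ^ 2 * f (v (μ' • y))) := by rw [← he1]; ring
    rw [this] at hlap3
    linarith
  have ham : 2 * (a * m) * n ≤ 10 * n / s ^ 2 * (η * u x) := by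
    have h1 : m ≤ 5 / 4 * u x := touch_num3 hη4 hux hmu
    calc 2 * (a * m) * n = 8 * η / s ^ 2 * n * m := by rw [ha]; ring
      _ ≤ 8 * η / s ^ 2 * n * (5 / 4 * u x) := by gcongr
      _ = 10 * n / s ^ 2 * (η * u x) := by ring
  have hμsq : μ₀ ^ 2 - 1 ≤ μ' ^ 2 - 1 := by
    have : μ₀ ^ 2 ≤ μ' ^ 2 := by
      have : μ₀ ≤ μ' := by linarith
      gcongr
    linarith
  have hf0 : 0 ≤ f (v (μ' • y)) := hf.nonneg hVpos.le hVle
  have hl : (μ₀ ^ 2 - 1) * (c * (u x / 2)) ≤ (μ' ^ 2 - 1) * f (v (μ' • y)) := by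
    calc (μ₀ ^ 2 - 1) * (c * (u x / 2)) ≤ (μ₀ ^ 2 - 1) * f (v (μ' • y)) := by gcongr
      _ ≤ (μ' ^ 2 - 1) * f (v (μ' • y)) := by gcongr
  have hr' : L * (η * u x) + 2 * (a * m) * n ≤ η * (L + 10 * n / s ^ 2 + 1) * u x := by
    have h1 : 0 < η * u x := mul_pos hη0 hux
    have h2 : η * (L + 10 * n / s ^ 2 + 1) * u x
        = L * (η * u x) + 10 * n / s ^ 2 * (η * u x) + η * u x := by ring
    rw [h2]
    linarith
  have hfin : (μ₀ ^ 2 - 1) * (c * (u x / 2)) ≤ (μ₀ ^ 2 - 1) * c / 4 * u x :=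
    hl.trans (hkey.trans (hr'.trans (mul_le_mul_of_nonneg_right hη2 hux.le)))
  have h1 : 0 < (μ₀ ^ 2 - 1) * c * u x := by positivity
  have h2 : (μ₀ ^ 2 - 1) * (c * (u x / 2)) = (μ₀ ^ 2 - 1) * c * u x / 2 := by ring
  have h3 : (μ₀ ^ 2 - 1) * c / 4 * u x = (μ₀ ^ 2 - 1) * c * u x / 4 := by ring
  linarith

end Pool.Agent.Lib.MP_437bdf_an
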