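import Pool.Agent.Lib.MP_437bdf_an.Barrier

/-! Geometry of a domain with the two-sided ball condition; global Carleson type estimate. -/

open Set Metric Filter Topology MeasureTheory
open InnerProductSpace Laplacian

namespace Pool.Agent.Lib.MP_437bdf_an

set_option linter.unusedSectionVars false

variable {E : Type*} [NormedAddCommGroup E] [InnerProductSpace ℝ E]

/-- `a'` is a deep point associated to `a` -/
def IsDeep (Ω : Set E) (ρ : ℝ) (a a' : E) : Prop :=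
  (ρ / 2 ≤ infDist a Ωᶜ ∧ a' = a) ∨
  ∃ p N : E, ‖N‖ = 1 ∧ ball (p + ρ • N) ρ ⊆ Ω ∧ ball (p - ρ • N) ρ ⊆ Ωᶜ ∧ 0 < infDist a Ωᶜ ∧
    infDist a Ωᶜ < ρ / 2 ∧ a = p + infDist a Ωᶜ • N ∧ a' = p + (ρ / 2) • N

theorem ball_infDist_subset {Ω : Set E} {x : E} : ball x (infDist x Ωᶜ) ⊆ Ω := by
  intro y hy
  by_contra h
  have : infDist x Ωᶜ ≤ dist x y := infDist_le_dist_of_mem h
  rw [mem_ball, dist_comm] at hy
  linarith

/-- two disjoint balls have centers far apart -/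
theorem add_le_dist_of_disjoint {x y : E} {r s : ℝ} (hr : 0 < r) (hs : 0 < s) {Ω : Set E}
    (h1 : ball x r ⊆ Ω) (h2 : ball y s ⊆ Ωᶜ) : r + s ≤ dist x y := by
  by_contra h
  push Not at h
  rw [add_comm] at h
  obtain ⟨z, hz1, hz2⟩ := exists_dist_lt_lt hr hs (by rwa [add_comm] at h ⊢)
  exact h2 (by rw [mem_ball]; exact hz2) (h1 (by rw [mem_ball, dist_comm]; exact hz1))

theorem ball_along_normal {p N : E} {ρ τ : ℝ} (hN : ‖N‖ = 1) (h1 : τ ≤ ρ) {Ω : Set E}
    (hb : ball (p + ρ • N) ρ ⊆ Ω) : ball (p + τ • N) τ ⊆ Ω := by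
  refine (ball_subset_ball' ?_).trans hb
  rw [dist_eq_norm]
  have : p + τ • N - (p + ρ • N) = (τ - ρ) • N := by rw [sub_smul]; abel
  rw [this, norm_smul, hN, mul_one, Real.norm_eq_abs, abs_of_nonpos (by linarith)]
  linarith

theorem IsDeep.ball_subset {Ω : Set E} {ρ : ℝ} {a a' : E} (h : IsDeep Ω ρ a a') (hρ : 0 < ρ) :
    ball a' (ρ / 2) ⊆ Ω := by
  rcases h with ⟨h1, rfl⟩ | ⟨p, N, hN, hb1, hb2, hs, hs', ha, rfl⟩
  · exact (ball_subset_ball h1).trans ball_infDist_subset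
  · exact ball_along_normal hN (by linarith) hb1

theorem exists_isDeep [FiniteDimensional ℝ E] {Ω : Set E} {ρ : ℝ} (hΩ : IsOpen Ω)
    (hne : Ωᶜ.Nonempty) (hρ : 0 < ρ) (hT : TwoSidedBall Ω ρ) {x : E} (hx : x ∈ Ω) :
    ∃ x', IsDeep Ω ρ x x' := by
  rcases le_or_gt (ρ / 2) (infDist x Ωᶜ) with h | h
  · exact ⟨x, Or.inl ⟨h, rfl⟩⟩
  obtain ⟨p, hp, hd, hpos, hball⟩ := exists_nearest hΩ hne hx
  obtain ⟨N, hN, hb1, hb2⟩ := hT p hp
  refine ⟨p + (ρ / 2) • N, Or.inr ⟨p, N, hN, hb1, hb2, hpos, h, ?_, rfl⟩⟩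
  set s := infDist x Ωᶜ with hs
  have h1 : s + ρ ≤ dist x (p - ρ • N) := add_le_dist_of_disjoint hpos hρ hball hb2
  have h2 : (s + ρ) ^ 2 ≤ dist x (p - ρ • N) ^ 2 := by gcongr
  have e1 : dist x (p - ρ • N) ^ 2 = s ^ 2 + 2 * ρ * inner ℝ (x - p) N + ρ ^ 2 := by
    rw [dist_eq_norm, show x - (p - ρ • N) = (x - p) + ρ • N by abel, norm_add_sq_real,
      inner_smul_right, norm_smul, hN, mul_one, Real.norm_eq_abs, sq_abs, ← hd, dist_eq_norm]
    ring
  have h3 : s ≤ inner ℝ (x - p) N := by nlinarith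
  have e2 : ‖x - p - s • N‖ ^ 2 = s ^ 2 - 2 * s * inner ℝ (x - p) N + s ^ 2 := by
    rw [norm_sub_sq_real, inner_smul_right, norm_smul, hN, mul_one, Real.norm_eq_abs, sq_abs,
      ← hd, dist_eq_norm]
    ring
  have h4 : ‖x - p - s • N‖ ^ 2 ≤ 0 := by rw [e2]; nlinarith
  have h5 : x - p - s • N = 0 := by
    have : ‖x - p - s • N‖ = 0 := by
      have := sq_nonneg ‖x - p - s • N‖
      exact pow_eq_zero_iff (two_ne_zero) |>.mp (le_antisymm h4 this)
    exact norm_eq_zero.mp this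
  rw [sub_sub, sub_eq_zero] at h5
  exact h5

/-- nearby points have nearby deep points -/
theorem isDeep_adjacent {ρ ε : ℝ} (hρ : 0 < ρ) (hε : 0 < ε) :
    ∃ r₁ : ℝ, 0 < r₁ ∧ ∀ (Ω : Set E) (a b a' b' : E), IsDeep Ω ρ a a' → IsDeep Ω ρ b b' →
      dist a b < r₁ → dist a' b' < ε := by
  refine ⟨min (min (ε / 4) (ρ / 4)) (ε ^ 2 / (18 * ρ)), by positivity, ?_⟩
  intro Ω a b a' b' ha hb hab
  have h1 : dist a b < ε / 4 := hab.trans_le ((min_le_left _ _).trans (min_le_left _ _))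
  have h2 : dist a b < ρ / 4 := hab.trans_le ((min_le_left _ _).trans (min_le_right _ _))
  have h3 : dist a b < ε ^ 2 / (18 * ρ) := hab.trans_le (min_le_right _ _)
  have hl1 : infDist a Ωᶜ ≤ infDist b Ωᶜ + dist a b := infDist_le_infDist_add_dist
  have hl2 : infDist b Ωᶜ ≤ infDist a Ωᶜ + dist a b := by
    rw [dist_comm]; exact infDist_le_infDist_add_dist
  have hnear : ∀ (p N : E) (t : ℝ), ‖N‖ = 1 → t ≤ ρ / 2 →
      dist (p + t • N) (p + (ρ / 2) • N) = ρ / 2 - t := by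
    intro p N t hN ht
    rw [dist_eq_norm]
    have : p + t • N - (p + (ρ / 2) • N) = (t - ρ / 2) • N := by rw [sub_smul]; abel
    rw [this, norm_smul, hN, mul_one, Real.norm_eq_abs, abs_of_nonpos (by linarith)]
    linarith
  rcases ha with ⟨ha1, rfl⟩ | ⟨p, N, hN, hb1, hb2, hs, hs', hae, rfl⟩
  · rcases hb with ⟨hb1, rfl⟩ | ⟨q, M, hM, hq1, hq2, ht, ht', hbe, rfl⟩
    · linarith
    · have h4 : dist b (q + (ρ / 2) • M) = ρ / 2 - infDist b Ωᶜ := by
        conv_lhs => rw [hbe]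
        exact hnear q M _ hM ht'.le
      have h5 := dist_triangle a' b (q + (ρ / 2) • M)
      linarith
  · rcases hb with ⟨hb1, rfl⟩ | ⟨q, M, hM, hq1, hq2, ht, ht', hbe, rfl⟩
    · have h4 : dist a (p + (ρ / 2) • N) = ρ / 2 - infDist a Ωᶜ := by
        conv_lhs => rw [hae]
        exact hnear p N _ hN hs'.le
      have h5 := dist_triangle (p + (ρ / 2) • N) a b'
      rw [dist_comm _ a] at h5
      linarith
    · set s := infDist a Ωᶜ with hsdef
      set t := infDist b Ωᶜ with htdef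
      set h := a - b with hh
      have hhn : ‖h‖ = dist a b := by rw [hh, dist_eq_norm]
      have hd : ρ + ρ ≤ dist (p + ρ • N) (q - ρ • M) := add_le_dist_of_disjoint hρ hρ hb1 hq2
      have hvec : p + ρ • N - (q - ρ • M) = h + ((ρ - s) • N + (ρ + t) • M) := by
        have e1 : a = p + s • N := hae
        have e2 : b = q + t • M := hbe
        rw [hh, e1, e2, sub_smul, add_smul]
        abel
      set c : ℝ := inner ℝ N M with hc
      have hsum : ‖(ρ - s) • N + (ρ + t) • M‖ ^ 2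
          = (ρ - s) ^ 2 + 2 * (ρ - s) * (ρ + t) * c + (ρ + t) ^ 2 := by
        rw [norm_add_sq_real, norm_smul, norm_smul, hN, hM, mul_one, mul_one, inner_smul_left,
          inner_smul_right, Real.norm_eq_abs, Real.norm_eq_abs, sq_abs, sq_abs]
        simp only [conj_trivial]
        ring
      have hnle : ‖(ρ - s) • N + (ρ + t) • M‖ ≤ (ρ - s) + (ρ + t) := by
        refine (norm_add_le _ _).trans ?_
        rw [norm_smul, norm_smul, hN, hM, mul_one, mul_one, Real.norm_of_nonneg (by linarith),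
          Real.norm_of_nonneg (by linarith)]
      have hle : 2 * ρ ≤ ‖h‖ + ‖(ρ - s) • N + (ρ + t) • M‖ := by
        have := norm_add_le h ((ρ - s) • N + (ρ + t) • M)
        rw [← hvec, ← dist_eq_norm] at this
        linarith
      have hhρ : ‖h‖ < ρ / 4 := by rw [hhn]; exact h2
      have hhn0 : 0 ≤ ‖h‖ := norm_nonneg _
      have hst : |t - s| ≤ ‖h‖ := by rw [abs_le, hhn]; constructor <;> linarith
      have hc1 : ρ ^ 2 * (1 - c) ≤ 9 * ρ * ‖h‖ := by
        have h5 : (2 * ρ - ‖h‖) ^ 2 ≤ ‖(ρ - s) • N + (ρ + t) • M‖ ^ 2 := by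
          have : 2 * ρ - ‖h‖ ≤ ‖(ρ - s) • N + (ρ + t) • M‖ := by linarith
          have h0 : 0 ≤ 2 * ρ - ‖h‖ := by linarith
          gcongr
        rw [hsum] at h5
        -- (2ρ+t-s)^2 - 2(ρ-s)(ρ+t)(1-c) ≥ (2ρ-|h|)^2
        have h6 : 2 * (ρ - s) * (ρ + t) * (1 - c) ≤ (2 * ρ + t - s) ^ 2 - (2 * ρ - ‖h‖) ^ 2 := by
          nlinarith
        have h7 : t - s ≤ ‖h‖ := (abs_le.mp hst).2
        have h7' : -‖h‖ ≤ t - s := (abs_le.mp hst).1
        have h8 : (2 * ρ + t - s) ^ 2 - (2 * ρ - ‖h‖) ^ 2 ≤ 9 * ρ * ‖h‖ := by nlinarith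
        have hc' : c ≤ 1 := by
          have := real_inner_le_norm N M
          rw [hN, hM] at this
          linarith
        have h9 : ρ ^ 2 ≤ 2 * (ρ - s) * (ρ + t) := by nlinarith
        have h10 : ρ ^ 2 * (1 - c) ≤ 2 * (ρ - s) * (ρ + t) * (1 - c) :=
          mul_le_mul_of_nonneg_right h9 (by linarith)
        linarith
      have hc2 : 1 - c ≤ 9 * ‖h‖ / ρ := by
        rw [le_div_iff₀ hρ]
        have : ρ * ((1 - c) * ρ) ≤ ρ * (9 * ‖h‖) := by nlinarith
        exact le_of_mul_le_mul_left this hρ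
      have hNM : ‖N - M‖ ^ 2 ≤ 18 * ‖h‖ / ρ := by
        rw [norm_sub_sq_real, hN, hM]
        have : 18 * ‖h‖ / ρ = 2 * (9 * ‖h‖ / ρ) := by ring
        rw [this]
        linarith
      have hNM2 : ρ / 2 * ‖N - M‖ < ε / 2 := by
        have h11 : (ρ / 2 * ‖N - M‖) ^ 2 < (ε / 2) ^ 2 := by
          rw [mul_pow]
          have : ‖h‖ < ε ^ 2 / (18 * ρ) := by rw [hhn]; exact h3
          rw [lt_div_iff₀ (by positivity)] at this
          calc (ρ / 2) ^ 2 * ‖N - M‖ ^ 2 ≤ (ρ / 2) ^ 2 * (18 * ‖h‖ / ρ) := by gcongr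
            _ = (‖h‖ * (18 * ρ)) / 4 := by field_simp; ring
            _ < (ε / 2) ^ 2 := by nlinarith
        exact lt_of_pow_lt_pow_left₀ 2 (by positivity) h11
      have hfin : p + (ρ / 2) • N - (q + (ρ / 2) • M) = h + ((ρ / 2 - s) • (N - M) + (t - s) • M) := by
        have e1 : a = p + s • N := hae
        have e2 : b = q + t • M := hbe
        rw [hh, e1, e2, sub_smul, sub_smul, smul_sub, smul_sub]
        abel
      rw [dist_eq_norm, hfin]
      calc ‖h + ((ρ / 2 - s) • (N - M) + (t - s) • M)‖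
          ≤ ‖h‖ + (‖(ρ / 2 - s) • (N - M)‖ + ‖(t - s) • M‖) :=
            (norm_add_le _ _).trans (by gcongr; exact norm_add_le _ _)
        _ = ‖h‖ + ((ρ / 2 - s) * ‖N - M‖ + |t - s|) := by
            rw [norm_smul, norm_smul, hM, mul_one, Real.norm_of_nonneg (by linarith),
              Real.norm_eq_abs]
        _ ≤ ‖h‖ + (ρ / 2 * ‖N - M‖ + ‖h‖) := by
            gcongr
            linarith
        _ < ε := by
            rw [hhn]; linarith

end Pool.Agent.Lib.MP_437bdf_an
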