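import Mathlib

/-!
Definitions for the problem: monostable steady states on exterior-star domains.
-/

open Set Metric Filter Topology
open InnerProductSpace Laplacian

namespace Pool.Agent.Lib.MP_437bdf_an

/-- A reaction of class `C^{1,γ}` on `[0,∞)`: `f 0 = f 1 = 0`, `f < 0` on `(1,∞)`, `f'(1) < 0`.
The derivative at `0` is the one-sided derivative; `f'` is Hölder continuous with exponent `γ`
on every bounded interval `[0,R]`. -/
structure IsReaction (γ : ℝ) (f : ℝ → ℝ) : Prop where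
  contDiffOn : ContDiffOn ℝ 1 f (Ici 0)
  holder : ∀ R : ℝ, ∃ C : ℝ, ∀ s ∈ Icc 0 R, ∀ t ∈ Icc 0 R,
    |derivWithin f (Ici 0) s - derivWithin f (Ici 0) t| ≤ C * |s - t| ^ γ
  map_zero : f 0 = 0
  map_one : f 1 = 0
  neg_of_one_lt : ∀ s, 1 < s → f s < 0
  deriv_one_neg : derivWithin f (Ici 0) 1 < 0

/-- A positive reaction: in addition `f > 0` on `(0,1)` and `f'(0+) > 0`. -/
structure IsPositiveReaction (γ : ℝ) (f : ℝ → ℝ) : Prop extends IsReaction γ f where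
  pos : ∀ s ∈ Ioo (0 : ℝ) 1, 0 < f s
  deriv_zero_pos : 0 < derivWithin f (Ici 0) 0

/-- `h` is of class `C^{2,γ}` on the ball of radius `r` about `0`: there `h`, `Dh`, `D²h` are bounded
by `K`, and `D²h` is `γ`-Hölder continuous with constant `K`. -/
def C2HolderOnBall {V : Type*} [NormedAddCommGroup V] [NormedSpace ℝ V] (γ K r : ℝ)
    (h : V → ℝ) : Prop :=
  ContDiffOn ℝ 2 h (ball 0 r) ∧
    (∀ y ∈ ball (0 : V) r, |h y| ≤ K ∧ ‖fderiv ℝ h y‖ ≤ K ∧ ‖iteratedFDeriv ℝ 2 h y‖ ≤ K) ∧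
    ∀ y ∈ ball (0 : V) r, ∀ z ∈ ball (0 : V) r,
      ‖iteratedFDeriv ℝ 2 h y - iteratedFDeriv ℝ 2 h z‖ ≤ K * ‖y - z‖ ^ γ

/-- Inside the ball `B(p,r)` the boundary of `Ω` is the graph, over the hyperplane orthogonal to the
unit vector `e`, of a function `h` of class `C^{2,γ}` whose derivatives are bounded by `K`. -/
def IsGraphNear {E : Type*} [NormedAddCommGroup E] [InnerProductSpace ℝ E] (γ K r : ℝ)
    (Ω : Set E) (p e : E) : Prop :=
  ∃ h : (ℝ ∙ e)ᗮ → ℝ, C2HolderOnBall γ K r h ∧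
    ∀ x ∈ ball p r, x ∈ frontier Ω ↔
      inner ℝ e (x - p) = h ((ℝ ∙ e)ᗮ.orthogonalProjectionOnto (x - p))

/-- `∂Ω` is uniformly `C^{2,γ}`: near each boundary point `∂Ω` is the graph of a `C^{2,γ}` function,
with the size `r` of the neighbourhood and the bound `K` independent of the boundary point. -/
def UniformlyC2Boundary {d : ℕ} (γ : ℝ) (Ω : Set (EuclideanSpace ℝ (Fin d))) : Prop :=
  ∃ r > 0, ∃ K : ℝ, ∀ p ∈ frontier Ω, ∃ e : EuclideanSpace ℝ (Fin d), ‖e‖ = 1 ∧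
    IsGraphNear γ K r Ω p e

/-- A domain: nonempty, connected, open, with uniformly `C^{2,γ}` boundary. -/
structure IsUniformDomain {d : ℕ} (γ : ℝ) (Ω : Set (EuclideanSpace ℝ (Fin d))) : Prop where
  isOpen : IsOpen Ω
  isConnected : IsConnected Ω
  boundary : UniformlyC2Boundary γ Ω

/-- `Ω` is exterior-star: its complement is star-shaped about some point. -/
def IsExteriorStar {d : ℕ} (Ω : Set (EuclideanSpace ℝ (Fin d))) : Prop :=
  ∃ x, StarConvex ℝ x Ωᶜ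

/-- A positive bounded (classical) solution of `-Δu = f(u)` in `Ω`, `u = 0` on `∂Ω`:
`u ∈ C^2(Ω) ∩ C(closure Ω)`. -/
structure IsSolution {d : ℕ} (f : ℝ → ℝ) (Ω : Set (EuclideanSpace ℝ (Fin d)))
    (u : EuclideanSpace ℝ (Fin d) → ℝ) : Prop where
  contDiffOn : ContDiffOn ℝ 2 u Ω
  continuousOn : ContinuousOn u (closure Ω)
  eqn : ∀ x ∈ Ω, -(Δ u) x = f (u x)
  boundary : ∀ x ∈ frontier Ω, u x = 0
  pos : ∀ x ∈ Ω, 0 < u x
  bounded : ∃ M : ℝ, ∀ x ∈ Ω, u x ≤ M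

end Pool.Agent.Lib.MP_437bdf_an
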