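import Mathlib

/-! Elementary facts on the Laplacian of a `C^2` function. -/

open Set Metric Filter Topology
open InnerProductSpace Laplacian

namespace Pool.Agent.Lib.MP_437bdf_an

set_option linter.unusedSectionVars false
set_option linter.unusedSimpArgs false

variable {E : Type*} [NormedAddCommGroup E] [InnerProductSpace ℝ E] [FiniteDimensional ℝ E]

/-- The Laplacian as the trace of the second derivative. -/
theorem lap_eq_of_hasFDerivAt {ι : Type*} [Fintype ι] (b : OrthonormalBasis ι ℝ E)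
    {w : E → ℝ} {w' : E → E →L[ℝ] ℝ} {w'' : E →L[ℝ] E →L[ℝ] ℝ} {x : E}
    (h1 : ∀ᶠ y in 𝓝 x, HasFDerivAt w (w' y) y) (h2 : HasFDerivAt w' w'' x) :
    (Δ w) x = ∑ i, w'' (b i) (b i) := by
  rw [laplacian_eq_iteratedFDeriv_orthonormalBasis w b]
  have e : fderiv ℝ w =ᶠ[𝓝 x] w' := h1.mono fun y hy => hy.fderiv
  have e2 : fderiv ℝ (fderiv ℝ w) x = w'' := by
    rw [e.fderiv_eq]; exact h2.fderiv
  refine Finset.sum_congr rfl fun i _ => ?_
  rw [iteratedFDeriv_two_apply, e2]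
  simp

theorem lap_eq_sum {ι : Type*} [Fintype ι] (b : OrthonormalBasis ι ℝ E) (w : E → ℝ) (x : E) :
    (Δ w) x = ∑ i, fderiv ℝ (fderiv ℝ w) x (b i) (b i) := by
  rw [laplacian_eq_iteratedFDeriv_orthonormalBasis w b]
  refine Finset.sum_congr rfl fun i _ => ?_
  rw [iteratedFDeriv_two_apply]
  simp

omit [FiniteDimensional ℝ E] in
theorem eventually_hasFDerivAt_of_contDiffAt {w : E → ℝ} {x : E} (hw : ContDiffAt ℝ 2 w x) :
    ∀ᶠ y in 𝓝 x, HasFDerivAt w (fderiv ℝ w y) y := by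
  have h : ∀ᶠ y in 𝓝 x, ContDiffAt ℝ 2 w y := hw.eventually (by simp)
  exact h.mono fun y hy => (hy.differentiableAt (by norm_num)).hasFDerivAt

omit [FiniteDimensional ℝ E] in
theorem hasFDerivAt_fderiv_of_contDiffAt {w : E → ℝ} {x : E} (hw : ContDiffAt ℝ 2 w x) :
    HasFDerivAt (fderiv ℝ w) (fderiv ℝ (fderiv ℝ w) x) x := by
  have h : ContDiffAt ℝ 1 (fderiv ℝ w) x := hw.fderiv_right (m := 1) (by norm_num)
  exact (h.differentiableAt (by norm_num)).hasFDerivAt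

omit [FiniteDimensional ℝ E] in
/-- second derivative along a line -/
theorem hasDerivAt_line {w : E → ℝ} {x v : E} (hw : ContDiffAt ℝ 2 w x) :
    (∀ᶠ t : ℝ in 𝓝 0, HasDerivAt (fun t : ℝ => w (x + t • v)) (fderiv ℝ w (x + t • v) v) t) ∧
    HasDerivAt (fun t : ℝ => fderiv ℝ w (x + t • v) v) (fderiv ℝ (fderiv ℝ w) x v v) 0 := by
  have hline : ∀ t : ℝ, HasDerivAt (fun t : ℝ => x + t • v) v t := by
    intro t
    have := ((hasDerivAt_id t).smul_const v).const_add x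
    simpa using this
  have hc : Tendsto (fun t : ℝ => x + t • v) (𝓝 0) (𝓝 x) := by
    have : ContinuousAt (fun t : ℝ => x + t • v) 0 := (hline 0).continuousAt
    simpa [ContinuousAt] using this
  refine ⟨?_, ?_⟩
  · refine (hc.eventually (eventually_hasFDerivAt_of_contDiffAt hw)).mono fun t ht => ?_
    exact ht.comp_hasDerivAt t (hline t)
  · have h1 := hasFDerivAt_fderiv_of_contDiffAt hw
    have h1' : HasFDerivAt (fderiv ℝ w) (fderiv ℝ (fderiv ℝ w) x) (x + (0 : ℝ) • v) := by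
      simpa using h1
    have h2 := h1'.comp_hasDerivAt (0 : ℝ) (hline 0)
    have h3 := h2.clm_apply (hasDerivAt_const (0 : ℝ) v)
    simpa using h3

omit [FiniteDimensional ℝ E] in
theorem second_nonpos_of_isLocalMax {w : E → ℝ} {x : E} (hw : ContDiffAt ℝ 2 w x)
    (h : IsLocalMax w x) (v : E) : fderiv ℝ (fderiv ℝ w) x v v ≤ 0 := by
  obtain ⟨h1, h2⟩ := hasDerivAt_line (v := v) hw
  set g : ℝ → ℝ := fun t => w (x + t • v) with hg
  have hc : Tendsto (fun t : ℝ => x + t • v) (𝓝 0) (𝓝 x) := by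
    have : Continuous (fun t : ℝ => x + t • v) := by fun_prop
    simpa using this.tendsto 0
  have hmax : IsLocalMax g 0 := by
    have := hc.eventually h
    simpa [IsLocalMax, IsMaxFilter, hg] using this
  have hd0 : deriv g 0 = 0 := hmax.deriv_eq_zero
  have hde : deriv g =ᶠ[𝓝 0] fun t => fderiv ℝ w (x + t • v) v := h1.mono fun t ht => ht.deriv
  have hdd : deriv (deriv g) 0 = fderiv ℝ (fderiv ℝ w) x v v := by
    rw [hde.deriv_eq]; exact h2.deriv
  by_contra hcon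
  push Not at hcon
  have hcont : ContinuousAt g 0 := (h1.self_of_nhds).continuousAt
  have hmin : IsLocalMin g 0 := isLocalMin_of_deriv_deriv_pos (by rw [hdd]; exact hcon) hd0 hcont
  have hconst : g =ᶠ[𝓝 0] fun _ => g 0 := by
    filter_upwards [hmax, hmin] with t ht1 ht2 using le_antisymm ht1 ht2
  have : deriv (deriv g) 0 = 0 := by
    have h3 : deriv g =ᶠ[𝓝 0] fun _ => 0 := by
      have := hconst.deriv
      filter_upwards [this] with t ht
      rw [ht]; simp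
    rw [h3.deriv_eq]; simp
  rw [hdd] at this
  linarith

theorem lap_nonpos_of_isLocalMax {w : E → ℝ} {x : E} (hw : ContDiffAt ℝ 2 w x)
    (h : IsLocalMax w x) : (Δ w) x ≤ 0 := by
  rw [lap_eq_sum (stdOrthonormalBasis ℝ E)]
  exact Finset.sum_nonpos fun i _ => second_nonpos_of_isLocalMax hw h _

theorem lap_nonneg_of_isLocalMin {w : E → ℝ} {x : E} (hw : ContDiffAt ℝ 2 w x)
    (h : IsLocalMin w x) : 0 ≤ (Δ w) x := by
  have h1 : (Δ (-w)) x ≤ 0 := lap_nonpos_of_isLocalMax hw.neg h.neg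
  rw [laplacian_neg] at h1
  simpa using h1

theorem lap_radial {φ φ' : ℝ → ℝ} {φ'' : ℝ} {c x : E}
    (h1 : ∀ᶠ t in 𝓝 (‖x - c‖ ^ 2), HasDerivAt φ (φ' t) t)
    (h2 : HasDerivAt φ' φ'' (‖x - c‖ ^ 2)) :
    (Δ (fun y : E => φ (‖y - c‖ ^ 2))) x
      = 4 * ‖x - c‖ ^ 2 * φ'' + 2 * (Module.finrank ℝ E) * φ' (‖x - c‖ ^ 2) := by
  set b := stdOrthonormalBasis ℝ E
  obtain ⟨B, hB⟩ : ∃ B : E →L[ℝ] E →L[ℝ] ℝ, ∀ y z, B y z = inner ℝ y z := ⟨innerSL ℝ, fun _ _ => rfl⟩
  have hsq : ∀ y : E, HasFDerivAt (fun y : E => ‖y - c‖ ^ 2) ((2 : ℝ) • B (y - c)) y := by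
    intro y
    have := ((hasFDerivAt_id (𝕜 := ℝ) y).sub_const c).norm_sq
    exact this.congr_fderiv (by ext z; simp [hB, two_mul, two_nsmul, inner_sub_left])
  have hcont : Tendsto (fun y : E => ‖y - c‖ ^ 2) (𝓝 x) (𝓝 (‖x - c‖ ^ 2)) :=
    (hsq x).continuousAt.tendsto
  have e1 : ∀ᶠ y in 𝓝 x, HasFDerivAt (fun y : E => φ (‖y - c‖ ^ 2))
      (φ' (‖y - c‖ ^ 2) • ((2 : ℝ) • B (y - c))) y := by
    refine (hcont.eventually h1).mono fun y hy => ?_
    exact hy.comp_hasFDerivAt y (hsq y)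
  have e2 : HasFDerivAt (fun y : E => φ' (‖y - c‖ ^ 2) • ((2 : ℝ) • B (y - c)))
      (φ' (‖x - c‖ ^ 2) • ((2 : ℝ) • B) +
        (φ'' • ((2 : ℝ) • B (x - c))).smulRight ((2 : ℝ) • B (x - c))) x := by
    have a1 : HasFDerivAt (fun y : E => φ' (‖y - c‖ ^ 2)) (φ'' • ((2 : ℝ) • B (x - c))) x :=
      h2.comp_hasFDerivAt x (hsq x)
    have a2 : HasFDerivAt (fun y : E => (2 : ℝ) • B (y - c)) ((2 : ℝ) • B) x := by
      have := (B.hasFDerivAt (x := x - c)).comp x ((hasFDerivAt_id (𝕜 := ℝ) x).sub_const c)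
      exact (this.const_smul (2 : ℝ))
    exact a1.smul a2
  rw [lap_eq_of_hasFDerivAt b e1 e2]
  simp only [add_apply, smul_apply,
    ContinuousLinearMap.smulRight_apply, hB, smul_eq_mul]
  rw [Finset.sum_add_distrib]
  have s1 : ∑ i, φ' (‖x - c‖ ^ 2) * (2 * inner ℝ (b i) (b i)) =
      2 * (Module.finrank ℝ E) * φ' (‖x - c‖ ^ 2) := by
    have : ∀ i, inner ℝ (b i) (b i) = (1 : ℝ) := by
      intro i
      rw [real_inner_self_eq_norm_sq, b.norm_eq_one]; norm_num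
    simp only [this]
    simp
    ring
  have s2 : ∑ i, φ'' * (2 * inner ℝ (x - c) (b i)) * (2 * inner ℝ (x - c) (b i)) =
      4 * ‖x - c‖ ^ 2 * φ'' := by
    have : ∑ i, inner ℝ (x - c) (b i) * inner ℝ (b i) (x - c) = inner ℝ (x - c) (x - c) :=
      b.sum_inner_mul_inner (x - c) (x - c)
    rw [real_inner_self_eq_norm_sq] at this
    rw [← this, Finset.mul_sum, Finset.sum_mul]
    refine Finset.sum_congr rfl fun i _ => ?_
    rw [real_inner_comm (x - c) (b i)]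
    ring
  rw [s1, s2]
  ring

theorem lap_affine {v : E → ℝ} {a x : E} {μ : ℝ} (hv : ContDiffAt ℝ 2 v (a + μ • x)) :
    (Δ (fun y : E => v (a + μ • y))) x = μ ^ 2 * (Δ v) (a + μ • x) := by
  set b := stdOrthonormalBasis ℝ E
  have hl : ∀ y : E, HasFDerivAt (fun y : E => a + μ • y) (μ • ContinuousLinearMap.id ℝ E) y := by
    intro y
    exact ((hasFDerivAt_id (𝕜 := ℝ) y).const_smul μ).const_add a
  have hcont : Tendsto (fun y : E => a + μ • y) (𝓝 x) (𝓝 (a + μ • x)) :=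
    (hl x).continuousAt.tendsto
  have e1 : ∀ᶠ y in 𝓝 x, HasFDerivAt (fun y : E => v (a + μ • y))
      (μ • fderiv ℝ v (a + μ • y)) y := by
    refine (hcont.eventually (eventually_hasFDerivAt_of_contDiffAt hv)).mono fun y hy => ?_
    have := hy.comp y (hl y)
    exact this.congr_fderiv (by ext z; simp)
  have e2 : HasFDerivAt (fun y : E => μ • fderiv ℝ v (a + μ • y))
      (μ • (μ • fderiv ℝ (fderiv ℝ v) (a + μ • x))) x := by
    have := (hasFDerivAt_fderiv_of_contDiffAt hv).comp x (hl x)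
    have := this.const_smul μ
    exact this.congr_fderiv (by ext z; simp)
  rw [lap_eq_of_hasFDerivAt b e1 e2, lap_eq_sum b v, Finset.mul_sum]
  refine Finset.sum_congr rfl fun i _ => ?_
  simp
  ring

end Pool.Agent.Lib.MP_437bdf_an
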