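import Pool.Agent.Lib.MP_437bdf_an.Defs
import Pool.Agent.Lib.MP_437bdf_an.Lap

/-! Existence, part A: truncated reaction, comparison principle. -/

open Set Metric Filter Topology
open InnerProductSpace Laplacian

namespace Pool.Agent.Lib.MP_437bdf_an

namespace Ex

/-! ### the truncated reaction -/

/-- the reaction truncated outside `[0,1]` -/
noncomputable def trunc (f : ℝ → ℝ) (s : ℝ) : ℝ := f (max 0 (min s 1))

theorem trunc_of_mem {f : ℝ → ℝ} {s : ℝ} (hs : s ∈ Icc (0 : ℝ) 1) : trunc f s = f s := by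
  simp [trunc, min_eq_left hs.2, max_eq_right hs.1]

theorem trunc_zero {γ : ℝ} {f : ℝ → ℝ} (hf : IsReaction γ f) : trunc f 0 = 0 := by
  simp [trunc, hf.map_zero]

theorem trunc_one {γ : ℝ} {f : ℝ → ℝ} (hf : IsReaction γ f) : trunc f 1 = 0 := by
  simp [trunc, hf.map_one]

theorem clamp_mem (s : ℝ) : max 0 (min s 1) ∈ Icc (0 : ℝ) 1 := by
  constructor
  · exact le_max_left _ _
  · exact max_le zero_le_one (min_le_right _ _)

theorem trunc_nonneg {γ : ℝ} {f : ℝ → ℝ} (hf : IsPositiveReaction γ f) (s : ℝ) :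
    0 ≤ trunc f s := by
  have h := clamp_mem s
  rcases eq_or_lt_of_le h.1 with h0 | h0
  · simp only [trunc]
    rw [← h0, hf.map_zero]
  rcases eq_or_lt_of_le h.2 with h1 | h1
  · simp only [trunc]
    rw [h1, hf.map_one]
  exact (hf.pos _ ⟨h0, h1⟩).le

theorem trunc_lipschitz {γ : ℝ} {f : ℝ → ℝ} (hf : IsReaction γ f) :
    ∃ K : NNReal, LipschitzWith K (trunc f) := by
  have h1 : ContDiffOn ℝ 1 f (Icc 0 1) := hf.contDiffOn.mono Icc_subset_Ici_self
  have hll : LocallyLipschitzOn (Icc (0:ℝ) 1) f := by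
    exact h1.locallyLipschitzOn (convex_Icc 0 1)
  obtain ⟨K, hK⟩ := hll.exists_lipschitzOnWith_of_compact isCompact_Icc
  refine ⟨K, ?_⟩
  have hc : LipschitzWith 1 (fun s : ℝ => max 0 (min s 1)) := by
    exact ((LipschitzWith.id.min_const 1).const_max 0)
  intro s t
  have := hK (clamp_mem s) (clamp_mem t)
  refine this.trans ?_
  gcongr
  have := hc s t
  simpa using this

theorem trunc_bounded {γ : ℝ} {f : ℝ → ℝ} (hf : IsReaction γ f) :
    ∃ M : ℝ, 0 < M ∧ ∀ s, |trunc f s| ≤ M := by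
  obtain ⟨K, hK⟩ := trunc_lipschitz hf
  refine ⟨K + 1, by positivity, fun s => ?_⟩
  have e : trunc f s = trunc f (max 0 (min s 1)) := by
    have h := clamp_mem s
    rw [trunc_of_mem h]; rfl
  have h := hK.dist_le_mul (max 0 (min s 1)) 0
  rw [trunc_zero hf] at h
  have h2 := clamp_mem s
  rw [Real.dist_eq, Real.dist_eq, sub_zero, sub_zero, abs_of_nonneg h2.1] at h
  rw [e]
  calc |trunc f (max 0 (min s 1))| ≤ K * (max 0 (min s 1)) := h
    _ ≤ K * 1 := by gcongr; exact h2.2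
    _ ≤ K + 1 := by linarith

theorem trunc_ge_linear {γ : ℝ} {f : ℝ → ℝ} (hf : IsPositiveReaction γ f) :
    ∃ c₀ > 0, ∃ s₀ > 0, s₀ ≤ 1 ∧ ∀ s ∈ Icc 0 s₀, c₀ * s ≤ trunc f s := by
  set a := derivWithin f (Ici 0) 0 with ha
  have hapos : 0 < a := hf.deriv_zero_pos
  have hdiff : DifferentiableWithinAt ℝ f (Ici 0) 0 :=
    (hf.contDiffOn.differentiableOn (by norm_num)) 0 (by simp)
  have hd : HasDerivWithinAt f a (Ici 0) 0 := hdiff.hasDerivWithinAt
  have hlo := (hasDerivWithinAt_iff_isLittleO.1 hd)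
  have hev := hlo.def (c := a / 2) (by positivity)
  rw [eventually_nhdsWithin_iff, Metric.eventually_nhds_iff] at hev
  obtain ⟨δ, hδ, h⟩ := hev
  refine ⟨a / 2, by positivity, min (δ / 2) 1, by positivity, min_le_right _ _, ?_⟩
  intro s hs
  have hs1 : s ≤ 1 := hs.2.trans (min_le_right _ _)
  have hs2 : s < δ := by
    have := hs.2.trans (min_le_left (δ/2) 1)
    linarith
  rw [trunc_of_mem ⟨hs.1, hs1⟩]
  have h3 := h (y := s) (by rw [Real.dist_eq, sub_zero, abs_of_nonneg hs.1]; exact hs2) hs.1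
  rw [hf.map_zero, sub_zero, sub_zero, Real.norm_eq_abs, Real.norm_eq_abs, abs_of_nonneg hs.1] at h3
  have h4 := (abs_le.1 h3).1
  simp only [smul_eq_mul] at h4
  nlinarith

/-! ### maximum principle -/

variable {E : Type*} [NormedAddCommGroup E] [InnerProductSpace ℝ E] [FiniteDimensional ℝ E]

theorem lap_quadratic (c x : E) (A : ℝ) :
    (Δ (fun y : E => A - ‖y - c‖ ^ 2)) x = - (2 * (Module.finrank ℝ E : ℝ)) := by
  have h := lap_radial (φ := fun t => A - t) (φ' := fun _ => -1) (φ'' := 0) (c := c) (x := x)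
    (Filter.Eventually.of_forall fun t => by simpa using (hasDerivAt_id t).const_sub A)
    (hasDerivAt_const _ _)
  rw [h]; ring

omit [FiniteDimensional ℝ E] in
theorem contDiff_quadratic (c : E) (A : ℝ) : ContDiff ℝ 2 (fun y : E => A - ‖y - c‖ ^ 2) := by
  have : ContDiff ℝ 2 (fun y : E => ‖y - c‖ ^ 2) := by
    exact (contDiff_id.sub contDiff_const).norm_sq ℝ
  exact contDiff_const.sub this

theorem max_principle {D : Set E} (hD : IsOpen D) {c : E} {R : ℝ} (hDR : D ⊆ ball c R)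
    {w : E → ℝ} (hwc : ContinuousOn w (closure D)) (hw : ContDiffOn ℝ 2 w D) {K : ℝ}
    (hK : 0 ≤ K) (hKR : K * R ^ 2 < Module.finrank ℝ E)
    (hlap : ∀ x ∈ D, 0 < w x → -(Δ w) x ≤ K * w x) (hbd : ∀ x ∈ frontier D, w x ≤ 0) :
    ∀ x ∈ D, w x ≤ 0 := by
  intro x1 hx1
  by_contra hpos
  push Not at hpos
  have hR : 0 < R := pos_of_mem_ball (hDR hx1)
  set β : E → ℝ := fun y => 2 * R ^ 2 - ‖y - c‖ ^ 2 with hβ
  have hcl : closure D ⊆ closedBall c R :=
    (closure_mono hDR).trans closure_ball_subset_closedBall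
  have hcomp : IsCompact (closure D) := (isCompact_closedBall c R).of_isClosed_subset isClosed_closure hcl
  have hβpos : ∀ y ∈ closure D, R ^ 2 ≤ β y := by
    intro y hy
    have h1 : ‖y - c‖ ≤ R := by simpa [dist_eq_norm] using hcl hy
    have h2 : ‖y - c‖ ^ 2 ≤ R ^ 2 := by gcongr
    simp only [hβ]; linarith
  have hβle : ∀ y, β y ≤ 2 * R ^ 2 := by
    intro y
    simp only [hβ]; nlinarith [sq_nonneg ‖y - c‖]
  have hβc : Continuous β := (contDiff_quadratic c (2 * R ^ 2)).continuous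
  have hqc : ContinuousOn (fun y => w y / β y) (closure D) :=
    hwc.div hβc.continuousOn fun y hy => by
      have := hβpos y hy
      have : 0 < R ^ 2 := by positivity
      linarith [hβpos y hy]
  obtain ⟨xs, hxs, hmax⟩ := hcomp.exists_isMaxOn ⟨x1, subset_closure hx1⟩ hqc
  set θ := w xs / β xs with hθ
  have hR2 : 0 < R ^ 2 := by positivity
  have hβ1 : 0 < β x1 := by linarith [hβpos x1 (subset_closure hx1)]
  have hβs : 0 < β xs := by linarith [hβpos xs hxs]
  have hθpos : 0 < θ := by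
    have h1 : w x1 / β x1 ≤ θ := hmax (subset_closure hx1)
    have h2 : 0 < w x1 / β x1 := by positivity
    linarith
  have hws : w xs = θ * β xs := by
    rw [hθ]; field_simp
  have hwspos : 0 < w xs := by rw [hws]; positivity
  have hxsD : xs ∈ D := by
    by_contra hn
    have : xs ∈ frontier D := by
      rw [hD.frontier_eq]; exact ⟨hxs, hn⟩
    linarith [hbd xs this]
  have hβcd : ContDiff ℝ 2 β := contDiff_quadratic c (2 * R ^ 2)
  have hwcd : ContDiffAt ℝ 2 w xs := hw.contDiffAt (hD.mem_nhds hxsD)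
  have hloc : IsLocalMax (w - θ • β) xs := by
    filter_upwards [hD.mem_nhds hxsD] with y hy
    have h1 : w y / β y ≤ θ := hmax (subset_closure hy)
    have h2 : 0 < β y := by linarith [hβpos y (subset_closure hy)]
    rw [div_le_iff₀ h2] at h1
    simp only [Pi.sub_apply, Pi.smul_apply, smul_eq_mul]
    rw [hws]
    linarith
  have hθβ : ContDiffAt ℝ 2 (θ • β) xs := hβcd.contDiffAt.const_smul θ
  have hle : (Δ (w - θ • β)) xs ≤ 0 := lap_nonpos_of_isLocalMax (hwcd.sub hθβ) hloc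
  rw [hwcd.laplacian_sub hθβ, laplacian_smul θ hβcd.contDiffAt] at hle
  have hlb : (Δ β) xs = - (2 * (Module.finrank ℝ E : ℝ)) := lap_quadratic c xs (2 * R ^ 2)
  rw [hlb, smul_eq_mul] at hle
  have h1 := hlap xs hxsD hwspos
  have h2 : K * w xs ≤ K * (θ * (2 * R ^ 2)) := by
    rw [hws]
    have := hβle xs
    gcongr
  have h3 : θ * (Module.finrank ℝ E : ℝ) ≤ θ * (K * R ^ 2) := by nlinarith
  have h4 : (Module.finrank ℝ E : ℝ) ≤ K * R ^ 2 := le_of_mul_le_mul_left h3 hθpos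
  linarith

/-- comparison principle in small balls -/
theorem comparison {F : ℝ → ℝ} {K : NNReal} (hF : LipschitzWith K F) {D : Set E} (hD : IsOpen D)
    {c : E} {R : ℝ} (hDR : D ⊆ ball c R) (hKR : K * R ^ 2 < Module.finrank ℝ E)
    {h₁ h₂ : E → ℝ} (hc₁ : ContinuousOn h₁ (closure D)) (hc₂ : ContinuousOn h₂ (closure D))
    (hd₁ : ContDiffOn ℝ 2 h₁ D) (hd₂ : ContDiffOn ℝ 2 h₂ D)
    (hl₁ : ∀ x ∈ D, -(Δ h₁) x ≤ F (h₁ x)) (hl₂ : ∀ x ∈ D, F (h₂ x) ≤ -(Δ h₂) x)
    (hbd : ∀ x ∈ frontier D, h₁ x ≤ h₂ x) : ∀ x ∈ D, h₁ x ≤ h₂ x := by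
  intro x hx
  have := max_principle hD hDR (w := h₁ - h₂) (hc₁.sub hc₂) (hd₁.sub hd₂)
    (K := (K : ℝ)) K.coe_nonneg hKR ?_ ?_ x hx
  · simpa using this
  · intro y hy hpos
    have h1 := hd₁.contDiffAt (hD.mem_nhds hy)
    have h2 := hd₂.contDiffAt (hD.mem_nhds hy)
    rw [h1.laplacian_sub h2]
    have h3 := hl₁ y hy
    have h4 := hl₂ y hy
    have h5 : F (h₁ y) - F (h₂ y) ≤ K * (h₁ y - h₂ y) := by
      have := hF.dist_le_mul (h₁ y) (h₂ y)
      rw [Real.dist_eq, Real.dist_eq] at this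
      simp only [Pi.sub_apply] at hpos
      rw [abs_of_pos hpos] at this
      exact (le_abs_self _).trans this
    simp only [Pi.sub_apply]
    linarith
  · intro y hy
    simpa using hbd y hy

end Ex

end Pool.Agent.Lib.MP_437bdf_an
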