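import Pool.Agent.Lib.MP_437bdf_an.MV

/-! Interior Lipschitz estimate and Harnack inequality from the weighted mean value identity. -/

open Set Metric Filter Topology MeasureTheory
open InnerProductSpace Laplacian

namespace Pool.Agent.Lib.MP_437bdf_an

set_option linter.unusedSectionVars false

variable {E : Type*} [NormedAddCommGroup E] [InnerProductSpace ℝ E] [FiniteDimensional ℝ E]
variable [MeasurableSpace E] [BorelSpace E]

theorem continuousOn_slice {u : E → ℝ} {x : E} {r s : ℝ} (hs : 0 ≤ s) (hsr : s ≤ r)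
    (hu : ContinuousOn u (closedBall x r)) :
    ContinuousOn (fun z : E => u (x + s • z)) (closedBall 0 1) := by
  refine hu.comp (by fun_prop) ?_
  intro z hz
  exact smul_mem_closedBall hs hsr (by simpa using hz)

theorem continuousOn_avg {k u : E → ℝ} {x : E} {r : ℝ} (hk : Continuous k)
    (hk0 : ∀ z : E, 1 ≤ ‖z‖ → k z = 0) (hkc : HasCompactSupport k)
    (hu : ContinuousOn u (closedBall x r)) :
    ContinuousOn (fun s : ℝ => ∫ z : E, u (x + s • z) * k z) (Icc 0 r) := by
  obtain ⟨M, hM⟩ := (isCompact_closedBall x r).exists_bound_of_continuousOn hu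
  apply continuousOn_of_dominated (bound := fun z => M * ‖k z‖)
  · intro s hs
    exact (integrable_mul_kernel hk hk0 (continuousOn_slice hs.1 hs.2 hu)).aestronglyMeasurable
  · intro s hs
    refine Eventually.of_forall fun z => ?_
    rcases le_or_gt 1 ‖z‖ with hz | hz
    · simp [hk0 z hz]
    · rw [norm_mul]
      exact mul_le_mul_of_nonneg_right (hM _ (smul_mem_closedBall hs.1 hs.2 hz.le)) (norm_nonneg _)
  · exact ((hk.integrable_of_hasCompactSupport hkc).norm).const_mul M
  · refine Eventually.of_forall fun z => ?_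
    rcases le_or_gt 1 ‖z‖ with hz | hz
    · simp only [hk0 z hz, mul_zero]
      exact continuousOn_const
    · refine ContinuousOn.mul ?_ continuousOn_const
      refine hu.comp (by fun_prop) ?_
      intro s hs
      exact smul_mem_closedBall hs.1 hs.2 hz.le

/-- difference of two averages -/
theorem avg_sub_le {k u : E → ℝ} {C : NNReal} (hk : Continuous k) (hL : LipschitzWith C k)
    (hk0 : ∀ z : E, 1 ≤ ‖z‖ → k z = 0)
    {x y : E} {s A : ℝ} (hs : 0 < s)
    (hux : ContinuousOn u (closedBall x s)) (huy : ContinuousOn u (closedBall y s))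
    (hAx : ∀ z ∈ closedBall x s, |u z| ≤ A) (hAy : ∀ z ∈ closedBall y s, |u z| ≤ A) :
    |(∫ z : E, u (x + s • z) * k z) - ∫ z : E, u (y + s • z) * k z|
      ≤ 2 * (volume (closedBall (0 : E) 1)).toReal * C * A * (‖x - y‖ / s) := by
  set h : E := s⁻¹ • (x - y) with hh
  have hA0 : 0 ≤ A := (abs_nonneg _).trans (hAx x (mem_closedBall_self hs.le))
  have hsh : s • h = x - y := by rw [hh, smul_smul, mul_inv_cancel₀ hs.ne', one_smul]
  have hnh : ‖h‖ = ‖x - y‖ / s := by
    rw [hh, norm_smul, norm_inv, Real.norm_of_nonneg hs.le]; ring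
  have i1 : Integrable (fun z : E => u (x + s • z) * k z) :=
    integrable_mul_kernel hk hk0 (continuousOn_slice hs.le le_rfl hux)
  have i2 : Integrable (fun z : E => u (y + s • z) * k z) :=
    integrable_mul_kernel hk hk0 (continuousOn_slice hs.le le_rfl huy)
  have e1 : (fun z : E => u (x + s • z) * k z)
      = fun z => (fun z' : E => u (y + s • z') * k (z' - h)) (z + h) := by
    ext z
    simp only [add_sub_cancel_right, smul_add, hsh]
    congr 2
    abel
  have i1' : Integrable (fun z' : E => u (y + s • z') * k (z' - h)) := by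
    have := i1.comp_sub_right h
    refine this.congr (Eventually.of_forall fun z => ?_)
    simp only [smul_sub, hsh]
    congr 2
    abel
  have e2 : ∫ z : E, u (x + s • z) * k z = ∫ z' : E, u (y + s • z') * k (z' - h) := by
    rw [e1]
    exact integral_add_right_eq_self (fun z' : E => u (y + s • z') * k (z' - h)) h
  rw [e2, ← integral_sub i1' i2]
  set bd : E → ℝ := fun z => (closedBall (0 : E) 1).indicator (fun _ => A * (C * ‖h‖)) z
    + (closedBall h 1).indicator (fun _ => A * (C * ‖h‖)) z with hbd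
  have hi1 : Integrable ((closedBall (0 : E) 1).indicator (fun _ : E => A * (C * ‖h‖))) :=
    (integrableOn_const (by exact measure_closedBall_lt_top.ne)).integrable_indicator
      measurableSet_closedBall
  have hi2 : Integrable ((closedBall (h : E) 1).indicator (fun _ : E => A * (C * ‖h‖))) :=
    (integrableOn_const (by exact measure_closedBall_lt_top.ne)).integrable_indicator
      measurableSet_closedBall
  have hb : ∀ z : E, ‖u (y + s • z) * k (z - h) - u (y + s • z) * k z‖ ≤ bd z := by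
    intro z
    have hnn : 0 ≤ A * (C * ‖h‖) := by positivity
    have hi : ∀ S : Set E, 0 ≤ S.indicator (fun _ : E => A * (C * ‖h‖)) z :=
      fun S => indicator_nonneg (fun _ _ => hnn) z
    have hk' : |k (z - h) - k z| ≤ C * ‖h‖ := by
      have := hL.dist_le_mul (z - h) z
      rw [Real.dist_eq, dist_eq_norm] at this
      simpa using this
    by_cases hz1 : ‖z‖ ≤ 1
    · have hmem : z ∈ closedBall (0 : E) 1 := by simpa using hz1
      have : ‖u (y + s • z) * k (z - h) - u (y + s • z) * k z‖ ≤ A * (C * ‖h‖) := by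
        rw [← mul_sub, norm_mul]
        exact mul_le_mul (hAy _ (smul_mem_closedBall hs.le le_rfl hz1)) hk' (norm_nonneg _) hA0
      calc _ ≤ A * (C * ‖h‖) := this
        _ ≤ bd z := by
          simp only [hbd]
          rw [indicator_of_mem hmem]
          linarith [hi (closedBall h 1)]
    · push Not at hz1
      by_cases hz2 : ‖z - h‖ ≤ 1
      · have hmem : z ∈ closedBall h 1 := by simpa [dist_eq_norm] using hz2
        have hyx : y + s • z = x + s • (z - h) := by
          rw [smul_sub, hsh]; abel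
        have : ‖u (y + s • z) * k (z - h) - u (y + s • z) * k z‖ ≤ A * (C * ‖h‖) := by
          rw [← mul_sub, norm_mul, hyx]
          exact mul_le_mul (hAx _ (smul_mem_closedBall hs.le le_rfl hz2)) hk' (norm_nonneg _) hA0
        calc _ ≤ A * (C * ‖h‖) := this
          _ ≤ bd z := by
            simp only [hbd]
            rw [indicator_of_mem hmem]
            linarith [hi (closedBall 0 1)]
      · push Not at hz2
        rw [hk0 _ hz1.le, hk0 _ hz2.le]
        simp only [mul_zero, sub_self, norm_zero, hbd]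
        linarith [hi (closedBall 0 1), hi (closedBall h 1)]
  have hfin := norm_integral_le_of_norm_le (hi1.add hi2) (Eventually.of_forall hb)
  rw [Real.norm_eq_abs] at hfin
  refine hfin.trans (le_of_eq ?_)
  have : ∫ z : E, ((closedBall (0 : E) 1).indicator (fun _ : E => A * (C * ‖h‖))
      + (closedBall (h : E) 1).indicator (fun _ : E => A * (C * ‖h‖))) z
      = 2 * (volume (closedBall (0 : E) 1)).toReal * (A * (C * ‖h‖)) := by
    rw [integral_add' hi1 hi2, integral_indicator measurableSet_closedBall,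
      integral_indicator measurableSet_closedBall, setIntegral_const, setIntegral_const]
    have : volume (closedBall h 1) = volume (closedBall (0 : E) 1) :=
      Measure.addHaar_closedBall_center _ _ _
    simp only [Measure.real, this, smul_eq_mul]
    ring
  rw [this, hnh]
  ring

variable (E) in
/-- interior Lipschitz estimate -/
theorem MVOn.lipschitz : ∃ C : ℝ, 0 < C ∧ ∀ (w g : E → ℝ) (D : Set E), ContinuousOn w D →
    ContinuousOn g D → MVOn w g D → ∀ (x y : E) (r A B : ℝ), 0 < r → closedBall x r ⊆ D →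
    (∀ z ∈ closedBall x r, |w z| ≤ A) → (∀ z ∈ closedBall x r, |g z| ≤ B) → dist x y ≤ r / 2 →
    |w x - w y| ≤ C * dist x y * (A / r + r * B) := by
  obtain ⟨C1, hC1⟩ := ContDiff.lipschitzWith_of_hasCompactSupport
    (hasCompactSupport_bumpPhi (E := E)) (contDiff_bumpPhi (n := 1)) (by norm_num)
  obtain ⟨C2, hC2⟩ := ContDiff.lipschitzWith_of_hasCompactSupport
    (hasCompactSupport_bumpPsi (E := E)) (contDiff_bumpPsi (n := 1)) (by norm_num)
  set V := (volume (closedBall (0 : E) 1)).toReal with hV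
  have hV0 : 0 ≤ V := ENNReal.toReal_nonneg
  have hk := kap_pos E
  refine ⟨(4 * V * C1 + V * C2 + 1) / kap E, by positivity, ?_⟩
  intro w g D hw hg hmv x y r A B hr hs hA hB hxy
  have hA0 : 0 ≤ A := (abs_nonneg _).trans (hA x (mem_closedBall_self hr.le))
  have hB0 : 0 ≤ B := (abs_nonneg _).trans (hB x (mem_closedBall_self hr.le))
  set ρ := r / 2 with hρ
  have hρ0 : 0 < ρ := by positivity
  have hsx : ∀ s, s ≤ ρ → closedBall x s ⊆ closedBall x r := fun s hs' =>
    closedBall_subset_closedBall (by linarith)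
  have hsy : ∀ s, s ≤ ρ → closedBall y s ⊆ closedBall x r := fun s hs' =>
    closedBall_subset_closedBall' (by rw [dist_comm]; linarith)
  have m1 := hmv x ρ hρ0 ((hsx ρ le_rfl).trans hs)
  have m2 := hmv y ρ hρ0 ((hsy ρ le_rfl).trans hs)
  have hwr : ContinuousOn w (closedBall x r) := hw.mono hs
  have hgr : ContinuousOn g (closedBall x r) := hg.mono hs
  have d1 := avg_sub_le continuous_bumpPhi hC1 (fun z hz => bumpPhi_eq_zero hz) hρ0
    (hwr.mono (hsx ρ le_rfl)) (hwr.mono (hsy ρ le_rfl))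
    (fun z hz => hA z (hsx ρ le_rfl hz)) (fun z hz => hA z (hsy ρ le_rfl hz))
  -- the second term
  have c1 : ContinuousOn (fun s : ℝ => (s / 2) * ∫ z : E, g (x + s • z) * bumpPsi z) (Icc 0 ρ) :=
    ContinuousOn.mul (by fun_prop) (continuousOn_avg continuous_bumpPsi
      (fun z hz => bumpPsi_eq_zero hz) hasCompactSupport_bumpPsi (hgr.mono (hsx ρ le_rfl)))
  have c2 : ContinuousOn (fun s : ℝ => (s / 2) * ∫ z : E, g (y + s • z) * bumpPsi z) (Icc 0 ρ) :=
    ContinuousOn.mul (by fun_prop) (continuousOn_avg continuous_bumpPsi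
      (fun z hz => bumpPsi_eq_zero hz) hasCompactSupport_bumpPsi (hgr.mono (hsy ρ le_rfl)))
  have ii1 := c1.intervalIntegrable_of_Icc (μ := volume) hρ0.le
  have ii2 := c2.intervalIntegrable_of_Icc (μ := volume) hρ0.le
  have d2 : |(∫ s in (0 : ℝ)..ρ, (s / 2) * ∫ z : E, g (x + s • z) * bumpPsi z)
      - ∫ s in (0 : ℝ)..ρ, (s / 2) * ∫ z : E, g (y + s • z) * bumpPsi z|
      ≤ V * C2 * B * ‖x - y‖ * ρ := by
    rw [← intervalIntegral.integral_sub ii1 ii2]
    have := intervalIntegral.norm_integral_le_of_norm_le_const (a := 0) (b := ρ)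
      (C := V * C2 * B * ‖x - y‖)
      (f := fun s : ℝ => (s / 2) * (∫ z : E, g (x + s • z) * bumpPsi z)
        - (s / 2) * ∫ z : E, g (y + s • z) * bumpPsi z) ?_
    · rw [sub_zero, abs_of_pos hρ0] at this
      exact this
    · intro s hs'
      rw [uIoc_of_le hρ0.le] at hs'
      have hs0 : 0 < s := hs'.1
      have := avg_sub_le continuous_bumpPsi hC2 (fun z hz => bumpPsi_eq_zero hz) hs0
        (hgr.mono (hsx s hs'.2)) (hgr.mono (hsy s hs'.2))
        (fun z hz => hB z (hsx s hs'.2 hz)) (fun z hz => hB z (hsy s hs'.2 hz))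
      rw [← mul_sub, norm_mul, Real.norm_of_nonneg (by positivity), Real.norm_eq_abs]
      calc s / 2 * _ ≤ s / 2 * (2 * V * C2 * B * (‖x - y‖ / s)) := by gcongr
        _ = V * C2 * B * ‖x - y‖ := by field_simp
  have hfin : kap E * |w x - w y| ≤ 2 * V * C1 * A * (‖x - y‖ / ρ) + V * C2 * B * ‖x - y‖ * ρ := by
    rw [← abs_of_pos hk, ← abs_mul, mul_sub, m1, m2]
    calc _ = |((∫ z : E, w (x + ρ • z) * bumpPhi z) - ∫ z : E, w (y + ρ • z) * bumpPhi z)
          + ((∫ s in (0 : ℝ)..ρ, (s / 2) * ∫ z : E, g (x + s • z) * bumpPsi z)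
      - ∫ s in (0 : ℝ)..ρ, (s / 2) * ∫ z : E, g (y + s • z) * bumpPsi z)| := by congr 1; ring
      _ ≤ _ := (abs_add_le _ _).trans (add_le_add d1 d2)
  rw [dist_eq_norm]
  rw [div_mul_eq_mul_div, div_mul_eq_mul_div, le_div_iff₀ hk, mul_comm (|w x - w y|)]
  refine hfin.trans ?_
  have hn := norm_nonneg (x - y)
  have e1 : 2 * V * C1 * A * (‖x - y‖ / ρ) = 4 * V * C1 * ‖x - y‖ * (A / r) := by
    rw [hρ]; field_simp; ring
  have e2 : V * C2 * B * ‖x - y‖ * ρ ≤ V * C2 * ‖x - y‖ * (r * B) := by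
    rw [hρ]
    have : 0 ≤ V * C2 * B * ‖x - y‖ * r := by positivity
    nlinarith
  rw [e1]
  have p1 : 0 ≤ A / r := by positivity
  have p2 : 0 ≤ r * B := by positivity
  have p3 : 0 ≤ V * C1 * ‖x - y‖ := by positivity
  have p4 : 0 ≤ V * C2 * ‖x - y‖ := by positivity
  nlinarith [mul_nonneg p3 p2, mul_nonneg p4 p1, mul_nonneg hn p1, mul_nonneg hn p2]

/-- two-sided comparison of a nonnegative function with its weighted averages -/
theorem MVOn.avg_bounds {w g : E → ℝ} {D : Set E} {L : ℝ} (hL : 0 ≤ L) (hw : ContinuousOn w D)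
    (hg : ContinuousOn g D) (hmv : MVOn w g D) (h0 : ∀ z ∈ D, 0 ≤ w z)
    (hgL : ∀ z ∈ D, |g z| ≤ L * w z) {x : E} {r : ℝ} (hr : 0 < r) (hLr : L * r ^ 2 ≤ 1)
    (hs : closedBall x r ⊆ D) :
    2 / 3 * (kap E * w x) ≤ ∫ z : E, w (x + r • z) * bumpPhi z ∧
    ∫ z : E, w (x + r • z) * bumpPhi z ≤ 4 / 3 * (kap E * w x) := by
  set A : ℝ → ℝ := fun s => ∫ z : E, w (x + s • z) * bumpPhi z with hA
  set B : ℝ → ℝ := fun s => ∫ z : E, g (x + s • z) * bumpPsi z with hB
  have hwr : ContinuousOn w (closedBall x r) := hw.mono hs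
  have hgr : ContinuousOn g (closedBall x r) := hg.mono hs
  have hAc : ContinuousOn A (Icc 0 r) := continuousOn_avg continuous_bumpPhi
    (fun z hz => bumpPhi_eq_zero hz) hasCompactSupport_bumpPhi hwr
  have hBc : ContinuousOn B (Icc 0 r) := continuousOn_avg continuous_bumpPsi
    (fun z hz => bumpPsi_eq_zero hz) hasCompactSupport_bumpPsi hgr
  obtain ⟨s₀, hs₀, hmax⟩ := isCompact_Icc.exists_isMaxOn (nonempty_Icc.mpr hr.le) hAc
  set a := A s₀ with ha
  have hmax' : ∀ s ∈ Icc 0 r, A s ≤ a := fun s hs' => hmax hs'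
  have hA_nonneg : ∀ s ∈ Icc 0 r, 0 ≤ A s := by
    intro s hs'
    apply integral_nonneg
    intro z
    rcases le_or_gt 1 ‖z‖ with hz | hz
    · simp [bumpPhi_eq_zero hz]
    · exact mul_nonneg (h0 _ (hs (smul_mem_closedBall hs'.1 hs'.2 hz.le))) (bumpPhi_nonneg z)
  have ha0 : 0 ≤ a := hA_nonneg s₀ hs₀
  have hBA : ∀ s ∈ Icc 0 r, |B s| ≤ L * a := by
    intro s hs'
    have h1 : ‖B s‖ ≤ ∫ z : E, L * (w (x + s • z) * bumpPhi z) := by
      apply norm_integral_le_of_norm_le
      · exact (integrable_mul_kernel continuous_bumpPhi (fun z hz => bumpPhi_eq_zero hz)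
          (continuousOn_slice hs'.1 hs'.2 hwr)).const_mul L
      · refine Eventually.of_forall fun z => ?_
        rcases le_or_gt 1 ‖z‖ with hz | hz
        · simp [bumpPhi_eq_zero hz, bumpPsi_eq_zero hz]
        · have hm := hs (smul_mem_closedBall (x := x) hs'.1 hs'.2 hz.le)
          rw [norm_mul, Real.norm_eq_abs, Real.norm_of_nonneg (bumpPsi_nonneg z), ← mul_assoc]
          exact mul_le_mul (hgL _ hm) (bumpPsi_le z) (bumpPsi_nonneg z)
            (mul_nonneg hL (h0 _ hm))
    rw [integral_const_mul, Real.norm_eq_abs] at h1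
    exact h1.trans (mul_le_mul_of_nonneg_left (hmax' s hs') hL)
  have hint : ∀ s, 0 < s → s ≤ r → |∫ t in (0 : ℝ)..s, (t / 2) * B t| ≤ a / 4 := by
    intro s hs0 hsr
    have h1 : |∫ t in (0 : ℝ)..s, (t / 2) * B t| ≤ ∫ t in (0 : ℝ)..s, (t / 2) * (L * a) := by
      rw [← Real.norm_eq_abs]
      apply intervalIntegral.norm_integral_le_of_norm_le hs0.le
      · refine Eventually.of_forall fun t ht => ?_
        rw [norm_mul, Real.norm_of_nonneg (by linarith [ht.1]), Real.norm_eq_abs]
        have htr : t ∈ Icc 0 r := ⟨ht.1.le, ht.2.trans hsr⟩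
        exact mul_le_mul_of_nonneg_left (hBA t htr) (by linarith [ht.1])
      · exact Continuous.intervalIntegrable (by fun_prop) _ _
    refine h1.trans ?_
    have h2 : ∫ t in (0 : ℝ)..s, (t / 2) * (L * a) = s ^ 2 / 4 * (L * a) := by
      rw [intervalIntegral.integral_mul_const]
      have : ∫ t in (0 : ℝ)..s, t / 2 = s ^ 2 / 4 := by
        rw [intervalIntegral.integral_div, integral_id]; ring
      rw [this]
    rw [h2]
    have h3 : s ^ 2 * L ≤ 1 := by
      have : s ^ 2 ≤ r ^ 2 := by gcongr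
      nlinarith
    nlinarith
  have hid : ∀ s, 0 < s → s ≤ r → kap E * w x = A s + ∫ t in (0 : ℝ)..s, (t / 2) * B t := by
    intro s hs0 hsr
    exact hmv x s hs0 ((closedBall_subset_closedBall hsr).trans hs)
  have hle : a ≤ 4 / 3 * (kap E * w x) := by
    rcases hs₀.1.eq_or_lt with h | h
    · have : a = kap E * w x := by
        rw [ha, ← h]
        simp only [hA, zero_smul, add_zero]
        rw [integral_const_mul, kap, mul_comm]
      have h2 : 0 ≤ kap E * w x := by rw [← this]; exact ha0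
      linarith
    · have h1 := hid s₀ h hs₀.2
      have h2 := hint s₀ h hs₀.2
      have h3 := (abs_le.mp h2).1
      rw [← ha] at h1
      linarith
  have h1 := hid r hr le_rfl
  have h2 := abs_le.mp (hint r hr le_rfl)
  have h3 := hmax' r ⟨hr.le, le_rfl⟩
  constructor
  · show 2 / 3 * (kap E * w x) ≤ A r
    linarith [h2.2]
  · exact h3.trans hle

variable (E) in
/-- Harnack inequality -/
theorem MVOn.harnack : ∃ C : ℝ, 1 ≤ C ∧ ∀ (w g : E → ℝ) (D : Set E) (L : ℝ), ContinuousOn w D →
    ContinuousOn g D → MVOn w g D → (∀ z ∈ D, 0 ≤ w z) → (∀ z ∈ D, |g z| ≤ L * w z) →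
    ∀ (x y : E) (r : ℝ), 0 < r → L * r ^ 2 ≤ 1 → closedBall x r ⊆ D → dist x y ≤ r / 4 →
    w y ≤ C * w x := by
  set n := Module.finrank ℝ E
  set m := Real.exp (-(4 / 3)) with hm
  have hm0 : 0 < m := Real.exp_pos _
  have hm1 : m ≤ 1 := by rw [hm, Real.exp_le_one_iff]; norm_num
  have h4n : (1 : ℝ) ≤ 4 ^ n := one_le_pow₀ (by norm_num)
  have hk := kap_pos E
  refine ⟨2 * 4 ^ n / m, ?_, ?_⟩
  · rw [le_div_iff₀ hm0]; linarith
  intro w g D L' hw hg hmv h0 hgL' x y r hr hLr' hs hxy
  -- replace `L'` by its positive part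
  set L := max L' 0 with hLdef
  have hL : 0 ≤ L := le_max_right _ _
  have hgL : ∀ z ∈ D, |g z| ≤ L * w z := fun z hz =>
    (hgL' z hz).trans (mul_le_mul_of_nonneg_right (le_max_left _ _) (h0 z hz))
  have hLr : L * r ^ 2 ≤ 1 := by
    rcases max_cases L' 0 with h | h
    · rw [hLdef, h.1]; exact hLr'
    · rw [hLdef, h.1]; norm_num
  have hsy : closedBall y (r / 4) ⊆ closedBall x r :=
    closedBall_subset_closedBall' (by rw [dist_comm]; linarith)
  have b1 := (hmv.avg_bounds hL hw hg h0 hgL hr hLr hs).2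
  have b2 := (hmv.avg_bounds hL hw hg h0 hgL (by positivity : 0 < r / 4)
    (by nlinarith [mul_nonneg hL (sq_nonneg r)]) (hsy.trans hs)).1
  -- change of variables
  set F : E → ℝ := fun z => w (x + r • z) * bumpPhi z with hF
  have iF : Integrable F := integrable_mul_kernel continuous_bumpPhi
    (fun z hz => bumpPhi_eq_zero hz) (continuousOn_slice hr.le le_rfl (hw.mono hs))
  set h : E := r⁻¹ • (y - x) with hh
  have hrh : r • h = y - x := by rw [hh, smul_smul, mul_inv_cancel₀ hr.ne', one_smul]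
  have hnh : ‖h‖ ≤ 1 / 4 := by
    rw [hh, norm_smul, norm_inv, Real.norm_of_nonneg hr.le, ← dist_eq_norm, dist_comm,
      inv_mul_le_iff₀ hr]
    linarith
  have cv : ∫ z : E, F (h + (4 : ℝ)⁻¹ • z) = 4 ^ n * ∫ z, F z := by
    have e1 := Measure.integral_comp_smul (volume : Measure E) (fun z => F (h + z)) (4 : ℝ)⁻¹
    rw [e1, integral_add_left_eq_self F h]
    have : |((4 : ℝ)⁻¹ ^ n)⁻¹| = 4 ^ n := by
      rw [inv_pow, inv_inv, abs_of_pos (by positivity)]
    rw [this, smul_eq_mul]
  have iF2 : Integrable (fun z : E => F (h + (4 : ℝ)⁻¹ • z)) :=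
    (iF.comp_add_left h).comp_smul (by norm_num : (4 : ℝ)⁻¹ ≠ 0)
  have hle : m * ∫ z : E, w (y + (r / 4) • z) * bumpPhi z ≤ ∫ z : E, F (h + (4 : ℝ)⁻¹ • z) := by
    rw [← integral_const_mul]
    apply integral_mono _ iF2
    · intro z
      simp only [hF]
      have hpt : x + r • (h + (4 : ℝ)⁻¹ • z) = y + (r / 4) • z := by
        rw [smul_add, hrh, smul_smul]
        rw [show r * (4 : ℝ)⁻¹ = r / 4 by ring]
        abel
      rw [hpt]
      rcases le_or_gt 1 ‖z‖ with hz | hz
      · rw [bumpPhi_eq_zero hz, mul_zero, mul_zero]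
        rcases le_or_gt 1 ‖h + (4 : ℝ)⁻¹ • z‖ with hz2 | hz2
        · rw [bumpPhi_eq_zero hz2, mul_zero]
        · refine mul_nonneg (h0 _ (hs ?_)) (bumpPhi_nonneg _)
          rw [← hpt]
          exact smul_mem_closedBall hr.le le_rfl hz2.le
      · have hw0 : 0 ≤ w (y + (r / 4) • z) :=
          h0 _ (hs (hsy (smul_mem_closedBall (by positivity) le_rfl hz.le)))
        have hn : ‖h + (4 : ℝ)⁻¹ • z‖ ≤ 1 / 2 := by
          have h4 : ‖(4 : ℝ)⁻¹ • z‖ = 1 / 4 * ‖z‖ := by
            rw [norm_smul, Real.norm_of_nonneg (by norm_num)]; ring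
          calc ‖h + (4 : ℝ)⁻¹ • z‖ ≤ ‖h‖ + ‖(4 : ℝ)⁻¹ • z‖ := norm_add_le _ _
            _ ≤ 1 / 2 := by rw [h4]; linarith
        have hb := bumpPhi_ge hn
        calc m * (w (y + (r / 4) • z) * bumpPhi z)
            ≤ m * (w (y + (r / 4) • z) * 1) := by
              gcongr
              exact bumpPhi_le_one z
          _ = w (y + (r / 4) • z) * m := by ring
          _ ≤ w (y + (r / 4) • z) * bumpPhi (h + (4 : ℝ)⁻¹ • z) :=
              mul_le_mul_of_nonneg_left hb hw0
    · exact (integrable_mul_kernel continuous_bumpPhi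
        (fun z hz => bumpPhi_eq_zero hz) (continuousOn_slice (by positivity) le_rfl
          (hw.mono (hsy.trans hs)))).const_mul m
  rw [cv] at hle
  have h5 : m * (2 / 3 * (kap E * w y)) ≤ 4 ^ n * (4 / 3 * (kap E * w x)) := by
    calc m * (2 / 3 * (kap E * w y)) ≤ m * ∫ z : E, w (y + (r / 4) • z) * bumpPhi z := by gcongr
      _ ≤ 4 ^ n * ∫ z, F z := hle
      _ ≤ 4 ^ n * (4 / 3 * (kap E * w x)) := by gcongr
  rw [div_mul_eq_mul_div, le_div_iff₀ hm0]
  have h6 : kap E * (w y * m) ≤ kap E * (2 * 4 ^ n * w x) := by nlinarith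
  exact le_of_mul_le_mul_left h6 hk

end Pool.Agent.Lib.MP_437bdf_an
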