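import Pool.Agent.Lib.MP_437bdf_an.Lap

/-!
Module PolyDirichlet: the Dirichlet problem on a ball for polynomials.
-/

set_option autoImplicit false

open Set Metric Filter Topology
open InnerProductSpace Laplacian

namespace Pool.Agent.Lib.MP_437bdf_an

section poly

variable {d : ℕ}

/-- Evaluation of a polynomial on Euclidean space. -/
noncomputable def evalE (q : MvPolynomial (Fin d) ℝ) (y : EuclideanSpace ℝ (Fin d)) : ℝ :=
  MvPolynomial.eval (fun i => y i) q

lemma evalE_add (p q : MvPolynomial (Fin d) ℝ) (y : EuclideanSpace ℝ (Fin d)) :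
    evalE (p + q) y = evalE p y + evalE q y := by simp [evalE]

lemma evalE_sub (p q : MvPolynomial (Fin d) ℝ) (y : EuclideanSpace ℝ (Fin d)) :
    evalE (p - q) y = evalE p y - evalE q y := by simp [evalE]

lemma evalE_mul (p q : MvPolynomial (Fin d) ℝ) (y : EuclideanSpace ℝ (Fin d)) :
    evalE (p * q) y = evalE p y * evalE q y := by simp [evalE]

/-- The derivative of a polynomial function. -/
noncomputable def dE (q : MvPolynomial (Fin d) ℝ) (y : EuclideanSpace ℝ (Fin d)) :
    EuclideanSpace ℝ (Fin d) →L[ℝ] ℝ :=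
  ∑ i, evalE (MvPolynomial.pderiv i q) y • (EuclideanSpace.proj i : EuclideanSpace ℝ (Fin d) →L[ℝ] ℝ)

lemma hasFDerivAt_evalE (q : MvPolynomial (Fin d) ℝ) (y : EuclideanSpace ℝ (Fin d)) :
    HasFDerivAt (evalE q) (dE q y) y := by
  induction q using MvPolynomial.induction_on with
  | C a =>
    have h1 : evalE (MvPolynomial.C a : MvPolynomial (Fin d) ℝ) = fun _ => a := by
      ext z; simp [evalE]
    have h2 : dE (MvPolynomial.C a : MvPolynomial (Fin d) ℝ) y = 0 := by
      simp [dE, evalE]
    rw [h1, h2]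
    exact hasFDerivAt_const a y
  | add p q hp hq =>
    have h1 : evalE (p + q) = fun z => evalE p z + evalE q z := by
      ext z; exact evalE_add p q z
    have h2 : dE (p + q) y = dE p y + dE q y := by
      simp only [dE, map_add, evalE_add, add_smul, Finset.sum_add_distrib]
    rw [h1, h2]
    exact hp.add hq
  | mul_X p n hp =>
    have h1 : evalE (p * MvPolynomial.X n) = fun z => evalE p z * z n := by
      ext z; simp [evalE]
    have h2 : dE (p * MvPolynomial.X n) y =
        evalE p y • (EuclideanSpace.proj n : EuclideanSpace ℝ (Fin d) →L[ℝ] ℝ) + y n • dE p y := by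
      unfold dE
      have h3 : ∀ i : Fin d, evalE (MvPolynomial.pderiv i (p * MvPolynomial.X n)) y =
          y n * evalE (MvPolynomial.pderiv i p) y + evalE p y * (if n = i then 1 else 0) := by
        intro i
        rw [MvPolynomial.pderiv_mul, evalE_add, evalE_mul, evalE_mul]
        have e1 : evalE (MvPolynomial.X n : MvPolynomial (Fin d) ℝ) y = y n := by simp [evalE]
        have e2 : evalE (MvPolynomial.pderiv i (MvPolynomial.X n : MvPolynomial (Fin d) ℝ)) y =
            (if n = i then 1 else 0) := by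
          by_cases hni : n = i
          · subst hni
            simp [evalE]
          · rw [MvPolynomial.pderiv_X_of_ne hni, if_neg hni]
            simp [evalE]
        rw [e1, e2]
        ring
      simp_rw [h3]
      simp only [add_smul, Finset.sum_add_distrib, mul_smul, ← Finset.smul_sum]
      rw [add_comm]
      congr 1
      congr 1
      simp
    rw [h1, h2]
    have hn : HasFDerivAt (fun z : EuclideanSpace ℝ (Fin d) => z n)
        (EuclideanSpace.proj n : EuclideanSpace ℝ (Fin d) →L[ℝ] ℝ) y :=
      (EuclideanSpace.proj n : EuclideanSpace ℝ (Fin d) →L[ℝ] ℝ).hasFDerivAt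
    exact hp.mul hn

lemma contDiff_evalE (q : MvPolynomial (Fin d) ℝ) {k : WithTop ℕ∞} : ContDiff ℝ k (evalE q) := by
  induction q using MvPolynomial.induction_on with
  | C a =>
    have h1 : evalE (MvPolynomial.C a : MvPolynomial (Fin d) ℝ) = fun _ => a := by
      ext z; simp [evalE]
    rw [h1]
    exact contDiff_const
  | add p q hp hq =>
    have h1 : evalE (p + q) = fun z => evalE p z + evalE q z := by
      ext z; exact evalE_add p q z
    rw [h1]
    exact hp.add hq
  | mul_X p n hp =>
    have h1 : evalE (p * MvPolynomial.X n) = fun z => evalE p z * z n := by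
      ext z; simp [evalE]
    rw [h1]
    have hn : ContDiff ℝ k (fun z : EuclideanSpace ℝ (Fin d) => z n) :=
      (EuclideanSpace.proj n : EuclideanSpace ℝ (Fin d) →L[ℝ] ℝ).contDiff
    exact hp.mul hn

/-- The algebraic Laplacian. -/
noncomputable def lapl (q : MvPolynomial (Fin d) ℝ) : MvPolynomial (Fin d) ℝ :=
  ∑ i, MvPolynomial.pderiv i (MvPolynomial.pderiv i q)

lemma lapl_add (p q : MvPolynomial (Fin d) ℝ) : lapl (p + q) = lapl p + lapl q := by
  simp [lapl, Finset.sum_add_distrib]

lemma lapl_sub (p q : MvPolynomial (Fin d) ℝ) : lapl (p - q) = lapl p - lapl q := by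
  simp [lapl, Finset.sum_sub_distrib]

lemma lapl_smul (a : ℝ) (q : MvPolynomial (Fin d) ℝ) : lapl (a • q) = a • lapl q := by
  simp [lapl, Finset.smul_sum]

lemma proj_basis (i j : Fin d) : (EuclideanSpace.proj i : EuclideanSpace ℝ (Fin d) →L[ℝ] ℝ)
    (EuclideanSpace.basisFun (Fin d) ℝ j) = if i = j then 1 else 0 := by
  rw [EuclideanSpace.basisFun_apply]
  show (EuclideanSpace.single j (1:ℝ) : EuclideanSpace ℝ (Fin d)) i = _
  simp

lemma lapl_neg (q : MvPolynomial (Fin d) ℝ) : lapl (-q) = -lapl q := by
  unfold lapl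
  rw [← Finset.sum_neg_distrib]
  simp only [map_neg]

lemma lap_evalE (q : MvPolynomial (Fin d) ℝ) (x : EuclideanSpace ℝ (Fin d)) :
    (Δ (evalE q)) x = evalE (lapl q) x := by
  have h2 : HasFDerivAt (dE q) (∑ i, (dE (MvPolynomial.pderiv i q) x).smulRight
      (EuclideanSpace.proj i : EuclideanSpace ℝ (Fin d) →L[ℝ] ℝ)) x := by
    unfold dE
    apply HasFDerivAt.fun_sum
    intro i _
    exact (hasFDerivAt_evalE (MvPolynomial.pderiv i q) x).smul_const
      (EuclideanSpace.proj i : EuclideanSpace ℝ (Fin d) →L[ℝ] ℝ)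
  rw [lap_eq_of_hasFDerivAt (EuclideanSpace.basisFun (Fin d) ℝ)
    (Eventually.of_forall fun y => hasFDerivAt_evalE q y) h2]
  have h3 : evalE (lapl q) x = ∑ i, evalE (MvPolynomial.pderiv i (MvPolynomial.pderiv i q)) x := by
    simp [lapl, evalE]
  rw [h3]
  apply Finset.sum_congr rfl
  intro j _
  simp only [_root_.sum_apply, ContinuousLinearMap.smulRight_apply,
    _root_.smul_apply, proj_basis, smul_eq_mul, dE]
  simp

lemma totalDegree_pderiv_le (i : Fin d) (q : MvPolynomial (Fin d) ℝ) :
    (MvPolynomial.pderiv i q).totalDegree ≤ q.totalDegree - 1 := by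
  rw [MvPolynomial.totalDegree, Finset.sup_le_iff]
  intro s hs
  rw [MvPolynomial.mem_support_iff, MvPolynomial.coeff_pderiv] at hs
  have h1 : MvPolynomial.coeff (s + Finsupp.single i 1) q ≠ 0 := by
    intro h0
    apply hs
    rw [h0, zero_mul]
  have h2 : s + Finsupp.single i 1 ∈ q.support := MvPolynomial.mem_support_iff.mpr h1
  have h3 := MvPolynomial.le_totalDegree h2
  rw [Finsupp.sum_add_index' (fun _ => rfl) (fun _ _ _ => rfl), Finsupp.sum_single_index rfl] at h3
  omega

lemma totalDegree_lapl_le (q : MvPolynomial (Fin d) ℝ) :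
    (lapl q).totalDegree ≤ q.totalDegree - 2 := by
  unfold lapl
  refine (MvPolynomial.totalDegree_finsetSum _ _).trans ?_
  apply Finset.sup_le
  intro i _
  refine (totalDegree_pderiv_le i _).trans ?_
  have := totalDegree_pderiv_le i q
  omega

/-- The polynomial `R^2 - |x-c|^2`. -/
noncomputable def bpoly (c : EuclideanSpace ℝ (Fin d)) (R : ℝ) : MvPolynomial (Fin d) ℝ :=
  MvPolynomial.C (R ^ 2) - ∑ i, (MvPolynomial.X i - MvPolynomial.C (c i)) ^ 2

lemma evalE_bpoly (c : EuclideanSpace ℝ (Fin d)) (R : ℝ) (x : EuclideanSpace ℝ (Fin d)) :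
    evalE (bpoly c R) x = R ^ 2 - ‖x - c‖ ^ 2 := by
  rw [EuclideanSpace.norm_sq_eq]
  simp [evalE, bpoly]

lemma totalDegree_bpoly_le (c : EuclideanSpace ℝ (Fin d)) (R : ℝ) :
    (bpoly c R).totalDegree ≤ 2 := by
  unfold bpoly
  refine (MvPolynomial.totalDegree_sub _ _).trans ?_
  apply max_le
  · rw [MvPolynomial.totalDegree_C]
    omega
  · refine (MvPolynomial.totalDegree_finsetSum _ _).trans ?_
    apply Finset.sup_le
    intro i _
    refine (MvPolynomial.totalDegree_pow _ _).trans ?_
    have : (MvPolynomial.X i - MvPolynomial.C (c i) : MvPolynomial (Fin d) ℝ).totalDegree ≤ 1 := by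
      refine (MvPolynomial.totalDegree_sub _ _).trans ?_
      rw [MvPolynomial.totalDegree_X, MvPolynomial.totalDegree_C]
      omega
    omega

/-- Weak maximum principle for harmonic polynomials. -/
lemma evalE_nonpos_of_harmonic (hd : 1 ≤ d) (c : EuclideanSpace ℝ (Fin d)) (R : ℝ) (hR : 0 < R)
    (q : MvPolynomial (Fin d) ℝ) (hq : ∀ x, 0 ≤ evalE (lapl q) x)
    (hb : ∀ x ∈ sphere c R, evalE q x ≤ 0) : ∀ x ∈ closedBall c R, evalE q x ≤ 0 := by
  intro x hx
  apply le_of_forall_pos_le_add
  intro ε hε
  rw [zero_add]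
  set η : ℝ := ε / R ^ 2 with hη
  have hη0 : 0 < η := by positivity
  -- w = q + η |x-c|^2 = eval (q - η (b - R^2))
  set w : MvPolynomial (Fin d) ℝ := q - η • (bpoly c R) with hw
  have hcont : Continuous (evalE w) := (contDiff_evalE w (k := 0)).continuous
  obtain ⟨x1, hx1, hmax⟩ := (isCompact_closedBall c R).exists_isMaxOn
    ⟨x, hx⟩ hcont.continuousOn
  have hev : ∀ y, evalE w y = evalE q y - η * (R ^ 2 - ‖y - c‖ ^ 2) := by
    intro y
    rw [hw, evalE_sub]
    have : evalE (η • bpoly c R) y = η * evalE (bpoly c R) y := by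
      simp [evalE]
    rw [this, evalE_bpoly]
  have hlapb : ∀ y, evalE (lapl (bpoly c R)) y = -(2 * d) := by
    intro y
    have h1 : ∀ i : Fin d, MvPolynomial.pderiv i (MvPolynomial.pderiv i (bpoly c R)) =
        MvPolynomial.C (-2) := by
      intro i
      have hfirst : MvPolynomial.pderiv i (bpoly c R) =
          MvPolynomial.C (-2) * (MvPolynomial.X i - MvPolynomial.C (c i)) := by
        unfold bpoly
        rw [map_sub, map_sum, MvPolynomial.pderiv_C, zero_sub]
        rw [Finset.sum_eq_single i]
        · rw [MvPolynomial.pderiv_pow]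
          have hC2 : (MvPolynomial.C (-2) : MvPolynomial (Fin d) ℝ) = -2 := by
            rw [map_neg]
            congr 1
          rw [hC2]
          simp
        · intro j _ hj
          rw [MvPolynomial.pderiv_pow]
          simp [MvPolynomial.pderiv_X_of_ne hj]
        · simp
      rw [hfirst, MvPolynomial.pderiv_C_mul]
      simp
    unfold lapl
    simp_rw [h1]
    simp [evalE]
    ring
  have hlapw : ∀ y, 0 < evalE (lapl w) y := by
    intro y
    rw [hw, lapl_sub, lapl_smul, evalE_sub]
    have : evalE (η • lapl (bpoly c R)) y = η * evalE (lapl (bpoly c R)) y := by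
      simp [evalE]
    rw [this, hlapb]
    have h2 := hq y
    have h3 : (1:ℝ) ≤ d := by exact_mod_cast hd
    nlinarith
  have hx1s : x1 ∈ sphere c R := by
    by_contra hns
    have hxb : x1 ∈ ball c R := by
      rw [mem_closedBall] at hx1
      rw [mem_sphere] at hns
      rw [mem_ball]
      exact lt_of_le_of_ne hx1 hns
    have hloc : IsLocalMax (evalE w) x1 :=
      (hmax.on_subset ball_subset_closedBall).isLocalMax (isOpen_ball.mem_nhds hxb)
    have h4 := lap_nonpos_of_isLocalMax (contDiff_evalE w (k := 2)).contDiffAt hloc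
    rw [lap_evalE] at h4
    exact absurd (hlapw x1) (not_lt.mpr h4)
  have h5 : evalE w x ≤ evalE w x1 := hmax hx
  rw [hev, hev] at h5
  have h6 := hb x1 hx1s
  have h7 : ‖x1 - c‖ = R := by rw [← dist_eq_norm]; exact hx1s
  rw [h7] at h5
  have h8 : η * (R ^ 2 - ‖x - c‖ ^ 2) ≤ ε := by
    have h9 : η * (R ^ 2 - ‖x - c‖ ^ 2) ≤ η * R ^ 2 := by
      apply mul_le_mul_of_nonneg_left _ hη0.le
      nlinarith [sq_nonneg ‖x - c‖]
    have h10 : η * R ^ 2 = ε := by rw [hη]; field_simp
    linarith
  linarith

lemma poly_eq_zero_of_ball (c : EuclideanSpace ℝ (Fin d)) (R : ℝ) (hR : 0 < R)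
    (s : MvPolynomial (Fin d) ℝ) (h : ∀ x ∈ ball c R, evalE s x = 0) : s = 0 := by
  set δ : ℝ := R / (d + 1) with hδ
  have hd1 : (0:ℝ) < d + 1 := by positivity
  have hδ0 : 0 < δ := by positivity
  apply MvPolynomial.funext_set (fun i => Set.Ioo (c i - δ) (c i + δ))
  · intro i
    exact Set.Ioo_infinite (by linarith)
  · intro x hx
    rw [map_zero]
    have hxE := h (WithLp.toLp 2 x) (by
      rw [mem_ball, dist_eq_norm]
      have h1 : ‖(WithLp.toLp 2 x : EuclideanSpace ℝ (Fin d)) - c‖ ^ 2 < R ^ 2 := by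
        rw [EuclideanSpace.norm_sq_eq]
        calc ∑ i, ‖((WithLp.toLp 2 x : EuclideanSpace ℝ (Fin d)) - c) i‖ ^ 2
            ≤ ∑ i : Fin d, δ ^ 2 := by
              apply Finset.sum_le_sum
              intro i _
              have hi := hx i (Set.mem_univ i)
              have : ‖((WithLp.toLp 2 x : EuclideanSpace ℝ (Fin d)) - c) i‖ ≤ δ := by
                rw [Real.norm_eq_abs, abs_le]
                simp only [PiLp.sub_apply]
                constructor
                · linarith [hi.1]
                · linarith [hi.2]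
              exact pow_le_pow_left₀ (norm_nonneg _) this 2
          _ = d * δ ^ 2 := by simp
          _ < (d + 1) * δ ^ 2 := by nlinarith [sq_nonneg δ, pow_pos hδ0 2]
          _ ≤ (d + 1) ^ 2 * δ ^ 2 := by
              have h0 : (0:ℝ) ≤ d := by positivity
              have h1' : (d:ℝ) + 1 ≤ (d + 1) ^ 2 := by nlinarith
              exact mul_le_mul_of_nonneg_right h1' (by positivity)
          _ = R ^ 2 := by rw [hδ]; field_simp
      exact lt_of_pow_lt_pow_left₀ 2 hR.le h1)
    exact hxE

theorem exists_poly_dirichlet (hd : 1 ≤ d) (c : EuclideanSpace ℝ (Fin d)) (R : ℝ)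
    (hR : 0 < R) (p g : MvPolynomial (Fin d) ℝ) : ∃ q : MvPolynomial (Fin d) ℝ,
      (∀ x : EuclideanSpace ℝ (Fin d),
        -(Δ (fun y : EuclideanSpace ℝ (Fin d) => MvPolynomial.eval (fun i => y i) q)) x
          = MvPolynomial.eval (fun i => x i) g) ∧
      ∀ x ∈ sphere c R, MvPolynomial.eval (fun i => x i) q = MvPolynomial.eval (fun i => x i) p := by
  set m : ℕ := max p.totalDegree g.totalDegree with hm
  let V := MvPolynomial.restrictTotalDegree (Fin d) ℝ m
  have hmem : ∀ s : MvPolynomial (Fin d) ℝ, s ∈ V → lapl (bpoly c R * s) ∈ V := by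
    intro s hs
    rw [MvPolynomial.mem_restrictTotalDegree] at hs ⊢
    have h1 := totalDegree_lapl_le (bpoly c R * s)
    have h2 := MvPolynomial.totalDegree_mul (bpoly c R) s
    have h3 := totalDegree_bpoly_le c R
    omega
  let T : V →ₗ[ℝ] V :=
    { toFun := fun s => ⟨lapl (bpoly c R * s), hmem s s.2⟩
      map_add' := by
        intro s t
        ext1
        simp [mul_add, lapl_add]
      map_smul' := by
        intro a s
        ext1
        simp [lapl_smul] }
  have hinj : Function.Injective T := by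
    rw [← LinearMap.ker_eq_bot, LinearMap.ker_eq_bot']
    intro s hs
    have hs0 : lapl (bpoly c R * (s : MvPolynomial (Fin d) ℝ)) = 0 := congrArg Subtype.val hs
    have hev0 : ∀ x, evalE (lapl (bpoly c R * (s : MvPolynomial (Fin d) ℝ))) x = 0 := by
      intro x; rw [hs0]; simp [evalE]
    have hbd : ∀ x ∈ sphere c R, evalE (bpoly c R * (s : MvPolynomial (Fin d) ℝ)) x = 0 := by
      intro x hx
      rw [evalE_mul, evalE_bpoly]
      have : ‖x - c‖ = R := by rw [← dist_eq_norm]; exact hx
      rw [this]
      ring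
    have h1 := evalE_nonpos_of_harmonic hd c R hR (bpoly c R * (s : MvPolynomial (Fin d) ℝ))
      (fun x => (hev0 x).ge) (fun x hx => (hbd x hx).le)
    have h2 := evalE_nonpos_of_harmonic hd c R hR (-(bpoly c R * (s : MvPolynomial (Fin d) ℝ)))
      (fun x => by
        rw [lapl_neg, hs0]
        simp [evalE])
      (fun x hx => by
        have : evalE (-(bpoly c R * (s : MvPolynomial (Fin d) ℝ))) x =
            - evalE (bpoly c R * (s : MvPolynomial (Fin d) ℝ)) x := by simp [evalE]
        rw [this, hbd x hx, neg_zero])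
    apply Subtype.ext
    apply poly_eq_zero_of_ball c R hR
    intro x hx
    have hxc : x ∈ closedBall c R := ball_subset_closedBall hx
    have h3 := h1 x hxc
    have h4 := h2 x hxc
    have h5 : evalE (-(bpoly c R * (s : MvPolynomial (Fin d) ℝ))) x =
            - evalE (bpoly c R * (s : MvPolynomial (Fin d) ℝ)) x := by simp [evalE]
    rw [h5] at h4
    have h6 : evalE (bpoly c R * (s : MvPolynomial (Fin d) ℝ)) x = 0 := by linarith
    rw [evalE_mul, evalE_bpoly] at h6
    rcases mul_eq_zero.mp h6 with h7 | h7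
    · exfalso
      rw [mem_ball, dist_eq_norm] at hx
      nlinarith [norm_nonneg (x - c)]
    · exact h7
  have hsurj : Function.Surjective T := LinearMap.injective_iff_surjective.mp hinj
  have htarget : lapl p + g ∈ V := by
    rw [MvPolynomial.mem_restrictTotalDegree]
    refine (MvPolynomial.totalDegree_add _ _).trans ?_
    have := totalDegree_lapl_le p
    apply max_le
    · have : p.totalDegree ≤ m := le_max_left _ _
      omega
    · exact le_max_right _ _
  obtain ⟨s, hs⟩ := hsurj ⟨lapl p + g, htarget⟩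
  have hs' : lapl (bpoly c R * (s : MvPolynomial (Fin d) ℝ)) = lapl p + g := congrArg Subtype.val hs
  refine ⟨p - bpoly c R * s, ?_, ?_⟩
  · intro x
    have h1 : (fun y : EuclideanSpace ℝ (Fin d) => MvPolynomial.eval (fun i => y i)
        (p - bpoly c R * (s : MvPolynomial (Fin d) ℝ))) =
        evalE (p - bpoly c R * (s : MvPolynomial (Fin d) ℝ)) := rfl
    rw [h1, lap_evalE, lapl_sub, hs']
    simp [evalE]
  · intro x hx
    have h1 : evalE (p - bpoly c R * (s : MvPolynomial (Fin d) ℝ)) x = evalE p x := by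
      rw [evalE_sub, evalE_mul, evalE_bpoly]
      have : ‖x - c‖ = R := by rw [← dist_eq_norm]; exact hx
      rw [this]
      ring
    exact h1

end poly

end Pool.Agent.Lib.MP_437bdf_an
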