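import Pool.Agent.Lib.MP_437bdf_an.MVRegularity
import Pool.Agent.Lib.MP_437bdf_an.Harnack
import Pool.Agent.Lib.MP_437bdf_an.PolyDirichlet

/-! The semilinear Dirichlet problem in small balls. -/

open Set Metric Filter Topology MeasureTheory
open InnerProductSpace Laplacian
open scoped NNReal

namespace Pool.Agent.Lib.MP_437bdf_an

section maxprinc

variable {E : Type*} [NormedAddCommGroup E] [InnerProductSpace ℝ E] [FiniteDimensional ℝ E]

lemma lap_sq_two (a : ℝ) (c x : E) :
    (Δ (fun y : E => a * ‖y - c‖ ^ 2)) x = 2 * (Module.finrank ℝ E) * a := by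
  have h1 : ∀ᶠ t in 𝓝 (‖x - c‖ ^ 2), HasDerivAt (fun t : ℝ => a * t) ((fun _ : ℝ => a) t) t := by
    filter_upwards with t
    simpa using (hasDerivAt_id t).const_mul a
  have h2 : HasDerivAt (fun _ : ℝ => a) 0 (‖x - c‖ ^ 2) := hasDerivAt_const _ _
  rw [lap_radial h1 h2]
  simp

omit [FiniteDimensional ℝ E] in
lemma contDiff_sq_two (a : ℝ) (c : E) : ContDiff ℝ 2 (fun y : E => a * ‖y - c‖ ^ 2) :=
  contDiff_const.mul ((contDiff_norm_sq ℝ).comp (contDiff_id.sub contDiff_const))

/-- maximum principle in a ball -/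
lemma le_of_lap_le {u : E → ℝ} (hu : ContDiff ℝ 2 u) (hd : 1 ≤ Module.finrank ℝ E) {c : E}
    {R A B : ℝ} (hR : 0 < R) (hB : 0 ≤ B)
    (h1 : ∀ x ∈ sphere c R, u x ≤ A) (h2 : ∀ x ∈ ball c R, -(Δ u) x ≤ B) :
    ∀ x ∈ closedBall c R, u x ≤ A + R ^ 2 / 2 * B := by
  intro x hx
  have key : ∀ ε > 0, u x ≤ A + R ^ 2 / 2 * (B + ε) := by
    intro ε hε
    set w : E → ℝ := u + fun y => ((B + ε) / 2) * ‖y - c‖ ^ 2 with hw
    have hwc : ContDiff ℝ 2 w := hu.add (contDiff_sq_two _ c)
    obtain ⟨y, hy, hmax⟩ := (isCompact_closedBall c R).exists_isMaxOn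
      (nonempty_closedBall.2 hR.le) hwc.continuous.continuousOn
    have hlap : ∀ z ∈ ball c R, 0 < (Δ w) z := by
      intro z hz
      rw [hw, hu.contDiffAt.laplacian_add (contDiff_sq_two _ c).contDiffAt, lap_sq_two]
      have h3 := h2 z hz
      have h4 : (1 : ℝ) ≤ Module.finrank ℝ E := by exact_mod_cast hd
      nlinarith
    have hys : y ∈ sphere c R := by
      by_contra hcon
      have hyb : y ∈ ball c R := by
        rw [mem_closedBall] at hy
        rw [mem_sphere] at hcon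
        exact lt_of_le_of_ne hy hcon
      have hloc : IsLocalMax w y :=
        hmax.isLocalMax (Filter.mem_of_superset (isOpen_ball.mem_nhds hyb) ball_subset_closedBall)
      have := lap_nonpos_of_isLocalMax hwc.contDiffAt hloc
      exact absurd this (not_le.2 (hlap y hyb))
    have h5 : w x ≤ w y := hmax hx
    have h6 : w y = u y + ((B + ε) / 2) * R ^ 2 := by
      rw [hw]
      simp only [Pi.add_apply]
      rw [mem_sphere, dist_eq_norm] at hys
      rw [hys]
    have h7 : w x = u x + ((B + ε) / 2) * ‖x - c‖ ^ 2 := rfl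
    have h8 := h1 y hys
    have h9 : 0 ≤ ((B + ε) / 2) * ‖x - c‖ ^ 2 := by positivity
    nlinarith
  apply le_of_forall_pos_le_add
  intro ε hε
  have h := key (ε * 2 / R ^ 2) (by positivity)
  have e : R ^ 2 / 2 * (B + ε * 2 / R ^ 2) = R ^ 2 / 2 * B + ε := by
    field_simp
  rw [e] at h
  linarith

end maxprinc

section poly

variable {d : ℕ}

/-- the polynomial function -/
noncomputable def pev (q : MvPolynomial (Fin d) ℝ) (y : EuclideanSpace ℝ (Fin d)) : ℝ :=
  MvPolynomial.eval (fun i => y i) q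

lemma contDiff_pev {n : WithTop ℕ∞} (q : MvPolynomial (Fin d) ℝ) : ContDiff ℝ n (pev q) := by
  induction q using MvPolynomial.induction_on with
  | C a =>
    have : pev (d := d) (MvPolynomial.C a) = fun _ => a := by
      ext y; simp [pev]
    rw [this]
    exact contDiff_const
  | add p q hp hq =>
    have : pev (p + q) = fun y => pev p y + pev q y := by
      ext y; simp [pev]
    rw [this]
    exact hp.add hq
  | mul_X p i hp =>
    have : pev (p * MvPolynomial.X i) = fun y => pev p y * y i := by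
      ext y; simp [pev]
    rw [this]
    exact hp.mul (contDiff_euclidean.1 contDiff_id i)

lemma pev_sub (p q : MvPolynomial (Fin d) ℝ) : pev (p - q) = pev p - pev q := by
  ext y; simp [pev]

variable (c : EuclideanSpace ℝ (Fin d)) (R : ℝ)

/-- the polynomial function as a continuous function on the closed ball -/
noncomputable def pc (q : MvPolynomial (Fin d) ℝ) : C(closedBall c R, ℝ) :=
  ⟨fun x => pev q x, (contDiff_pev (n := 0) q).continuous.comp continuous_subtype_val⟩

/-- pairs `(h, g)` with `-Δ h = g`, in the limit sense -/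
noncomputable def SolPair : Set (C(closedBall c R, ℝ) × C(closedBall c R, ℝ)) :=
  closure {z | ∃ q g : MvPolynomial (Fin d) ℝ, (∀ x, -(Δ (pev q)) x = pev g x) ∧
    z = (pc c R q, pc c R g)}

variable {c R}

lemma poly_est (hd : 1 ≤ d) (hR : 0 < R) {q₁ g₁ q₂ g₂ : MvPolynomial (Fin d) ℝ}
    (h₁ : ∀ x, -(Δ (pev q₁)) x = pev g₁ x) (h₂ : ∀ x, -(Δ (pev q₂)) x = pev g₂ x) {A : ℝ}
    (hA : ∀ x ∈ sphere c R, |pev q₁ x - pev q₂ x| ≤ A) :
    ‖pc c R q₁ - pc c R q₂‖ ≤ A + R ^ 2 / 2 * ‖pc c R g₁ - pc c R g₂‖ := by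
  have hfin : 1 ≤ Module.finrank ℝ (EuclideanSpace ℝ (Fin d)) := by simpa using hd
  set B := ‖pc c R g₁ - pc c R g₂‖ with hB
  have hB0 : 0 ≤ B := norm_nonneg _
  have hgB : ∀ x ∈ closedBall c R, |pev g₁ x - pev g₂ x| ≤ B := by
    intro x hx
    exact (pc c R g₁ - pc c R g₂).norm_coe_le_norm ⟨x, hx⟩
  have hA0 : 0 ≤ A := by
    have hne : (sphere c R).Nonempty := by
      have : Nonempty (Fin d) := ⟨⟨0, hd⟩⟩
      exact NormedSpace.sphere_nonempty.2 hR.le
    obtain ⟨x, hx⟩ := hne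
    exact (abs_nonneg _).trans (hA x hx)
  have half : ∀ {p₁ k₁ p₂ k₂ : MvPolynomial (Fin d) ℝ}, (∀ x, -(Δ (pev p₁)) x = pev k₁ x) →
      (∀ x, -(Δ (pev p₂)) x = pev k₂ x) → (∀ x ∈ sphere c R, |pev p₁ x - pev p₂ x| ≤ A) →
      (∀ x ∈ closedBall c R, |pev k₁ x - pev k₂ x| ≤ B) →
      ∀ x ∈ closedBall c R, pev p₁ x - pev p₂ x ≤ A + R ^ 2 / 2 * B := by
    intro p₁ k₁ p₂ k₂ e₁ e₂ hs hk x hx
    have hu : ContDiff ℝ 2 (pev p₁ - pev p₂) := (contDiff_pev p₁).sub (contDiff_pev p₂)
    have := le_of_lap_le hu hfin hR hB0 (c := c) (A := A)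
      (fun y hy => (le_abs_self _).trans (hs y hy)) (fun y hy => by
        rw [(contDiff_pev p₁).contDiffAt.laplacian_sub (contDiff_pev p₂).contDiffAt]
        have h3 := (le_abs_self _).trans (hk y (ball_subset_closedBall hy))
        rw [← e₁, ← e₂] at h3
        linarith) x hx
    exact this
  rw [ContinuousMap.norm_le _ (by positivity)]
  rintro ⟨x, hx⟩
  have e : (pc c R q₁ - pc c R q₂) ⟨x, hx⟩ = pev q₁ x - pev q₂ x := rfl
  rw [e, Real.norm_eq_abs, abs_le]
  constructor
  · have := half h₂ h₁ (fun x hx => by rw [abs_sub_comm]; exact hA x hx)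
      (fun x hx => by rw [abs_sub_comm]; exact hgB x hx) x hx
    linarith
  · exact half h₁ h₂ hA hgB x hx

lemma sol_est (hd : 1 ≤ d) (hR : 0 < R) {z₁ z₂ : C(closedBall c R, ℝ) × C(closedBall c R, ℝ)}
    (h₁ : z₁ ∈ SolPair c R) (h₂ : z₂ ∈ SolPair c R) {A : ℝ}
    (hA : ∀ x : closedBall c R, (x : EuclideanSpace ℝ (Fin d)) ∈ sphere c R →
      |z₁.1 x - z₂.1 x| ≤ A) :
    ‖z₁.1 - z₂.1‖ ≤ A + R ^ 2 / 2 * ‖z₁.2 - z₂.2‖ := by
  apply le_of_forall_pos_le_add
  intro ε hε
  set δ : ℝ := ε / (4 + R ^ 2) with hδ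
  have hδ0 : 0 < δ := by positivity
  obtain ⟨_, ⟨q₁, g₁, e₁, rfl⟩, d₁⟩ := Metric.mem_closure_iff.1 h₁ δ hδ0
  obtain ⟨_, ⟨q₂, g₂, e₂, rfl⟩, d₂⟩ := Metric.mem_closure_iff.1 h₂ δ hδ0
  rw [Prod.dist_eq, max_lt_iff] at d₁ d₂
  obtain ⟨a₁, b₁⟩ := d₁
  obtain ⟨a₂, b₂⟩ := d₂
  simp only at a₁ b₁ a₂ b₂
  have hs : ∀ x ∈ sphere c R, |pev q₁ x - pev q₂ x| ≤ A + 2 * δ := by
    intro x hx
    have hx' : x ∈ closedBall c R := sphere_subset_closedBall hx
    have t₁ := (ContinuousMap.dist_apply_le_dist (f := z₁.1) (g := pc c R q₁) ⟨x, hx'⟩).trans a₁.le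
    have t₂ := (ContinuousMap.dist_apply_le_dist (f := z₂.1) (g := pc c R q₂) ⟨x, hx'⟩).trans a₂.le
    have t₃ := hA ⟨x, hx'⟩ hx
    rw [Real.dist_eq, abs_le] at t₁ t₂
    rw [abs_le] at t₃ ⊢
    have u₁ : (pc c R q₁) ⟨x, hx'⟩ = pev q₁ x := rfl
    have u₂ : (pc c R q₂) ⟨x, hx'⟩ = pev q₂ x := rfl
    rw [u₁] at t₁
    rw [u₂] at t₂
    constructor <;> linarith [t₁.1, t₁.2, t₂.1, t₂.2, t₃.1, t₃.2]
  have h3 := poly_est hd hR e₁ e₂ hs
  have h4 : ‖z₁.1 - z₂.1‖ ≤ ‖pc c R q₁ - pc c R q₂‖ + 2 * δ := by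
    rw [← dist_eq_norm, ← dist_eq_norm]
    have := dist_triangle4 z₁.1 (pc c R q₁) (pc c R q₂) z₂.1
    rw [dist_comm (pc c R q₂)] at this
    linarith
  have h5 : ‖pc c R g₁ - pc c R g₂‖ ≤ ‖z₁.2 - z₂.2‖ + 2 * δ := by
    rw [← dist_eq_norm, ← dist_eq_norm]
    have := dist_triangle4 (pc c R g₁) z₁.2 z₂.2 (pc c R g₂)
    rw [dist_comm (pc c R g₁) z₁.2] at this
    linarith
  have h6 : R ^ 2 / 2 * ‖pc c R g₁ - pc c R g₂‖ ≤ R ^ 2 / 2 * (‖z₁.2 - z₂.2‖ + 2 * δ) := by
    gcongr
  have h7 : (4 + R ^ 2) * δ = ε := by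
    rw [hδ]
    field_simp
  nlinarith

/-- Stone-Weierstrass -/
lemma exists_poly_near (f : C(closedBall c R, ℝ)) {ε : ℝ} (hε : 0 < ε) :
    ∃ q : MvPolynomial (Fin d) ℝ, dist f (pc c R q) < ε := by
  set X : Fin d → C(closedBall c R, ℝ) := fun i =>
    ⟨fun x => (x : EuclideanSpace ℝ (Fin d)) i, by fun_prop⟩ with hX
  set a : MvPolynomial (Fin d) ℝ →ₐ[ℝ] C(closedBall c R, ℝ) := MvPolynomial.aeval X with ha
  have hev : ∀ q, a q = pc c R q := by
    intro q
    induction q using MvPolynomial.induction_on with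
    | C r =>
      ext x
      simp [ha, pc, pev]
    | add p q hp hq =>
      rw [map_add, hp, hq]
      ext x
      simp [pc, pev]
    | mul_X p i hp =>
      rw [map_mul, hp]
      ext x
      simp [ha, pc, pev, hX]
  have hsep : (AlgHom.range a).SeparatesPoints := by
    intro x y hxy
    have : ∃ i, (x : EuclideanSpace ℝ (Fin d)) i ≠ (y : EuclideanSpace ℝ (Fin d)) i := by
      by_contra hcon
      push Not at hcon
      apply hxy
      apply Subtype.ext
      ext i
      exact hcon i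
    obtain ⟨i, hi⟩ := this
    refine ⟨X i, ⟨X i, ⟨MvPolynomial.X i, ?_⟩, rfl⟩, hi⟩
    simp [ha]
  have htop := ContinuousMap.subalgebra_topologicalClosure_eq_top_of_separatesPoints _ hsep
  have hmem : f ∈ (AlgHom.range a).topologicalClosure := by
    rw [htop]
    trivial
  have hcl : f ∈ closure ((AlgHom.range a : Subalgebra ℝ C(closedBall c R, ℝ)) :
      Set C(closedBall c R, ℝ)) := hmem
  obtain ⟨_, ⟨q, rfl⟩, hq⟩ := Metric.mem_closure_iff.1 hcl ε hε
  refine ⟨q, ?_⟩
  rw [← hev]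
  exact hq

/-- solvability of the linear Dirichlet problem -/
lemma sol_exists (hd : 1 ≤ d) (hR : 0 < R) (g φ : C(closedBall c R, ℝ)) :
    ∃ h : C(closedBall c R, ℝ), (h, g) ∈ SolPair c R ∧
      ∀ x : closedBall c R, (x : EuclideanSpace ℝ (Fin d)) ∈ sphere c R → h x = φ x := by
  have hpos : ∀ n : ℕ, 0 < 1 / ((n : ℝ) + 1) := fun n => by positivity
  choose P hP using fun n : ℕ => exists_poly_near φ (hpos n)
  choose G hG using fun n : ℕ => exists_poly_near g (hpos n)
  choose Q hQ using fun n : ℕ => exists_poly_dirichlet hd c R hR (P n) (G n)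
  have hPt : Tendsto (fun n => pc c R (P n)) atTop (𝓝 φ) := by
    rw [tendsto_iff_dist_tendsto_zero]
    apply squeeze_zero (fun _ => dist_nonneg) (fun n => ?_) tendsto_one_div_add_atTop_nhds_zero_nat
    rw [dist_comm]
    exact (hP n).le
  have hGt : Tendsto (fun n => pc c R (G n)) atTop (𝓝 g) := by
    rw [tendsto_iff_dist_tendsto_zero]
    apply squeeze_zero (fun _ => dist_nonneg) (fun n => ?_) tendsto_one_div_add_atTop_nhds_zero_nat
    rw [dist_comm]
    exact (hG n).le
  have hcauchy : CauchySeq (fun n => pc c R (Q n)) := by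
    rw [Metric.cauchySeq_iff']
    intro ε hε
    have hδ : 0 < ε / (2 + R ^ 2) := by positivity
    obtain ⟨N₁, h₁⟩ := Metric.cauchySeq_iff'.1 hPt.cauchySeq _ hδ
    obtain ⟨N₂, h₂⟩ := Metric.cauchySeq_iff.1 hPt.cauchySeq _ hδ
    obtain ⟨N₃, h₃⟩ := Metric.cauchySeq_iff.1 hGt.cauchySeq _ hδ
    refine ⟨max N₂ N₃, fun n hn => ?_⟩
    set m := max N₂ N₃
    have a₂ := h₂ n ((le_max_left _ _).trans hn) m (le_max_left _ _)
    have a₃ := h₃ n ((le_max_right _ _).trans hn) m (le_max_right _ _)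
    rw [dist_eq_norm] at a₃ ⊢
    have := poly_est (c := c) hd hR (hQ n).1 (hQ m).1 (A := dist (pc c R (P n)) (pc c R (P m)))
      (fun x hx => by
        have e1 : pev (Q n) x = pev (P n) x := (hQ n).2 x hx
        have e2 : pev (Q m) x = pev (P m) x := (hQ m).2 x hx
        rw [e1, e2]
        exact ContinuousMap.dist_apply_le_dist (f := pc c R (P n)) (g := pc c R (P m))
          ⟨x, sphere_subset_closedBall hx⟩)
    refine this.trans_lt ?_
    have e : ε = (2 + R ^ 2) * (ε / (2 + R ^ 2)) := by field_simp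
    rw [e]
    have : R ^ 2 / 2 * ‖pc c R (G n) - pc c R (G m)‖ ≤ R ^ 2 / 2 * (ε / (2 + R ^ 2)) := by
      gcongr
    nlinarith
  obtain ⟨h, hh⟩ := cauchySeq_tendsto_of_complete hcauchy
  refine ⟨h, ?_, ?_⟩
  · apply mem_closure_of_tendsto (hh.prodMk_nhds hGt)
    filter_upwards with n
    exact ⟨Q n, G n, (hQ n).1, rfl⟩
  · intro x hx
    have c1 : Continuous fun f : C(closedBall c R, ℝ) => f x := continuous_eval_const x
    have t1 : Tendsto (fun n => pc c R (Q n) x) atTop (𝓝 (h x)) := (c1.tendsto _).comp hh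
    have t2 : Tendsto (fun n => pc c R (P n) x) atTop (𝓝 (φ x)) := (c1.tendsto _).comp hPt
    have e : (fun n => pc c R (Q n) x) = fun n => pc c R (P n) x := by
      ext n
      exact (hQ n).2 x hx
    rw [e] at t1
    exact tendsto_nhds_unique t1 t2

end poly

section limit

variable {E : Type*} [NormedAddCommGroup E] [InnerProductSpace ℝ E] [FiniteDimensional ℝ E]
  [MeasurableSpace E] [BorelSpace E]

lemma FF_sub_le {u v k : E → ℝ} (hu : Continuous u) (hv : Continuous v) (hk : Continuous k)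
    (hkc : HasCompactSupport k) (hk0 : ∀ z, 0 ≤ k z) (hk1 : ∀ z, 1 ≤ ‖z‖ → k z = 0)
    {s δ : ℝ} {x : E} (hs : 0 ≤ s)
    (h : ∀ y ∈ closedBall x s, |u y - v y| ≤ δ) :
    |FF u k s x - FF v k s x| ≤ δ * ∫ z : E, k z := by
  unfold FF
  rw [← integral_sub (integrable_FF hu hkc hk s x) (integrable_FF hv hkc hk s x),
    ← integral_const_mul, ← Real.norm_eq_abs]
  apply norm_integral_le_of_norm_le ((hk.integrable_of_hasCompactSupport hkc).const_mul δ)
  filter_upwards with z
  by_cases hz : 1 ≤ ‖z‖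
  · simp [hk1 z hz]
  · push Not at hz
    rw [← sub_smul, norm_smul, Real.norm_eq_abs, Real.norm_of_nonneg (hk0 z)]
    gcongr
    · exact hk0 z
    · apply h
      rw [mem_closedBall, dist_eq_norm, add_sub_cancel_left, norm_smul, Real.norm_of_nonneg hs]
      nlinarith

end limit

section final

variable {d : ℕ} {c : EuclideanSpace ℝ (Fin d)} {R : ℝ}

lemma sol_mvOn {h g : C(closedBall c R, ℝ)} (hs : (h, g) ∈ SolPair c R)
    {h' g' : EuclideanSpace ℝ (Fin d) → ℝ} (hc : Continuous h') (gc : Continuous g')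
    (hh : ∀ x : closedBall c R, h x = h' x) (hg : ∀ x : closedBall c R, g x = g' x) :
    MVOn h' g' (ball c R) := by
  intro x r hr hsub
  have hkap := kap_pos (EuclideanSpace ℝ (Fin d))
  set κ := kap (EuclideanSpace ℝ (Fin d)) with hκ
  set J : (EuclideanSpace ℝ (Fin d) → ℝ) → (EuclideanSpace ℝ (Fin d) → ℝ) → ℝ := fun u v =>
    κ * u x - FF u bumpPhi r x - ∫ s in (0 : ℝ)..r, (s / 2) * FF v bumpPsi s x with hJ
  have hsub' : closedBall x r ⊆ closedBall c R := hsub.trans ball_subset_closedBall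
  have hxc : x ∈ closedBall c R := hsub' (mem_closedBall_self hr.le)
  have main : |J h' g'| ≤ 0 := by
    apply le_of_forall_pos_le_add
    intro ε hε
    rw [zero_add]
    set I := ∫ z : EuclideanSpace ℝ (Fin d), bumpPsi z with hI
    have hI0 : 0 ≤ I := integral_bumpPsi_pos.le
    set δ := ε / (2 * κ + r ^ 2 / 2 * I) with hδ
    have hden : 0 < 2 * κ + r ^ 2 / 2 * I := by positivity
    have hδ0 : 0 < δ := by positivity
    obtain ⟨_, ⟨q, k, e, rfl⟩, dd⟩ := Metric.mem_closure_iff.1 hs δ hδ0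
    rw [Prod.dist_eq, max_lt_iff] at dd
    obtain ⟨d1, d2⟩ := dd
    simp only at d1 d2
    have b1 : ∀ y ∈ closedBall c R, |h' y - pev q y| ≤ δ := by
      intro y hy
      have := (ContinuousMap.dist_apply_le_dist (f := h) (g := pc c R q) ⟨y, hy⟩).trans d1.le
      rw [Real.dist_eq, hh] at this
      exact this
    have b2 : ∀ y ∈ closedBall c R, |g' y - pev k y| ≤ δ := by
      intro y hy
      have := (ContinuousMap.dist_apply_le_dist (f := g) (g := pc c R k) ⟨y, hy⟩).trans d2.le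
      rw [Real.dist_eq, hg] at this
      exact this
    have cq : Continuous (pev q) := (contDiff_pev (n := 0) q).continuous
    have ck : Continuous (pev k) := (contDiff_pev (n := 0) k).continuous
    have hq : J (pev q) (pev k) = 0 := by
      have := mvOn_of_contDiffOn isOpen_univ (contDiff_pev q).contDiffOn
        (g := pev k) (fun y _ => e y) x r hr (subset_univ _)
      have e1 : (∫ z : EuclideanSpace ℝ (Fin d), pev q (x + r • z) * bumpPhi z) =
        FF (pev q) bumpPhi r x := rfl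
      have e2 : (∫ s in (0 : ℝ)..r, (s / 2) * ∫ z : EuclideanSpace ℝ (Fin d),
        pev k (x + s • z) * bumpPsi z) =
        ∫ s in (0 : ℝ)..r, (s / 2) * FF (pev k) bumpPsi s x := rfl
      rw [e1, e2] at this
      rw [hJ]
      simp only
      linarith
    have t1 : |κ * h' x - κ * pev q x| ≤ κ * δ := by
      rw [← mul_sub, abs_mul, abs_of_pos hkap]
      gcongr
      exact b1 x hxc
    have t2 : |FF h' bumpPhi r x - FF (pev q) bumpPhi r x| ≤ δ * κ :=
      FF_sub_le hc cq continuous_bumpPhi hasCompactSupport_bumpPhi bumpPhi_nonneg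
        (fun z hz => bumpPhi_eq_zero hz) hr.le (fun y hy => b1 y (hsub' hy))
    have hcont : ∀ f' : EuclideanSpace ℝ (Fin d) → ℝ, Continuous f' →
        Continuous (fun s : ℝ => (s / 2) *
          FF f' (bumpPsi : EuclideanSpace ℝ (Fin d) → ℝ) s x) := fun f' hf' =>
      (by fun_prop : Continuous fun s : ℝ => s / 2).mul
      ((FF_continuous hf' hasCompactSupport_bumpPsi continuous_bumpPsi).comp
        (by fun_prop : Continuous fun s : ℝ => (s, x)))
    have t3 : |(∫ s in (0 : ℝ)..r, (s / 2) * FF g' bumpPsi s x) -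
        ∫ s in (0 : ℝ)..r, (s / 2) * FF (pev k) bumpPsi s x| ≤ (r / 2 * (δ * I)) * r := by
      rw [← intervalIntegral.integral_sub ((hcont g' gc).intervalIntegrable _ _)
        ((hcont _ ck).intervalIntegrable _ _), ← Real.norm_eq_abs]
      have := intervalIntegral.norm_integral_le_of_norm_le_const (a := 0) (b := r)
        (C := r / 2 * (δ * I))
        (f := fun s => (s / 2) * FF g' bumpPsi s x - (s / 2) * FF (pev k) bumpPsi s x) (by
          intro s hs
          rw [uIoc_of_le hr.le] at hs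
          rw [← mul_sub, Real.norm_eq_abs, abs_mul, abs_of_pos (by linarith [hs.1] : 0 < s / 2)]
          have := FF_sub_le gc ck continuous_bumpPsi hasCompactSupport_bumpPsi bumpPsi_nonneg
            (fun z hz => bumpPsi_eq_zero hz) hs.1.le (x := x) (δ := δ)
            (fun y hy => b2 y (hsub' (closedBall_subset_closedBall hs.2 hy)))
          have h2 := hs.2
          gcongr)
      rwa [sub_zero, abs_of_pos hr] at this
    have e3 : J h' g' = (κ * h' x - κ * pev q x) - (FF h' bumpPhi r x - FF (pev q) bumpPhi r x) -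
        ((∫ s in (0 : ℝ)..r, (s / 2) * FF g' bumpPsi s x) -
        ∫ s in (0 : ℝ)..r, (s / 2) * FF (pev k) bumpPsi s x) := by
      rw [hJ] at hq ⊢
      simp only at hq ⊢
      linarith
    have e4 : (2 * κ + r ^ 2 / 2 * I) * δ = ε := by
      rw [hδ]
      field_simp
    rw [e3]
    rw [abs_le] at t1 t2 t3 ⊢
    constructor <;> nlinarith [t1.1, t1.2, t2.1, t2.2, t3.1, t3.2]
  have h0 : J h' g' = 0 := abs_nonpos_iff.1 main
  have e1 : (∫ z : EuclideanSpace ℝ (Fin d), h' (x + r • z) * bumpPhi z) =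
        FF h' bumpPhi r x := rfl
  have e2 : (∫ s in (0 : ℝ)..r, (s / 2) * ∫ z : EuclideanSpace ℝ (Fin d),
        g' (x + s • z) * bumpPsi z) =
        ∫ s in (0 : ℝ)..r, (s / 2) * FF g' bumpPsi s x := rfl
  rw [e1, e2]
  rw [hJ] at h0
  simp only at h0
  linarith

/-- Solvability of the semilinear Dirichlet problem in small balls. -/
theorem exists_local_solution {d : ℕ} (hd : 1 ≤ d) {F : ℝ → ℝ} {K : NNReal}
    (hF : LipschitzWith K F) (c : EuclideanSpace ℝ (Fin d)) {R : ℝ} (hR : 0 < R)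
    (hKR : K * R ^ 2 < 1) (φ : EuclideanSpace ℝ (Fin d) → ℝ)
    (hφ : ContinuousOn φ (sphere c R)) :
    ∃ h : EuclideanSpace ℝ (Fin d) → ℝ, ContinuousOn h (closedBall c R) ∧
      (∀ x ∈ sphere c R, h x = φ x) ∧ ContDiffOn ℝ 2 h (ball c R) ∧
      ∀ x ∈ ball c R, -(Δ h) x = F (h x) := by
  -- extension of the boundary values
  obtain ⟨Φ, hΦ⟩ := ContinuousMap.exists_restrict_eq (isClosed_sphere (x := c) (ε := R))
      ⟨(sphere c R).domRestrict φ, hφ.domRestrict⟩
  have hΦ' : ∀ x ∈ sphere c R, Φ x = φ x := by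
    intro y hy
    have := congrArg (fun k => k ⟨y, hy⟩) hΦ
    exact this
  set Φ₀ : C(closedBall c R, ℝ) := Φ.restrict (closedBall c R) with hΦ₀
  have hne : Nonempty C(closedBall c R, ℝ) := ⟨Φ₀⟩
  set FC : C(ℝ, ℝ) := ⟨F, hF.continuous⟩ with hFC
  choose T hT using fun h : C(closedBall c R, ℝ) => sol_exists hd hR (FC.comp h) Φ₀
  have hLip : ∀ h₁ h₂ : C(closedBall c R, ℝ), dist (FC.comp h₁) (FC.comp h₂) ≤ K * dist h₁ h₂ := by
    intro h₁ h₂
    rw [ContinuousMap.dist_le (by positivity)]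
    intro x
    calc dist (F (h₁ x)) (F (h₂ x)) ≤ K * dist (h₁ x) (h₂ x) := hF.dist_le_mul _ _
      _ ≤ K * dist h₁ h₂ := by
        gcongr
        exact ContinuousMap.dist_apply_le_dist x
  set K' : ℝ≥0 := ⟨R ^ 2 / 2 * K, by positivity⟩ with hK'
  have hcontr : ContractingWith K' T := by
    constructor
    · rw [← NNReal.coe_lt_coe]
      show R ^ 2 / 2 * (K : ℝ) < 1
      have : 0 ≤ (K : ℝ) * R ^ 2 := by positivity
      linarith
    · apply LipschitzWith.of_dist_le_mul
      intro h₁ h₂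
      have h3 := sol_est (A := 0) hd hR (hT h₁).1 (hT h₂).1 (fun x hx => by
        simp only
        rw [(hT h₁).2 x hx, (hT h₂).2 x hx, sub_self, abs_zero])
      rw [← dist_eq_norm, ← dist_eq_norm, zero_add] at h3
      simp only at h3
      refine h3.trans ?_
      have := hLip h₁ h₂
      show R ^ 2 / 2 * dist (FC.comp h₁) (FC.comp h₂) ≤ (R ^ 2 / 2 * K) * dist h₁ h₂
      rw [mul_assoc]
      gcongr
  set h := ContractingWith.fixedPoint T hcontr with hh
  have hfix : T h = h := hcontr.fixedPoint_isFixedPt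
  have hsol : (h, FC.comp h) ∈ SolPair c R := by
    have := (hT h).1
    rwa [hfix] at this
  have hbd : ∀ x : closedBall c R, (x : EuclideanSpace ℝ (Fin d)) ∈ sphere c R → h x = Φ₀ x := by
    have := (hT h).2
    rwa [hfix] at this
  obtain ⟨h', hh'⟩ := ContinuousMap.exists_restrict_eq (isClosed_closedBall (x := c) (ε := R)) h
  have hval : ∀ x : closedBall c R, h x = h' x := by
    intro x
    rw [← hh']
    rfl
  have hMV : MVOn h' (fun y => F (h' y)) (ball c R) := by
    apply sol_mvOn hsol h'.continuous (hF.continuous.comp h'.continuous) hval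
    intro x
    show F (h x) = F (h' x)
    rw [hval]
  obtain ⟨C, hC, hCL⟩ := MVOn.lipschitz (EuclideanSpace ℝ (Fin d))
  have hgc : Continuous (fun y => F (h' y)) := hF.continuous.comp h'.continuous
  have hloc : LocallyLipschitzOn (ball c R) (fun y => F (h' y)) := by
    intro x₀ hx₀
    obtain ⟨ε, hε, hball⟩ := Metric.nhds_basis_closedBall.mem_iff.1 (isOpen_ball.mem_nhds hx₀)
    set r := ε / 2 with hr
    have hr0 : 0 < r := by positivity
    obtain ⟨A, hA⟩ := (isCompact_closedBall x₀ ε).exists_bound_of_continuousOn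
      h'.continuous.continuousOn
    obtain ⟨B, hB⟩ := (isCompact_closedBall x₀ ε).exists_bound_of_continuousOn hgc.continuousOn
    have hA0 : 0 ≤ A := (norm_nonneg _).trans (hA x₀ (mem_closedBall_self hε.le))
    have hB0 : 0 ≤ B := (norm_nonneg _).trans (hB x₀ (mem_closedBall_self hε.le))
    refine ⟨K * ⟨C * (A / r + r * B), by positivity⟩, ball x₀ (r / 4),
      mem_nhdsWithin_of_mem_nhds (ball_mem_nhds _ (by positivity)), ?_⟩
    have hLL : LipschitzOnWith ⟨C * (A / r + r * B), by positivity⟩ h' (ball x₀ (r / 4)) := by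
      apply LipschitzOnWith.of_dist_le_mul
      intro x hx y hy
      rw [mem_ball] at hx hy
      have hsub : closedBall x r ⊆ closedBall x₀ ε := by
        apply closedBall_subset_closedBall'
        linarith
      have := hCL h' (fun y => F (h' y)) (ball c R) h'.continuous.continuousOn hgc.continuousOn hMV
        x y r A B hr0 (hsub.trans hball) (fun z hz => hA z (hsub hz)) (fun z hz => hB z (hsub hz))
        (by
          have := dist_triangle x x₀ y
          rw [dist_comm x₀ y] at this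
          linarith)
      rw [Real.dist_eq]
      show |h' x - h' y| ≤ (C * (A / r + r * B)) * dist x y
      linarith
    exact hF.comp_lipschitzOnWith hLL
  obtain ⟨h1, h2⟩ := MVOn.contDiffOn isOpen_ball h'.continuous.continuousOn hloc hMV
  refine ⟨h', h'.continuous.continuousOn, ?_, h1, h2⟩
  intro x hx
  have hx' : x ∈ closedBall c R := sphere_subset_closedBall hx
  have := hbd ⟨x, hx'⟩ hx
  rw [hval] at this
  rw [← hΦ' x hx]
  exact this

end final



end Pool.Agent.Lib.MP_437bdf_an
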