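import Pool.Agent.Lib.MP_437bdf_an.ExistA
import Pool.Agent.Lib.MP_437bdf_an.LocalSolver

/-! Existence, part B: local replacement (Schwarz alternating method). -/

open Set Metric Filter Topology
open InnerProductSpace Laplacian

namespace Pool.Agent.Lib.MP_437bdf_an

namespace Ex

variable {d : ℕ}

/-- a small ball whose closure lies in `Ω` -/
structure IsGood (K : NNReal) (Ω : Set (EuclideanSpace ℝ (Fin d))) (c : EuclideanSpace ℝ (Fin d))
    (r : ℝ) : Prop where
  pos : 0 < r
  sub : closedBall c r ⊆ Ω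
  small : K * r ^ 2 < 1

/-- `h` solves `-Δ h = F h` in `ball c r` with boundary values `w` -/
structure IsDir (F : ℝ → ℝ) (c : EuclideanSpace ℝ (Fin d)) (r : ℝ)
    (w h : EuclideanSpace ℝ (Fin d) → ℝ) : Prop where
  cont : ContinuousOn h (closedBall c r)
  bd : ∀ x ∈ sphere c r, h x = w x
  c2 : ContDiffOn ℝ 2 h (ball c r)
  eqn : ∀ x ∈ ball c r, -(Δ h) x = F (h x)

open Classical in
/-- local replacement -/
noncomputable def repl (F : ℝ → ℝ) (c : EuclideanSpace ℝ (Fin d)) (r : ℝ)
    (w : EuclideanSpace ℝ (Fin d) → ℝ) : EuclideanSpace ℝ (Fin d) → ℝ :=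
  fun x => if h : ∃ h, IsDir F c r w h then (if x ∈ ball c r then h.choose x else w x) else w x

section
variable {F : ℝ → ℝ} {K : NNReal} {Ω : Set (EuclideanSpace ℝ (Fin d))}
  {c : EuclideanSpace ℝ (Fin d)} {r : ℝ} {w : EuclideanSpace ℝ (Fin d) → ℝ}

theorem repl_of_notMem {x : EuclideanSpace ℝ (Fin d)} (hx : x ∉ ball c r) :
    repl F c r w x = w x := by
  unfold repl
  split_ifs <;> rfl

theorem exists_isDir (hd : 1 ≤ d) (hF : LipschitzWith K F) (hg : IsGood K Ω c r)
    (hw : Continuous w) : ∃ h, IsDir F c r w h := by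
  obtain ⟨h, h1, h2, h3, h4⟩ := exists_local_solution hd hF c hg.pos hg.small w hw.continuousOn
  exact ⟨h, h1, h2, h3, h4⟩

theorem repl_isDir (hd : 1 ≤ d) (hF : LipschitzWith K F) (hg : IsGood K Ω c r)
    (hw : Continuous w) : IsDir F c r w (repl F c r w) := by
  have hex := exists_isDir hd hF hg hw
  obtain ⟨h, hh⟩ : ∃ h, h = hex.choose := ⟨_, rfl⟩
  have hD : IsDir F c r w h := by rw [hh]; exact hex.choose_spec
  have e1 : ∀ x ∈ ball c r, repl F c r w x = h x := by
    intro x hx
    simp only [repl, dif_pos hex, if_pos hx, hh]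
  have e2 : ∀ x ∈ closedBall c r, repl F c r w x = h x := by
    intro x hx
    by_cases hb : x ∈ ball c r
    · exact e1 x hb
    · have hs : x ∈ sphere c r := by
        rw [mem_sphere]; rw [mem_closedBall] at hx; rw [mem_ball] at hb; linarith
      rw [repl_of_notMem hb, hD.bd x hs]
  refine ⟨hD.cont.congr e2, ?_, hD.c2.congr e1, ?_⟩
  · intro x hx
    rw [e2 x (sphere_subset_closedBall hx), hD.bd x hx]
  · intro x hx
    have : repl F c r w =ᶠ[𝓝 x] h := by
      filter_upwards [isOpen_ball.mem_nhds hx] with y hy using e1 y hy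
    rw [laplacian_congr_nhds this |>.self_of_nhds, e1 x hx, hD.eqn x hx]

theorem repl_continuous (hd : 1 ≤ d) (hF : LipschitzWith K F) (hg : IsGood K Ω c r)
    (hw : Continuous w) : Continuous (repl F c r w) := by
  have h1 := (repl_isDir hd hF hg hw).cont
  have h2 : ContinuousOn (repl F c r w) (ball c r)ᶜ :=
    hw.continuousOn.congr fun x hx => repl_of_notMem hx
  rw [← continuousOn_univ]
  have h3 : (univ : Set (EuclideanSpace ℝ (Fin d))) = closedBall c r ∪ (ball c r)ᶜ := by
    ext x; simp only [mem_univ, mem_union, mem_closedBall, mem_compl_iff, mem_ball, true_iff]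
    by_cases h : dist x c ≤ r
    · exact Or.inl h
    · exact Or.inr (by linarith)
  rw [h3]
  exact h1.union_of_isClosed h2 isClosed_closedBall isOpen_ball.isClosed_compl

theorem closure_ball_sub_closedBall : closure (ball c r) ⊆ closedBall c r :=
  closure_ball_subset_closedBall

theorem frontier_ball_sub_sphere : frontier (ball c r) ⊆ sphere c r :=
  frontier_ball_subset_sphere

theorem small_finrank (hd : 1 ≤ d) (hg : IsGood K Ω c r) :
    (K : ℝ) * r ^ 2 < Module.finrank ℝ (EuclideanSpace ℝ (Fin d)) := by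
  have : (1 : ℝ) ≤ Module.finrank ℝ (EuclideanSpace ℝ (Fin d)) := by
    rw [finrank_euclideanSpace_fin]; exact_mod_cast hd
  linarith [hg.small]

/-- monotonicity of the replacement -/
theorem repl_mono (hd : 1 ≤ d) (hF : LipschitzWith K F) (hg : IsGood K Ω c r)
    (hw : Continuous w) {w' : EuclideanSpace ℝ (Fin d) → ℝ} (hw' : Continuous w')
    (hle : ∀ x, w x ≤ w' x) : ∀ x, repl F c r w x ≤ repl F c r w' x := by
  intro x
  by_cases hx : x ∈ ball c r
  · have h1 := repl_isDir hd hF hg hw
    have h2 := repl_isDir hd hF hg hw'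
    refine comparison hF isOpen_ball (subset_refl _) (small_finrank hd hg)
      (h1.cont.mono closure_ball_sub_closedBall) (h2.cont.mono closure_ball_sub_closedBall)
      h1.c2 h2.c2 (fun y hy => (h1.eqn y hy).le) (fun y hy => (h2.eqn y hy).ge) ?_ x hx
    intro y hy
    have hs := frontier_ball_sub_sphere hy
    rw [h1.bd y hs, h2.bd y hs]
    exact hle y
  · rw [repl_of_notMem hx, repl_of_notMem hx]; exact hle x

/-- `w` is a subsolution in `Ω` in the sense of local replacements -/
def IsSub (F : ℝ → ℝ) (K : NNReal) (Ω : Set (EuclideanSpace ℝ (Fin d)))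
    (w : EuclideanSpace ℝ (Fin d) → ℝ) : Prop :=
  ∀ c r, IsGood K Ω c r → ∀ x, w x ≤ repl F c r w x

theorem IsSub.repl (hd : 1 ≤ d) (hF : LipschitzWith K F) (hg : IsGood K Ω c r)
    (hw : Continuous w) (hs : IsSub F K Ω w) : IsSub F K Ω (repl F c r w) := by
  intro c' r' hg' x
  have hwc := repl_continuous hd hF hg hw
  have hle : ∀ y, w y ≤ Ex.repl F c r w y := hs c r hg
  set w' := Ex.repl F c r w with hw'
  set w'' := Ex.repl F c' r' w' with hw''
  have hD' := repl_isDir hd hF hg hw
  have hD'' := repl_isDir hd hF hg' hwc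
  rw [← hw'] at hD'
  rw [← hw''] at hD''
  have hwc'' : Continuous w'' := repl_continuous hd hF hg' hwc
  -- outside `ball c' r'`
  by_cases hx' : x ∈ ball c' r'
  swap
  · rw [hw'', repl_of_notMem hx']
  -- outside `ball c r`
  have hout : ∀ y, y ∉ ball c r → w' y ≤ w'' y := by
    intro y hy
    have h1 : w' y = w y := by rw [hw', repl_of_notMem hy]
    rw [h1]
    exact (hs c' r' hg' y).trans (repl_mono hd hF hg' hw hwc hle y)
  by_cases hx : x ∈ ball c r
  swap
  · exact hout x hx
  have hDo : IsOpen (ball c r ∩ ball c' r') := isOpen_ball.inter isOpen_ball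
  refine comparison hF hDo (inter_subset_left) (small_finrank hd hg) hwc.continuousOn
    hwc''.continuousOn (hD'.c2.mono inter_subset_left) (hD''.c2.mono inter_subset_right)
    (fun y hy => (hD'.eqn y hy.1).le) (fun y hy => (hD''.eqn y hy.2).ge) ?_ x ⟨hx, hx'⟩
  intro y hy
  rcases frontier_inter_subset _ _ hy with h | h
  · have hs' : y ∉ ball c r := by
      have := frontier_ball_sub_sphere h.1
      rw [mem_sphere] at this
      rw [mem_ball]; linarith
    exact hout y hs'
  · have hs' : y ∈ sphere c' r' := frontier_ball_sub_sphere h.2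
    rw [hD''.bd y hs']

end

end Ex

end Pool.Agent.Lib.MP_437bdf_an
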