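import Pool.Agent.Lib.MP_437bdf_an.ExistA
import Pool.Agent.Lib.MP_437bdf_an.LocalSolver

/-! Existence, part C: limits of solutions. -/

open Set Metric Filter Topology MeasureTheory
open InnerProductSpace Laplacian

namespace Pool.Agent.Lib.MP_437bdf_an

namespace Ex

section
variable {E : Type*} [NormedAddCommGroup E] [InnerProductSpace ℝ E]

omit [InnerProductSpace ℝ E] in
theorem continuous_bumpPhi : Continuous (bumpPhi : E → ℝ) := by
  unfold bumpPhi
  exact (expNegInvGlue.contDiff (n := 0)).continuous.comp (by fun_prop)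

theorem continuous_primG : Continuous primG := by
  unfold primG
  exact intervalIntegral.continuous_primitive
    (fun a b => ((expNegInvGlue.contDiff (n := 0)).continuous).intervalIntegrable a b) 0

omit [InnerProductSpace ℝ E] in
theorem continuous_bumpPsi : Continuous (bumpPsi : E → ℝ) := by
  unfold bumpPsi
  exact continuous_primG.comp (by fun_prop)

omit [InnerProductSpace ℝ E] in
theorem bumpPhi_eq_zero {z : E} (hz : 1 ≤ ‖z‖) : bumpPhi z = 0 := by
  unfold bumpPhi
  apply expNegInvGlue.zero_of_nonpos
  nlinarith [norm_nonneg z]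

theorem primG_eq_zero {τ : ℝ} (h : τ ≤ 0) : primG τ = 0 := by
  unfold primG
  rw [intervalIntegral.integral_symm]
  rw [neg_eq_zero]
  have : ∫ t in τ..0, expNegInvGlue t = ∫ t in τ..0, (0 : ℝ) := by
    apply intervalIntegral.integral_congr
    intro t ht
    rw [uIcc_of_le h] at ht
    exact expNegInvGlue.zero_of_nonpos ht.2
  rw [this]; simp

omit [InnerProductSpace ℝ E] in
theorem bumpPsi_eq_zero {z : E} (hz : 1 ≤ ‖z‖) : bumpPsi z = 0 := by
  unfold bumpPsi
  apply primG_eq_zero
  nlinarith [norm_nonneg z]

variable [FiniteDimensional ℝ E]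

theorem hasCompactSupport_bumpPhi : HasCompactSupport (bumpPhi : E → ℝ) := by
  refine HasCompactSupport.intro (isCompact_closedBall (0 : E) 1) fun z hz => ?_
  apply bumpPhi_eq_zero
  rw [mem_closedBall, dist_zero_right] at hz
  linarith

theorem hasCompactSupport_bumpPsi : HasCompactSupport (bumpPsi : E → ℝ) := by
  refine HasCompactSupport.intro (isCompact_closedBall (0 : E) 1) fun z hz => ?_
  apply bumpPsi_eq_zero
  rw [mem_closedBall, dist_zero_right] at hz
  linarith

variable [MeasurableSpace E] [BorelSpace E]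

theorem integrable_bumpPhi : Integrable (bumpPhi : E → ℝ) :=
  continuous_bumpPhi.integrable_of_hasCompactSupport hasCompactSupport_bumpPhi

theorem integrable_bumpPsi : Integrable (bumpPsi : E → ℝ) :=
  continuous_bumpPsi.integrable_of_hasCompactSupport hasCompactSupport_bumpPsi

/-- the mean value identity passes to bounded pointwise limits -/
theorem mvOn_of_tendsto {F : ℝ → ℝ} (hF : Continuous F) {M A : ℝ} (hM : ∀ s, |F s| ≤ M)
    {D : Set E} {w : ℕ → E → ℝ} (hc : ∀ n, Continuous (w n)) (hA : ∀ n x, |w n x| ≤ A)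
    {u : E → ℝ} (hlim : ∀ x, Tendsto (fun n => w n x) atTop (𝓝 (u x)))
    (hmv : ∀ n, MVOn (w n) (fun x => F (w n x)) D) : MVOn u (fun x => F (u x)) D := by
  intro x r hr hD
  have e := fun n => hmv n x r hr hD
  have hL : Tendsto (fun n => kap E * w n x) atTop (𝓝 (kap E * u x)) := (hlim x).const_mul _
  have hI : Tendsto (fun n => ∫ z : E, w n (x + r • z) * bumpPhi z) atTop
      (𝓝 (∫ z : E, u (x + r • z) * bumpPhi z)) := by
    refine tendsto_integral_of_dominated_convergence (fun z => A * |bumpPhi z|) ?_ ?_ ?_ ?_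
    · intro n
      exact (((hc n).comp (by fun_prop)).mul continuous_bumpPhi).aestronglyMeasurable
    · exact integrable_bumpPhi.abs.const_mul A
    · intro n
      refine Filter.Eventually.of_forall fun z => ?_
      rw [Real.norm_eq_abs, abs_mul]
      gcongr
      exact hA _ _
    · refine Filter.Eventually.of_forall fun z => ?_
      exact (hlim _).mul_const _
  have hin : ∀ s : ℝ, Tendsto (fun n => ∫ z : E, F (w n (x + s • z)) * bumpPsi z) atTop
      (𝓝 (∫ z : E, F (u (x + s • z)) * bumpPsi z)) := by
    intro s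
    refine tendsto_integral_of_dominated_convergence (fun z => M * |bumpPsi z|) ?_ ?_ ?_ ?_
    · intro n
      exact ((hF.comp ((hc n).comp (by fun_prop))).mul continuous_bumpPsi).aestronglyMeasurable
    · exact integrable_bumpPsi.abs.const_mul M
    · intro n
      refine Filter.Eventually.of_forall fun z => ?_
      rw [Real.norm_eq_abs, abs_mul]
      gcongr
      exact hM _
    · refine Filter.Eventually.of_forall fun z => ?_
      exact ((hF.tendsto _).comp (hlim _)).mul_const _
  have hcont : ∀ n, Continuous (fun s : ℝ => ∫ z : E, F (w n (x + s • z)) * bumpPsi z) := by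
    intro n
    refine continuous_of_dominated (bound := fun z => M * |bumpPsi z|) ?_ ?_ ?_ ?_
    · intro s
      exact ((hF.comp ((hc n).comp (by fun_prop))).mul continuous_bumpPsi).aestronglyMeasurable
    · intro s
      refine Filter.Eventually.of_forall fun z => ?_
      rw [Real.norm_eq_abs, abs_mul]
      gcongr
      exact hM _
    · exact integrable_bumpPsi.abs.const_mul M
    · refine Filter.Eventually.of_forall fun z => ?_
      exact (hF.comp ((hc n).comp (by fun_prop))).mul continuous_const
  have hJ : Tendsto (fun n => ∫ s in (0 : ℝ)..r, (s / 2) *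
      ∫ z : E, F (w n (x + s • z)) * bumpPsi z) atTop
      (𝓝 (∫ s in (0 : ℝ)..r, (s / 2) * ∫ z : E, F (u (x + s • z)) * bumpPsi z)) := by
    refine intervalIntegral.tendsto_integral_filter_of_dominated_convergence
      (fun s => |s / 2| * ∫ z : E, M * |bumpPsi z|) ?_ ?_ ?_ ?_
    · refine Filter.Eventually.of_forall fun n => ?_
      exact ((continuous_id.div_const 2).mul (hcont n)).aestronglyMeasurable
    · refine Filter.Eventually.of_forall fun n => Filter.Eventually.of_forall fun s _ => ?_
      rw [norm_mul, Real.norm_eq_abs (s / 2)]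
      gcongr
      refine norm_integral_le_of_norm_le (integrable_bumpPsi.abs.const_mul M) ?_
      refine Filter.Eventually.of_forall fun z => ?_
      rw [Real.norm_eq_abs, abs_mul]
      gcongr
      exact hM _
    · apply Continuous.intervalIntegrable
      fun_prop
    · refine Filter.Eventually.of_forall fun s _ => ?_
      exact (hin s).const_mul _
  have hR := hI.add hJ
  have hE : (fun n => kap E * w n x) = fun n => (∫ z : E, w n (x + r • z) * bumpPhi z)
      + ∫ s in (0 : ℝ)..r, (s / 2) * ∫ z : E, F (w n (x + s • z)) * bumpPsi z := funext e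
  rw [hE] at hL
  exact tendsto_nhds_unique hL hR

/-- Bounded pointwise limits of solutions are solutions. -/
theorem limit_solution {F : ℝ → ℝ} {K : NNReal} (hF : LipschitzWith K F) {M A : ℝ}
    (hM : ∀ s, |F s| ≤ M) {D : Set E} (hDo : IsOpen D) {w : ℕ → E → ℝ}
    (hc : ∀ n, Continuous (w n)) (hA : ∀ n x, |w n x| ≤ A)
    {u : E → ℝ} (hlim : ∀ x, Tendsto (fun n => w n x) atTop (𝓝 (u x)))
    (hc2 : ∀ n, ContDiffOn ℝ 2 (w n) D) (heq : ∀ n, ∀ x ∈ D, -(Δ (w n)) x = F (w n x)) :
    ContDiffOn ℝ 2 u D ∧ ∀ x ∈ D, -(Δ u) x = F (u x) := by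
  have hmv : ∀ n, MVOn (w n) (fun x => F (w n x)) D := fun n =>
    mvOn_of_contDiffOn hDo (hc2 n) (heq n)
  have hu := mvOn_of_tendsto hF.continuous hM hc hA hlim hmv
  obtain ⟨C, hC, hlip⟩ := MVOn.lipschitz E
  have hest : ∀ (x y : E) (r : ℝ), 0 < r → closedBall x r ⊆ D → dist x y ≤ r / 2 →
      |u x - u y| ≤ C * dist x y * (A / r + r * M) := by
    intro x y r hr hD hxy
    have h1 : ∀ n, |w n x - w n y| ≤ C * dist x y * (A / r + r * M) := fun n =>
      hlip (w n) (fun x => F (w n x)) D (hc n).continuousOn
        (hF.continuous.comp (hc n)).continuousOn (hmv n) x y r A M hr hD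
        (fun z _ => hA n z) (fun z _ => hM _) hxy
    have h2 : Tendsto (fun n => |w n x - w n y|) atTop (𝓝 |u x - u y|) :=
      ((hlim x).sub (hlim y)).abs
    exact le_of_tendsto' h2 h1
  have hM0 : 0 ≤ M := (abs_nonneg _).trans (hM 0)
  have hll : LocallyLipschitzOn D u := by
    intro x hx
    have hA0 : 0 ≤ A := (abs_nonneg _).trans (hA 0 x)
    obtain ⟨ε, hε, hball⟩ := Metric.isOpen_iff.1 hDo x hx
    set r := ε / 4 with hr
    have hr0 : 0 < r := by positivity
    have hK0 : 0 ≤ C * (A / r + r * M) := by positivity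
    refine ⟨(C * (A / r + r * M)).toNNReal, ball x (r / 4) ∩ D,
      inter_mem (mem_nhdsWithin_of_mem_nhds (ball_mem_nhds x (by positivity)))
        self_mem_nhdsWithin, ?_⟩
    refine LipschitzOnWith.of_dist_le_mul ?_
    intro y hy z hz
    rw [Real.coe_toNNReal _ hK0]
    have h1 : closedBall y r ⊆ D := by
      intro a ha
      apply hball
      rw [mem_ball]
      have h2 := mem_closedBall.1 ha
      have h3 := mem_ball.1 hy.1
      calc dist a x ≤ dist a y + dist y x := dist_triangle _ _ _
        _ < ε := by rw [hr] at *; linarith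
    have h2 : dist y z ≤ r / 2 := by
      have h3 := mem_ball.1 hy.1
      have h4 := mem_ball.1 hz.1
      calc dist y z ≤ dist y x + dist z x := dist_triangle_right _ _ _
        _ ≤ r / 2 := by linarith
    have := hest y z r hr0 h1 h2
    rw [Real.dist_eq]
    calc |u y - u z| ≤ C * dist y z * (A / r + r * M) := this
      _ = C * (A / r + r * M) * dist y z := by ring
  have huc : ContinuousOn u D := hll.continuousOn
  have hg : LocallyLipschitzOn D (fun x => F (u x)) := by
    intro x hx
    obtain ⟨K', t, ht, hK'⟩ := hll hx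
    exact ⟨K * K', t, ht, hF.comp_lipschitzOnWith hK'⟩
  exact MVOn.contDiffOn hDo huc hg hu

end

end Ex

end Pool.Agent.Lib.MP_437bdf_an
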