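import Pool.Agent.Lib.MP_437bdf_an.ExistA
import Pool.Agent.Lib.MP_437bdf_an.ExistB
import Pool.Agent.Lib.MP_437bdf_an.ExistC
import Pool.Agent.Lib.MP_437bdf_an.LocalSolver
import Pool.Agent.Lib.MP_437bdf_an.Barrier

/-! Existence of a positive bounded solution by the Schwarz alternating method. -/

open Set Metric Filter Topology
open InnerProductSpace Laplacian

namespace Pool.Agent.Lib.MP_437bdf_an

namespace Ex

variable {d : ℕ}

/-! ### barriers -/

/-- a barrier: nonnegative on `Ω`, and where it is `< 1` its `-Δ` is at least `M` -/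
structure IsBarrier (M : ℝ) (Ω : Set (EuclideanSpace ℝ (Fin d)))
    (S : EuclideanSpace ℝ (Fin d) → ℝ) : Prop where
  c2 : ContDiff ℝ 2 S
  nonneg : ∀ x ∈ Ω, 0 ≤ S x
  super : ∀ x ∈ Ω, S x < 1 → M ≤ -(Δ S) x

theorem exists_barrier {M : ℝ} (hM : 0 ≤ M) {Ω : Set (EuclideanSpace ℝ (Fin d))} {ρ : ℝ}
    (hρ : 0 < ρ) {c p : EuclideanSpace ℝ (Fin d)} (hc : ball c ρ ⊆ Ωᶜ) (hp : dist p c = ρ) :
    ∃ S, IsBarrier M Ω S ∧ S p = 0 := by
  set k : ℝ := (d + 1) / ρ ^ 2 + 1 with hk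
  have hρ2 : 0 < ρ ^ 2 := by positivity
  have hk1 : 1 ≤ k := by
    have : 0 ≤ ((d : ℝ) + 1) / ρ ^ 2 := by positivity
    linarith
  have hkρ : (d : ℝ) + 1 ≤ k * ρ ^ 2 := by
    have : ((d : ℝ) + 1) / ρ ^ 2 * ρ ^ 2 = d + 1 := by field_simp
    nlinarith
  set A : ℝ := (M + 1) * Real.exp (k * ρ ^ 2) with hA
  have hApos : 0 < A := by positivity
  have hAe : A * Real.exp (-(k * ρ ^ 2)) = M + 1 := by
    rw [hA, mul_assoc, ← Real.exp_add]; simp
  set S : EuclideanSpace ℝ (Fin d) → ℝ :=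
    fun x => A * (Real.exp (-(k * ρ ^ 2)) - Real.exp (-(k * ‖x - c‖ ^ 2))) with hS
  have hdist : ∀ x ∈ Ω, ρ ^ 2 ≤ ‖x - c‖ ^ 2 := by
    intro x hx
    have : ρ ≤ ‖x - c‖ := by
      by_contra hlt
      push Not at hlt
      exact hc (by rw [mem_ball, dist_eq_norm]; exact hlt) hx
    gcongr
  have hlapS : ∀ x, (Δ S) x = A * Real.exp (-(k * ‖x - c‖ ^ 2)) *
      (-(4 * k ^ 2 * ‖x - c‖ ^ 2) + 2 * d * k) := by
    intro x
    have h := lap_radial (c := c) (x := x)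
      (φ := fun t => A * (Real.exp (-(k * ρ ^ 2)) - Real.exp (-(k * t))))
      (φ' := fun t => A * (k * Real.exp (-(k * t))))
      (φ'' := A * (k * (-k * Real.exp (-(k * ‖x - c‖ ^ 2))))) ?_ ?_
    · have e : (Δ S) x = 4 * ‖x - c‖ ^ 2 * (A * (k * (-k * Real.exp (-(k * ‖x - c‖ ^ 2))))) +
          2 * (Module.finrank ℝ (EuclideanSpace ℝ (Fin d))) *
            (A * (k * Real.exp (-(k * ‖x - c‖ ^ 2)))) := h
      rw [e, finrank_euclideanSpace_fin]; ring
    · refine Filter.Eventually.of_forall fun t => ?_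
      have h1 : HasDerivAt (fun t : ℝ => -(k * t)) (-k) t :=
        (((hasDerivAt_id t).const_mul k).neg).congr_deriv (by simp)
      have h2 := (h1.exp.const_sub (Real.exp (-(k * ρ ^ 2)))).const_mul A
      exact h2.congr_deriv (by ring)
    · have h1 : HasDerivAt (fun t : ℝ => -(k * t)) (-k) (‖x - c‖ ^ 2) :=
        (((hasDerivAt_id (‖x - c‖ ^ 2)).const_mul k).neg).congr_deriv (by simp)
      have h2 := (h1.exp.const_mul k).const_mul A
      exact h2.congr_deriv (by ring)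
  refine ⟨S, ⟨?_, ?_, ?_⟩, ?_⟩
  · have : ContDiff ℝ 2 (fun x : EuclideanSpace ℝ (Fin d) => ‖x - c‖ ^ 2) :=
      (contDiff_id.sub contDiff_const).norm_sq ℝ
    exact contDiff_const.mul (contDiff_const.sub (Real.contDiff_exp.comp (contDiff_const.mul this).neg))
  · intro x hx
    have h1 := hdist x hx
    have h2 : Real.exp (-(k * ‖x - c‖ ^ 2)) ≤ Real.exp (-(k * ρ ^ 2)) := by
      apply Real.exp_le_exp.2
      have : k * ρ ^ 2 ≤ k * ‖x - c‖ ^ 2 := by gcongr
      linarith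
    simp only [hS]
    have : 0 ≤ Real.exp (-(k * ρ ^ 2)) - Real.exp (-(k * ‖x - c‖ ^ 2)) := by linarith
    positivity
  · intro x hx hlt
    have h1 := hdist x hx
    have h3 : M ≤ A * Real.exp (-(k * ‖x - c‖ ^ 2)) := by
      simp only [hS] at hlt
      rw [mul_sub, hAe] at hlt
      linarith
    have h4 : (1 : ℝ) ≤ 4 * k ^ 2 * ‖x - c‖ ^ 2 - 2 * d * k := by
      have h5 : k ^ 2 * ρ ^ 2 ≤ k ^ 2 * ‖x - c‖ ^ 2 := by gcongr
      have h6 : k * ((d : ℝ) + 1) ≤ k * (k * ρ ^ 2) := by gcongr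
      have h7 : (0:ℝ) ≤ d := by positivity
      nlinarith
    rw [hlapS]
    have h8 : 0 ≤ A * Real.exp (-(k * ‖x - c‖ ^ 2)) := by positivity
    calc M ≤ A * Real.exp (-(k * ‖x - c‖ ^ 2)) * 1 := by linarith
      _ ≤ A * Real.exp (-(k * ‖x - c‖ ^ 2)) * (4 * k ^ 2 * ‖x - c‖ ^ 2 - 2 * d * k) := by
          gcongr
      _ = _ := by ring
  · have : ‖p - c‖ = ρ := by rw [← dist_eq_norm]; exact hp
    simp only [hS, this]; ring

/-! ### the initial subsolution -/

/-- the initial subsolution -/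
noncomputable def bump0 (s₀ R₀ : ℝ) (x₀ : EuclideanSpace ℝ (Fin d))
    (x : EuclideanSpace ℝ (Fin d)) : ℝ := s₀ * (max 0 (1 - ‖x - x₀‖ ^ 2 / R₀ ^ 2)) ^ 2

section bump0
variable {s₀ R₀ : ℝ} {x₀ : EuclideanSpace ℝ (Fin d)}

theorem bump0_continuous : Continuous (bump0 s₀ R₀ x₀) := by
  unfold bump0
  fun_prop

theorem bump0_nonneg (hs : 0 ≤ s₀) (x : EuclideanSpace ℝ (Fin d)) : 0 ≤ bump0 s₀ R₀ x₀ x := by
  unfold bump0; positivity

theorem bump0_le (hs : 0 ≤ s₀) (x : EuclideanSpace ℝ (Fin d)) : bump0 s₀ R₀ x₀ x ≤ s₀ := by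
  unfold bump0
  have h1 : max 0 (1 - ‖x - x₀‖ ^ 2 / R₀ ^ 2) ≤ 1 := by
    apply max_le zero_le_one
    have : 0 ≤ ‖x - x₀‖ ^ 2 / R₀ ^ 2 := by positivity
    linarith
  have h2 : (max 0 (1 - ‖x - x₀‖ ^ 2 / R₀ ^ 2)) ^ 2 ≤ 1 := by
    apply pow_le_one₀ (le_max_left _ _) h1
  calc s₀ * (max 0 (1 - ‖x - x₀‖ ^ 2 / R₀ ^ 2)) ^ 2 ≤ s₀ * 1 := by gcongr
    _ = s₀ := by ring

theorem bump0_self : bump0 s₀ R₀ x₀ x₀ = s₀ := by
  unfold bump0; simp

theorem bump0_eq_zero (hR : 0 < R₀) {x : EuclideanSpace ℝ (Fin d)} (hx : x ∉ ball x₀ R₀) :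
    bump0 s₀ R₀ x₀ x = 0 := by
  unfold bump0
  have h1 : R₀ ≤ ‖x - x₀‖ := by
    rw [mem_ball, dist_eq_norm] at hx; linarith
  have h2 : 1 ≤ ‖x - x₀‖ ^ 2 / R₀ ^ 2 := by
    rw [one_le_div (by positivity)]; gcongr
  rw [max_eq_left (by linarith)]; ring

theorem bump0_eq (hR : 0 < R₀) {x : EuclideanSpace ℝ (Fin d)} (hx : x ∈ ball x₀ R₀) :
    bump0 s₀ R₀ x₀ x = s₀ * (1 - ‖x - x₀‖ ^ 2 / R₀ ^ 2) ^ 2 := by
  unfold bump0
  have h1 : ‖x - x₀‖ < R₀ := by
    rw [mem_ball, dist_eq_norm] at hx; linarith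
  have h2 : ‖x - x₀‖ ^ 2 / R₀ ^ 2 ≤ 1 := by
    rw [div_le_one (by positivity)]; gcongr
  rw [max_eq_right (by linarith)]

theorem bump0_c2 (hR : 0 < R₀) : ContDiffOn ℝ 2 (bump0 s₀ R₀ x₀) (ball x₀ R₀) := by
  have h : ContDiff ℝ 2 (fun x : EuclideanSpace ℝ (Fin d) =>
      s₀ * (1 - ‖x - x₀‖ ^ 2 / R₀ ^ 2) ^ 2) := by
    have : ContDiff ℝ 2 (fun x : EuclideanSpace ℝ (Fin d) => ‖x - x₀‖ ^ 2) :=
      (contDiff_id.sub contDiff_const).norm_sq ℝ
    exact contDiff_const.mul ((contDiff_const.sub (this.div_const _)).pow 2)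
  exact h.contDiffOn.congr fun x hx => bump0_eq hR hx

theorem bump0_lap (hR : 0 < R₀) {x : EuclideanSpace ℝ (Fin d)} (hx : x ∈ ball x₀ R₀) :
    -(Δ (bump0 s₀ R₀ x₀)) x = s₀ * (4 * d * (1 - ‖x - x₀‖ ^ 2 / R₀ ^ 2)
      - 8 * (‖x - x₀‖ ^ 2 / R₀ ^ 2)) / R₀ ^ 2 := by
  have he : bump0 s₀ R₀ x₀ =ᶠ[𝓝 x] fun x : EuclideanSpace ℝ (Fin d) =>
      s₀ * (1 - ‖x - x₀‖ ^ 2 / R₀ ^ 2) ^ 2 := by
    filter_upwards [isOpen_ball.mem_nhds hx] with y hy using bump0_eq hR hy
  rw [(laplacian_congr_nhds he).self_of_nhds]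
  have hd1 : ∀ t : ℝ, HasDerivAt (fun t : ℝ => 1 - t / R₀ ^ 2) (-(1 / R₀ ^ 2)) t := by
    intro t
    simpa using ((hasDerivAt_id t).div_const (R₀ ^ 2)).const_sub 1
  have h := lap_radial (c := x₀) (x := x)
      (φ := fun t => s₀ * (1 - t / R₀ ^ 2) ^ 2)
      (φ' := fun t => s₀ * (2 * (1 - t / R₀ ^ 2) * (-(1 / R₀ ^ 2))))
      (φ'' := s₀ * (2 * (-(1 / R₀ ^ 2)) * (-(1 / R₀ ^ 2)))) ?_ ?_
  · rw [h, finrank_euclideanSpace_fin]
    field_simp
    ring
  · refine Filter.Eventually.of_forall fun t => ?_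
    have := ((hd1 t).pow 2).const_mul s₀
    exact this.congr_deriv (by simp)
  · have := (((hd1 (‖x - x₀‖ ^ 2)).const_mul 2).mul_const (-(1 / R₀ ^ 2))).const_mul s₀
    exact this

theorem bump0_sub {F : ℝ → ℝ} {c₀ : ℝ} (hc₀ : 0 < c₀) (hs : 0 < s₀)
    (hF : ∀ s ∈ Icc 0 s₀, c₀ * s ≤ F s) (hd : 1 ≤ d) (hR : 0 < R₀)
    (hR2 : 2 * d * (d + 2) / c₀ ≤ R₀ ^ 2)
    {x : EuclideanSpace ℝ (Fin d)} (hx : x ∈ ball x₀ R₀) :
    -(Δ (bump0 s₀ R₀ x₀)) x ≤ F (bump0 s₀ R₀ x₀ x) := by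
  refine le_trans ?_ (hF _ ⟨bump0_nonneg hs.le x, bump0_le hs.le x⟩)
  rw [bump0_lap hR hx, bump0_eq hR hx]
  set τ := ‖x - x₀‖ ^ 2 / R₀ ^ 2 with hτ
  have h1 : ‖x - x₀‖ < R₀ := by
    rw [mem_ball, dist_eq_norm] at hx; linarith
  have hR2' : 0 < R₀ ^ 2 := by positivity
  have hτ0 : 0 ≤ τ := by positivity
  have hτ1 : τ < 1 := by
    rw [hτ, div_lt_one hR2']; gcongr
  have hdr : (1 : ℝ) ≤ d := by exact_mod_cast hd
  rw [div_le_iff₀ hR2']
  rw [div_le_iff₀ hc₀] at hR2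
  have h3 : 4 * d * (1 - τ) - 8 * τ ≤ c₀ * (1 - τ) ^ 2 * R₀ ^ 2 := by
    by_cases hcase : 4 * d * (1 - τ) ≤ 8 * τ
    · have : 0 ≤ c₀ * (1 - τ) ^ 2 * R₀ ^ 2 := by positivity
      linarith
    · push Not at hcase
      -- `(d+2) (1-τ) > 2`
      have h4 : 2 ≤ (d + 2) * (1 - τ) := by nlinarith
      have h5 : (1 - τ) * (2 * d * (d + 2)) * (1 - τ) ≤ (1 - τ) * (R₀ ^ 2 * c₀) * (1 - τ) := by
        have : 0 ≤ 1 - τ := by linarith
        gcongr
      have h6 : 4 * d * (1 - τ) ≤ (1 - τ) * (2 * d * (d + 2)) * (1 - τ) := by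
        have h7 : 0 ≤ 2 * d * (1 - τ) := by
          have : 0 ≤ 1 - τ := by linarith
          positivity
        nlinarith
      nlinarith
  calc s₀ * (4 * ↑d * (1 - τ) - 8 * τ) ≤ s₀ * (c₀ * (1 - τ) ^ 2 * R₀ ^ 2) := by gcongr
    _ = _ := by ring

end bump0

/-! ### bounds for replacements -/

section
variable {F : ℝ → ℝ} {K : NNReal} {Ω : Set (EuclideanSpace ℝ (Fin d))}
  {c : EuclideanSpace ℝ (Fin d)} {r : ℝ} {w : EuclideanSpace ℝ (Fin d) → ℝ}

theorem lap_const (a : ℝ) (x : EuclideanSpace ℝ (Fin d)) :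
    (Δ (fun _ : EuclideanSpace ℝ (Fin d) => a)) x = 0 := by
  have := laplacian_const (E := EuclideanSpace ℝ (Fin d)) (c := a)
  rw [this]; rfl

theorem repl_nonneg (hd : 1 ≤ d) (hF : LipschitzWith K F) (hF0 : F 0 = 0) (hg : IsGood K Ω c r)
    (hw : Continuous w) (h0 : ∀ x, 0 ≤ w x) (x : EuclideanSpace ℝ (Fin d)) :
    0 ≤ repl F c r w x := by
  by_cases hx : x ∈ ball c r
  · have h1 := repl_isDir hd hF hg hw
    refine comparison (h₁ := fun _ => (0 : ℝ)) hF isOpen_ball (subset_refl _) (small_finrank hd hg)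
      continuousOn_const (h1.cont.mono closure_ball_sub_closedBall)
      contDiffOn_const h1.c2 (fun y hy => ?_) (fun y hy => (h1.eqn y hy).ge) ?_ x hx
    · rw [lap_const, hF0]; simp
    · intro y hy
      have hs := frontier_ball_sub_sphere hy
      rw [h1.bd y hs]
      exact h0 y
  · rw [repl_of_notMem hx]; exact h0 x

theorem repl_le_one (hd : 1 ≤ d) (hF : LipschitzWith K F) (hF1 : F 1 = 0) (hg : IsGood K Ω c r)
    (hw : Continuous w) (h0 : ∀ x, w x ≤ 1) (x : EuclideanSpace ℝ (Fin d)) :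
    repl F c r w x ≤ 1 := by
  by_cases hx : x ∈ ball c r
  · have h1 := repl_isDir hd hF hg hw
    refine comparison (h₂ := fun _ => (1 : ℝ)) hF isOpen_ball (subset_refl _) (small_finrank hd hg)
      (h1.cont.mono closure_ball_sub_closedBall) continuousOn_const
      h1.c2 contDiffOn_const (fun y hy => (h1.eqn y hy).le) (fun y hy => ?_) ?_ x hx
    · rw [lap_const, hF1]; simp
    · intro y hy
      have hs := frontier_ball_sub_sphere hy
      rw [h1.bd y hs]
      exact h0 y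
  · rw [repl_of_notMem hx]; exact h0 x

theorem repl_le_barrier (hd : 1 ≤ d) (hF : LipschitzWith K F) (hF1 : F 1 = 0) {M : ℝ}
    (hM : ∀ s, |F s| ≤ M) (hg : IsGood K Ω c r) (hw : Continuous w) (h0 : ∀ x, w x ≤ 1)
    {S : EuclideanSpace ℝ (Fin d) → ℝ} (hS : IsBarrier M Ω S) (hwS : ∀ x ∈ Ω, w x ≤ S x)
    (x : EuclideanSpace ℝ (Fin d)) (hxΩ : x ∈ Ω) :
    repl F c r w x ≤ S x := by
  by_cases hx : x ∈ ball c r
  swap
  · rw [repl_of_notMem hx]; exact hwS x hxΩ
  by_cases hS1 : S x < 1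
  swap
  · push Not at hS1
    exact (repl_le_one hd hF hF1 hg hw h0 x).trans hS1
  have h1 := repl_isDir hd hF hg hw
  have hcont := repl_continuous hd hF hg hw
  have hSc := hS.c2.continuous
  have hDo : IsOpen (ball c r ∩ {y | S y < 1}) :=
    isOpen_ball.inter (isOpen_lt hSc continuous_const)
  have hsubΩ : ball c r ⊆ Ω := ball_subset_closedBall.trans hg.sub
  refine comparison (h₂ := S) hF hDo inter_subset_left (small_finrank hd hg)
    hcont.continuousOn hSc.continuousOn (h1.c2.mono inter_subset_left) hS.c2.contDiffOn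
    (fun y hy => (h1.eqn y hy.1).le) (fun y hy => ?_) ?_ x ⟨hx, hS1⟩
  · exact ((le_abs_self _).trans (hM _)).trans (hS.super y (hsubΩ hy.1) hy.2)
  · intro y hy
    rcases frontier_inter_subset _ _ hy with h | h
    · have hs := frontier_ball_sub_sphere h.1
      rw [h1.bd y hs]
      exact hwS y (hg.sub (sphere_subset_closedBall hs))
    · have h2 : S y = 1 := frontier_lt_subset_eq hSc continuous_const h.2
      rw [h2]
      exact repl_le_one hd hF hF1 hg hw h0 y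

end

/-! ### the iteration -/

/-- centres of the enumerated balls -/
noncomputable def cen (d : ℕ) (i : ℕ) : EuclideanSpace ℝ (Fin d) :=
  TopologicalSpace.denseSeq (EuclideanSpace ℝ (Fin d)) i.unpair.1

/-- radii of the enumerated balls -/
noncomputable def rad (i : ℕ) : ℝ := 1 / ((i.unpair.2 : ℝ) + 1)

open Classical in
/-- one step of the alternating method -/
noncomputable def step (F : ℝ → ℝ) (K : NNReal) (Ω : Set (EuclideanSpace ℝ (Fin d))) (i : ℕ)
    (w : EuclideanSpace ℝ (Fin d) → ℝ) : EuclideanSpace ℝ (Fin d) → ℝ :=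
  if IsGood K Ω (cen d i) (rad i) then repl F (cen d i) (rad i) w else w

/-- the iteration -/
noncomputable def iter (F : ℝ → ℝ) (K : NNReal) (Ω : Set (EuclideanSpace ℝ (Fin d)))
    (w₀ : EuclideanSpace ℝ (Fin d) → ℝ) : ℕ → EuclideanSpace ℝ (Fin d) → ℝ
  | 0 => w₀
  | n + 1 => step F K Ω n.unpair.1 (iter F K Ω w₀ n)

/-- the invariant of the iteration -/
structure Inv (F : ℝ → ℝ) (K : NNReal) (M : ℝ) (Ω : Set (EuclideanSpace ℝ (Fin d)))
    (w : EuclideanSpace ℝ (Fin d) → ℝ) : Prop where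
  cont : Continuous w
  nonneg : ∀ x, 0 ≤ w x
  le_one : ∀ x, w x ≤ 1
  sub : IsSub F K Ω w
  zero : ∀ x, x ∉ Ω → w x = 0
  barrier : ∀ S, IsBarrier M Ω S → ∀ x ∈ Ω, w x ≤ S x

section
variable {F : ℝ → ℝ} {K : NNReal} {Ω : Set (EuclideanSpace ℝ (Fin d))}
  {w : EuclideanSpace ℝ (Fin d) → ℝ} {M : ℝ}

theorem Inv.step (hd : 1 ≤ d) (hF : LipschitzWith K F) (hF0 : F 0 = 0) (hF1 : F 1 = 0)
    (hM : ∀ s, |F s| ≤ M) (h : Inv F K M Ω w) (i : ℕ) : Inv F K M Ω (Ex.step F K Ω i w) := by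
  unfold Ex.step
  split_ifs with hg
  · refine ⟨repl_continuous hd hF hg h.cont, repl_nonneg hd hF hF0 hg h.cont h.nonneg,
      repl_le_one hd hF hF1 hg h.cont h.le_one, h.sub.repl hd hF hg h.cont, ?_, ?_⟩
    · intro x hx
      rw [repl_of_notMem fun hb => hx (hg.sub (ball_subset_closedBall hb))]
      exact h.zero x hx
    · intro S hS x hx
      exact repl_le_barrier hd hF hF1 hM hg h.cont h.le_one hS (h.barrier S hS) x hx
  · exact h

theorem Inv.iter (hd : 1 ≤ d) (hF : LipschitzWith K F) (hF0 : F 0 = 0) (hF1 : F 1 = 0)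
    (hM : ∀ s, |F s| ≤ M) (h : Inv F K M Ω w) (n : ℕ) : Inv F K M Ω (Ex.iter F K Ω w n) := by
  induction n with
  | zero => exact h
  | succ n ih => exact ih.step hd hF hF0 hF1 hM _

theorem Inv.le_step (h : Inv F K M Ω w) (i : ℕ) (x : EuclideanSpace ℝ (Fin d)) :
    w x ≤ Ex.step F K Ω i w x := by
  unfold Ex.step
  split_ifs with hg
  · exact h.sub _ _ hg x
  · exact le_rfl

/-- the initial function satisfies the invariant -/
theorem inv_bump0 (hd : 1 ≤ d) (hF : LipschitzWith K F) (hF0 : F 0 = 0)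
    (hM : ∀ s, |F s| ≤ M) {c₀ s₀ R₀ : ℝ} (hc₀ : 0 < c₀) (hs : 0 < s₀) (hs1 : s₀ ≤ 1)
    (hFc : ∀ s ∈ Icc 0 s₀, c₀ * s ≤ F s) (hR : 0 < R₀)
    (hR2 : 2 * d * (d + 2) / c₀ ≤ R₀ ^ 2) {x₀ : EuclideanSpace ℝ (Fin d)}
    (hΩ : closedBall x₀ R₀ ⊆ Ω) : Inv F K M Ω (bump0 s₀ R₀ x₀) := by
  have hball : ball x₀ R₀ ⊆ Ω := ball_subset_closedBall.trans hΩ
  refine ⟨bump0_continuous, bump0_nonneg hs.le, fun x => (bump0_le hs.le x).trans hs1, ?_, ?_, ?_⟩
  · intro c r hg x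
    have hcont := repl_continuous hd hF hg (bump0_continuous (s₀ := s₀) (R₀ := R₀) (x₀ := x₀))
    have h0 := repl_nonneg hd hF hF0 hg (bump0_continuous (s₀ := s₀) (R₀ := R₀) (x₀ := x₀))
      (bump0_nonneg hs.le)
    have h1 := repl_isDir hd hF hg (bump0_continuous (s₀ := s₀) (R₀ := R₀) (x₀ := x₀))
    by_cases hx : x ∈ ball c r
    swap
    · rw [repl_of_notMem hx]
    by_cases hx0 : x ∈ ball x₀ R₀
    swap
    · rw [bump0_eq_zero hR hx0]; exact h0 x
    refine comparison hF (isOpen_ball.inter isOpen_ball) (inter_subset_left (s := ball c r)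
      (t := ball x₀ R₀)) (small_finrank hd hg)
      bump0_continuous.continuousOn hcont.continuousOn
      ((bump0_c2 hR).mono inter_subset_right) (h1.c2.mono inter_subset_left)
      (fun y hy => bump0_sub hc₀ hs hFc hd hR hR2 hy.2) (fun y hy => (h1.eqn y hy.1).ge) ?_ x
      ⟨hx, hx0⟩
    intro y hy
    rcases frontier_inter_subset _ _ hy with h | h
    · rw [h1.bd y (frontier_ball_sub_sphere h.1)]
    · have h2 : y ∉ ball x₀ R₀ := by
        have := frontier_ball_sub_sphere h.2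
        rw [mem_sphere] at this
        rw [mem_ball]; linarith
      rw [bump0_eq_zero hR h2]; exact h0 y
  · intro x hx
    exact bump0_eq_zero hR fun h => hx (hball h)
  · intro S hS x hx
    by_cases hx0 : x ∈ ball x₀ R₀
    swap
    · rw [bump0_eq_zero hR hx0]; exact hS.nonneg x hx
    by_cases hS1 : S x < 1
    swap
    · push Not at hS1
      exact ((bump0_le hs.le x).trans hs1).trans hS1
    have hSc := hS.c2.continuous
    have hDo : IsOpen (ball x₀ R₀ ∩ {y | S y < 1}) :=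
      isOpen_ball.inter (isOpen_lt hSc continuous_const)
    have hfin : (0 : ℝ) * R₀ ^ 2 < Module.finrank ℝ (EuclideanSpace ℝ (Fin d)) := by
      rw [finrank_euclideanSpace_fin]
      have : (1 : ℝ) ≤ d := by exact_mod_cast hd
      linarith
    have := max_principle hDo (inter_subset_left (s := ball x₀ R₀)) (w := bump0 s₀ R₀ x₀ - S)
      (bump0_continuous.sub hSc).continuousOn
      (((bump0_c2 hR).mono inter_subset_left).sub hS.c2.contDiffOn) (K := 0) le_rfl hfin ?_ ?_ x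
      ⟨hx0, hS1⟩
    · simpa using this
    · intro y hy _
      have h1 : ContDiffAt ℝ 2 (bump0 s₀ R₀ x₀) y :=
        (bump0_c2 hR).contDiffAt (isOpen_ball.mem_nhds hy.1)
      rw [h1.laplacian_sub hS.c2.contDiffAt]
      have h2 := bump0_sub hc₀ hs hFc hd hR hR2 hy.1
      have h3 := hS.super y (hball hy.1) hy.2
      have h4 := (le_abs_self _).trans (hM (bump0 s₀ R₀ x₀ y))
      linarith
    · intro y hy
      rcases frontier_inter_subset _ _ hy with h | h
      · have h2 : y ∈ sphere x₀ R₀ := frontier_ball_sub_sphere h.1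
        have h3 : y ∉ ball x₀ R₀ := by
          rw [mem_sphere] at h2
          rw [mem_ball]; linarith
        simp only [Pi.sub_apply]
        rw [bump0_eq_zero hR h3]
        have := hS.nonneg y (hΩ (sphere_subset_closedBall h2))
        linarith
      · have h2 : S y = 1 := frontier_lt_subset_eq hSc continuous_const h.2
        simp only [Pi.sub_apply]
        rw [h2]
        have := (bump0_le (R₀ := R₀) (x₀ := x₀) hs.le y).trans hs1
        linarith

/-- every point of `Ω` lies in an enumerated good ball -/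
theorem exists_good (K : NNReal) (hΩ : IsOpen Ω) {x : EuclideanSpace ℝ (Fin d)} (hx : x ∈ Ω) :
    ∃ i, IsGood K Ω (cen d i) (rad i) ∧ x ∈ ball (cen d i) (rad i) := by
  obtain ⟨ε, hε, hball⟩ := Metric.isOpen_iff.1 hΩ x hx
  obtain ⟨m, hm⟩ := exists_nat_gt (max (2 / ε) (K : ℝ))
  have hm1 : 2 / ε < m := (le_max_left _ _).trans_lt hm
  have hm2 : (K : ℝ) < m := (le_max_right _ _).trans_lt hm
  have hm0 : (0 : ℝ) < m + 1 := by positivity
  have hr : (0 : ℝ) < 1 / ((m : ℝ) + 1) := by positivity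
  have hm1' : 1 ≤ (m : ℝ) + 1 := by linarith [(Nat.cast_nonneg m : (0 : ℝ) ≤ m)]
  obtain ⟨y, hyr⟩ := (TopologicalSpace.denseRange_denseSeq
    (EuclideanSpace ℝ (Fin d))).exists_dist_lt x hr
  refine ⟨Nat.pair y m, ?_, ?_⟩
  · refine ⟨?_, ?_, ?_⟩
    · simp only [rad, Nat.unpair_pair]; exact hr
    · intro z hz
      simp only [rad, cen, Nat.unpair_pair, mem_closedBall] at hz
      apply hball
      rw [mem_ball]
      have h1 : dist z x ≤ dist z (TopologicalSpace.denseSeq (EuclideanSpace ℝ (Fin d)) y) +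
        dist x (TopologicalSpace.denseSeq (EuclideanSpace ℝ (Fin d)) y) := dist_triangle_right _ _ _
      have h2 : 2 * (1 / ((m : ℝ) + 1)) < ε := by
        rw [div_lt_iff₀ hε] at hm1
        rw [mul_one_div, div_lt_iff₀ hm0]
        nlinarith
      linarith
    · simp only [rad, Nat.unpair_pair]
      rw [div_pow, one_pow, mul_one_div, div_lt_one (by positivity)]
      nlinarith
  · simp only [rad, cen, Nat.unpair_pair, mem_ball]
    exact hyr

end

end Ex

open Ex in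
/-- Existence of a positive bounded solution. -/
theorem exists_solution {d : ℕ} (hd : 1 ≤ d) {γ : ℝ} {f : ℝ → ℝ} (hf : IsPositiveReaction γ f)
    {Ω : Set (EuclideanSpace ℝ (Fin d))} (hΩ : IsOpen Ω) (hc : IsConnected Ω)
    {ρ : ℝ} (hρ : 0 < ρ) (hT : TwoSidedBall Ω ρ)
    (hbig : ∀ R : ℝ, ∃ x, closedBall x R ⊆ Ω) : ∃ u, IsSolution f Ω u := by
  obtain ⟨K, hK⟩ := trunc_lipschitz hf.toIsReaction
  obtain ⟨M, hM0, hM⟩ := trunc_bounded hf.toIsReaction
  obtain ⟨c₀, hc₀, s₀, hs₀, hs₁, hlin⟩ := trunc_ge_linear hf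
  have hF0 := trunc_zero hf.toIsReaction
  have hF1 := trunc_one hf.toIsReaction
  set F := trunc f with hFdef
  set R₀ : ℝ := max 1 (2 * d * (d + 2) / c₀) with hR₀
  have hR1 : 1 ≤ R₀ := le_max_left _ _
  have hR2 : 2 * d * (d + 2) / c₀ ≤ R₀ ^ 2 := by
    have : 2 * d * (d + 2) / c₀ ≤ R₀ := le_max_right _ _
    nlinarith
  obtain ⟨x₀, hx₀⟩ := hbig R₀
  have hR0 : 0 < R₀ := by linarith
  have hinv0 : Inv F K M Ω (bump0 s₀ R₀ x₀) :=
    inv_bump0 hd hK hF0 hM hc₀ hs₀ hs₁ hlin hR0 hR2 hx₀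
  set W : ℕ → EuclideanSpace ℝ (Fin d) → ℝ := iter F K Ω (bump0 s₀ R₀ x₀) with hW
  have hinv : ∀ n, Inv F K M Ω (W n) := fun n => hinv0.iter hd hK hF0 hF1 hM n
  have hmono : ∀ x, Monotone fun n => W n x := fun x =>
    monotone_nat_of_le_succ fun n => (hinv n).le_step _ x
  have hbdd : ∀ x, BddAbove (range fun n => W n x) := fun x =>
    ⟨1, by rintro _ ⟨n, rfl⟩; exact (hinv n).le_one x⟩
  set u : EuclideanSpace ℝ (Fin d) → ℝ := fun x => ⨆ n, W n x with hu
  have hlim : ∀ x, Tendsto (fun n => W n x) atTop (𝓝 (u x)) := fun x =>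
    tendsto_atTop_ciSup (hmono x) (hbdd x)
  have hle : ∀ n x, W n x ≤ u x := fun n x => le_ciSup (hbdd x) n
  have hu0 : ∀ x, 0 ≤ u x := fun x => ((hinv 0).nonneg x).trans (hle 0 x)
  have hu1 : ∀ x, u x ≤ 1 := fun x => ciSup_le fun n => (hinv n).le_one x
  have huz : ∀ x, x ∉ Ω → u x = 0 := by
    intro x hx
    have : (fun n => W n x) = fun _ => (0 : ℝ) := funext fun n => (hinv n).zero x hx
    simp only [hu, this]; simp
  have huS : ∀ S, IsBarrier M Ω S → ∀ x ∈ Ω, u x ≤ S x := fun S hS x hx =>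
    ciSup_le fun n => (hinv n).barrier S hS x hx
  have hF' : ∀ x, F (u x) = f (u x) := fun x => trunc_of_mem ⟨hu0 x, hu1 x⟩
  -- solution on good balls
  have hgood : ∀ i, IsGood K Ω (cen d i) (rad i) → ContDiffOn ℝ 2 u (ball (cen d i) (rad i)) ∧
      ∀ x ∈ ball (cen d i) (rad i), -(Δ u) x = F (u x) := by
    intro i hg
    have hWi : ∀ k, W (Nat.pair i k + 1) =
        repl F (cen d i) (rad i) (W (Nat.pair i k)) := by
      intro k
      have e : (Nat.pair i k).unpair.1 = i := by rw [Nat.unpair_pair]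
      show Ex.step F K Ω (Nat.pair i k).unpair.1 (W (Nat.pair i k)) = _
      rw [e]; unfold Ex.step; rw [if_pos hg]
    have hDir : ∀ k, IsDir F (cen d i) (rad i) (W (Nat.pair i k)) (W (Nat.pair i k + 1)) := by
      intro k
      rw [hWi k]
      exact repl_isDir hd hK hg (hinv _).cont
    have htend : Tendsto (fun k => Nat.pair i k + 1) atTop atTop := by
      refine tendsto_atTop_mono (fun k => ?_) tendsto_id
      exact (Nat.right_le_pair i k).trans (Nat.le_succ _)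
    refine limit_solution hK (M := M) (A := 1) hM isOpen_ball
      (w := fun k => W (Nat.pair i k + 1)) (fun k => (hinv _).cont) ?_ ?_ ?_ ?_
    · intro k x
      rw [abs_of_nonneg ((hinv _).nonneg x)]; exact (hinv _).le_one x
    · intro x
      exact (hlim x).comp htend
    · exact fun k => (hDir k).c2
    · exact fun k => (hDir k).eqn
  have hc2at : ∀ x ∈ Ω, ContDiffAt ℝ 2 u x := by
    intro x hx
    obtain ⟨i, hg, hxi⟩ := exists_good K hΩ hx
    exact (hgood i hg).1.contDiffAt (isOpen_ball.mem_nhds hxi)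
  have heqn : ∀ x ∈ Ω, -(Δ u) x = F (u x) := by
    intro x hx
    obtain ⟨i, hg, hxi⟩ := exists_good K hΩ hx
    exact (hgood i hg).2 x hxi
  have hc2 : ContDiffOn ℝ 2 u Ω := fun x hx => (hc2at x hx).contDiffWithinAt
  have hcontΩ : ContinuousOn u Ω := hc2.continuousOn
  -- positivity
  have hpos : ∀ x ∈ Ω, 0 < u x := by
    obtain ⟨C, hC1, hharn⟩ := MVOn.harnack (EuclideanSpace ℝ (Fin d))
    have hmv : MVOn u (fun x => F (u x)) Ω := mvOn_of_contDiffOn hΩ hc2 heqn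
    have hgc : ContinuousOn (fun x => F (u x)) Ω := hK.continuous.comp_continuousOn hcontΩ
    have hgL : ∀ z ∈ Ω, |F (u z)| ≤ (K : ℝ) * u z := by
      intro z _
      have := hK.dist_le_mul (u z) 0
      rw [Real.dist_eq, Real.dist_eq, hF0, sub_zero, sub_zero, abs_of_nonneg (hu0 z)] at this
      exact this
    have hopen0 : IsOpen {x | x ∈ Ω ∧ u x = 0} := by
      rw [Metric.isOpen_iff]
      rintro x ⟨hx, hux⟩
      obtain ⟨ε, hε, hball⟩ := Metric.isOpen_iff.1 hΩ x hx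
      set r : ℝ := min (ε / 2) (1 / (K + 1)) with hr
      have hr0 : 0 < r := by positivity
      have hrε : r ≤ ε / 2 := min_le_left _ _
      have hrK : r ≤ 1 / (K + 1) := min_le_right _ _
      have hK0 : (0 : ℝ) ≤ K := K.coe_nonneg
      have hr1 : r ≤ 1 := hrK.trans (by rw [div_le_one (by positivity)]; linarith)
      have hLr : (K : ℝ) * r ^ 2 ≤ 1 := by
        have h1 : r ^ 2 ≤ r := by nlinarith
        have h2 : (K : ℝ) * r ≤ 1 := by
          calc (K : ℝ) * r ≤ (K : ℝ) * (1 / (K + 1)) := by gcongr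
            _ ≤ 1 := by rw [mul_one_div, div_le_one (by positivity)]; linarith
        calc (K : ℝ) * r ^ 2 ≤ (K : ℝ) * r := by gcongr
          _ ≤ 1 := h2
      have hcb : closedBall x r ⊆ Ω := by
        refine (closedBall_subset_ball ?_).trans hball
        linarith
      refine ⟨r / 4, by positivity, fun y hy => ?_⟩
      have hxy : dist x y ≤ r / 4 := by
        rw [dist_comm]; exact (mem_ball.1 hy).le
      have h1 := hharn u (fun x => F (u x)) Ω K hcontΩ hgc hmv (fun z _ => hu0 z) hgL x y r hr0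
        hLr hcb hxy
      rw [hux, mul_zero] at h1
      refine ⟨hcb ?_, le_antisymm h1 (hu0 y)⟩
      rw [mem_closedBall, dist_comm]; linarith
    have hopen1 : IsOpen {x | x ∈ Ω ∧ 0 < u x} := by
      have := hcontΩ.isOpen_inter_preimage hΩ (isOpen_Ioi (a := (0 : ℝ)))
      exact this
    by_contra hcon
    push Not at hcon
    obtain ⟨x1, hx1, hx1'⟩ := hcon
    have hz : u x1 = 0 := le_antisymm hx1' (hu0 x1)
    have hx0pos : 0 < u x₀ := by
      have h1 : W 0 x₀ = s₀ := bump0_self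
      have h2 := hle 0 x₀
      rw [h1] at h2
      linarith
    have hx0Ω : x₀ ∈ Ω := hx₀ (mem_closedBall_self hR0.le)
    obtain ⟨y, -, hy1, hy2⟩ := hc.isPreconnected _ _ hopen0 hopen1 (fun x hx => by
      rcases (hu0 x).eq_or_lt with h | h
      · exact Or.inl ⟨hx, h.symm⟩
      · exact Or.inr ⟨hx, h⟩) ⟨x1, hx1, hx1, hz⟩ ⟨x₀, hx0Ω, hx0Ω, hx0pos⟩
    linarith [hy1.2, hy2.2]
  -- boundary values
  have hbd : ∀ p ∈ frontier Ω, u p = 0 := fun p hp => huz p fun h => by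
    rw [hΩ.frontier_eq] at hp; exact hp.2 h
  have hcontcl : ContinuousOn u (closure Ω) := by
    intro p hp
    by_cases hpΩ : p ∈ Ω
    · exact (hc2at p hpΩ).continuousAt.continuousWithinAt
    have hpf : p ∈ frontier Ω := by rw [hΩ.frontier_eq]; exact ⟨hp, hpΩ⟩
    obtain ⟨N, hN, -, hext⟩ := hT p hpf
    obtain ⟨S, hS, hSp⟩ := exists_barrier hM0.le hρ hext (p := p) (by
      rw [dist_eq_norm]
      simp [norm_smul, hN, abs_of_pos hρ])
    have hS0 : ∀ x ∈ closure Ω, 0 ≤ S x := by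
      intro x hx
      have hcl : IsClosed {x | 0 ≤ S x} := isClosed_le continuous_const hS.c2.continuous
      exact (closure_minimal (fun y hy => hS.nonneg y hy) hcl) hx
    have huScl : ∀ x ∈ closure Ω, u x ≤ S x := by
      intro x hx
      by_cases hxΩ : x ∈ Ω
      · exact huS S hS x hxΩ
      · rw [huz x hxΩ]; exact hS0 x hx
    have hup : u p = 0 := hbd p hpf
    rw [ContinuousWithinAt, hup]
    have hSt : Tendsto S (𝓝[closure Ω] p) (𝓝 0) := by
      have := (hS.c2.continuous.tendsto p).mono_left (nhdsWithin_le_nhds (s := closure Ω))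
      rwa [hSp] at this
    refine squeeze_zero' (Filter.Eventually.of_forall hu0) ?_ hSt
    filter_upwards [self_mem_nhdsWithin] with x hx using huScl x hx
  refine ⟨u, hc2, hcontcl, ?_, hbd, hpos, 1, fun x _ => hu1 x⟩
  intro x hx
  rw [← hF' x]; exact heqn x hx

end Pool.Agent.Lib.MP_437bdf_an
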