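import Pool.Agent.Lib.MP_437bdf_an.Defs
import Pool.Agent.Lib.MP_437bdf_an.Barrier

/-!
Module Geometry: a uniformly `C^2` graph boundary has the two-sided ball condition.
-/

set_option autoImplicit false

open Set Metric Filter Topology

namespace Pool.Agent.Lib.MP_437bdf_an

/-- Second order Taylor bound on a ball. -/
lemma taylor_bound {H : Type*} [NormedAddCommGroup H] [NormedSpace ℝ H] {h : H → ℝ} {r K : ℝ}
    (hr : 0 < r) (hK : 0 ≤ K) (hh : ContDiffOn ℝ 2 h (ball 0 r))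
    (hb : ∀ y ∈ ball (0 : H) r, ‖iteratedFDeriv ℝ 2 h y‖ ≤ K) :
    ∀ y ∈ ball (0 : H) r, |h y - h 0 - fderiv ℝ h 0 y| ≤ K * ‖y‖ ^ 2 := by
  have hat : ∀ y ∈ ball (0 : H) r, ContDiffAt ℝ 2 h y := fun y hy =>
    hh.contDiffAt (isOpen_ball.mem_nhds hy)
  have hd : ∀ y ∈ ball (0 : H) r, DifferentiableAt ℝ h y := fun y hy =>
    (hat y hy).differentiableAt (by norm_num)
  have hdd : ∀ y ∈ ball (0 : H) r, DifferentiableAt ℝ (fderiv ℝ h) y := fun y hy =>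
    ((hat y hy).fderiv_right (m := 1) (by norm_num)).differentiableAt (by norm_num)
  have hfb : ∀ y ∈ ball (0 : H) r, ‖fderiv ℝ (fderiv ℝ h) y‖ ≤ K := by
    intro y hy
    have h1 := hb y hy
    have h2 : ‖iteratedFDeriv ℝ 1 (fderiv ℝ h) y‖ = ‖iteratedFDeriv ℝ (1 + 1) h y‖ :=
      norm_iteratedFDeriv_fderiv
    have h3 : ‖fderiv ℝ (iteratedFDeriv ℝ 0 (fderiv ℝ h)) y‖ = ‖iteratedFDeriv ℝ (0 + 1) (fderiv ℝ h) y‖ :=
      norm_fderiv_iteratedFDeriv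
    have h4 : ‖iteratedFDeriv ℝ 1 (fderiv ℝ h) y‖ = ‖fderiv ℝ (fderiv ℝ h) y‖ :=
      norm_iteratedFDeriv_one (fderiv ℝ h)
    rw [← h4, h2]
    exact h1
  have hlip : ∀ y ∈ ball (0 : H) r, ‖fderiv ℝ h y - fderiv ℝ h 0‖ ≤ K * ‖y‖ := by
    intro y hy
    have := (convex_ball (0 : H) r).norm_image_sub_le_of_norm_fderiv_le (𝕜 := ℝ)
      (fun z hz => hdd z hz) hfb (mem_ball_self hr) hy
    simpa using this
  intro y hy
  have hys : ∀ z ∈ closedBall (0 : H) ‖y‖, z ∈ ball (0 : H) r := by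
    intro z hz
    rw [mem_closedBall_zero_iff] at hz
    rw [mem_ball_zero_iff] at hy ⊢
    exact lt_of_le_of_lt hz hy
  set g : H → ℝ := fun z => h z - fderiv ℝ h 0 z with hg
  have hgd : ∀ z ∈ closedBall (0 : H) ‖y‖, DifferentiableAt ℝ g z := fun z hz =>
    (hd z (hys z hz)).sub (fderiv ℝ h 0).differentiableAt
  have hgf : ∀ z ∈ closedBall (0 : H) ‖y‖, ‖fderiv ℝ g z‖ ≤ K * ‖y‖ := by
    intro z hz
    have : fderiv ℝ g z = fderiv ℝ h z - fderiv ℝ h 0 := by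
      rw [hg, fderiv_fun_sub (hd z (hys z hz)) (fderiv ℝ h 0).differentiableAt,
        ContinuousLinearMap.fderiv]
    rw [this]
    refine (hlip z (hys z hz)).trans ?_
    rw [mem_closedBall_zero_iff] at hz
    exact mul_le_mul_of_nonneg_left hz hK
  have := (convex_closedBall (0 : H) ‖y‖).norm_image_sub_le_of_norm_fderiv_le (𝕜 := ℝ)
    hgd hgf (mem_closedBall_self (norm_nonneg _)) (show y ∈ closedBall (0:H) ‖y‖ by simp)
  have e1 : g y - g 0 = h y - h 0 - fderiv ℝ h 0 y := by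
    rw [hg]
    simp only [map_zero, sub_zero]
    ring
  rw [e1, Real.norm_eq_abs, sub_zero] at this
  calc |h y - h 0 - fderiv ℝ h 0 y| ≤ K * ‖y‖ * ‖y‖ := this
    _ = K * ‖y‖ ^ 2 := by ring

/-- The two tangent balls at the origin of a graph. -/
lemma two_balls {E : Type*} [NormedAddCommGroup E] [InnerProductSpace ℝ E] [FiniteDimensional ℝ E]
    {r K ρ : ℝ} (hr : 0 < r) (hK0 : 0 < K) (hρ : 0 < ρ)
    (hρr : 2 * ρ ≤ r) (hρK : 2 * K * ρ ≤ 1) {p e : E} (he : ‖e‖ = 1)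
    (V : Submodule ℝ E) (hVe : ∀ v ∈ V, (inner ℝ e v : ℝ) = 0) (h : V → ℝ)
    (hh : ContDiffOn ℝ 2 h (ball 0 r))
    (hb : ∀ y ∈ ball (0 : V) r, ‖iteratedFDeriv ℝ 2 h y‖ ≤ K) (h00 : h 0 = 0) :
    ∃ N : E, ‖N‖ = 1 ∧ 0 < (inner ℝ e N : ℝ) ∧
      (∀ x ∈ ball (p + ρ • N) ρ, x ∈ ball p r ∧
        h (V.orthogonalProjectionOnto (x - p)) < inner ℝ e (x - p)) ∧
      (∀ x ∈ ball (p - ρ • N) ρ, x ∈ ball p r ∧
        inner ℝ e (x - p) < h (V.orthogonalProjectionOnto (x - p))) := by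
  set P := V.orthogonalProjectionOnto with hP
  have hPnorm : ∀ x : E, ‖P x‖ ≤ ‖x‖ := fun x =>
    Submodule.norm_orthogonalProjectionOnto_apply_le V x
  have htay := taylor_bound hr hK0.le hh hb
  rw [h00] at htay
  simp only [sub_zero] at htay
  -- the gradient
  set L : V →L[ℝ] ℝ := fderiv ℝ h 0 with hL
  set aV : V := (InnerProductSpace.toDual ℝ V).symm L with haV
  have haL : ∀ y : V, (inner ℝ aV y : ℝ) = L y := fun y =>
    InnerProductSpace.toDual_symm_apply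
  set a : E := (aV : E) with ha
  have haP : ∀ ξ : E, (inner ℝ a ξ : ℝ) = L (P ξ) := by
    intro ξ
    rw [← haL]
    rw [ha, hP]
    exact (Submodule.inner_orthogonalProjectionOnto_eq_of_mem_left aV ξ).symm
  have hea : (inner ℝ e a : ℝ) = 0 := by
    exact hVe a aV.2
  have hnormsq : ‖e - a‖ ^ 2 = 1 + ‖a‖ ^ 2 := by
    rw [@norm_sub_sq_real, hea, he]
    ring
  set s : ℝ := ‖e - a‖ with hs
  have hs1 : 1 ≤ s := by
    have : 1 ≤ s ^ 2 := by rw [hnormsq]; nlinarith [sq_nonneg ‖a‖]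
    nlinarith [norm_nonneg (e - a)]
  have hs0 : 0 < s := lt_of_lt_of_le one_pos hs1
  set N : E := s⁻¹ • (e - a) with hN
  have hN1 : ‖N‖ = 1 := by
    rw [hN, norm_smul, norm_inv, Real.norm_of_nonneg hs0.le, ← hs]
    field_simp
  have hinner : ∀ ξ : E,
      (inner ℝ ξ N : ℝ) * s = inner ℝ e ξ - inner ℝ a ξ := by
    intro ξ
    rw [hN, inner_smul_right, inner_sub_right, real_inner_comm ξ e, real_inner_comm ξ a]
    field_simp
  have heN : 0 < (inner ℝ e N : ℝ) := by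
    rw [hN, inner_smul_right, inner_sub_right, hea, real_inner_self_eq_norm_sq, he]
    simp only [one_pow, sub_zero, mul_one]
    exact inv_pos.mpr hs0
  refine ⟨N, hN1, heN, ?_, ?_⟩
  · intro x hx
    set ξ := x - p with hξ
    rw [mem_ball, dist_eq_norm] at hx
    have e1 : x - (p + ρ • N) = ξ - ρ • N := by rw [hξ]; abel
    rw [e1] at hx
    have hsq : ‖ξ - ρ • N‖ ^ 2 < ρ ^ 2 := by
      apply pow_lt_pow_left₀ hx (norm_nonneg _) (by norm_num)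
    rw [@norm_sub_sq_real, inner_smul_right, norm_smul, hN1, mul_one, Real.norm_of_nonneg hρ.le] at hsq
    have h1 : ‖ξ‖ ^ 2 < 2 * ρ * inner ℝ ξ N := by linarith
    have hpos : 0 < (inner ℝ ξ N : ℝ) := by
      have : 0 ≤ ‖ξ‖ ^ 2 := sq_nonneg _
      by_contra hc
      push Not at hc
      nlinarith
    have hξr : ‖ξ‖ < 2 * ρ := by
      have h2 : (inner ℝ ξ N : ℝ) ≤ ‖ξ‖ := by
        calc (inner ℝ ξ N : ℝ) ≤ ‖ξ‖ * ‖N‖ := real_inner_le_norm _ _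
          _ = ‖ξ‖ := by rw [hN1, mul_one]
      have h3 : 0 < ‖ξ‖ := lt_of_lt_of_le hpos h2
      have h4 : ‖ξ‖ * ‖ξ‖ < 2 * ρ * ‖ξ‖ := by nlinarith
      exact lt_of_mul_lt_mul_right h4 h3.le
    have hxball : x ∈ ball p r := by
      rw [mem_ball, dist_eq_norm]
      linarith
    refine ⟨hxball, ?_⟩
    have hPb : P ξ ∈ ball (0 : V) r := by
      rw [mem_ball_zero_iff]
      linarith [hPnorm ξ]
    have h5 := htay (P ξ) hPb
    rw [← haP] at h5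
    have h6 : h (P ξ) ≤ inner ℝ a ξ + K * ‖P ξ‖ ^ 2 := by
      linarith [(abs_le.mp h5).2]
    have h7 : K * ‖P ξ‖ ^ 2 ≤ K * ‖ξ‖ ^ 2 := by
      apply mul_le_mul_of_nonneg_left _ hK0.le
      exact pow_le_pow_left₀ (norm_nonneg _) (hPnorm ξ) 2
    have h8 : K * ‖ξ‖ ^ 2 < inner ℝ ξ N := by
      calc K * ‖ξ‖ ^ 2 < K * (2 * ρ * inner ℝ ξ N) := mul_lt_mul_of_pos_left h1 hK0
        _ = (2 * K * ρ) * inner ℝ ξ N := by ring
        _ ≤ 1 * inner ℝ ξ N := mul_le_mul_of_nonneg_right hρK hpos.le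
        _ = inner ℝ ξ N := one_mul _
    have h9 : (inner ℝ ξ N : ℝ) ≤ inner ℝ ξ N * s := le_mul_of_one_le_right hpos.le hs1
    have h10 := hinner ξ
    show h (P ξ) < inner ℝ e ξ
    linarith
  · intro x hx
    set ξ := x - p with hξ
    rw [mem_ball, dist_eq_norm] at hx
    have e1 : x - (p - ρ • N) = ξ + ρ • N := by rw [hξ]; abel
    rw [e1] at hx
    have hsq : ‖ξ + ρ • N‖ ^ 2 < ρ ^ 2 := by
      apply pow_lt_pow_left₀ hx (norm_nonneg _) (by norm_num)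
    rw [@norm_add_sq_real, inner_smul_right, norm_smul, hN1, mul_one, Real.norm_of_nonneg hρ.le] at hsq
    have h1 : ‖ξ‖ ^ 2 < 2 * ρ * (-inner ℝ ξ N) := by linarith
    have hpos : 0 < (-inner ℝ ξ N : ℝ) := by
      have : 0 ≤ ‖ξ‖ ^ 2 := sq_nonneg _
      by_contra hc
      push Not at hc
      nlinarith
    have hξr : ‖ξ‖ < 2 * ρ := by
      have h2 : (-inner ℝ ξ N : ℝ) ≤ ‖ξ‖ := by
        calc (-inner ℝ ξ N : ℝ) ≤ |(inner ℝ ξ N : ℝ)| := neg_le_abs _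
          _ ≤ ‖ξ‖ * ‖N‖ := abs_real_inner_le_norm _ _
          _ = ‖ξ‖ := by rw [hN1, mul_one]
      have h3 : 0 < ‖ξ‖ := lt_of_lt_of_le hpos h2
      have h4 : ‖ξ‖ * ‖ξ‖ < 2 * ρ * ‖ξ‖ := by nlinarith
      exact lt_of_mul_lt_mul_right h4 h3.le
    have hxball : x ∈ ball p r := by
      rw [mem_ball, dist_eq_norm]
      linarith
    refine ⟨hxball, ?_⟩
    have hPb : P ξ ∈ ball (0 : V) r := by
      rw [mem_ball_zero_iff]
      linarith [hPnorm ξ]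
    have h5 := htay (P ξ) hPb
    rw [← haP] at h5
    have h6 : inner ℝ a ξ - K * ‖P ξ‖ ^ 2 ≤ h (P ξ) := by
      linarith [(abs_le.mp h5).1]
    have h7 : K * ‖P ξ‖ ^ 2 ≤ K * ‖ξ‖ ^ 2 := by
      apply mul_le_mul_of_nonneg_left _ hK0.le
      exact pow_le_pow_left₀ (norm_nonneg _) (hPnorm ξ) 2
    have h8 : K * ‖ξ‖ ^ 2 < -inner ℝ ξ N := by
      calc K * ‖ξ‖ ^ 2 < K * (2 * ρ * (-inner ℝ ξ N)) := mul_lt_mul_of_pos_left h1 hK0
        _ = (2 * K * ρ) * (-inner ℝ ξ N) := by ring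
        _ ≤ 1 * (-inner ℝ ξ N) := mul_le_mul_of_nonneg_right hρK hpos.le
        _ = -inner ℝ ξ N := one_mul _
    have h9 : (-inner ℝ ξ N : ℝ) ≤ (-inner ℝ ξ N) * s := le_mul_of_one_le_right hpos.le hs1
    have h10 := hinner ξ
    have h12 : (-inner ℝ ξ N : ℝ) * s = -(inner ℝ ξ N * s) := by ring
    rw [h12, h10] at h9
    show inner ℝ e ξ < h (P ξ)
    linarith


end Pool.Agent.Lib.MP_437bdf_an
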