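import Pool.Agent.Lib.MP_437bdf_an.Lap

/-! Smooth radial kernels used in weighted mean value identities. -/

open Set Metric Filter Topology MeasureTheory
open InnerProductSpace Laplacian

namespace Pool.Agent.Lib.MP_437bdf_an

set_option linter.unusedSectionVars false
set_option linter.unusedSimpArgs false

/-- primitive of `expNegInvGlue` -/
noncomputable def primG (τ : ℝ) : ℝ := ∫ t in (0 : ℝ)..τ, expNegInvGlue t

theorem continuous_expNegInvGlue : Continuous expNegInvGlue :=
  (expNegInvGlue.contDiff (n := 0)).continuous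

theorem hasDerivAt_primG (τ : ℝ) : HasDerivAt primG (expNegInvGlue τ) τ :=
  intervalIntegral.integral_hasDerivAt_right
    (continuous_expNegInvGlue.intervalIntegrable _ _)
    (continuous_expNegInvGlue.stronglyMeasurableAtFilter _ _)
    continuous_expNegInvGlue.continuousAt

theorem primG_of_nonpos {τ : ℝ} (h : τ ≤ 0) : primG τ = 0 := by
  unfold primG
  rw [intervalIntegral.integral_symm, neg_eq_zero]
  rw [intervalIntegral.integral_of_le h]
  apply integral_eq_zero_of_ae
  filter_upwards [ae_restrict_mem measurableSet_Ioc] with t ht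
  exact expNegInvGlue.zero_of_nonpos ht.2

theorem primG_nonneg (τ : ℝ) : 0 ≤ primG τ := by
  rcases le_total τ 0 with h | h
  · rw [primG_of_nonpos h]
  · exact intervalIntegral.integral_nonneg h fun t _ => expNegInvGlue.nonneg t

theorem primG_le {τ : ℝ} (h : τ ≤ 1) : primG τ ≤ expNegInvGlue τ := by
  rcases le_total τ 0 with h0 | h0
  · rw [primG_of_nonpos h0]; exact expNegInvGlue.nonneg _
  · have h1 : primG τ ≤ ∫ _ in (0 : ℝ)..τ, expNegInvGlue τ := by
      apply intervalIntegral.integral_mono_on h0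
        (continuous_expNegInvGlue.intervalIntegrable _ _) (by simp)
      intro t ht
      exact expNegInvGlue.monotone ht.2
    rw [intervalIntegral.integral_const] at h1
    refine h1.trans ?_
    have := expNegInvGlue.nonneg τ
    simp only [sub_zero, smul_eq_mul]
    nlinarith

theorem contDiff_primG {n : ℕ∞} : ContDiff ℝ n primG := by
  have h : ContDiff ℝ (⊤ : ℕ∞) primG := by
    rw [contDiff_infty_iff_deriv]
    refine ⟨fun τ => (hasDerivAt_primG τ).differentiableAt, ?_⟩
    have : deriv primG = expNegInvGlue := by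
      ext τ; exact (hasDerivAt_primG τ).deriv
    rw [this]
    exact expNegInvGlue.contDiff
  exact h.of_le (by exact_mod_cast le_top)

section
variable {E : Type*} [NormedAddCommGroup E] [InnerProductSpace ℝ E]

/-- smooth bump supported in the unit ball -/
noncomputable def bumpPhi (z : E) : ℝ := expNegInvGlue (1 - ‖z‖ ^ 2)

/-- `bumpPsi` satisfies `∇ bumpPsi z = -2 bumpPhi z • z` -/
noncomputable def bumpPsi (z : E) : ℝ := primG (1 - ‖z‖ ^ 2)

theorem bumpPhi_nonneg (z : E) : 0 ≤ bumpPhi z := expNegInvGlue.nonneg _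
theorem bumpPsi_nonneg (z : E) : 0 ≤ bumpPsi z := primG_nonneg _

theorem bumpPsi_le (z : E) : bumpPsi z ≤ bumpPhi z :=
  primG_le (by nlinarith [sq_nonneg ‖z‖])

theorem bumpPhi_le_one (z : E) : bumpPhi z ≤ 1 := by
  unfold bumpPhi expNegInvGlue
  split_ifs with h
  · norm_num
  · rw [Real.exp_le_one_iff]
    push Not at h
    have := inv_pos.mpr h
    linarith

theorem bumpPsi_le_one (z : E) : bumpPsi z ≤ 1 := (bumpPsi_le z).trans (bumpPhi_le_one z)

theorem bumpPhi_eq_zero {z : E} (h : 1 ≤ ‖z‖) : bumpPhi z = 0 :=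
  expNegInvGlue.zero_of_nonpos (by nlinarith)

theorem bumpPsi_eq_zero {z : E} (h : 1 ≤ ‖z‖) : bumpPsi z = 0 :=
  primG_of_nonpos (by nlinarith)

theorem bumpPhi_pos {z : E} (h : ‖z‖ < 1) : 0 < bumpPhi z :=
  expNegInvGlue.pos_of_pos (by nlinarith [norm_nonneg z])

theorem bumpPhi_ge {z : E} (h : ‖z‖ ≤ 1 / 2) : Real.exp (-(4 / 3)) ≤ bumpPhi z := by
  have h0 := norm_nonneg z
  have h1 : 3 / 4 ≤ 1 - ‖z‖ ^ 2 := by nlinarith
  unfold bumpPhi expNegInvGlue
  rw [if_neg (by linarith)]
  apply Real.exp_le_exp.mpr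
  rw [neg_le_neg_iff, inv_le_comm₀ (by linarith) (by norm_num)]
  linarith

theorem contDiff_bumpPhi {n : ℕ∞} : ContDiff ℝ n (bumpPhi : E → ℝ) :=
  expNegInvGlue.contDiff.comp (contDiff_const.sub (contDiff_norm_sq ℝ))

theorem contDiff_bumpPsi {n : ℕ∞} : ContDiff ℝ n (bumpPsi : E → ℝ) :=
  contDiff_primG.comp (contDiff_const.sub (contDiff_norm_sq ℝ))

theorem continuous_bumpPhi : Continuous (bumpPhi : E → ℝ) := (contDiff_bumpPhi (n := 0)).continuous
theorem continuous_bumpPsi : Continuous (bumpPsi : E → ℝ) := (contDiff_bumpPsi (n := 0)).continuous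

theorem hasFDerivAt_bumpPsi (z : E) :
    HasFDerivAt (bumpPsi : E → ℝ) ((-(2 * bumpPhi z)) • (innerSL ℝ z : E →L[ℝ] ℝ)) z := by
  have h1 : HasFDerivAt (fun z : E => 1 - ‖z‖ ^ 2) (-((2 : ℝ) • (innerSL ℝ z : E →L[ℝ] ℝ))) z := by
    have := (hasFDerivAt_id (𝕜 := ℝ) z).norm_sq.const_sub 1
    exact this.congr_fderiv (by ext y; simp [two_mul, two_nsmul])
  have h2 := (hasDerivAt_primG (1 - ‖z‖ ^ 2)).comp_hasFDerivAt z h1
  refine h2.congr_fderiv ?_
  ext y
  simp [bumpPhi]
  ring

theorem tsupport_bumpPhi_subset : tsupport (bumpPhi : E → ℝ) ⊆ closedBall 0 1 := by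
  apply closure_minimal _ isClosed_closedBall
  intro z hz
  by_contra h
  simp only [mem_closedBall, dist_zero_right, not_le] at h
  exact hz (bumpPhi_eq_zero h.le)

theorem tsupport_bumpPsi_subset : tsupport (bumpPsi : E → ℝ) ⊆ closedBall 0 1 := by
  apply closure_minimal _ isClosed_closedBall
  intro z hz
  by_contra h
  simp only [mem_closedBall, dist_zero_right, not_le] at h
  exact hz (bumpPsi_eq_zero h.le)

variable [FiniteDimensional ℝ E]

theorem hasCompactSupport_bumpPhi : HasCompactSupport (bumpPhi : E → ℝ) :=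
  (isCompact_closedBall (0 : E) 1).of_isClosed_subset (isClosed_tsupport _) tsupport_bumpPhi_subset

theorem hasCompactSupport_bumpPsi : HasCompactSupport (bumpPsi : E → ℝ) :=
  (isCompact_closedBall (0 : E) 1).of_isClosed_subset (isClosed_tsupport _) tsupport_bumpPsi_subset

variable [MeasurableSpace E] [BorelSpace E]

variable (E) in
/-- total mass of `bumpPhi` -/
noncomputable def kap : ℝ := ∫ z : E, bumpPhi z

theorem integrable_bumpPhi : Integrable (bumpPhi : E → ℝ) :=
  continuous_bumpPhi.integrable_of_hasCompactSupport hasCompactSupport_bumpPhi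

theorem integrable_bumpPsi : Integrable (bumpPsi : E → ℝ) :=
  continuous_bumpPsi.integrable_of_hasCompactSupport hasCompactSupport_bumpPsi

variable (E) in
theorem kap_pos : 0 < kap E :=
  continuous_bumpPhi.integral_pos_of_hasCompactSupport_nonneg_nonzero hasCompactSupport_bumpPhi
    bumpPhi_nonneg (x := 0) (bumpPhi_pos (by simp)).ne'

theorem integral_bumpPsi_le : ∫ z : E, bumpPsi z ≤ kap E :=
  integral_mono integrable_bumpPsi integrable_bumpPhi bumpPsi_le


/-- integrability of `u * k` when `u` is continuous on the closed unit ball and `k` vanishes outside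
the unit ball -/
theorem integrable_mul_kernel {k u : E → ℝ} (hk : Continuous k)
    (hk0 : ∀ z, 1 ≤ ‖z‖ → k z = 0) (hu : ContinuousOn u (closedBall 0 1)) :
    Integrable (fun z => u z * k z) := by
  have h1 : IntegrableOn (fun z => u z * k z) (closedBall 0 1) :=
    (hu.mul hk.continuousOn).integrableOn_compact (isCompact_closedBall 0 1)
  have h2 : (fun z => u z * k z) = (closedBall (0 : E) 1).indicator (fun z => u z * k z) := by
    ext z
    by_cases hz : z ∈ closedBall (0 : E) 1
    · rw [indicator_of_mem hz]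
    · rw [indicator_of_notMem hz]
      simp only [mem_closedBall, dist_zero_right, not_le] at hz
      rw [hk0 z hz.le, mul_zero]
  rw [h2]
  exact h1.integrable_indicator measurableSet_closedBall

end

end Pool.Agent.Lib.MP_437bdf_an
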