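import Pool.Agent.Lib.MP_437bdf_an.Kernel

/-! Weighted mean value identity for `C^2` functions. -/

open Set Metric Filter Topology MeasureTheory
open InnerProductSpace Laplacian

namespace Pool.Agent.Lib.MP_437bdf_an

set_option linter.unusedSectionVars false

variable {E : Type*} [NormedAddCommGroup E] [InnerProductSpace ℝ E] [FiniteDimensional ℝ E]
variable [MeasurableSpace E] [BorelSpace E]

/-- Weighted mean value form of `-Δ w = g` in `D` -/
def MVOn (w g : E → ℝ) (D : Set E) : Prop :=
  ∀ x r, 0 < r → closedBall x r ⊆ D →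
    kap E * w x = (∫ z : E, w (x + r • z) * bumpPhi z)
      + ∫ s in (0 : ℝ)..r, (s / 2) * ∫ z : E, g (x + s • z) * bumpPsi z

theorem continuous_lap {W : E → ℝ} (hW : ContDiff ℝ 2 W) : Continuous (Δ W) := by
  have h1 : ContDiff ℝ 1 (fderiv ℝ W) := hW.fderiv_right (m := 1) (by norm_num)
  have h2 : Continuous (fderiv ℝ (fderiv ℝ W)) := h1.continuous_fderiv (by norm_num)
  have : Δ W = fun x => ∑ i, fderiv ℝ (fderiv ℝ W) x (stdOrthonormalBasis ℝ E i)
      (stdOrthonormalBasis ℝ E i) := by
    ext x; exact lap_eq_sum _ W x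
  rw [this]
  fun_prop

/-- integration by parts against the radial kernels -/
theorem integral_fderiv_mul_bumpPhi {W : E → ℝ} (hW : ContDiff ℝ 2 W) (x : E) (s : ℝ) :
    ∫ z : E, fderiv ℝ W (x + s • z) z * bumpPhi z
      = (s / 2) * ∫ z : E, (Δ W) (x + s • z) * bumpPsi z := by
  set b := stdOrthonormalBasis ℝ E
  have h1 : ContDiff ℝ 1 (fderiv ℝ W) := hW.fderiv_right (m := 1) (by norm_num)
  have hc1 : Continuous (fderiv ℝ W) := h1.continuous
  have hc2 : Continuous (fderiv ℝ (fderiv ℝ W)) := h1.continuous_fderiv (by norm_num)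
  have hl : ∀ z : E, HasFDerivAt (fun z : E => x + s • z) (s • ContinuousLinearMap.id ℝ E) z := by
    intro z
    exact ((hasFDerivAt_id (𝕜 := ℝ) z).const_smul s).const_add x
  -- derivative of the partial derivative
  have hf : ∀ i z, HasFDerivAt (fun z : E => fderiv ℝ W (x + s • z) (b i))
      ((s • fderiv ℝ (fderiv ℝ W) (x + s • z)).flip (b i)) z := by
    intro i z
    have a1 : HasFDerivAt (fderiv ℝ W) (fderiv ℝ (fderiv ℝ W) (x + s • z)) (x + s • z) :=
      (h1.differentiable (by norm_num) _).hasFDerivAt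
    have a2 := a1.comp z (hl z)
    have a3 := a2.clm_apply (hasFDerivAt_const (b i) z)
    refine a3.congr_fderiv ?_
    ext y
    simp
  have key : ∀ i, ∫ z : E, fderiv ℝ W (x + s • z) (b i) * inner ℝ z (b i) * bumpPhi z
      = (s / 2) * ∫ z : E, fderiv ℝ (fderiv ℝ W) (x + s • z) (b i) (b i) * bumpPsi z := by
    intro i
    have ibp := integral_mul_fderiv_eq_neg_fderiv_mul_of_integrable (μ := (volume : Measure E))
      (f := fun z : E => fderiv ℝ W (x + s • z) (b i)) (g := (bumpPsi : E → ℝ)) (v := b i)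
      ?_ ?_ ?_ (fun z _ => (hf i z).differentiableAt)
      (fun z _ => (hasFDerivAt_bumpPsi z).differentiableAt)
    · have e1 : ∀ z : E, fderiv ℝ W (x + s • z) (b i) * fderiv ℝ bumpPsi z (b i)
          = -2 * (fderiv ℝ W (x + s • z) (b i) * inner ℝ z (b i) * bumpPhi z) := by
        intro z
        rw [(hasFDerivAt_bumpPsi z).fderiv]
        simp
        ring
      have e2 : ∀ z : E, fderiv ℝ (fun z : E => fderiv ℝ W (x + s • z) (b i)) z (b i) * bumpPsi z
          = s * (fderiv ℝ (fderiv ℝ W) (x + s • z) (b i) (b i) * bumpPsi z) := by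
        intro z
        rw [(hf i z).fderiv]
        simp
        ring
      simp only [e1, e2] at ibp
      rw [integral_const_mul, integral_const_mul] at ibp
      linarith
    · have e2 : (fun z : E => fderiv ℝ (fun z : E => fderiv ℝ W (x + s • z) (b i)) z (b i) * bumpPsi z)
          = fun z => (s * fderiv ℝ (fderiv ℝ W) (x + s • z) (b i) (b i)) * bumpPsi z := by
        ext z
        rw [(hf i z).fderiv]
        simp
      rw [e2]
      exact integrable_mul_kernel continuous_bumpPsi (fun z hz => bumpPsi_eq_zero hz)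
        (by fun_prop)
    · have e1 : (fun z : E => fderiv ℝ W (x + s • z) (b i) * fderiv ℝ bumpPsi z (b i))
          = fun z => (-2 * (fderiv ℝ W (x + s • z) (b i) * inner ℝ z (b i))) * bumpPhi z := by
        ext z
        rw [(hasFDerivAt_bumpPsi z).fderiv]
        simp
        ring
      rw [e1]
      exact integrable_mul_kernel continuous_bumpPhi (fun z hz => bumpPhi_eq_zero hz)
        (by fun_prop)
    · exact integrable_mul_kernel continuous_bumpPsi (fun z hz => bumpPsi_eq_zero hz)
        (by fun_prop)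
  have e3 : ∀ z : E, fderiv ℝ W (x + s • z) z * bumpPhi z
      = ∑ i, fderiv ℝ W (x + s • z) (b i) * inner ℝ z (b i) * bumpPhi z := by
    intro z
    rw [← Finset.sum_mul]
    congr 1
    have hL : ∀ (L : E →L[ℝ] ℝ) (z : E), L z = ∑ i, L (b i) * inner ℝ z (b i) := by
      intro L z
      conv_lhs => rw [← b.sum_repr' z]
      rw [map_sum]
      refine Finset.sum_congr rfl fun i _ => ?_
      rw [map_smul, real_inner_comm, smul_eq_mul, mul_comm]
    exact hL _ z
  have e4 : ∀ z : E, (Δ W) (x + s • z) * bumpPsi z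
      = ∑ i, fderiv ℝ (fderiv ℝ W) (x + s • z) (b i) (b i) * bumpPsi z := by
    intro z
    rw [lap_eq_sum b W, Finset.sum_mul]
  simp only [e3, e4]
  rw [integral_finsetSum, integral_finsetSum, Finset.mul_sum]
  · exact Finset.sum_congr rfl fun i _ => key i
  · intro i _
    exact integrable_mul_kernel continuous_bumpPsi (fun z hz => bumpPsi_eq_zero hz)
        (by fun_prop)
  · intro i _
    exact integrable_mul_kernel continuous_bumpPhi (fun z hz => bumpPhi_eq_zero hz)
        (by fun_prop)

theorem setIntegral_kernel {k u : E → ℝ} (hk0 : ∀ z : E, 1 ≤ ‖z‖ → k z = 0) :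
    ∫ z : E, u z * k z = ∫ z in closedBall (0 : E) 1, u z * k z := by
  symm
  apply setIntegral_eq_integral_of_forall_compl_eq_zero
  intro z hz
  simp only [mem_closedBall, dist_zero_right, not_le] at hz
  rw [hk0 z hz.le, mul_zero]

theorem continuous_kernel_integral {X : Type*} [TopologicalSpace X] [FirstCountableTopology X]
    [LocallyCompactSpace X] {k : E → ℝ} {u : X → E → ℝ} (hk : Continuous k)
    (hk0 : ∀ z : E, 1 ≤ ‖z‖ → k z = 0) (hu : Continuous u.uncurry) :
    Continuous (fun p : X => ∫ z : E, u p z * k z) := by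
  have : (fun p : X => ∫ z : E, u p z * k z)
      = fun p => ∫ z in closedBall (0 : E) 1, u p z * k z := by
    ext p; exact setIntegral_kernel hk0
  rw [this]
  apply continuous_parametric_integral_of_continuous _ (isCompact_closedBall 0 1)
  have : Continuous fun q : X × E => u.uncurry q * k q.2 := hu.mul (hk.comp continuous_snd)
  exact this

theorem hasDerivAt_avg {W : E → ℝ} (hW : ContDiff ℝ 1 W) (x : E) (s : ℝ) :
    HasDerivAt (fun s : ℝ => ∫ z : E, W (x + s • z) * bumpPhi z)
      (∫ z : E, fderiv ℝ W (x + s • z) z * bumpPhi z) s := by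
  have hc1 : Continuous (fderiv ℝ W) := hW.continuous_fderiv (by norm_num)
  have hc : Continuous W := hW.continuous
  obtain ⟨C, hC⟩ := (isCompact_closedBall x (|s| + 1)).exists_bound_of_continuousOn
    (f := fderiv ℝ W) hc1.continuousOn
  have hC0 : 0 ≤ C := (norm_nonneg _).trans (hC x (by simp; positivity))
  have := hasDerivAt_integral_of_dominated_loc_of_deriv_le (μ := (volume : Measure E))
    (F := fun (s : ℝ) (z : E) => W (x + s • z) * bumpPhi z)
    (F' := fun (s : ℝ) (z : E) => fderiv ℝ W (x + s • z) z * bumpPhi z)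
    (x₀ := s) (s := ball s 1) (bound := fun z => C * bumpPhi z) (ball_mem_nhds s one_pos)
    ?_ ?_ ?_ ?_ ?_ ?_
  · exact this.2
  · refine Eventually.of_forall fun t => ?_
    exact (Continuous.mul (by fun_prop) continuous_bumpPhi).aestronglyMeasurable
  · exact integrable_mul_kernel continuous_bumpPhi (fun z hz => bumpPhi_eq_zero hz) (by fun_prop)
  · exact (Continuous.mul (by fun_prop) continuous_bumpPhi).aestronglyMeasurable
  · refine Eventually.of_forall fun z t ht => ?_
    rcases le_or_gt 1 ‖z‖ with hz | hz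
    · simp [bumpPhi_eq_zero hz]
    · rw [norm_mul, Real.norm_of_nonneg (bumpPhi_nonneg z)]
      refine mul_le_mul_of_nonneg_right ?_ (bumpPhi_nonneg z)
      refine ((fderiv ℝ W (x + t • z)).le_opNorm z).trans ?_
      have h1 : x + t • z ∈ closedBall x (|s| + 1) := by
        rw [mem_closedBall, dist_eq_norm]
        have : |t| ≤ |s| + 1 := by
          rw [mem_ball, Real.dist_eq] at ht
          have := abs_sub_abs_le_abs_sub t s
          linarith
        calc ‖x + t • z - x‖ = |t| * ‖z‖ := by rw [add_sub_cancel_left, norm_smul, Real.norm_eq_abs]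
          _ ≤ |t| * 1 := by gcongr
          _ ≤ |s| + 1 := by linarith
      have h2 := hC _ h1
      calc ‖fderiv ℝ W (x + t • z)‖ * ‖z‖ ≤ C * 1 := by gcongr
        _ = C := mul_one C
  · exact integrable_bumpPhi.const_mul C
  · refine Eventually.of_forall fun z t _ => ?_
    have hl : HasDerivAt (fun t : ℝ => x + t • z) z t := by
      have := ((hasDerivAt_id t).smul_const z).const_add x
      simpa using this
    have h1 : HasFDerivAt W (fderiv ℝ W (x + t • z)) (x + t • z) :=
      (hW.differentiable (by norm_num) _).hasFDerivAt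
    exact (h1.comp_hasDerivAt t hl).mul_const _

/-- the weighted mean value identity for globally `C^2` functions -/
theorem mv_global {W : E → ℝ} (hW : ContDiff ℝ 2 W) (x : E) (r : ℝ) :
    kap E * W x = (∫ z : E, W (x + r • z) * bumpPhi z)
      - ∫ s in (0 : ℝ)..r, (s / 2) * ∫ z : E, (Δ W) (x + s • z) * bumpPsi z := by
  have hW1 : ContDiff ℝ 1 W := hW.of_le (by norm_num)
  have h1 : ∀ s ∈ uIcc 0 r, HasDerivAt (fun s : ℝ => ∫ z : E, W (x + s • z) * bumpPhi z)
      ((s / 2) * ∫ z : E, (Δ W) (x + s • z) * bumpPsi z) s := by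
    intro s _
    rw [← integral_fderiv_mul_bumpPhi hW]
    exact hasDerivAt_avg hW1 x s
  have hcl := continuous_lap hW
  have hcont : Continuous (fun s : ℝ => ∫ z : E, (Δ W) (x + s • z) * bumpPsi z) := by
    have hu : Continuous (Function.uncurry (fun (s : ℝ) (z : E) => (Δ W) (x + s • z))) := by
      have : Continuous (fun q : ℝ × E => x + q.1 • q.2) := by fun_prop
      exact hcl.comp this
    exact continuous_kernel_integral (u := fun (s : ℝ) (z : E) => (Δ W) (x + s • z))
      continuous_bumpPsi (fun z hz => bumpPsi_eq_zero hz) hu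
  have h2 : IntervalIntegrable
      (fun s : ℝ => (s / 2) * ∫ z : E, (Δ W) (x + s • z) * bumpPsi z) volume 0 r :=
    Continuous.intervalIntegrable (by fun_prop) _ _
  have h3 := intervalIntegral.integral_eq_sub_of_hasDerivAt h1 h2
  rw [h3]
  have h4 : ∫ z : E, W (x + (0 : ℝ) • z) * bumpPhi z = kap E * W x := by
    simp only [zero_smul, add_zero]
    rw [integral_const_mul, kap, mul_comm]
  rw [h4]
  ring

/-- a `C^2` function near a closed ball coincides near this ball with a global `C^2` function -/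
theorem exists_extension {w : E → ℝ} {D : Set E} (hD : IsOpen D) (hw : ContDiffOn ℝ 2 w D)
    {x : E} {r : ℝ} (hr : 0 ≤ r) (hs : closedBall x r ⊆ D) :
    ∃ W : E → ℝ, ContDiff ℝ 2 W ∧ ∀ y ∈ closedBall x r, W =ᶠ[𝓝 y] w := by
  obtain ⟨δ, hδ, hsub⟩ := (isCompact_closedBall x r).exists_cthickening_subset_open hD hs
  rw [cthickening_closedBall hδ.le hr] at hsub
  let χ : ContDiffBump x := ⟨r + δ / 2, r + δ, by positivity, by linarith⟩
  refine ⟨fun y => χ y * w y, ?_, ?_⟩
  · rw [contDiff_iff_contDiffAt]
    intro y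
    by_cases hy : y ∈ D
    · exact (χ.contDiff.contDiffAt).mul (hw.contDiffAt (hD.mem_nhds hy))
    · have hy2 : y ∉ tsupport χ := by
        rw [χ.tsupport_eq]
        intro h
        exact hy (hsub (by simpa [add_comm] using h))
      have h0 : (fun y => χ y * w y) =ᶠ[𝓝 y] fun _ => 0 := by
        have := notMem_tsupport_iff_eventuallyEq.mp hy2
        filter_upwards [this] with z hz
        simp [hz]
      exact contDiffAt_const.congr_of_eventuallyEq h0
  · intro y hy
    have : ball x (r + δ / 2) ∈ 𝓝 y := by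
      apply isOpen_ball.mem_nhds
      rw [mem_ball]
      rw [mem_closedBall] at hy
      linarith
    filter_upwards [this] with z hz
    rw [χ.one_of_mem_closedBall (ball_subset_closedBall hz), one_mul]

theorem lap_congr {w W : E → ℝ} {y : E} (h : W =ᶠ[𝓝 y] w) : (Δ W) y = (Δ w) y :=
  (laplacian_congr_nhds h).self_of_nhds

theorem smul_mem_closedBall {x z : E} {r s : ℝ} (hs : 0 ≤ s) (hsr : s ≤ r) (hz : ‖z‖ ≤ 1) :
    x + s • z ∈ closedBall x r := by
  rw [mem_closedBall, dist_eq_norm, add_sub_cancel_left, norm_smul, Real.norm_of_nonneg hs]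
  nlinarith [norm_nonneg z]

theorem mvOn_of_contDiffOn {w g : E → ℝ} {D : Set E} (hD : IsOpen D)
    (hw : ContDiffOn ℝ 2 w D) (hg : ∀ x ∈ D, -(Δ w) x = g x) : MVOn w g D := by
  intro x r hr hs
  obtain ⟨W, hW, hWw⟩ := exists_extension hD hw hr.le hs
  have h0 := mv_global hW x r
  have h1 : W x = w x := (hWw x (mem_closedBall_self hr.le)).self_of_nhds
  have h2 : ∫ z : E, W (x + r • z) * bumpPhi z = ∫ z : E, w (x + r • z) * bumpPhi z := by
    congr 1
    ext z
    rcases le_or_gt 1 ‖z‖ with hz | hz
    · simp [bumpPhi_eq_zero hz]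
    · rw [(hWw _ (smul_mem_closedBall hr.le le_rfl hz.le)).self_of_nhds]
  have h3 : ∫ s in (0 : ℝ)..r, (s / 2) * ∫ z : E, (Δ W) (x + s • z) * bumpPsi z
      = - ∫ s in (0 : ℝ)..r, (s / 2) * ∫ z : E, g (x + s • z) * bumpPsi z := by
    rw [← intervalIntegral.integral_neg]
    apply intervalIntegral.integral_congr
    intro s hsr
    rw [uIcc_of_le hr.le] at hsr
    simp only
    rw [← mul_neg, ← integral_neg]
    congr 2
    ext z
    rcases le_or_gt 1 ‖z‖ with hz | hz
    · simp [bumpPsi_eq_zero hz]
    · have hm := smul_mem_closedBall (x := x) hsr.1 hsr.2 hz.le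
      rw [lap_congr (hWw _ hm), ← hg _ (hs hm)]
      ring
  rw [h1, h2, h3] at h0
  rw [h0]
  ring

end Pool.Agent.Lib.MP_437bdf_an
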