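import Pool.Agent.Lib.MP_437bdf_an.MV

/-! Regularity of mean value solutions with a locally Lipschitz right side. -/

open Set Metric Filter Topology MeasureTheory
open InnerProductSpace Laplacian
open scoped Convolution NNReal

namespace Pool.Agent.Lib.MP_437bdf_an

section FF

variable {E : Type*} [NormedAddCommGroup E] [InnerProductSpace ℝ E] [FiniteDimensional ℝ E]
  [MeasurableSpace E] [BorelSpace E]
variable {F : Type*} [NormedAddCommGroup F] [NormedSpace ℝ F]

/-- weighted average of `g` over a ball of radius `s` around `x` -/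
noncomputable def FF (g : E → ℝ) (χ : E → F) (s : ℝ) (x : E) : F := ∫ z : E, g (x + s • z) • χ z

omit [FiniteDimensional ℝ E] [MeasurableSpace E] [BorelSpace E] [NormedSpace ℝ F] in
lemma hasCompactSupport_scale {χ : E → F} (hc : HasCompactSupport χ) {s : ℝ} (hs : 0 < s) :
    HasCompactSupport (fun v : E => χ ((-s⁻¹) • v)) := by
  have : (-s⁻¹ : ℝ) ≠ 0 := by
    have := inv_pos.mpr hs
    linarith
  exact hc.comp_smul this

lemma FF_eq_conv (g : E → ℝ) (χ : E → F) {s : ℝ} (hs : 0 < s) (x : E) :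
    FF g χ s x = |(s ^ (Module.finrank ℝ E))⁻¹| •
      (g ⋆[ContinuousLinearMap.lsmul ℝ ℝ, volume] (fun v : E => χ ((-s⁻¹) • v))) x := by
  have h1 := Measure.integral_comp_smul (volume : Measure E)
    (fun u : E => g (x + u) • χ (s⁻¹ • u)) s
  have h2 : (∫ z : E, g (x + s • z) • χ (s⁻¹ • s • z)) = FF g χ s x := by
    unfold FF
    congr 1
    ext z
    rw [smul_smul s⁻¹ s z, inv_mul_cancel₀ hs.ne', one_smul]
  rw [← h2, h1]
  congr 1
  rw [convolution_def]
  rw [← integral_add_left_eq_self (fun t : E => (ContinuousLinearMap.lsmul ℝ ℝ) (g t)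
    (χ ((-s⁻¹) • (x - t)))) x]
  congr 1
  ext u
  simp

lemma hasFDerivAt_FF {g : E → ℝ} {χ : E → F} [CompleteSpace F] (hg : Continuous g)
    (hc : HasCompactSupport χ) (hχ : ContDiff ℝ 1 χ) {s : ℝ} (hs : 0 < s) (x : E) :
    HasFDerivAt (FF g χ s) ((-s⁻¹) • FF g (fderiv ℝ χ) s x) x := by
  have hk : ContDiff ℝ 1 (fun v : E => χ ((-s⁻¹) • v)) := hχ.comp (contDiff_const_smul _)
  have h1 := (hasCompactSupport_scale hc hs).hasFDerivAt_convolution_right
    (ContinuousLinearMap.lsmul ℝ ℝ) (μ := volume) hg.locallyIntegrable hk x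
  have h2 := h1.const_smul (|(s ^ (Module.finrank ℝ E))⁻¹|)
  have h3 : FF g χ s = fun y => |(s ^ (Module.finrank ℝ E))⁻¹| •
      (g ⋆[ContinuousLinearMap.lsmul ℝ ℝ, volume] (fun v : E => χ ((-s⁻¹) • v))) y := by
    ext y
    exact FF_eq_conv g χ hs y
  rw [h3]
  refine h2.congr_fderiv ?_
  rw [FF_eq_conv g (fderiv ℝ χ) hs x, smul_comm]
  congr 1
  rw [convolution_def, convolution_def, ← integral_smul]
  congr 1
  ext t v
  rw [fderiv_comp_smul]
  simp [ContinuousLinearMap.precompR]

lemma integral_fderiv_eq_zero' {χ : E → F} [CompleteSpace F]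
    (hc : HasCompactSupport χ) (hχ : ContDiff ℝ 1 χ) : ∫ z : E, fderiv ℝ χ z = 0 := by
  have h1 := hasFDerivAt_FF (g := fun _ : E => (1 : ℝ)) continuous_const hc hχ one_pos 0
  have h2 : FF (fun _ : E => (1 : ℝ)) χ 1 = fun _ => ∫ z : E, χ z := by
    ext x
    simp [FF]
  rw [h2] at h1
  have h3 := h1.unique (hasFDerivAt_const _ _)
  simpa [FF] using h3

lemma FF_continuous {g : E → ℝ} {χ : E → F} (hg : Continuous g)
    (hc : HasCompactSupport χ) (hχ : Continuous χ) :
    Continuous (fun q : ℝ × E => FF g χ q.1 q.2) := by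
  have h1 : ∀ q : ℝ × E, FF g χ q.1 q.2 = ∫ z in tsupport χ, g (q.2 + q.1 • z) • χ z := by
    intro q
    unfold FF
    rw [setIntegral_eq_integral_of_forall_compl_eq_zero]
    intro z hz
    rw [image_eq_zero_of_notMem_tsupport hz, smul_zero]
  have h2 : Continuous (fun q : ℝ × E => ∫ z in tsupport χ, g (q.2 + q.1 • z) • χ z) := by
    apply continuous_parametric_integral_of_continuous _ hc
    fun_prop
  exact h2.congr fun q => (h1 q).symm

lemma integrable_FF {g : E → ℝ} {χ : E → F} (hg : Continuous g)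
    (hc : HasCompactSupport χ) (hχ : Continuous χ) (s : ℝ) (x : E) :
    Integrable (fun z : E => g (x + s • z) • χ z) := by
  apply Continuous.integrable_of_hasCompactSupport (by fun_prop)
  exact hc.smul_left

lemma FF_bound {g : E → ℝ} {χ : E → F} {K : ℝ≥0} (hg : LipschitzWith K g)
    (hc : HasCompactSupport χ) (hχ : Continuous χ) (h0 : ∫ z : E, χ z = 0) {s : ℝ} (hs : 0 ≤ s)
    (x : E) : ‖FF g χ s x‖ ≤ s * (K * ∫ z : E, ‖z‖ * ‖χ z‖) := by
  have h1 : FF g χ s x = ∫ z : E, (g (x + s • z) - g x) • χ z := by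
    have hi : Integrable (fun z : E => g x • χ z) :=
      (hχ.integrable_of_hasCompactSupport hc).smul (g x)
    simp only [sub_smul]
    rw [integral_sub (integrable_FF hg.continuous hc hχ s x) hi, integral_smul, h0, smul_zero,
      sub_zero]
    rfl
  rw [h1]
  have hint : Integrable (fun z : E => ‖z‖ * ‖χ z‖) := by
    apply Continuous.integrable_of_hasCompactSupport (by fun_prop)
    exact hc.norm.mul_left
  calc ‖∫ z : E, (g (x + s • z) - g x) • χ z‖ ≤ ∫ z : E, (s * K) * (‖z‖ * ‖χ z‖) := by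
        apply norm_integral_le_of_norm_le (hint.const_mul _)
        filter_upwards with z
        rw [norm_smul]
        have := hg.dist_le_mul (x + s • z) x
        rw [dist_eq_norm, dist_eq_norm, add_sub_cancel_left, norm_smul, Real.norm_of_nonneg hs]
          at this
        calc ‖g (x + s • z) - g x‖ * ‖χ z‖ ≤ (K * (s * ‖z‖)) * ‖χ z‖ := by gcongr
          _ = _ := by ring
    _ = _ := by rw [integral_const_mul]; ring

/-- Differentiation of the radial average. -/
lemma hasFDerivAt_radial {g : E → ℝ} {χ : E → F} [CompleteSpace F] {K : ℝ≥0}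
    (hg : LipschitzWith K g) (hc : HasCompactSupport χ) (hχ : ContDiff ℝ 1 χ)
    {c : ℝ → ℝ} (hcc : Continuous c) {ρ : ℝ} (hρ : 0 < ρ) (x : E) :
    HasFDerivAt (fun y => ∫ s in (0 : ℝ)..ρ, c s • FF g χ s y)
      (∫ s in (0 : ℝ)..ρ, c s • (-s⁻¹) • FF g (fderiv ℝ χ) s x) x := by
  have hχ' : Continuous (fderiv ℝ χ) := hχ.continuous_fderiv one_ne_zero
  have hc' : HasCompactSupport (fderiv ℝ χ) := hc.fderiv ℝ
  have h0 := integral_fderiv_eq_zero' hc hχ
  set M : ℝ := K * ∫ z : E, ‖z‖ * ‖fderiv ℝ χ z‖ with hM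
  have hM0 : 0 ≤ M := by positivity
  have hcont1 : ∀ y, Continuous (fun s : ℝ => FF g χ s y) := fun y =>
    (FF_continuous hg.continuous hc hχ.continuous).comp (by fun_prop : Continuous fun s : ℝ => (s, y))
  have hcont2 : ∀ y, Continuous (fun s : ℝ => FF g (fderiv ℝ χ) s y) := fun y =>
    (FF_continuous hg.continuous hc' hχ').comp (by fun_prop : Continuous fun s : ℝ => (s, y))
  apply intervalIntegral.hasFDerivAt_integral_of_dominated_of_fderiv_le (s := univ)
    (bound := fun s => |c s| * M)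
    (F' := fun y s => c s • (-s⁻¹) • FF g (fderiv ℝ χ) s y) univ_mem
  · filter_upwards with y
    exact (hcc.smul (hcont1 y)).aestronglyMeasurable
  · exact (hcc.smul (hcont1 x)).intervalIntegrable _ _
  · have hm : AEStronglyMeasurable (fun s : ℝ => -s⁻¹) (volume.restrict (uIoc 0 ρ)) :=
      (measurable_id.inv.neg).aestronglyMeasurable
    exact hcc.aestronglyMeasurable.smul (hm.smul (hcont2 x).aestronglyMeasurable)
  · filter_upwards with s hs y _
    rw [uIoc_of_le hρ.le] at hs
    have hs0 : 0 < s := hs.1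
    rw [norm_smul, norm_smul, norm_neg, norm_inv, Real.norm_eq_abs, Real.norm_of_nonneg hs0.le]
    have := FF_bound hg hc' hχ' h0 hs0.le y
    rw [← hM] at this
    calc |c s| * (s⁻¹ * ‖FF g (fderiv ℝ χ) s y‖) ≤ |c s| * (s⁻¹ * (s * M)) := by gcongr
      _ = |c s| * M := by field_simp
  · exact (hcc.abs.mul continuous_const).intervalIntegrable _ _
  · filter_upwards with s hs y _
    rw [uIoc_of_le hρ.le] at hs
    exact (hasFDerivAt_FF hg.continuous hc hχ hs.1 y).const_smul (c s)

/-- continuity of the singular radial average -/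
lemma continuous_radial {g : E → ℝ} {χ : E → F} {K : ℝ≥0}
    (hg : LipschitzWith K g) (hc : HasCompactSupport χ) (hχ : Continuous χ)
    (h0 : ∫ z : E, χ z = 0)
    {c : ℝ → ℝ} (hcc : Continuous c) {ρ : ℝ} (hρ : 0 < ρ) :
    Continuous (fun y => ∫ s in (0 : ℝ)..ρ, c s • (-s⁻¹) • FF g χ s y) := by
  set M : ℝ := K * ∫ z : E, ‖z‖ * ‖χ z‖ with hM
  have hM0 : 0 ≤ M := by positivity
  have hcont2 : ∀ y, Continuous (fun s : ℝ => FF g χ s y) := fun y =>
    (FF_continuous hg.continuous hc hχ).comp (by fun_prop : Continuous fun s : ℝ => (s, y))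
  have hcont3 : ∀ s, Continuous (fun y : E => FF g χ s y) := fun s =>
    (FF_continuous hg.continuous hc hχ).comp (by fun_prop : Continuous fun y : E => (s, y))
  apply intervalIntegral.continuous_of_dominated_interval (bound := fun s => |c s| * M)
  · intro y
    have hm : AEStronglyMeasurable (fun s : ℝ => -s⁻¹) (volume.restrict (uIoc 0 ρ)) :=
      (measurable_id.inv.neg).aestronglyMeasurable
    exact hcc.aestronglyMeasurable.smul (hm.smul (hcont2 y).aestronglyMeasurable)
  · intro y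
    filter_upwards with s hs
    rw [uIoc_of_le hρ.le] at hs
    have hs0 : 0 < s := hs.1
    rw [norm_smul, norm_smul, norm_neg, norm_inv, Real.norm_eq_abs, Real.norm_of_nonneg hs0.le]
    have := FF_bound hg hc hχ h0 hs0.le y
    rw [← hM] at this
    calc |c s| * (s⁻¹ * ‖FF g χ s y‖) ≤ |c s| * (s⁻¹ * (s * M)) := by gcongr
      _ = |c s| * M := by field_simp
  · exact (hcc.abs.mul continuous_const).intervalIntegrable _ _
  · filter_upwards with s _
    exact ((hcont3 s).const_smul (-s⁻¹)).const_smul (c s)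

lemma contDiff_one_radial {g : E → ℝ} {χ : E → F} [CompleteSpace F] {K : ℝ≥0}
    (hg : LipschitzWith K g) (hc : HasCompactSupport χ) (hχ : ContDiff ℝ 1 χ)
    {c : ℝ → ℝ} (hcc : Continuous c) {ρ : ℝ} (hρ : 0 < ρ) :
    ContDiff ℝ 1 (fun y => ∫ s in (0 : ℝ)..ρ, c s • FF g χ s y) := by
  rw [contDiff_one_iff_hasFDerivAt]
  exact ⟨fun y => ∫ s in (0 : ℝ)..ρ, c s • (-s⁻¹) • FF g (fderiv ℝ χ) s y,
    continuous_radial hg (hc.fderiv ℝ) (hχ.continuous_fderiv one_ne_zero)
        (integral_fderiv_eq_zero' hc hχ) hcc hρ,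
    fun y => hasFDerivAt_radial hg hc hχ hcc hρ y⟩

lemma contDiff_radial {g : E → ℝ} {χ : E → F} [CompleteSpace F] {K : ℝ≥0}
    (hg : LipschitzWith K g) (hc : HasCompactSupport χ) (hχ : ContDiff ℝ 2 χ)
    {ρ : ℝ} (hρ : 0 < ρ) :
    ContDiff ℝ 2 (fun y => ∫ s in (0 : ℝ)..ρ, (s / 2) • FF g χ s y) := by
  have h1 : ContDiff ℝ 1 χ := hχ.of_le (by norm_num)
  have hχ1 : ContDiff ℝ 1 (fderiv ℝ χ) := hχ.fderiv_right (m := 1) (by norm_num)
  have hc1 : HasCompactSupport (fderiv ℝ χ) := hc.fderiv ℝ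
  have e1 : ∀ y, (∫ s in (0 : ℝ)..ρ, (s / 2) • (-s⁻¹) • FF g (fderiv ℝ χ) s y) =
      ∫ s in (0 : ℝ)..ρ, (-1 / 2 : ℝ) • FF g (fderiv ℝ χ) s y := by
    intro y
    apply intervalIntegral.integral_congr_ae
    filter_upwards with s hs
    rw [uIoc_of_le hρ.le] at hs
    have hs0 : s ≠ 0 := hs.1.ne'
    rw [smul_smul]
    congr 1
    field_simp
  have hcontDiff1 : ContDiff ℝ 1
      (fun y => ∫ s in (0 : ℝ)..ρ, (-1 / 2 : ℝ) • FF g (fderiv ℝ χ) s y) :=
    contDiff_one_radial hg hc1 hχ1 (c := fun _ => (-1 / 2 : ℝ)) continuous_const hρ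
  have e2 : (2 : WithTop ℕ∞) = ((1 : ℕ) : WithTop ℕ∞) + 1 := by norm_num
  rw [e2, contDiff_succ_iff_hasFDerivAt]
  refine ⟨fun y => ∫ s in (0 : ℝ)..ρ, (-1 / 2 : ℝ) • FF g (fderiv ℝ χ) s y, ?_, fun y => ?_⟩
  · exact_mod_cast hcontDiff1
  · beta_reduce
    rw [← e1 y]
    exact hasFDerivAt_radial hg hc h1 (c := fun s => s / 2) (by fun_prop) hρ y

end FF

section bumps

variable {E : Type*} [NormedAddCommGroup E] [InnerProductSpace ℝ E]

lemma primG_pos {τ : ℝ} (h : 0 < τ) : 0 < primG τ := by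
  unfold primG
  have hc : Continuous expNegInvGlue := (expNegInvGlue.contDiff (n := 0)).continuous
  exact intervalIntegral.intervalIntegral_pos_of_pos_on (hc.intervalIntegrable _ _)
    (fun x hx => expNegInvGlue.pos_of_pos hx.1) h

omit [InnerProductSpace ℝ E] in
lemma bumpPsi_pos {z : E} (hz : ‖z‖ < 1) : 0 < bumpPsi z := by
  unfold bumpPsi
  apply primG_pos
  nlinarith [norm_nonneg z]

lemma contDiff_two_bumpPsi : ContDiff ℝ 2 (bumpPsi : E → ℝ) := by
  exact_mod_cast contDiff_bumpPsi (E := E) (n := 2)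

variable [FiniteDimensional ℝ E] [MeasurableSpace E] [BorelSpace E]

lemma integral_bumpPsi_pos : 0 < ∫ z : E, bumpPsi z := by
  have hc : Continuous (bumpPsi : E → ℝ) := continuous_bumpPsi
  apply hc.integral_pos_of_hasCompactSupport_nonneg_nonzero hasCompactSupport_bumpPsi
    (x := 0) (fun z => bumpPsi_nonneg z)
  exact (bumpPsi_pos (by simp)).ne'

end bumps

section main

variable {E : Type*} [NormedAddCommGroup E] [InnerProductSpace ℝ E] [FiniteDimensional ℝ E]
  [MeasurableSpace E] [BorelSpace E]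

lemma FF_congr {F : Type*} [NormedAddCommGroup F] [NormedSpace ℝ F] {g g' : E → ℝ} {χ : E → F}
    {s : ℝ} {x : E} (hs : 0 ≤ s) (hχ : ∀ z, 1 ≤ ‖z‖ → χ z = 0)
    (h : ∀ y ∈ closedBall x s, g y = g' y) : FF g χ s x = FF g' χ s x := by
  unfold FF
  congr 1
  ext z
  by_cases hz : 1 ≤ ‖z‖
  · rw [hχ z hz, smul_zero, smul_zero]
  · push Not at hz
    rw [h]
    rw [mem_closedBall, dist_eq_norm, add_sub_cancel_left, norm_smul, Real.norm_of_nonneg hs]
    nlinarith

theorem MVOn.contDiffAt {w g : E → ℝ} {D : Set E} (hD : IsOpen D) (hw : ContinuousOn w D)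
    (hg : LocallyLipschitzOn D g) (h : MVOn w g D) {x₀ : E} (hx₀ : x₀ ∈ D) :
    ContDiffAt ℝ 2 w x₀ := by
  obtain ⟨K, t, ht, hK⟩ := hg hx₀
  rw [hD.nhdsWithin_eq hx₀] at ht
  obtain ⟨ε, hε, hball⟩ := Metric.mem_nhds_iff.1 (Filter.inter_mem ht (hD.mem_nhds hx₀))
  set ρ := ε / 3 with hρ
  have hρ0 : 0 < ρ := by positivity
  set S := closedBall x₀ (2 * ρ) with hS
  have hSball : S ⊆ ball x₀ ε := closedBall_subset_ball (by rw [hρ]; linarith)
  have hSD : S ⊆ D := fun y hy => (hball (hSball hy)).2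
  have hSt : S ⊆ t := fun y hy => (hball (hSball hy)).1
  obtain ⟨g', hg', hgg'⟩ := (hK.mono hSt).extend_real
  set w' : E → ℝ := S.indicator w with hw'
  have hw'int : LocallyIntegrable w' := by
    apply Integrable.locallyIntegrable
    rw [hw', integrable_indicator_iff measurableSet_closedBall]
    exact (hw.mono hSD).integrableOn_compact (isCompact_closedBall _ _)
  -- the smooth model
  have hmodel : ContDiff ℝ 2 (fun x => (kap E)⁻¹ * (FF w' bumpPhi ρ x +
      ∫ s in (0 : ℝ)..ρ, (s / 2) • FF g' bumpPsi s x)) := by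
    apply contDiff_const.mul
    apply ContDiff.add
    · have e : FF w' (bumpPhi : E → ℝ) ρ = fun y => |(ρ ^ (Module.finrank ℝ E))⁻¹| •
          (w' ⋆[ContinuousLinearMap.lsmul ℝ ℝ, volume]
            (fun v : E => bumpPhi ((-ρ⁻¹) • v))) y := by
        ext y
        exact FF_eq_conv w' bumpPhi hρ0 y
      rw [e]
      apply ContDiff.const_smul
      have := (hasCompactSupport_scale hasCompactSupport_bumpPhi hρ0).contDiff_convolution_right
        (n := 2) (ContinuousLinearMap.lsmul ℝ ℝ) (μ := (volume : Measure E)) hw'int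
        (contDiff_bumpPhi.comp (contDiff_const_smul _))
      exact_mod_cast this
    · exact contDiff_radial hg' hasCompactSupport_bumpPsi contDiff_two_bumpPsi hρ0
  refine hmodel.contDiffAt.congr_of_eventuallyEq ?_
  filter_upwards [ball_mem_nhds x₀ hρ0] with x hx
  have hsub : closedBall x ρ ⊆ S := by
    intro y hy
    rw [mem_closedBall] at hy ⊢
    rw [mem_ball] at hx
    calc dist y x₀ ≤ dist y x + dist x x₀ := dist_triangle _ _ _
      _ ≤ 2 * ρ := by linarith
  have h1 := h x ρ hρ0 (hsub.trans hSD)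
  have hk : 0 < kap E := kap_pos E
  have h2 : (∫ z : E, w (x + ρ • z) * bumpPhi z) = FF w' bumpPhi ρ x := by
    have : (∫ z : E, w (x + ρ • z) * bumpPhi z) = FF w bumpPhi ρ x := rfl
    rw [this]
    apply FF_congr hρ0.le (fun z hz => bumpPhi_eq_zero hz)
    intro y hy
    rw [hw', indicator_of_mem (hsub hy)]
  have h3 : (∫ s in (0 : ℝ)..ρ, (s / 2) * ∫ z : E, g (x + s • z) * bumpPsi z) =
      ∫ s in (0 : ℝ)..ρ, (s / 2) • FF g' bumpPsi s x := by
    apply intervalIntegral.integral_congr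
    intro s hs
    rw [uIcc_of_le hρ0.le] at hs
    have : (∫ z : E, g (x + s • z) * bumpPsi z) = FF g bumpPsi s x := rfl
    simp only [smul_eq_mul]
    rw [this]
    congr 1
    apply FF_congr hs.1 (fun z hz => bumpPsi_eq_zero hz)
    intro y hy
    exact hgg' (hsub (closedBall_subset_closedBall hs.2 hy))
  rw [← h2, ← h3, ← h1]
  field_simp

/-- regularity: a mean value solution with locally Lipschitz right side is a classical solution -/
theorem MVOn.contDiffOn {w g : E → ℝ} {D : Set E} (hD : IsOpen D) (hw : ContinuousOn w D)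
    (hg : LocallyLipschitzOn D g) (h : MVOn w g D) :
    ContDiffOn ℝ 2 w D ∧ ∀ x ∈ D, -(Δ w) x = g x := by
  have hC : ContDiffOn ℝ 2 w D := fun x hx => (h.contDiffAt hD hw hg hx).contDiffWithinAt
  refine ⟨hC, ?_⟩
  set q : E → ℝ := fun x => -(Δ w) x with hq
  have hqc : ContinuousOn q D := by
    intro x hx
    have h2 : ContDiffAt ℝ 2 w x := h.contDiffAt hD hw hg hx
    have h1 : ContDiffAt ℝ 1 (fderiv ℝ w) x := h2.fderiv_right (m := 1) (by norm_num)
    have h0 : ContinuousAt (fderiv ℝ (fderiv ℝ w)) x :=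
      (h1.fderiv_right (m := 0) (by norm_num)).continuousAt
    have e : q = fun y => -∑ i, fderiv ℝ (fderiv ℝ w) y (stdOrthonormalBasis ℝ E i)
        (stdOrthonormalBasis ℝ E i) := by
      ext y
      rw [hq]
      beta_reduce
      rw [laplacian_eq_iteratedFDeriv_orthonormalBasis w (stdOrthonormalBasis ℝ E)]
      congr 1
      refine Finset.sum_congr rfl fun i _ => ?_
      rw [iteratedFDeriv_two_apply]
      simp
    rw [e]
    apply ContinuousAt.continuousWithinAt
    apply ContinuousAt.neg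
    apply tendsto_finsetSum
    intro i _
    exact (h0.clm_apply continuousAt_const).clm_apply continuousAt_const
  have hgc : ContinuousOn g D := hg.continuousOn
  have hMq : MVOn w q D := mvOn_of_contDiffOn hD hC (fun _ _ => rfl)
  intro x hx
  obtain ⟨R, hR, hRD⟩ := Metric.nhds_basis_closedBall.mem_iff.1 (hD.mem_nhds hx)
  have hext : ∀ f : E → ℝ, ContinuousOn f D → ∃ f' : E → ℝ, Continuous f' ∧
      ∀ y ∈ closedBall x R, f y = f' y := by
    intro f hf
    obtain ⟨G, hG⟩ := ContinuousMap.exists_restrict_eq (isClosed_closedBall (x := x) (ε := R))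
      ⟨(closedBall x R).domRestrict f, (hf.mono hRD).domRestrict⟩
    refine ⟨G, G.continuous, fun y hy => ?_⟩
    have := congrArg (fun k => k ⟨y, hy⟩) hG
    exact this.symm
  obtain ⟨g', hg'c, hg'⟩ := hext g hgc
  obtain ⟨q', hq'c, hq'⟩ := hext q hqc
  have hcomp : ∀ f f' : E → ℝ, (∀ y ∈ closedBall x R, f y = f' y) → ∀ r, 0 ≤ r → r ≤ R →
      (∫ s in (0 : ℝ)..r, (s / 2) * ∫ z : E, f (x + s • z) * bumpPsi z) =
      ∫ s in (0 : ℝ)..r, (s / 2) * FF f' bumpPsi s x := by
    intro f f' hff r hr0 hrR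
    apply intervalIntegral.integral_congr
    intro s hs
    rw [uIcc_of_le hr0] at hs
    have : (∫ z : E, f (x + s • z) * bumpPsi z) = FF f bumpPsi s x := rfl
    simp only []
    rw [this]
    congr 1
    apply FF_congr hs.1 (fun z hz => bumpPsi_eq_zero hz)
    intro y hy
    exact hff y (closedBall_subset_closedBall (hs.2.trans hrR) hy)
  have hcont : ∀ f' : E → ℝ, Continuous f' →
      Continuous (fun s : ℝ => FF f' (bumpPsi : E → ℝ) s x) := fun f' hf' =>
    (FF_continuous hf' hasCompactSupport_bumpPsi continuous_bumpPsi).comp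
      (by fun_prop : Continuous fun s : ℝ => (s, x))
  set P : ℝ → ℝ := fun s => FF g' bumpPsi s x - FF q' bumpPsi s x with hP
  have hPc : Continuous P := (hcont g' hg'c).sub (hcont q' hq'c)
  have hI : ∀ r, 0 < r → r ≤ R → ∫ s in (0 : ℝ)..r, (s / 2) * P s = 0 := by
    intro r hr0 hrR
    have hsub : closedBall x r ⊆ D := (closedBall_subset_closedBall hrR).trans hRD
    have h1 := h x r hr0 hsub
    have h2 := hMq x r hr0 hsub
    rw [hcomp g g' hg' r hr0.le hrR] at h1
    rw [hcomp q q' hq' r hr0.le hrR] at h2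
    have e : ∀ s, (s / 2) * P s = (s / 2) * FF g' bumpPsi s x - (s / 2) * FF q' bumpPsi s x := by
      intro s
      rw [hP]
      ring
    simp only [e]
    have c1 : Continuous fun s : ℝ => (s / 2) * FF g' (bumpPsi : E → ℝ) s x :=
      (by fun_prop : Continuous fun s : ℝ => s / 2).mul (hcont g' hg'c)
    have c2 : Continuous fun s : ℝ => (s / 2) * FF q' (bumpPsi : E → ℝ) s x :=
      (by fun_prop : Continuous fun s : ℝ => s / 2).mul (hcont q' hq'c)
    rw [intervalIntegral.integral_sub (c1.intervalIntegrable _ _) (c2.intervalIntegrable _ _)]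
    linarith
  have hQc : Continuous fun s : ℝ => (s / 2) * P s :=
    (by fun_prop : Continuous fun s : ℝ => s / 2).mul hPc
  have hzero : ∀ r ∈ Ioo 0 R, P r = 0 := by
    intro r hr
    have hd : HasDerivAt (fun r => ∫ s in (0 : ℝ)..r, (s / 2) * P s) ((r / 2) * P r) r :=
      intervalIntegral.integral_hasDerivAt_right (hQc.intervalIntegrable _ _)
        (hQc.stronglyMeasurableAtFilter _ _) hQc.continuousAt
    have he : (fun r => ∫ s in (0 : ℝ)..r, (s / 2) * P s) =ᶠ[𝓝 r] fun _ => 0 := by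
      filter_upwards [isOpen_Ioo.mem_nhds hr] with y hy
      exact hI y hy.1 hy.2.le
    have hd2 : HasDerivAt (fun r => ∫ s in (0 : ℝ)..r, (s / 2) * P s) 0 r :=
      (hasDerivAt_const r (0 : ℝ)).congr_of_eventuallyEq he
    have h3 := hd.unique hd2
    rcases mul_eq_zero.1 h3 with h4 | h4
    · have := hr.1
      linarith
    · exact h4
  have hP0 : P 0 = 0 := by
    have hcl : (0 : ℝ) ∈ closure (Ioo 0 R) := by
      rw [closure_Ioo hR.ne]
      exact ⟨le_rfl, hR.le⟩
    have hclosed : IsClosed {r : ℝ | P r = 0} := isClosed_eq hPc continuous_const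
    exact hclosed.closure_subset_iff.2 (fun r hr => hzero r hr) hcl
  have hval : P 0 = (g x - q x) * ∫ z : E, bumpPsi z := by
    rw [hP]
    simp only [FF, zero_smul, add_zero, smul_eq_mul]
    rw [integral_const_mul, integral_const_mul, ← hg' x (mem_closedBall_self hR.le),
      ← hq' x (mem_closedBall_self hR.le)]
    ring
  rw [hval] at hP0
  rcases mul_eq_zero.1 hP0 with h4 | h4
  · show q x = g x
    linarith
  · exact absurd h4 integral_bumpPsi_pos.ne'

end main

end Pool.Agent.Lib.MP_437bdf_an
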