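import Pool.Agent.Lib.MP_437bdf_an.Geometry

/-! If the boundary of an exterior-star domain is locally a graph, the domain lies on one side. -/

open Set Metric Filter Topology

namespace Pool.Agent.Lib.MP_437bdf_an

section top
variable {X : Type*} [TopologicalSpace X]

theorem mem_of_preconnected {Ω s : Set X} (hΩ : IsOpen Ω) (hs : IsPreconnected s)
    (hd : ∀ x ∈ s, x ∉ frontier Ω) {x y : X} (hx : x ∈ s) (hy : y ∈ s) (hxΩ : x ∈ Ω) : y ∈ Ω := by
  by_contra hyΩ
  have hcl : ∀ z ∈ s, z ∉ Ω → z ∈ (closure Ω)ᶜ := by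
    intro z hz hzΩ hzc
    apply hd z hz
    rw [hΩ.frontier_eq]
    exact ⟨hzc, hzΩ⟩
  obtain ⟨z, -, hz1, hz2⟩ := hs Ω (closure Ω)ᶜ hΩ isClosed_closure.isOpen_compl (by
    intro z hz
    by_cases hzΩ : z ∈ Ω
    · exact Or.inl hzΩ
    · exact Or.inr (hcl z hz hzΩ)) ⟨x, hx, hxΩ⟩ ⟨y, hy, hcl y hy hyΩ⟩
  exact hz2 (subset_closure hz1)

theorem same_side {Ω s : Set X} (hΩ : IsOpen Ω) (hs : IsPreconnected s)
    (hd : ∀ x ∈ s, x ∉ frontier Ω) {x y : X} (hx : x ∈ s) (hy : y ∈ s) : x ∈ Ω ↔ y ∈ Ω :=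
  ⟨mem_of_preconnected hΩ hs hd hx hy, mem_of_preconnected hΩ hs hd hy hx⟩

end top

section metric
variable {X : Type*} [PseudoMetricSpace X]

/-- a closed set that is locally relatively open in a preconnected set -/
theorem preconn_local {S A : Set X} (hS : IsPreconnected S) (hA : IsClosed A)
    (hloc : ∀ q ∈ S, q ∈ A → ∃ r > 0, ∀ x ∈ S, x ∈ ball q r → x ∈ A) {x y : X} (hx : x ∈ S)
    (hxA : x ∉ A) (hy : y ∈ S) : y ∉ A := by
  intro hyA
  choose! r hr hloc using hloc
  obtain ⟨z, hzS, hz1, hz2⟩ := hS Aᶜ (⋃ q ∈ S ∩ A, ball q (r q)) hA.isOpen_compl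
    (isOpen_biUnion fun _ _ => isOpen_ball) (by
      intro z hz
      by_cases hzA : z ∈ A
      · exact Or.inr (mem_biUnion ⟨hz, hzA⟩ (mem_ball_self (hr z hz hzA)))
      · exact Or.inl hzA) ⟨x, hx, hxA⟩
    ⟨y, hy, mem_biUnion ⟨hy, hyA⟩ (mem_ball_self (hr y hy hyA))⟩
  simp only [mem_iUnion] at hz2
  obtain ⟨q, hq, hzq⟩ := hz2
  exact hz1 (hloc q hq.1 hq.2 z hzS hzq)

end metric

variable {E : Type*} [NormedAddCommGroup E] [InnerProductSpace ℝ E]

/-- local description of the boundary near `p` as the zero set of a function that is strictly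
increasing in the direction `e` -/
structure LocalGraph (Ω : Set E) (ρ r : ℝ) (g : E → ℝ) (p e N : E) : Prop where
  hρ : 0 < ρ
  hr : 0 < r
  he : ‖e‖ = 1
  hN : ‖N‖ = 1
  heN : 0 < (inner ℝ e N : ℝ)
  cont : ContinuousOn g (ball p r)
  shift : ∀ (x : E) (τ : ℝ), g (x + τ • e) = g x + τ
  front : ∀ x ∈ ball p r, x ∈ frontier Ω ↔ g x = 0
  up : ∀ x ∈ ball (p + ρ • N) ρ, x ∈ ball p r ∧ 0 < g x
  down : ∀ x ∈ ball (p - ρ • N) ρ, x ∈ ball p r ∧ g x < 0

namespace LocalGraph
variable {Ω : Set E} {ρ r : ℝ} {g : E → ℝ} {p e N : E}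

theorem neg (h : LocalGraph Ω ρ r g p e N) : LocalGraph Ω ρ r (fun x => -g x) p (-e) (-N) := by
  refine ⟨h.hρ, h.hr, by rw [norm_neg]; exact h.he, by rw [norm_neg]; exact h.hN, ?_, h.cont.neg,
    ?_, ?_, ?_, ?_⟩
  · rw [inner_neg_neg]; exact h.heN
  · intro x τ
    have := h.shift x (-τ)
    rw [smul_neg, ← neg_smul, this]
    ring
  · intro x hx
    rw [h.front x hx, neg_eq_zero]
  · intro x hx
    rw [smul_neg, ← sub_eq_add_neg] at hx
    have := h.down x hx
    exact ⟨this.1, by linarith [this.2]⟩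
  · intro x hx
    rw [smul_neg, sub_neg_eq_add] at hx
    have := h.up x hx
    exact ⟨this.1, by linarith [this.2]⟩

/-- near `p`, points above the graph are on the same side as the upper centre -/
theorem near (h : LocalGraph Ω ρ r g p e N) (hΩ : IsOpen Ω) :
    ∃ r₁ > 0, r₁ ≤ r ∧ ∀ x ∈ ball p r₁, 0 < g x → (x ∈ Ω ↔ p + ρ • N ∈ Ω) := by
  set τ := ρ * (inner ℝ e N : ℝ) with hτ
  have hτ0 : 0 < τ := mul_pos h.hρ h.heN
  have hmem : p + τ • e ∈ ball (p + ρ • N) ρ := by
    rw [mem_ball, dist_eq_norm, show p + τ • e - (p + ρ • N) = τ • e - ρ • N by abel]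
    apply lt_of_pow_lt_pow_left₀ 2 h.hρ.le
    rw [@norm_sub_sq_real, norm_smul, norm_smul, h.he, h.hN, inner_smul_left, inner_smul_right,
      Real.norm_of_nonneg hτ0.le, Real.norm_of_nonneg h.hρ.le]
    simp only [mul_one, conj_trivial]
    have : τ * (ρ * (inner ℝ e N : ℝ)) = τ ^ 2 := by rw [hτ]; ring
    rw [this]
    have : 0 < τ ^ 2 := by positivity
    linarith
  obtain ⟨s, hs, hball⟩ := Metric.isOpen_iff.mp isOpen_ball _ hmem
  refine ⟨min s r, lt_min hs h.hr, min_le_right _ _, ?_⟩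
  intro x hx hgx
  have hxr : x ∈ ball p r := ball_subset_ball (min_le_right _ _) hx
  have hx2 : x + τ • e ∈ ball (p + ρ • N) ρ := by
    apply hball
    rw [mem_ball, dist_add_right]
    exact lt_of_lt_of_le hx (min_le_left _ _)
  have hseg : ∀ z ∈ segment ℝ x (x + τ • e), z ∉ frontier Ω := by
    intro z hz
    have hzr : z ∈ ball p r := (convex_ball p r).segment_subset hxr (h.up _ hx2).1 hz
    rw [h.front z hzr]
    rw [segment_eq_image'] at hz
    obtain ⟨θ, hθ, rfl⟩ := hz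
    have e1 : x + θ • (x + τ • e - x) = x + (θ * τ) • e := by
      rw [add_sub_cancel_left, smul_smul]
    simp only [e1, h.shift]
    have : 0 ≤ θ * τ := mul_nonneg hθ.1 hτ0.le
    linarith
  have h1 := same_side hΩ (convex_segment x (x + τ • e)).isPreconnected hseg
    (left_mem_segment ℝ x (x + τ • e)) (right_mem_segment ℝ x (x + τ • e))
  have h2 := same_side hΩ (convex_ball (p + ρ • N) ρ).isPreconnected (fun z hz => by
    rw [h.front z (h.up z hz).1]; exact (h.up z hz).2.ne') hx2 (mem_ball_self h.hρ)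
  exact h1.trans h2

/-- the upper ball is on one side -/
theorem up_iff (h : LocalGraph Ω ρ r g p e N) (hΩ : IsOpen Ω) {x : E}
    (hx : x ∈ ball (p + ρ • N) ρ) : x ∈ Ω ↔ p + ρ • N ∈ Ω :=
  same_side hΩ (convex_ball (p + ρ • N) ρ).isPreconnected (fun z hz => by
    rw [h.front z (h.up z hz).1]; exact (h.up z hz).2.ne') hx (mem_ball_self h.hρ)

theorem down_iff (h : LocalGraph Ω ρ r g p e N) (hΩ : IsOpen Ω) {x : E}
    (hx : x ∈ ball (p - ρ • N) ρ) : x ∈ Ω ↔ p - ρ • N ∈ Ω :=
  same_side hΩ (convex_ball (p - ρ • N) ρ).isPreconnected (fun z hz => by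
    rw [h.front z (h.down z hz).1]; exact (h.down z hz).2.ne) hx (mem_ball_self h.hρ)

/-- at least one of the two sides belongs to the domain -/
theorem one_side (h : LocalGraph Ω ρ r g p e N) (hΩ : IsOpen Ω) (hp : p ∈ frontier Ω) :
    p + ρ • N ∈ Ω ∨ p - ρ • N ∈ Ω := by
  obtain ⟨r₁, hr₁, hr₁r, h1⟩ := h.near hΩ
  obtain ⟨r₂, hr₂, hr₂r, h2⟩ := h.neg.near hΩ
  obtain ⟨x, hxΩ, hx⟩ := Metric.mem_closure_iff.mp hp.1 (min r₁ r₂) (lt_min hr₁ hr₂)
  rw [dist_comm] at hx
  have hx1 : x ∈ ball p r₁ := lt_of_lt_of_le hx (min_le_left _ _)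
  have hx2 : x ∈ ball p r₂ := lt_of_lt_of_le hx (min_le_right _ _)
  have hg0 : g x ≠ 0 := by
    intro h0
    have := (h.front x (ball_subset_ball hr₁r hx1)).mpr h0
    rw [hΩ.frontier_eq] at this
    exact this.2 hxΩ
  rcases lt_or_gt_of_ne hg0 with hg | hg
  · right
    have := (h2 x hx2 (by simpa using hg)).mp hxΩ
    rwa [smul_neg, ← sub_eq_add_neg] at this
  · left
    exact (h1 x hx1 hg).mp hxΩ

/-- if the upper side is in the complement then near `p` all boundary points are limits of interior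
points of the complement -/
theorem frontier_mem_closure (h : LocalGraph Ω ρ r g p e N) (hΩ : IsOpen Ω)
    (hU : p + ρ • N ∉ Ω) : ∃ r₁ > 0, ∀ x ∈ ball p r₁, x ∈ frontier Ω →
      x ∈ closure (interior Ωᶜ) := by
  obtain ⟨r₁, hr₁, hr₁r, h1⟩ := h.near hΩ
  refine ⟨r₁, hr₁, ?_⟩
  intro x hx hxf
  have hgx := (h.front x (ball_subset_ball hr₁r hx)).mp hxf
  have hsub : {y | y ∈ ball p r₁ ∧ 0 < g y} ⊆ Ωᶜ := fun y hy hyΩ => hU ((h1 y hy.1 hy.2).mp hyΩ)
  have hopen : IsOpen {y | y ∈ ball p r₁ ∧ 0 < g y} := by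
    have := (h.cont.mono (ball_subset_ball hr₁r)).isOpen_inter_preimage isOpen_ball
      (isOpen_Ioi (a := (0 : ℝ)))
    exact this
  have hint : {y | y ∈ ball p r₁ ∧ 0 < g y} ⊆ interior Ωᶜ := interior_maximal hsub hopen
  rw [Metric.mem_closure_iff]
  intro ε hε
  obtain ⟨s, hs, hball⟩ := Metric.isOpen_iff.mp isOpen_ball _ hx
  set τ := min ε s / 2 with hτ
  have hτ0 : 0 < τ := by positivity
  have hτε : τ < ε := by
    have := min_le_left ε s
    rw [hτ]; linarith
  have hτs : τ < s := by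
    have := min_le_right ε s
    rw [hτ]; linarith
  have hd : dist (x + τ • e) x = τ := by
    rw [dist_eq_norm, add_sub_cancel_left, norm_smul, h.he, mul_one, Real.norm_of_nonneg hτ0.le]
  refine ⟨x + τ • e, hint ⟨hball ?_, ?_⟩, ?_⟩
  · rw [mem_ball, hd]; exact hτs
  · rw [h.shift, hgx]; linarith
  · rw [dist_comm, hd]; exact hτε

end LocalGraph

/-- The main topological argument: for an exterior-star domain both sides cannot be in the domain. -/
theorem not_both_sides {Ω : Set E} {ρ : ℝ} (hΩ : IsOpen Ω) (hconn : IsPreconnected Ω)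
    {c : E} (hstar : StarConvex ℝ c Ωᶜ)
    (hloc : ∀ p ∈ frontier Ω, ∃ (r : ℝ) (g : E → ℝ) (e N : E), LocalGraph Ω ρ r g p e N)
    {p : E} (hp : p ∈ frontier Ω) {r : ℝ} {g : E → ℝ} {e N : E} (h : LocalGraph Ω ρ r g p e N)
    (hU : p + ρ • N ∈ Ω) (hL : p - ρ • N ∈ Ω) : False := by
  have hfrF : ∀ x, x ∈ frontier Ω ↔ x ∈ Ωᶜ ∧ x ∉ interior Ωᶜ := by
    intro x
    rw [hΩ.frontier_eq, interior_compl]
    simp only [Set.mem_sdiff, mem_compl_iff, not_not]
    tauto
  have hFcl : IsClosed Ωᶜ := hΩ.isClosed_compl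
  have hIF : closure (interior Ωᶜ) ⊆ Ωᶜ := by
    rw [← hFcl.closure_eq]
    exact closure_mono (by rw [hFcl.closure_eq]; exact interior_subset)
  -- at a boundary point with both sides in the domain, no interior points of the complement
  have hclA : ∀ {q : E} {r : ℝ} {g : E → ℝ} {e N : E}, LocalGraph Ω ρ r g q e N →
      q + ρ • N ∈ Ω → q - ρ • N ∈ Ω → q ∉ closure (interior Ωᶜ) := by
    intro q r g e N h hU hL hq
    obtain ⟨r₁, hr₁, hr₁r, h1⟩ := h.near hΩ
    obtain ⟨r₂, hr₂, hr₂r, h2⟩ := h.neg.near hΩ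
    obtain ⟨x, hxI, hx⟩ := Metric.mem_closure_iff.mp hq (min r₁ r₂) (lt_min hr₁ hr₂)
    rw [dist_comm] at hx
    have hx1 : x ∈ ball q r₁ := lt_of_lt_of_le hx (min_le_left _ _)
    have hx2 : x ∈ ball q r₂ := lt_of_lt_of_le hx (min_le_right _ _)
    have hxF : x ∉ Ω := interior_subset hxI
    have hg0 : g x ≠ 0 := by
      intro h0
      have := (h.front x (ball_subset_ball hr₁r hx1)).mpr h0
      exact ((hfrF x).mp this).2 hxI
    rcases lt_or_gt_of_ne hg0 with hg | hg
    · apply hxF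
      refine (h2 x hx2 (by simpa using hg)).mpr ?_
      rwa [smul_neg, ← sub_eq_add_neg]
    · exact hxF ((h1 x hx1 hg).mpr hU)
  -- local propagation
  have hprop : ∀ q ∈ Ωᶜ, q ∈ closure (interior Ωᶜ) → ∃ r > 0, ∀ x ∈ Ωᶜ, x ∈ ball q r →
      x ∈ closure (interior Ωᶜ) := by
    intro q hqF hq
    by_cases hqI : q ∈ interior Ωᶜ
    · obtain ⟨s, hs, hball⟩ := Metric.isOpen_iff.mp isOpen_interior _ hqI
      exact ⟨s, hs, fun x _ hx => subset_closure (hball hx)⟩
    · have hqf : q ∈ frontier Ω := (hfrF q).mpr ⟨hqF, hqI⟩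
      obtain ⟨r, g, e, N, h⟩ := hloc q hqf
      have hor : q + ρ • N ∉ Ω ∨ q - ρ • N ∉ Ω := by
        by_contra hcon
        push Not at hcon
        exact hclA h hcon.1 hcon.2 hq
      have hex : ∃ r₁ > 0, ∀ x ∈ ball q r₁, x ∈ frontier Ω → x ∈ closure (interior Ωᶜ) := by
        rcases hor with hor | hor
        · exact h.frontier_mem_closure hΩ hor
        · refine h.neg.frontier_mem_closure hΩ ?_
          rwa [smul_neg, ← sub_eq_add_neg]
      obtain ⟨r₁, hr₁, h1⟩ := hex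
      refine ⟨r₁, hr₁, fun x hxF hx => ?_⟩
      by_cases hxI : x ∈ interior Ωᶜ
      · exact subset_closure hxI
      · exact h1 x hx ((hfrF x).mpr ⟨hxF, hxI⟩)
  have hpF : p ∈ Ωᶜ := ((hfrF p).mp hp).1
  have hsegF : segment ℝ c p ⊆ Ωᶜ := hstar.segment_subset hpF
  have hcF : c ∈ Ωᶜ := hsegF (left_mem_segment ℝ c p)
  have hcI : c ∉ closure (interior Ωᶜ) :=
    preconn_local (convex_segment c p).isPreconnected isClosed_closure
      (fun q hq hqA => by
        obtain ⟨r, hr, h1⟩ := hprop q (hsegF hq) hqA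
        exact ⟨r, hr, fun x hx hxb => h1 x (hsegF hx) hxb⟩)
      (right_mem_segment ℝ c p) (hclA h hU hL) (left_mem_segment ℝ c p)
  have hcf : c ∈ frontier Ω := (hfrF c).mpr ⟨hcF, fun h => hcI (subset_closure h)⟩
  obtain ⟨r', g', e', M, hc⟩ := hloc c hcf
  have hcU : c + ρ • M ∈ Ω := by
    by_contra hcon
    obtain ⟨r₁, hr₁, h1⟩ := hc.frontier_mem_closure hΩ hcon
    exact hcI (h1 c (mem_ball_self hr₁) hcf)
  have hcL : c - ρ • M ∈ Ω := by
    by_contra hcon
    obtain ⟨r₁, hr₁, h1⟩ := hc.neg.frontier_mem_closure hΩ (by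
      rwa [smul_neg, ← sub_eq_add_neg])
    exact hcI (h1 c (mem_ball_self hr₁) hcf)
  -- the complement lies in a hyperplane
  have hρ := hc.hρ
  have hplane : ∀ z ∈ Ωᶜ, (inner ℝ M (z - c) : ℝ) = 0 := by
    intro z hz
    have hray : ∀ t : ℝ, 0 < t → t ≤ 1 → c + t • (z - c) ∈ Ωᶜ := by
      intro t ht0 ht1
      have := hstar hz (a := 1 - t) (b := t) (by linarith) ht0.le (by ring)
      rwa [show (1 - t) • c + t • z = c + t • (z - c) by
        rw [sub_smul, one_smul, smul_sub]; abel] at this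
    have key : ∀ M' : E, ‖M'‖ = 1 → (∀ x ∈ ball (c + ρ • M') ρ, x ∈ Ω) →
        (inner ℝ M' (z - c) : ℝ) ≤ 0 := by
      intro M' hM' hb
      by_contra hcon
      push Not at hcon
      set a := (inner ℝ M' (z - c) : ℝ) with ha
      set b := ‖z - c‖ ^ 2 with hb'
      have hb0 : 0 ≤ b := by positivity
      set t := min 1 (ρ * a / (b + 1)) with ht
      have ht0 : 0 < t := lt_min one_pos (by positivity)
      have ht1 : t ≤ 1 := min_le_left _ _
      apply hray t ht0 ht1
      apply hb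
      rw [mem_ball, dist_eq_norm, show c + t • (z - c) - (c + ρ • M') = t • (z - c) - ρ • M' by abel]
      apply lt_of_pow_lt_pow_left₀ 2 hρ.le
      rw [@norm_sub_sq_real, norm_smul, norm_smul, hM', inner_smul_left, inner_smul_right,
        real_inner_comm, Real.norm_of_nonneg ht0.le, Real.norm_of_nonneg hρ.le]
      simp only [mul_one, conj_trivial]
      have h1 : t * (b + 1) ≤ ρ * a := by
        have : t ≤ ρ * a / (b + 1) := min_le_right _ _
        rwa [le_div_iff₀ (by positivity)] at this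
      have h2 : (t * ‖z - c‖) ^ 2 = t * (t * b) := by rw [hb']; ring
      rw [h2]
      have h3 : t * b < ρ * a := by nlinarith
      have h4 : t * (t * b) < t * (ρ * a) := by gcongr
      have h5 : 0 < t * (ρ * a) := by positivity
      linarith
    have k1 := key M hc.hN (fun x hx => (hc.up_iff hΩ hx).mpr hcU)
    have k2 := key (-M) (by rw [norm_neg]; exact hc.hN) (fun x hx => by
      rw [smul_neg, ← sub_eq_add_neg] at hx
      exact (hc.down_iff hΩ hx).mpr hcL)
    rw [inner_neg_left] at k2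
    linarith
  have hMM : (inner ℝ M M : ℝ) = 1 := by rw [real_inner_self_eq_norm_sq, hc.hN]; norm_num
  -- the complement is relatively open in the hyperplane
  have hopen : ∀ z ∈ Ωᶜ, ∃ s > 0, ∀ x, (inner ℝ M (x - c) : ℝ) = 0 → x ∈ ball z s → x ∈ Ωᶜ := by
    intro z hz
    have hzM := hplane z hz
    have hzI : z ∉ interior Ωᶜ := by
      intro hzI
      obtain ⟨s, hs, hball⟩ := Metric.isOpen_iff.mp isOpen_interior _ hzI
      have hmem : z + (s / 2) • M ∈ Ωᶜ := by
        apply interior_subset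
        apply hball
        rw [mem_ball, dist_eq_norm, add_sub_cancel_left, norm_smul, hc.hN, mul_one,
          Real.norm_of_nonneg (by positivity)]
        linarith
      have := hplane _ hmem
      rw [show z + (s / 2) • M - c = (z - c) + (s / 2) • M by abel, inner_add_right, hzM,
        inner_smul_right, hMM] at this
      linarith
    obtain ⟨r, g, e, N, h⟩ := hloc z ((hfrF z).mpr ⟨hz, hzI⟩)
    have hgz : g z = 0 := (h.front z (mem_ball_self h.hr)).mp ((hfrF z).mpr ⟨hz, hzI⟩)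
    -- project onto the graph
    have hcz : ContinuousAt (fun x => x - g x • e) z := by
      have : ContinuousAt g z := h.cont.continuousAt (isOpen_ball.mem_nhds (mem_ball_self h.hr))
      fun_prop
    have hev : ∀ᶠ x in 𝓝 z, x - g x • e ∈ ball z r := by
      apply hcz.eventually_mem
      apply isOpen_ball.mem_nhds
      simp only [hgz, zero_smul, sub_zero]
      exact mem_ball_self h.hr
    obtain ⟨s, hs, hball⟩ := Metric.eventually_nhds_iff_ball.mp hev
    have hproj : ∀ x ∈ ball z s, x - g x • e ∈ Ωᶜ := by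
      intro x hx
      have h1 := hball x hx
      have h2 : g (x - g x • e) = 0 := by
        have := h.shift x (-g x)
        rw [neg_smul, ← sub_eq_add_neg] at this
        rw [this]; ring
      exact ((hfrF _).mp ((h.front _ h1).mpr h2)).1
    have heM : (inner ℝ M e : ℝ) ≠ 0 := by
      intro h0
      have hx : z + (s / 2) • M ∈ ball z s := by
        rw [mem_ball, dist_eq_norm, add_sub_cancel_left, norm_smul, hc.hN, mul_one,
          Real.norm_of_nonneg (by positivity)]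
        linarith
      have h1 := hplane _ (hproj _ hx)
      rw [show z + (s / 2) • M - g (z + (s / 2) • M) • e - c
        = (z - c) + (s / 2) • M - g (z + (s / 2) • M) • e by abel, inner_sub_right,
        inner_add_right, hzM, inner_smul_right, inner_smul_right, hMM, h0] at h1
      linarith
    refine ⟨s, hs, fun x hxM hx => ?_⟩
    have h1 := hplane _ (hproj x hx)
    rw [show x - g x • e - c = (x - c) - g x • e by abel, inner_sub_right, hxM,
      inner_smul_right] at h1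
    have h2 : g x * (inner ℝ M e : ℝ) = 0 := by linarith
    have h3 : g x = 0 := by
      rcases mul_eq_zero.mp h2 with h3 | h3
      · exact h3
      · exact absurd h3 heM
    have h4 := hproj x hx
    rwa [h3, zero_smul, sub_zero] at h4
  -- a point of the domain in the hyperplane
  have himg : ∃ x ∈ Ω, (inner ℝ M (x - c) : ℝ) = 0 := by
    have hcont : ContinuousOn (fun x : E => (inner ℝ M (x - c) : ℝ)) Ω := by fun_prop
    have hm1 : c - M ∈ Ω := by
      by_contra hcon
      have := hplane _ hcon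
      rw [show c - M - c = -M by abel, inner_neg_right, hMM] at this
      linarith
    have hm2 : c + M ∈ Ω := by
      by_contra hcon
      have := hplane _ hcon
      rw [add_sub_cancel_left, hMM] at this
      linarith
    have h1 := hconn.intermediate_value hm1 hm2 hcont
    have h0 : (0 : ℝ) ∈ Icc ((inner ℝ M (c - M - c) : ℝ)) (inner ℝ M (c + M - c)) := by
      rw [show c - M - c = -M by abel, inner_neg_right, add_sub_cancel_left, hMM]
      constructor <;> norm_num
    obtain ⟨x, hx, hx0⟩ := h1 h0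
    exact ⟨x, hx, hx0⟩
  obtain ⟨x₀, hx₀, hx₀M⟩ := himg
  refine preconn_local (S := segment ℝ c x₀) (A := Ωᶜ) (convex_segment c x₀).isPreconnected hFcl
    ?_ (right_mem_segment ℝ c x₀) (fun h => h hx₀) (left_mem_segment ℝ c x₀) hcF
  intro q hq hqF
  obtain ⟨s, hs, h1⟩ := hopen q hqF
  refine ⟨s, hs, fun x hx hxb => h1 x ?_ hxb⟩
  rw [segment_eq_image'] at hx
  obtain ⟨θ, hθ, rfl⟩ := hx
  simp only [add_sub_cancel_left, inner_smul_right, hx₀M, mul_zero]

theorem exists_localGraph [FiniteDimensional ℝ E] {Ω : Set E} {r K ρ : ℝ} (hr : 0 < r)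
    (hK0 : 0 < K) (hρ : 0 < ρ) (hρr : 2 * ρ ≤ r) (hρK : 2 * K * ρ ≤ 1) {p e : E}
    (hp : p ∈ frontier Ω) (he : ‖e‖ = 1) (V : Submodule ℝ E)
    (hVe : ∀ v ∈ V, (inner ℝ e v : ℝ) = 0) (h : V → ℝ) (hh : ContDiffOn ℝ 2 h (ball 0 r))
    (hb : ∀ y ∈ ball (0 : V) r, ‖iteratedFDeriv ℝ 2 h y‖ ≤ K)
    (hgraph : ∀ x ∈ ball p r, x ∈ frontier Ω ↔
      inner ℝ e (x - p) = h (V.orthogonalProjectionOnto (x - p))) :
    ∃ (g : E → ℝ) (N : E), LocalGraph Ω ρ r g p e N := by
  have h00 : h 0 = 0 := by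
    have := (hgraph p (mem_ball_self hr)).mp hp
    simp only [sub_self, map_zero, inner_zero_right] at this
    exact this.symm
  obtain ⟨N, hN, heN, h1, h2⟩ := two_balls (p := p) hr hK0 hρ hρr hρK he V hVe h hh hb h00
  have hPe : V.orthogonalProjectionOnto e = 0 := by
    rw [Submodule.orthogonalProjectionOnto_eq_zero_iff, Submodule.mem_orthogonal]
    intro v hv
    rw [real_inner_comm]
    exact hVe v hv
  refine ⟨fun x => inner ℝ e (x - p) - h (V.orthogonalProjectionOnto (x - p)), N, hρ, hr, he, hN,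
    heN, ?_, ?_, ?_, ?_, ?_⟩
  · have hmaps : MapsTo (fun x : E => V.orthogonalProjectionOnto (x - p)) (ball p r)
        (ball (0 : V) r) := by
      intro x hx
      rw [mem_ball_zero_iff]
      rw [mem_ball, dist_eq_norm] at hx
      exact (Submodule.norm_orthogonalProjectionOnto_apply_le V (x - p)).trans_lt hx
    have hcomp : ContinuousOn (fun x : E => h (V.orthogonalProjectionOnto (x - p))) (ball p r) :=
      hh.continuousOn.comp (by fun_prop) hmaps
    have hin : ContinuousOn (fun x : E => (inner ℝ e (x - p) : ℝ)) (ball p r) := by fun_prop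
    exact hin.sub hcomp
  · intro x τ
    have e1 : x + τ • e - p = (x - p) + τ • e := by abel
    simp only [e1, inner_add_right, inner_smul_right, map_add, map_smul, hPe, smul_zero, add_zero,
      real_inner_self_eq_norm_sq, he]
    ring
  · intro x hx
    rw [hgraph x hx, sub_eq_zero]
  · intro x hx
    exact ⟨(h1 x hx).1, by linarith [(h1 x hx).2]⟩
  · intro x hx
    exact ⟨(h2 x hx).1, by linarith [(h2 x hx).2]⟩

theorem exists_twoSidedBall {d : ℕ} {γ : ℝ} {Ω : Set (EuclideanSpace ℝ (Fin d))}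
    (hΩ : IsOpen Ω) (hconn : IsPreconnected Ω) {c : EuclideanSpace ℝ (Fin d)}
    (hstar : StarConvex ℝ c Ωᶜ) (h : UniformlyC2Boundary γ Ω) : ∃ ρ > 0, TwoSidedBall Ω ρ := by
  obtain ⟨r, hr, K₀, H⟩ := h
  set K : ℝ := max K₀ 1 with hKdef
  have hK1 : 1 ≤ K := le_max_right _ _
  have hK0 : 0 < K := lt_of_lt_of_le one_pos hK1
  set ρ : ℝ := min (r / 2) (1 / (2 * K)) with hρdef
  have hρ : 0 < ρ := lt_min (by positivity) (by positivity)
  have hρr : 2 * ρ ≤ r := by
    have : ρ ≤ r / 2 := min_le_left _ _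
    linarith
  have hρK : 2 * K * ρ ≤ 1 := by
    have h1 : ρ ≤ 1 / (2 * K) := min_le_right _ _
    calc 2 * K * ρ ≤ 2 * K * (1 / (2 * K)) := mul_le_mul_of_nonneg_left h1 (by positivity)
      _ = 1 := by field_simp
  have hloc : ∀ p ∈ frontier Ω, ∃ (r : ℝ) (g : EuclideanSpace ℝ (Fin d) → ℝ)
      (e N : EuclideanSpace ℝ (Fin d)), LocalGraph Ω ρ r g p e N := by
    intro p hp
    obtain ⟨e, he, h, ⟨hh, hb, -⟩, hgraph⟩ := H p hp
    obtain ⟨g, N, hg⟩ := exists_localGraph hr hK0 hρ hρr hρK hp he (ℝ ∙ e)ᗮ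
      (fun v hv => Submodule.mem_orthogonal_singleton_iff_inner_right.mp hv) h hh
      (fun y hy => (hb y hy).2.2.trans (le_max_left _ _)) hgraph
    exact ⟨r, g, e, N, hg⟩
  refine ⟨ρ, hρ, ?_⟩
  intro p hp
  obtain ⟨r, g, e, N, hg⟩ := hloc p hp
  have hnot : ¬ (p + ρ • N ∈ Ω ∧ p - ρ • N ∈ Ω) := fun hboth =>
    not_both_sides hΩ hconn hstar hloc hp hg hboth.1 hboth.2
  rcases hg.one_side hΩ hp with h1 | h1
  · have h2 : p - ρ • N ∉ Ω := fun h2 => hnot ⟨h1, h2⟩
    exact ⟨N, hg.hN, fun x hx => (hg.up_iff hΩ hx).mpr h1,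
      fun x hx hxΩ => h2 ((hg.down_iff hΩ hx).mp hxΩ)⟩
  · have h2 : p + ρ • N ∉ Ω := fun h2 => hnot ⟨h2, h1⟩
    refine ⟨-N, by rw [norm_neg]; exact hg.hN, fun x hx => ?_, fun x hx hxΩ => ?_⟩
    · rw [smul_neg, ← sub_eq_add_neg] at hx
      exact (hg.down_iff hΩ hx).mpr h1
    · rw [smul_neg, sub_neg_eq_add] at hx
      exact h2 ((hg.up_iff hΩ hx).mp hxΩ)

end Pool.Agent.Lib.MP_437bdf_an
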