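import Pool.Agent.Lib.MP_437bdf_an.Uniqueness
import Pool.Agent.Lib.MP_437bdf_an.Existence
import Pool.Agent.Lib.MP_437bdf_an.TwoSided

/-! Existence and uniqueness on exterior-star domains. -/

open Set Metric Filter Topology MeasureTheory
open InnerProductSpace Laplacian

namespace Pool.Agent.Lib.MP_437bdf_an

/-- a domain with nonempty boundary and dilation-closed translate contains large balls -/
theorem exists_big_ball {E : Type*} [NormedAddCommGroup E] [InnerProductSpace ℝ E]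
    [FiniteDimensional ℝ E] [MeasurableSpace E] [BorelSpace E]
    {Ω : Set E} (hΩ : IsOpen Ω) (hne : Ω.Nonempty) {c : E} (hstar : StarConvex ℝ c Ωᶜ) (R : ℝ) :
    ∃ x, closedBall x R ⊆ Ω := by
  obtain ⟨z, hz⟩ := hne
  obtain ⟨ε, hε, hball⟩ := Metric.isOpen_iff.mp hΩ z hz
  set Ω' : Set E := (fun y => c + y) ⁻¹' Ω with hΩ'
  have hdil := dilation_of_star hstar
  have hb : ball (z - c) ε ⊆ Ω' := by
    intro y hy
    apply hball
    rw [mem_ball, dist_eq_norm] at hy ⊢
    rwa [show c + y - z = y - (z - c) by abel]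
  set μ := max 1 ((R + 1) / ε) with hμ
  have hμ1 : 1 ≤ μ := le_max_left _ _
  have hμR : R + 1 ≤ μ * ε := by
    have : (R + 1) / ε ≤ μ := le_max_right _ _
    rwa [div_le_iff₀ hε] at this
  have h1 := smul_ball_subset hdil hb hμ1
  refine ⟨c + μ • (z - c), ?_⟩
  intro y hy
  have h2 : y - c ∈ ball (μ • (z - c)) (μ * ε) := by
    rw [mem_closedBall, dist_eq_norm] at hy
    rw [mem_ball, dist_eq_norm, show y - c - μ • (z - c) = y - (c + μ • (z - c)) by abel]
    linarith
  have h3 := h1 h2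
  rw [mem_preimage, add_sub_cancel] at h3
  exact h3

theorem exists_unique_solution {d : ℕ} (hd : 1 ≤ d) {γ : ℝ} {f : ℝ → ℝ}
    (hf : IsPositiveReaction γ f) {Ω : Set (EuclideanSpace ℝ (Fin d))}
    (hΩ : IsUniformDomain γ Ω) (hstar : IsExteriorStar Ω) :
    ∃ u, IsSolution f Ω u ∧ ∀ v, IsSolution f Ω v → EqOn v u (closure Ω) := by
  obtain ⟨c, hc⟩ := hstar
  obtain ⟨ρ, hρ, hT⟩ := exists_twoSidedBall hΩ.isOpen hΩ.isConnected.isPreconnected hc hΩ.boundary
  obtain ⟨u, hu⟩ := exists_solution hd hf hΩ.isOpen hΩ.isConnected hρ hT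
    (exists_big_ball hΩ.isOpen hΩ.isConnected.nonempty hc)
  refine ⟨u, hu, fun v hv x hx => ?_⟩
  by_cases hxΩ : x ∈ Ω
  · exact le_antisymm (solution_le hf hΩ.isOpen hρ hT hc hv hu x hxΩ)
      (solution_le hf hΩ.isOpen hρ hT hc hu hv x hxΩ)
  · have hfr := mem_frontier_of_mem_closure hΩ.isOpen hx hxΩ
    rw [hu.boundary x hfr, hv.boundary x hfr]

end Pool.Agent.Lib.MP_437bdf_an
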