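import Pool.Agent.Lib.MP_437bdf_an.Carleson

/-! One step of the comparison argument. -/

open Set Metric Filter Topology MeasureTheory
open InnerProductSpace Laplacian

namespace Pool.Agent.Lib.MP_437bdf_an

set_option linter.unusedSectionVars false
set_option linter.unusedVariables false

variable {E : Type*} [NormedAddCommGroup E] [InnerProductSpace ℝ E]
variable [FiniteDimensional ℝ E] [MeasurableSpace E] [BorelSpace E]

/-- nonnegative supersolution bounded by one -/
structure SuperSol (f : ℝ → ℝ) (Ω : Set E) (V : E → ℝ) : Prop where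
  c2 : ContDiffOn ℝ 2 V Ω
  cont : ContinuousOn V (closure Ω)
  nonneg : ∀ x ∈ closure Ω, 0 ≤ V x
  le_one : ∀ x ∈ Ω, V x ≤ 1
  le : ∀ x ∈ Ω, f (V x) ≤ -(Δ V) x

variable (E) in
theorem one_step {f : ℝ → ℝ} {L κ δ ρ r₁ θ : ℝ} (hf : RData f L κ δ) (hρ : 0 < ρ) (hr₁ : 0 < r₁)
    (hθ : 0 < θ) : ∃ d₀ β : ℝ, 0 < d₀ ∧ 0 ≤ β ∧ β < 1 ∧ ∀ (Ω : Set E) (u V : E → ℝ), IsOpen Ω →
      (Ωᶜ).Nonempty → TwoSidedBall Ω ρ → Sol f Ω u → SuperSol f Ω V → ∀ (y : E) (S : ℝ), y ∈ Ω →
      0 ≤ S → (∀ z ∈ Ω, dist z y < r₁ → u z - V z ≤ S) →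
      (∀ z ∈ Ω, dist z y < r₁ → d₀ ≤ infDist z Ωᶜ → min (u z) (1 - δ) ≤ V z) →
      u y - V y ≤ β * S ∧ (u y < 1 - δ → u y - V y ≤ θ * S) := by
  obtain ⟨C, hC, hnb⟩ := near_boundary (E := E) hr₁ hρ hf.hL.le
  set n : ℝ := ((Module.finrank ℝ E : ℕ) : ℝ) with hn
  have hn0 : 0 ≤ n := Nat.cast_nonneg _
  have hκ := hf.hκ
  set θ' := min θ (1 / 2) with hθ'
  have hθ'0 : 0 < θ' := by positivity
  set d₂ := min (r₁ / 2) (1 / (2 * C)) with hd₂
  have hd₂0 : 0 < d₂ := by positivity
  set r₄ := d₂ / 2 with hr₄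
  have hr₄0 : 0 < r₄ := by positivity
  set d₀ := min (d₂ / 2) (θ' / C) with hd₀
  have hd₀0 : 0 < d₀ := by positivity
  set κ' := min (1 / 2) (κ * r₄ ^ 2 / (4 * (n + 1))) with hκ'
  have hκ'0 : 0 < κ' := by positivity
  have hκ'1 : κ' ≤ 1 / 2 := min_le_left _ _
  have hκ'2 : 2 * n * (κ' / r₄ ^ 2) < κ / 2 := by
    have h1 : κ' ≤ κ * r₄ ^ 2 / (4 * (n + 1)) := min_le_right _ _
    have h2 : κ' / r₄ ^ 2 ≤ κ / (4 * (n + 1)) := by
      rw [div_le_iff₀ (by positivity)]
      calc κ' ≤ κ * r₄ ^ 2 / (4 * (n + 1)) := h1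
        _ = κ / (4 * (n + 1)) * r₄ ^ 2 := by ring
    calc 2 * n * (κ' / r₄ ^ 2) ≤ 2 * n * (κ / (4 * (n + 1))) := by gcongr
      _ = κ / 2 * (n / (n + 1)) := by field_simp; ring
      _ < κ / 2 * 1 := by
          apply mul_lt_mul_of_pos_left _ (by positivity)
          rw [div_lt_one (by positivity)]; linarith
      _ = κ / 2 := mul_one _
  refine ⟨d₀, max θ' (1 - κ'), hd₀0, le_trans hθ'0.le (le_max_left _ _),
    max_lt ((min_le_right _ _).trans_lt (by norm_num)) (by linarith), ?_⟩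
  intro Ω u V hΩ hne hT hu hV y S hy hS hwS hdeep
  have hwcd : ∀ x ∈ Ω, ContDiffAt ℝ 2 u x ∧ ContDiffAt ℝ 2 V x := fun x hx =>
    ⟨hu.c2.contDiffAt (hΩ.mem_nhds hx), hV.c2.contDiffAt (hΩ.mem_nhds hx)⟩
  have hlap : ∀ x ∈ Ω, -(Δ (fun x => u x - V x)) x ≤ f (u x) - f (V x) := by
    intro x hx
    rw [lap_sub' (hwcd x hx).1 (hwcd x hx).2, ← hu.eqn x hx]
    have := hV.le x hx
    linarith
  have hV0 : ∀ x ∈ Ω, 0 ≤ V x := fun x hx => hV.nonneg x (subset_closure hx)
  rcases lt_or_ge (infDist y Ωᶜ) d₀ with hyd | hyd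
  · -- near the boundary
    have hd₀r : d₀ < r₁ / 2 := by
      have h1 : d₀ ≤ d₂ / 2 := min_le_left _ _
      have h2 : d₂ ≤ r₁ / 2 := min_le_left _ _
      linarith
    have h1 := hnb Ω hΩ hne hT (fun x => u x - V x) S y hS hy (hyd.trans hd₀r)
      (hu.cont.sub hV.cont)
      (fun x hx => by
        rw [hu.bdry x hx]
        have := hV.nonneg x hx.1
        linarith)
      (fun x hx hwx => by
        refine ⟨(hwcd x hx).1.sub (hwcd x hx).2, (hlap x hx).trans ?_⟩
        have h2 := hf.lip (u x) (hu.mem_Icc hx) (V x) ⟨hV0 x hx, hV.le_one x hx⟩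
        rw [abs_of_pos hwx] at h2
        exact (le_abs_self _).trans h2)
      hwS
    have h2 : u y - V y ≤ θ' * S := by
      have h3 : d₀ ≤ θ' / C := min_le_right _ _
      have h4 : infDist y Ωᶜ ≤ θ' / C := hyd.le.trans h3
      calc u y - V y ≤ C * S * infDist y Ωᶜ := h1
        _ ≤ C * S * (θ' / C) := by gcongr
        _ = θ' * S := by field_simp
    constructor
    · exact h2.trans (mul_le_mul_of_nonneg_right (le_max_left _ _) hS)
    · intro _
      exact h2.trans (mul_le_mul_of_nonneg_right (min_le_left _ _) hS)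
  · -- deep points
    have hdy := hdeep y hy (by simpa using hr₁) hyd
    rcases le_or_gt (u y) (V y) with hle | hlt
    · have h1 : u y - V y ≤ 0 := by linarith
      exact ⟨h1.trans (mul_nonneg (le_trans hθ'0.le (le_max_left _ _)) hS),
        fun _ => h1.trans (mul_nonneg hθ.le hS)⟩
    have hV1 : ∀ z, V z < u z → min (u z) (1 - δ) ≤ V z → 1 - δ ≤ V z := by
      intro z h1 h2
      rcases min_choice (u z) (1 - δ) with h | h
      · rw [h] at h2; linarith
      · rw [h] at h2; exact h2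
    have hVy := hV1 y hlt hdy
    refine ⟨?_, fun h => by linarith⟩
    refine le_trans ?_ (mul_le_mul_of_nonneg_right (le_max_right _ _) hS)
    by_contra hcon
    push Not at hcon
    have hSpos : 0 < S := by
      rcases hS.eq_or_lt with h | h
      · have := hwS y hy (by simpa using hr₁)
        rw [← h] at this
        linarith
      · exact h
    -- `y` is very deep
    have hyd2 : d₂ ≤ infDist y Ωᶜ := by
      by_contra h
      push Not at h
      have h1 := hnb Ω hΩ hne hT u 1 y zero_le_one hy (h.trans_le (min_le_left _ _)) hu.cont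
        (fun x hx => (hu.bdry x hx).le)
        (fun x hx _ => ⟨(hwcd x hx).1, by
          rw [hu.eqn x hx]; exact hf.le (hu.pos x hx).le (hu.le_one x hx)⟩)
        (fun z hz _ => hu.le_one z hz)
      have h2 : infDist y Ωᶜ < 1 / (2 * C) := h.trans_le (min_le_right _ _)
      have h3 : C * 1 * infDist y Ωᶜ < 1 / 2 := by
        calc C * 1 * infDist y Ωᶜ < C * 1 * (1 / (2 * C)) := by gcongr
          _ = 1 / 2 := by field_simp
      have := hf.hδ'
      linarith
    have hballΩ : closedBall y r₄ ⊆ Ω :=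
      (closedBall_subset_ball (by linarith : r₄ < infDist y Ωᶜ)).trans ball_infDist_subset
    have hprop : ∀ z ∈ closedBall y r₄, V z < u z → 1 - δ ≤ V z := by
      intro z hz hlt
      apply hV1 z hlt
      apply hdeep z (hballΩ hz)
      · rw [mem_closedBall] at hz
        have : d₂ ≤ r₁ / 2 := min_le_left _ _
        linarith
      · have h1 : infDist y Ωᶜ ≤ infDist z Ωᶜ + dist y z := infDist_le_infDist_add_dist
        rw [mem_closedBall, dist_comm] at hz
        have h2 : d₀ ≤ d₂ / 2 := min_le_left _ _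
        linarith
    set a := κ' * S / r₄ ^ 2 with ha
    have ha0 : 0 < a := by positivity
    have har : a * r₄ ^ 2 = κ' * S := by rw [ha]; field_simp
    obtain ⟨z, hz, hmax, hle⟩ := exists_localMax
      (w := fun x => (u x - V x) - a * ‖x - y‖ ^ 2) (K := closedBall y r₄)
      (U := ball y r₄) (isCompact_closedBall y r₄) isOpen_ball ball_subset_closedBall
      (((hu.c2.continuousOn.mono hballΩ).sub (hV.c2.continuousOn.mono hballΩ)).sub
        (contDiff_sq a y (n := 0)).continuous.continuousOn)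
      (x₀ := y) (mem_closedBall_self hr₄0.le) (by
        intro z hz hzb
        rw [mem_ball, not_lt, dist_eq_norm] at hzb
        have h1 : r₄ ^ 2 ≤ ‖z - y‖ ^ 2 := by gcongr
        have h2 : a * r₄ ^ 2 ≤ a * ‖z - y‖ ^ 2 := by gcongr
        have h3 : u z - V z ≤ S := by
          apply hwS z (hballΩ hz)
          rw [mem_closedBall] at hz
          have : d₂ ≤ r₁ / 2 := min_le_left _ _
          linarith
        have h4 : a * ‖y - y‖ ^ 2 = 0 := by simp
        rw [h4]
        have h5 : (1 - κ') * S = S - κ' * S := by ring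
        linarith)
    have hzc : z ∈ closedBall y r₄ := ball_subset_closedBall hz
    have hzΩ := hballΩ hzc
    have hwz : (1 - κ') * S < u z - V z := by
      have h4 : a * ‖y - y‖ ^ 2 = 0 := by simp
      have h5 : (u y - V y) - a * ‖y - y‖ ^ 2 ≤ (u z - V z) - a * ‖z - y‖ ^ 2 := hle
      have h6 : 0 ≤ a * ‖z - y‖ ^ 2 := by positivity
      rw [h4] at h5
      linarith
    have hwz0 : 0 < u z - V z := by
      have : 0 < (1 - κ') * S := mul_pos (by linarith) hSpos
      linarith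
    have hcd : ContDiffAt ℝ 2 (fun x => u x - V x) z := (hwcd z hzΩ).1.sub (hwcd z hzΩ).2
    have h1 := lap_nonpos_of_isLocalMax (hcd.sub (contDiff_sq a y).contDiffAt) hmax
    have h2 : (Δ (fun x => (u x - V x) - a * ‖x - y‖ ^ 2)) z
        = (Δ (fun x => u x - V x)) z - 2 * a * n := by
      rw [lap_sub' hcd (contDiff_sq a y).contDiffAt, lap_sq]
    have h2' : (Δ (fun x => (u x - V x) - a * ‖x - y‖ ^ 2)) z ≤ 0 := h1
    rw [h2] at h2'
    have h3 := hlap z hzΩ
    have h4 := hf.decr (V z) (u z) (hprop z hzc (by linarith)) (by linarith) (hu.le_one z hzΩ)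
    have h5 : κ * (u z - V z) ≤ 2 * a * n := by linarith
    have h6 : 2 * a * n = 2 * n * (κ' / r₄ ^ 2) * S := by rw [ha]; ring
    have h7 : κ * ((1 - κ') * S) < κ * (u z - V z) := mul_lt_mul_of_pos_left hwz hκ
    have h8 : 2 * n * (κ' / r₄ ^ 2) * S < κ / 2 * S := mul_lt_mul_of_pos_right hκ'2 hSpos
    have h9 : κ / 2 * S ≤ κ * ((1 - κ') * S) := by
      have : 1 / 2 ≤ 1 - κ' := by linarith
      calc κ / 2 * S = κ * (1 / 2 * S) := by ring
        _ ≤ κ * ((1 - κ') * S) := by gcongr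
    linarith

end Pool.Agent.Lib.MP_437bdf_an
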