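import Pool.Agent.Lib.MP_437bdf_an.Defs

/-! Elementary consequences of the hypotheses on the reaction. -/

open Set Metric Filter Topology

namespace Pool.Agent.Lib.MP_437bdf_an

/-- The properties of a positive reaction that are used in the proofs. -/
structure RData (f : ℝ → ℝ) (L κ δ : ℝ) : Prop where
  hL : 0 < L
  hκ : 0 < κ
  hδ : 0 < δ
  hδ' : δ ≤ 1 / 2
  f0 : f 0 = 0
  f1 : f 1 = 0
  lip : ∀ s ∈ Icc (0 : ℝ) 1, ∀ t ∈ Icc (0 : ℝ) 1, |f s - f t| ≤ L * |s - t|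
  pos : ∀ s ∈ Ioo (0 : ℝ) 1, 0 < f s
  below : ∀ σ : ℝ, σ < 1 → ∃ c > 0, ∀ s ∈ Icc (0 : ℝ) σ, c * s ≤ f s
  decr : ∀ a b : ℝ, 1 - δ ≤ a → a ≤ b → b ≤ 1 → f b - f a ≤ -κ * (b - a)
  above : ∀ a b : ℝ, 1 < a → ∃ c > 0, ∀ s ∈ Icc a b, f s ≤ -c

theorem RData.nonneg {f : ℝ → ℝ} {L κ δ : ℝ} (h : RData f L κ δ) {s : ℝ} (h0 : 0 ≤ s)
    (h1 : s ≤ 1) : 0 ≤ f s := by
  rcases h0.eq_or_lt with h0 | h0
  · rw [← h0, h.f0]
  rcases h1.eq_or_lt with h1 | h1
  · rw [h1, h.f1]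
  exact (h.pos s ⟨h0, h1⟩).le

theorem RData.le {f : ℝ → ℝ} {L κ δ : ℝ} (h : RData f L κ δ) {s : ℝ} (h0 : 0 ≤ s)
    (h1 : s ≤ 1) : f s ≤ L * s := by
  have := h.lip s ⟨h0, h1⟩ 0 ⟨le_rfl, zero_le_one⟩
  rw [h.f0, sub_zero, sub_zero, abs_of_nonneg h0] at this
  exact (le_abs_self _).trans this

theorem RData.abs_le {f : ℝ → ℝ} {L κ δ : ℝ} (h : RData f L κ δ) {s : ℝ} (h0 : 0 ≤ s)
    (h1 : s ≤ 1) : |f s| ≤ L * s := by
  rw [abs_of_nonneg (h.nonneg h0 h1)]; exact h.le h0 h1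

theorem RData.le_L {f : ℝ → ℝ} {L κ δ : ℝ} (h : RData f L κ δ) {s : ℝ} (h0 : 0 ≤ s)
    (h1 : s ≤ 1) : f s ≤ L := by
  refine (h.le h0 h1).trans ?_
  nlinarith [h.hL]

theorem IsPositiveReaction.rdata {γ : ℝ} {f : ℝ → ℝ} (hf : IsPositiveReaction γ f) :
    ∃ L κ δ : ℝ, RData f L κ δ := by
  have hdiff : DifferentiableOn ℝ f (Ici 0) := hf.contDiffOn.differentiableOn (by norm_num)
  have hcont : ContinuousOn f (Ici 0) := hf.contDiffOn.continuousOn
  have hdc : ContinuousOn (derivWithin f (Ici 0)) (Ici 0) :=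
    hf.contDiffOn.continuousOn_derivWithin (uniqueDiffOn_Ici 0) (by norm_num)
  have hsub : Icc (0 : ℝ) 1 ⊆ Ici 0 := fun x hx => hx.1
  -- Lipschitz
  obtain ⟨L0, hL0⟩ := isCompact_Icc.exists_bound_of_continuousOn (hdc.mono hsub)
  have hlip : ∀ s ∈ Icc (0 : ℝ) 1, ∀ t ∈ Icc (0 : ℝ) 1, |f s - f t| ≤ (|L0| + 1) * |s - t| := by
    intro s hs t ht
    have := (convex_Icc (0 : ℝ) 1).norm_image_sub_le_of_norm_hasDerivWithin_le
      (f := f) (f' := derivWithin f (Ici 0)) (C := |L0| + 1)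
      (fun x hx => ((hdiff x (hsub hx)).hasDerivWithinAt).mono hsub)
      (fun x hx => (hL0 x hx).trans (by linarith [le_abs_self L0])) ht hs
    simpa [Real.norm_eq_abs] using this
  -- behaviour near zero
  have hz : ∃ c > 0, ∃ s₀ > 0, s₀ < 1 ∧ ∀ s ∈ Icc (0 : ℝ) s₀, c * s ≤ f s := by
    set a := derivWithin f (Ici 0) 0 with ha
    have ha0 : 0 < a := hf.deriv_zero_pos
    have h1 : HasDerivWithinAt f a (Ici 0) 0 := (hdiff 0 self_mem_Ici).hasDerivWithinAt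
    have h2 := (hasDerivWithinAt_iff_tendsto_slope' (by simp)).mp (h1.mono Ioi_subset_Ici_self)
    have h3 : ∀ᶠ s in 𝓝[>] (0 : ℝ), a / 2 < slope f 0 s :=
      h2.eventually (lt_mem_nhds (by linarith))
    obtain ⟨s₁, hs₁, hs₁'⟩ := (mem_nhdsGT_iff_exists_Ioc_subset).mp h3
    refine ⟨a / 2, by positivity, min s₁ (1 / 2), by
      have : (0 : ℝ) < s₁ := hs₁
      positivity, (min_le_right _ _).trans_lt (by norm_num), ?_⟩
    intro s hs
    rcases hs.1.eq_or_lt with h | h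
    · rw [← h, hf.map_zero]; simp
    · have h4 : s ∈ Ioc 0 s₁ := ⟨h, hs.2.trans (min_le_left _ _)⟩
      have h5 := hs₁' h4
      simp only [mem_setOf_eq, slope_def_field, hf.map_zero, sub_zero] at h5
      rw [lt_div_iff₀ h] at h5
      exact h5.le
  -- near one
  have h1mem : (1 : ℝ) ∈ Ici (0 : ℝ) := by simp
  have hb : derivWithin f (Ici 0) 1 < 0 := hf.deriv_one_neg
  obtain ⟨δ₀, hδ₀, hδ₀'⟩ : ∃ δ₀ > 0, ∀ x, |x - 1| < δ₀ → 0 ≤ x →
      derivWithin f (Ici 0) x < derivWithin f (Ici 0) 1 / 2 := by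
    have h3 : ∀ᶠ x in 𝓝[Ici 0] (1 : ℝ), derivWithin f (Ici 0) x < derivWithin f (Ici 0) 1 / 2 :=
      (hdc 1 h1mem).eventually (gt_mem_nhds (by linarith))
    rw [eventually_nhdsWithin_iff, Metric.eventually_nhds_iff] at h3
    obtain ⟨ε, hε, h4⟩ := h3
    exact ⟨ε, hε, fun x hx hx0 => h4 (by rwa [Real.dist_eq]) hx0⟩
  set δ := min (δ₀ / 2) (1 / 2) with hδ
  set κ := -(derivWithin f (Ici 0) 1) / 2 with hκ
  have hδpos : 0 < δ := by positivity
  refine ⟨|L0| + 1, κ, δ, ?_⟩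
  refine ⟨by positivity, by linarith, hδpos, min_le_right _ _, hf.map_zero, hf.map_one, hlip,
    hf.pos, ?_, ?_, ?_⟩
  · intro σ hσ
    obtain ⟨c, hc, s₀, hs₀, hs₀1, hcs⟩ := hz
    by_cases hσ0 : σ ≤ s₀
    · exact ⟨c, hc, fun s hs => hcs s ⟨hs.1, hs.2.trans hσ0⟩⟩
    · push Not at hσ0
      have hcc : ContinuousOn f (Icc s₀ σ) := hcont.mono fun x hx => hs₀.le.trans hx.1
      obtain ⟨x, hx, hmin⟩ := isCompact_Icc.exists_isMinOn (nonempty_Icc.mpr hσ0.le) hcc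
      have hfx : 0 < f x := hf.pos x ⟨hs₀.trans_le hx.1, hx.2.trans_lt hσ⟩
      refine ⟨min c (f x), lt_min hc hfx, fun s hs => ?_⟩
      rcases le_total s s₀ with h | h
      · calc min c (f x) * s ≤ c * s := mul_le_mul_of_nonneg_right (min_le_left _ _) hs.1
          _ ≤ f s := hcs s ⟨hs.1, h⟩
      · calc min c (f x) * s ≤ f x * s := mul_le_mul_of_nonneg_right (min_le_right _ _) hs.1
          _ ≤ f x * 1 := by
            apply mul_le_mul_of_nonneg_left _ hfx.le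
            exact hs.2.trans hσ.le
          _ = f x := mul_one _
          _ ≤ f s := hmin ⟨h, hs.2⟩
  · intro a b ha hab hb1
    -- mean value inequality on `[a,b]`
    have hδle : δ ≤ δ₀ / 2 := min_le_left _ _
    have hδle2 : δ ≤ 1 / 2 := min_le_right _ _
    have ha0 : 0 < a := by linarith
    have hsubab : Icc a b ⊆ Ici 0 := fun x hx => ha0.le.trans hx.1
    have key := (convex_Icc a b).image_sub_le_mul_sub_of_deriv_le (f := f) (C := -κ)
      (hcont.mono hsubab) ?_ ?_ a (left_mem_Icc.mpr hab) b (right_mem_Icc.mpr hab) hab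
    · exact key
    · rw [interior_Icc]
      intro x hx
      exact ((hdiff x (hsubab ⟨hx.1.le, hx.2.le⟩)).mono (subset_refl _)).mono
        (fun y hy => hsubab ⟨hy.1.le, hy.2.le⟩)
    · rw [interior_Icc]
      intro x hx
      have hx0 : 0 < x := ha0.trans hx.1
      have hd : derivWithin f (Ici 0) x = deriv f x :=
        derivWithin_of_mem_nhds (Ici_mem_nhds hx0)
      rw [← hd]
      have := hδ₀' x (by
        rw [abs_lt]; constructor <;> linarith [hx.1, hx.2]) hx0.le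
      linarith
  · intro a b ha
    by_cases hab : a ≤ b
    · have hcc : ContinuousOn f (Icc a b) := hcont.mono fun x hx => by
        have := hx.1
        simp only [mem_Ici]; linarith
      obtain ⟨x, hx, hmax⟩ := isCompact_Icc.exists_isMaxOn (nonempty_Icc.mpr hab) hcc
      have hfx : f x < 0 := hf.neg_of_one_lt x (ha.trans_le hx.1)
      refine ⟨-f x, by linarith, fun s hs => ?_⟩
      have := hmax hs
      simp only [mem_setOf_eq] at this
      linarith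
    · refine ⟨1, one_pos, fun s hs => ?_⟩
      exact absurd (hs.1.trans hs.2) hab

end Pool.Agent.Lib.MP_437bdf_an
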