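import Pool.Agent.Lib.MP_437bdf_an.OneStep

/-! Propagation of the comparison: the error at a point is small relative to the solution. -/

open Set Metric Filter Topology MeasureTheory
open InnerProductSpace Laplacian

namespace Pool.Agent.Lib.MP_437bdf_an

set_option linter.unusedSectionVars false
set_option linter.unusedVariables false

variable {E : Type*} [NormedAddCommGroup E] [InnerProductSpace ℝ E]
variable [FiniteDimensional ℝ E] [MeasurableSpace E] [BorelSpace E]

variable (E) in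
theorem small_error {f : ℝ → ℝ} {L κ δ ρ : ℝ} (hf : RData f L κ δ) (hρ : 0 < ρ) :
    ∃ r₁ d₀ : ℝ, 0 < r₁ ∧ 0 < d₀ ∧
    (∀ (Ω : Set E) (u V : E → ℝ), IsOpen Ω → (Ωᶜ).Nonempty → TwoSidedBall Ω ρ → Sol f Ω u →
      SuperSol f Ω V → (∀ z ∈ Ω, d₀ ≤ infDist z Ωᶜ → min (u z) (1 - δ) ≤ V z) →
      ∀ y ∈ Ω, u y ≤ V y) ∧
    ∀ η : ℝ, 0 < η → ∃ k : ℕ, ∀ (Ω : Set E) (u V : E → ℝ), IsOpen Ω → (Ωᶜ).Nonempty →
      TwoSidedBall Ω ρ → Sol f Ω u → SuperSol f Ω V → ∀ x ∈ Ω, d₀ ≤ infDist x Ωᶜ →
      (∀ z ∈ reach Ω r₁ x k, d₀ ≤ infDist z Ωᶜ → min (u z) (1 - δ) ≤ V z) →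
      ∀ y ∈ Ω, dist y x < r₁ → u y - V y ≤ η * u x := by
  obtain ⟨Λ, r₁, C₂, hΛ, hr₁, hC₂, hcar⟩ := carleson E hf hρ
  have hΛ0 : 0 < Λ := by linarith
  obtain ⟨d₀, β, hd₀, hβ0, hβ1, hstep⟩ := one_step E (r₁ := r₁) (θ := 1 / (2 * Λ)) hf hρ hr₁
    (by positivity)
  obtain ⟨C₁, hC₁, hcmp⟩ := deep_compare E hf hρ hd₀
  set θ := 1 / (2 * Λ) with hθ
  have hθ0 : 0 < θ := by positivity
  have hθΛ : θ * Λ = 1 / 2 := by rw [hθ]; field_simp
  set C₃ := C₂ * C₁ with hC₃
  have hC₃0 : 0 < C₃ := by positivity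
  refine ⟨r₁, d₀, hr₁, hd₀, ?_, ?_⟩
  · intro Ω u V hΩ hne hT hu hV hdeep y hy
    have hall : ∀ (n : ℕ) (y : E), y ∈ Ω → u y - V y ≤ β ^ n := by
      intro n
      induction n with
      | zero =>
        intro y hy
        rw [pow_zero]
        linarith [hu.le_one y hy, hV.nonneg y (subset_closure hy)]
      | succ n ih =>
        intro y hy
        have := (hstep Ω u V hΩ hne hT hu hV y (β ^ n) hy (by positivity)
          (fun z hz _ => ih z hz) (fun z hz _ hzd => hdeep z hz hzd)).1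
        rwa [← pow_succ'] at this
    by_contra hcon
    push Not at hcon
    obtain ⟨n, hn⟩ := exists_pow_lt_of_lt_one (by linarith : 0 < u y - V y) hβ1
    linarith [hall n y hy]
  · intro η hη
    -- choice of `J`
    obtain ⟨m, hm⟩ := exists_pow_lt_of_lt_one (by positivity : 0 < η / (C₃ * Λ))
      (by norm_num : (1 / 2 : ℝ) < 1)
    set J := m + 1 with hJ
    obtain ⟨m', hm'⟩ := exists_pow_lt_of_lt_one (by positivity : 0 < η / (2 * C₃ * Λ ^ J)) hβ1
    set k := max J (m' + 1) with hk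
    refine ⟨k, ?_⟩
    intro Ω u V hΩ hne hT hu hV x hx hxd hdeep y hy hyx
    obtain ⟨x', hxx'⟩ := exists_isDeep hΩ hne hρ hT hx
    have hupos := hu.pos x hx
    have hx'le : u x' ≤ C₁ * u x := (hcmp Ω u hΩ hu x x' hx hxx' hxd).2
    have hgrow : ∀ (j : ℕ) (b : E), b ∈ reach Ω r₁ x j → u b ≤ C₃ * Λ ^ j * u x := by
      intro j b hb
      calc u b ≤ C₂ * Λ ^ j * u x' := hcar Ω u hΩ hne hT hu x x' hx hxx' j b hb
        _ ≤ C₂ * Λ ^ j * (C₁ * u x) := by gcongr
        _ = C₃ * Λ ^ j * u x := by rw [hC₃]; ring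
    have hy1 : y ∈ reach Ω r₁ x 1 := mem_reach_succ (k := 0) rfl hy hyx
    have hVle : ∀ z ∈ Ω, u z - V z ≤ u z := fun z hz => by
      linarith [hV.nonneg z (subset_closure hz)]
    by_cases hsmall : ∀ z ∈ reach Ω r₁ x J, u z < 1 - δ
    · -- all values are small
      have hA : ∀ (n j : ℕ), j + n ≤ J → ∀ z ∈ reach Ω r₁ x j,
          u z - V z ≤ θ ^ n * (C₃ * Λ ^ J * u x) := by
        intro n
        induction n with
        | zero =>
          intro j hj z hz
          rw [pow_zero, one_mul]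
          refine (hVle z (reach_subset hx j hz)).trans ((hgrow j z hz).trans ?_)
          gcongr
          omega
        | succ n ih =>
          intro j hj z hz
          have hzΩ := reach_subset hx j hz
          have := (hstep Ω u V hΩ hne hT hu hV z (θ ^ n * (C₃ * Λ ^ J * u x)) hzΩ (by positivity)
            (fun b hb hbz => ih (j + 1) (by omega) b (mem_reach_succ hz hb hbz))
            (fun b hb hbz hbd => hdeep b (reach_mono hr₁ hx
              (by rw [hk]; exact le_trans (by omega) (le_max_left _ _))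
              (mem_reach_succ hz hb hbz)) hbd)).2
            (hsmall z (reach_mono hr₁ hx (by omega) hz))
          calc u z - V z ≤ θ * (θ ^ n * (C₃ * Λ ^ J * u x)) := this
            _ = θ ^ (n + 1) * (C₃ * Λ ^ J * u x) := by ring
      have h1 := hA m 1 (by omega) y hy1
      have h2 : θ ^ m * (C₃ * Λ ^ J * u x) = (1 / 2) ^ m * (C₃ * Λ) * u x := by
        rw [hJ, pow_succ, ← hθΛ, mul_pow]; ring
      rw [h2] at h1
      refine h1.trans ?_
      have h3 : (1 / 2) ^ m * (C₃ * Λ) ≤ η := by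
        rw [← le_div_iff₀ (by positivity)]; exact hm.le
      exact mul_le_mul_of_nonneg_right h3 hupos.le
    · push Not at hsmall
      obtain ⟨z₀, hz₀, hz₀u⟩ := hsmall
      have hB : ∀ (n j : ℕ), j + n ≤ k → ∀ z ∈ reach Ω r₁ x j, u z - V z ≤ β ^ n := by
        intro n
        induction n with
        | zero =>
          intro j hj z hz
          rw [pow_zero]
          have hzΩ := reach_subset hx j hz
          linarith [hu.le_one z hzΩ, hV.nonneg z (subset_closure hzΩ)]
        | succ n ih =>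
          intro j hj z hz
          have hzΩ := reach_subset hx j hz
          have := (hstep Ω u V hΩ hne hT hu hV z (β ^ n) hzΩ (by positivity)
            (fun b hb hbz => ih (j + 1) (by omega) b (mem_reach_succ hz hb hbz))
            (fun b hb hbz hbd => hdeep b (reach_mono hr₁ hx (by omega)
              (mem_reach_succ hz hb hbz)) hbd)).1
          rwa [← pow_succ'] at this
      have h1 := hB m' 1 (by rw [hk]; exact le_trans (by omega) (le_max_right _ _)) y hy1
      have h2 := hgrow J z₀ hz₀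
      have h3 := hf.hδ'
      have h4 : 1 / 2 ≤ C₃ * Λ ^ J * u x := by linarith
      have h5 : η / (2 * C₃ * Λ ^ J) ≤ η * u x := by
        rw [div_le_iff₀ (by positivity)]
        calc η = η * (2 * (1 / 2)) := by ring
          _ ≤ η * (2 * (C₃ * Λ ^ J * u x)) := by gcongr
          _ = η * u x * (2 * C₃ * Λ ^ J) := by ring
      linarith

end Pool.Agent.Lib.MP_437bdf_an
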