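import Pool.Agent.Lib.MP_437bdf_an.Harnack
import Pool.Agent.Lib.MP_437bdf_an.Reaction

/-! Basic estimates for positive solutions. -/

open Set Metric Filter Topology MeasureTheory
open InnerProductSpace Laplacian

namespace Pool.Agent.Lib.MP_437bdf_an

set_option linter.unusedSectionVars false

variable {E : Type*} [NormedAddCommGroup E] [InnerProductSpace ℝ E] [FiniteDimensional ℝ E]

/-- positive solution bounded by one -/
structure Sol (f : ℝ → ℝ) (Ω : Set E) (u : E → ℝ) : Prop where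
  c2 : ContDiffOn ℝ 2 u Ω
  cont : ContinuousOn u (closure Ω)
  eqn : ∀ x ∈ Ω, -(Δ u) x = f (u x)
  bdry : ∀ x ∈ frontier Ω, u x = 0
  pos : ∀ x ∈ Ω, 0 < u x
  le_one : ∀ x ∈ Ω, u x ≤ 1

theorem exists_localMax {K U : Set E} {w : E → ℝ} (hK : IsCompact K) (hU : IsOpen U)
    (hUK : U ⊆ K) (hw : ContinuousOn w K) {x₀ : E} (hx₀ : x₀ ∈ K)
    (hb : ∀ y ∈ K, y ∉ U → w y < w x₀) : ∃ y ∈ U, IsLocalMax w y ∧ w x₀ ≤ w y := by
  obtain ⟨y, hy, hmax⟩ := hK.exists_isMaxOn ⟨x₀, hx₀⟩ hw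
  have h1 : w x₀ ≤ w y := hmax hx₀
  have hyU : y ∈ U := by
    by_contra h
    exact absurd (hb y hy h) (not_lt.mpr h1)
  refine ⟨y, hyU, ?_, h1⟩
  filter_upwards [hU.mem_nhds hyU] with z hz using hmax (hUK hz)

theorem exists_localMin {K U : Set E} {w : E → ℝ} (hK : IsCompact K) (hU : IsOpen U)
    (hUK : U ⊆ K) (hw : ContinuousOn w K) {x₀ : E} (hx₀ : x₀ ∈ K)
    (hb : ∀ y ∈ K, y ∉ U → w x₀ < w y) : ∃ y ∈ U, IsLocalMin w y ∧ w y ≤ w x₀ := by
  obtain ⟨y, hy, h1, h2⟩ := exists_localMax (w := -w) hK hU hUK hw.neg hx₀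
    (fun y hy hyU => neg_lt_neg (hb y hy hyU))
  exact ⟨y, hy, by simpa using h1.neg, neg_le_neg_iff.mp h2⟩

theorem lap_sub' {u v : E → ℝ} {y : E} (hu : ContDiffAt ℝ 2 u y) (hv : ContDiffAt ℝ 2 v y) :
    (Δ (fun x => u x - v x)) y = (Δ u) y - (Δ v) y := hu.laplacian_sub hv

theorem lap_add' {u v : E → ℝ} {y : E} (hu : ContDiffAt ℝ 2 u y) (hv : ContDiffAt ℝ 2 v y) :
    (Δ (fun x => u x + v x)) y = (Δ u) y + (Δ v) y := hu.laplacian_add hv

theorem lap_const_mul' {v : E → ℝ} {y : E} (a : ℝ) (hv : ContDiffAt ℝ 2 v y) :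
    (Δ (fun x => a * v x)) y = a * (Δ v) y := by
  have := laplacian_smul (𝕜 := ℝ) a hv
  exact this

theorem lap_sq (a : ℝ) (c y : E) :
    (Δ (fun x : E => a * ‖x - c‖ ^ 2)) y = 2 * a * Module.finrank ℝ E := by
  have := lap_radial (E := E) (φ := fun t => a * t) (φ' := fun _ => a) (φ'' := 0) (c := c) (x := y)
    (Eventually.of_forall fun t => by simpa using (hasDerivAt_id t).const_mul a)
    (hasDerivAt_const _ _)
  rw [this]; ring

theorem contDiff_sq (a : ℝ) (c : E) {n : WithTop ℕ∞} : ContDiff ℝ n (fun x : E => a * ‖x - c‖ ^ 2) :=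
  contDiff_const.mul ((contDiff_id.sub contDiff_const).norm_sq ℝ)

theorem mem_frontier_of_mem_closure {Ω : Set E} (hΩ : IsOpen Ω) {x : E} (hx : x ∈ closure Ω)
    (hx' : x ∉ Ω) : x ∈ frontier Ω := by
  rw [hΩ.frontier_eq]; exact ⟨hx, hx'⟩

theorem IsSolution.sol {d : ℕ} {f : ℝ → ℝ} {L κ δ : ℝ} (hf : RData f L κ δ)
    {Ω : Set (EuclideanSpace ℝ (Fin d))} (hΩ : IsOpen Ω)
    {u : EuclideanSpace ℝ (Fin d) → ℝ} (hu : IsSolution f Ω u) : Sol f Ω u := by
  refine ⟨hu.contDiffOn, hu.continuousOn, hu.eqn, hu.boundary, hu.pos, ?_⟩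
  intro x₀ hx₀
  by_contra hcon
  push Not at hcon
  obtain ⟨M, hM⟩ := hu.bounded
  set η := (u x₀ - 1) / 2 with hη
  obtain ⟨c, hc, hfc⟩ := hf.above (1 + η) M (by linarith)
  set n : ℝ := ((Module.finrank ℝ (EuclideanSpace ℝ (Fin d)) : ℕ) : ℝ) with hn
  have hn0 : 0 ≤ n := Nat.cast_nonneg _
  set a := c / (4 * (n + 1)) with ha
  have ha0 : 0 < a := by positivity
  have ha1 : 2 * a * n < c := by
    have : 4 * (n + 1) * a = c := by rw [ha]; field_simp
    nlinarith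
  set r := Real.sqrt ((|M| + 1) / a) with hr
  have hr2 : a * r ^ 2 = |M| + 1 := by
    rw [hr, Real.sq_sqrt (by positivity)]; field_simp
  have hr0 : 0 < r := Real.sqrt_pos.mpr (by positivity)
  set w : EuclideanSpace ℝ (Fin d) → ℝ := fun x => u x - a * ‖x - x₀‖ ^ 2 with hw
  have hwx : w x₀ = u x₀ := by simp [hw]
  obtain ⟨y, hy, hmax, hle⟩ := exists_localMax (w := w) (K := closure Ω ∩ closedBall x₀ r)
    (U := Ω ∩ ball x₀ r) ((isCompact_closedBall x₀ r).inter_left isClosed_closure)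
    (hΩ.inter isOpen_ball) (inter_subset_inter subset_closure ball_subset_closedBall)
    ((hu.continuousOn.mono inter_subset_left).sub (contDiff_sq a x₀ (n := 0)).continuous.continuousOn)
    (x₀ := x₀) ⟨subset_closure hx₀, mem_closedBall_self hr0.le⟩ (by
      intro z hz hzU
      rw [hwx]
      by_cases hzΩ : z ∈ Ω
      · have hzb : z ∉ ball x₀ r := fun h => hzU ⟨hzΩ, h⟩
        rw [mem_ball, not_lt, dist_eq_norm] at hzb
        have h1 : r ^ 2 ≤ ‖z - x₀‖ ^ 2 := by gcongr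
        have h2 : a * r ^ 2 ≤ a * ‖z - x₀‖ ^ 2 := by gcongr
        have h3 := hM z hzΩ
        simp only [hw]
        linarith [le_abs_self M]
      · have h1 := hu.boundary z (mem_frontier_of_mem_closure hΩ hz.1 hzΩ)
        simp only [hw, h1]
        have : 0 ≤ a * ‖z - x₀‖ ^ 2 := by positivity
        linarith)
  have hcd : ContDiffAt ℝ 2 u y := hu.contDiffOn.contDiffAt (hΩ.mem_nhds hy.1)
  have h1 := lap_nonpos_of_isLocalMax (hcd.sub (contDiff_sq a x₀).contDiffAt) hmax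
  have h2 : (Δ w) y = (Δ u) y - 2 * a * n := by
    rw [hw, lap_sub' hcd (contDiff_sq a x₀).contDiffAt, lap_sq]
  have h2' : (Δ w) y ≤ 0 := h1
  rw [h2] at h2'
  have h3 : u x₀ ≤ u y := by
    have : 0 ≤ a * ‖y - x₀‖ ^ 2 := by positivity
    rw [hwx] at hle
    simp only [hw] at hle
    linarith
  have h4 := hfc (u y) ⟨by linarith, hM y hy.1⟩
  have h5 := hu.eqn y hy.1
  linarith

theorem RData.continuousOn {f : ℝ → ℝ} {L κ δ : ℝ} (hf : RData f L κ δ) :
    ContinuousOn f (Icc 0 1) := by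
  have : LipschitzOnWith (Real.toNNReal L) f (Icc 0 1) := by
    apply LipschitzOnWith.of_dist_le_mul
    intro x hx y hy
    rw [Real.dist_eq, Real.dist_eq, Real.coe_toNNReal _ hf.hL.le]
    exact hf.lip x hx y hy
  exact this.continuousOn

section harnack
variable [MeasurableSpace E] [BorelSpace E]

theorem Sol.mem_Icc {f : ℝ → ℝ} {Ω : Set E} {u : E → ℝ} (hu : Sol f Ω u) {x : E} (hx : x ∈ Ω) :
    u x ∈ Icc (0 : ℝ) 1 := ⟨(hu.pos x hx).le, hu.le_one x hx⟩

theorem Sol.continuousOn_rhs {f : ℝ → ℝ} {L κ δ : ℝ} (hf : RData f L κ δ) {Ω : Set E}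
    {u : E → ℝ} (hu : Sol f Ω u) : ContinuousOn (fun x => f (u x)) Ω :=
  hf.continuousOn.comp hu.c2.continuousOn fun _ hx => hu.mem_Icc hx

variable (E) in
/-- Harnack inequality and relative Lipschitz estimate for solutions. -/
theorem Sol.harnack {f : ℝ → ℝ} {L κ δ : ℝ} (hf : RData f L κ δ) : ∃ C r₀ : ℝ, 1 ≤ C ∧ 0 < r₀ ∧
    ∀ (Ω : Set E) (u : E → ℝ), IsOpen Ω → Sol f Ω u → ∀ (x y : E) (r : ℝ), 0 < r → r ≤ r₀ →
      closedBall x r ⊆ Ω → (dist x y ≤ r / 4 → u y ≤ C * u x) ∧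
      (dist x y ≤ r / 8 → |u x - u y| ≤ C / r * dist x y * u x) := by
  obtain ⟨C₁, hC₁, h1⟩ := MVOn.harnack E
  obtain ⟨C₂, hC₂, h2⟩ := MVOn.lipschitz E
  have hL := hf.hL
  refine ⟨C₁ + 5 * C₂ * C₁, Real.sqrt (1 / L), by nlinarith [mul_pos hC₂ (by linarith : 0 < C₁)],
    Real.sqrt_pos.mpr (by positivity), ?_⟩
  intro Ω u hΩ hu x y r hr hrr hs
  have hLr : L * r ^ 2 ≤ 1 := by
    have : r ^ 2 ≤ Real.sqrt (1 / L) ^ 2 := by gcongr
    rw [Real.sq_sqrt (by positivity)] at this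
    calc L * r ^ 2 ≤ L * (1 / L) := by gcongr
      _ = 1 := by field_simp
  have hmv : MVOn u (fun x => f (u x)) Ω := mvOn_of_contDiffOn hΩ hu.c2 hu.eqn
  have hgc := hu.continuousOn_rhs hf
  have huc := hu.c2.continuousOn
  have hH := h1 u (fun x => f (u x)) Ω L huc hgc hmv (fun z hz => (hu.pos z hz).le)
    (fun z hz => hf.abs_le (hu.pos z hz).le (hu.le_one z hz)) x
  have hux := hu.pos x (hs (mem_closedBall_self hr.le))
  constructor
  · intro hd
    refine (hH y r hr hLr hs hd).trans ?_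
    have : 0 < C₂ * C₁ * u x := by positivity
    nlinarith
  · intro hd
    have hb : ∀ z ∈ closedBall x (r / 4), |u z| ≤ C₁ * u x := by
      intro z hz
      have hzΩ : z ∈ Ω := hs (closedBall_subset_closedBall (by linarith) hz)
      rw [abs_of_pos (hu.pos z hzΩ)]
      exact hH z r hr hLr hs (by rw [dist_comm]; exact hz)
    have hb2 : ∀ z ∈ closedBall x (r / 4), |f (u z)| ≤ L * (C₁ * u x) := by
      intro z hz
      have hzΩ : z ∈ Ω := hs (closedBall_subset_closedBall (by linarith) hz)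
      refine (hf.abs_le (hu.pos z hzΩ).le (hu.le_one z hzΩ)).trans ?_
      have := hb z hz
      rw [abs_of_pos (hu.pos z hzΩ)] at this
      gcongr
    have h3 := h2 u (fun x => f (u x)) Ω huc hgc hmv x y (r / 4) (C₁ * u x) (L * (C₁ * u x))
      (by positivity) ((closedBall_subset_closedBall (by linarith)).trans hs) hb hb2 (by linarith)
    refine h3.trans ?_
    have e1 : C₁ * u x / (r / 4) + r / 4 * (L * (C₁ * u x)) ≤ 5 * C₁ / r * u x := by
      have e2 : r / 4 * (L * (C₁ * u x)) ≤ C₁ / r * u x / 4 := by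
        have : r * L ≤ 1 / r := by
          rw [le_div_iff₀ hr]; nlinarith
        calc r / 4 * (L * (C₁ * u x)) = (r * L) * (C₁ * u x) / 4 := by ring
          _ ≤ (1 / r) * (C₁ * u x) / 4 := by gcongr
          _ = C₁ / r * u x / 4 := by ring
      have e3 : C₁ * u x / (r / 4) = 4 * (C₁ / r * u x) := by field_simp
      have e4 : 0 < C₁ / r * u x := by positivity
      have e5 : 5 * C₁ / r * u x = 5 * (C₁ / r * u x) := by ring
      rw [e3, e5]
      linarith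
    have hdn : 0 ≤ dist x y := dist_nonneg
    calc C₂ * dist x y * (C₁ * u x / (r / 4) + r / 4 * (L * (C₁ * u x)))
        ≤ C₂ * dist x y * (5 * C₁ / r * u x) := by gcongr
      _ = (5 * C₂ * C₁) / r * dist x y * u x := by ring
      _ ≤ (C₁ + 5 * C₂ * C₁) / r * dist x y * u x := by
          gcongr
          linarith

end harnack

/-- lower bound in big balls -/
theorem Sol.half_le {f : ℝ → ℝ} {L κ δ : ℝ} (hf : RData f L κ δ) : ∃ R₀ : ℝ, 0 < R₀ ∧
    ∀ (Ω : Set E) (u : E → ℝ), IsOpen Ω → Sol f Ω u → ∀ x₀, closedBall x₀ R₀ ⊆ Ω → 1 / 2 ≤ u x₀ := by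
  obtain ⟨c, hc, hcs⟩ := hf.below (1 / 2) (by norm_num)
  set n : ℝ := ((Module.finrank ℝ E : ℕ) : ℝ) with hn
  have hn0 : 0 ≤ n := Nat.cast_nonneg _
  set R := Real.sqrt ((n + 2) ^ 2 / (2 * c) + 1) with hR
  have hR2 : R ^ 2 = (n + 2) ^ 2 / (2 * c) + 1 := Real.sq_sqrt (by positivity)
  have hR0 : 0 < R := Real.sqrt_pos.mpr (by positivity)
  have hcR : (n + 2) ^ 2 / 2 < c * R ^ 2 := by
    rw [hR2]
    have : c * ((n + 2) ^ 2 / (2 * c) + 1) = (n + 2) ^ 2 / 2 + c := by field_simp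
    linarith
  refine ⟨R, hR0, ?_⟩
  intro Ω u hΩ hu x₀ hs
  set φ : ℝ → ℝ := fun t => (1 - t / R ^ 2) ^ 2 with hφ
  set Q : E → ℝ := fun x => φ (‖x - x₀‖ ^ 2) with hQ
  have hφd : ∀ t, HasDerivAt φ (-2 * (1 - t / R ^ 2) / R ^ 2) t := by
    intro t
    have h1 : HasDerivAt (fun t : ℝ => 1 - t / R ^ 2) (-(1 / R ^ 2)) t := by
      simpa using ((hasDerivAt_id t).div_const (R ^ 2)).const_sub 1
    have h2 := h1.pow 2
    refine h2.congr_deriv ?_
    norm_num
    ring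
  have hφdd : ∀ t, HasDerivAt (fun t : ℝ => -2 * (1 - t / R ^ 2) / R ^ 2) (2 / R ^ 4) t := by
    intro t
    have h1 : HasDerivAt (fun t : ℝ => 1 - t / R ^ 2) (-(1 / R ^ 2)) t := by
      simpa using ((hasDerivAt_id t).div_const (R ^ 2)).const_sub 1
    have h2 := (h1.const_mul (-2)).div_const (R ^ 2)
    refine h2.congr_deriv ?_
    field_simp
  have hQc : ContDiff ℝ 2 Q := by
    have : ContDiff ℝ 2 φ := by
      simp only [hφ]; fun_prop
    exact this.comp ((contDiff_id.sub contDiff_const).norm_sq ℝ)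
  have hQlap : ∀ y, (Δ Q) y = 4 * ‖y - x₀‖ ^ 2 * (2 / R ^ 4)
      + 2 * n * (-2 * (1 - ‖y - x₀‖ ^ 2 / R ^ 2) / R ^ 2) := by
    intro y
    exact lap_radial (Eventually.of_forall hφd) (hφdd _)
  have hQ1 : ∀ x ∈ closedBall x₀ R, Q x ≤ 1 := by
    intro x hx
    rw [mem_closedBall, dist_eq_norm] at hx
    have h1 : ‖x - x₀‖ ^ 2 / R ^ 2 ≤ 1 := by
      rw [div_le_one (by positivity)]; gcongr
    have h2 : 0 ≤ ‖x - x₀‖ ^ 2 / R ^ 2 := by positivity
    simp only [hQ, hφ]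
    nlinarith
  have hQ0 : ∀ x, 0 ≤ Q x := fun x => sq_nonneg _
  have hK : IsCompact (closedBall x₀ R) := isCompact_closedBall _ _
  set S : Set ℝ := Icc 0 (1 / 2) ∩ ⋂ x ∈ closedBall x₀ R, {ε | ε * Q x ≤ u x} with hS
  have hSc : IsCompact S := by
    apply isCompact_Icc.inter_right
    apply isClosed_biInter
    intro x _
    exact isClosed_le (by fun_prop) continuous_const
  have hSmem : ∀ ε, ε ∈ S ↔ ε ∈ Icc (0 : ℝ) (1 / 2) ∧ ∀ x ∈ closedBall x₀ R, ε * Q x ≤ u x := by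
    intro ε; simp [hS]
  have hSne : S.Nonempty := ⟨0, (hSmem 0).mpr ⟨by norm_num, fun x hx => by
    rw [zero_mul]; exact (hu.pos x (hs hx)).le⟩⟩
  obtain ⟨ε, hεS, hεmax⟩ := hSc.exists_isGreatest hSne
  obtain ⟨hε1, hε2⟩ := (hSmem ε).mp hεS
  have hεhalf : ε = 1 / 2 := by
    by_contra hne
    have hlt : ε < 1 / 2 := lt_of_le_of_ne hε1.2 hne
    have hwc : ContinuousOn (fun x => u x - ε * Q x) (closedBall x₀ R) :=
      (hu.c2.continuousOn.mono hs).sub (continuous_const.mul hQc.continuous).continuousOn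
    obtain ⟨y, hy, hmin⟩ := hK.exists_isMinOn ⟨x₀, mem_closedBall_self hR0.le⟩ hwc
    have hy0 : 0 ≤ u y - ε * Q y := by linarith [hε2 y hy]
    have hyz : u y - ε * Q y = 0 := by
      by_contra hne2
      have hpos : 0 < u y - ε * Q y := lt_of_le_of_ne hy0 (Ne.symm hne2)
      have hmem : min (1 / 2) (ε + (u y - ε * Q y)) ∈ S := by
        rw [hSmem]
        refine ⟨⟨le_min (by norm_num) (by linarith [hε1.1]), min_le_left _ _⟩, ?_⟩
        intro x hx
        have h1 : u y - ε * Q y ≤ u x - ε * Q x := hmin hx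
        calc min (1 / 2) (ε + (u y - ε * Q y)) * Q x ≤ (ε + (u y - ε * Q y)) * Q x :=
              mul_le_mul_of_nonneg_right (min_le_right _ _) (hQ0 x)
          _ = ε * Q x + (u y - ε * Q y) * Q x := by ring
          _ ≤ ε * Q x + (u y - ε * Q y) * 1 := by
              gcongr
              exact hQ1 x hx
          _ ≤ u x := by linarith
      have := hεmax hmem
      have h2 : ε < min (1 / 2) (ε + (u y - ε * Q y)) := lt_min hlt (by linarith)
      linarith
    have huy : u y = ε * Q y := by linarith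
    have hupos := hu.pos y (hs hy)
    have hε0 : 0 < ε := by
      rcases hε1.1.eq_or_lt with h | h
      · rw [← h, zero_mul] at huy; linarith
      · exact h
    set τ := 1 - ‖y - x₀‖ ^ 2 / R ^ 2 with hτ
    have hQτ : Q y = τ ^ 2 := rfl
    have hτne : τ ≠ 0 := by
      intro h
      rw [hQτ, h] at huy
      simp at huy
      linarith
    have hyb : ‖y - x₀‖ ≤ R := by rwa [mem_closedBall, dist_eq_norm] at hy
    have hτ0 : 0 < τ := by
      have h1 : ‖y - x₀‖ ^ 2 / R ^ 2 ≤ 1 := by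
        rw [div_le_one (by positivity)]; gcongr
      exact lt_of_le_of_ne (by linarith) (Ne.symm hτne)
    have hyball : y ∈ ball x₀ R := by
      rw [mem_ball, dist_eq_norm]
      by_contra h
      push Not at h
      have : ‖y - x₀‖ = R := le_antisymm hyb h
      rw [hτ, this, div_self (by positivity)] at hτ0
      simp at hτ0
    have hyΩ : y ∈ Ω := hs hy
    have hcd : ContDiffAt ℝ 2 u y := hu.c2.contDiffAt (hΩ.mem_nhds hyΩ)
    have hcd2 : ContDiffAt ℝ 2 (fun x => ε * Q x) y := (contDiff_const.mul hQc).contDiffAt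
    have hlm : IsLocalMin (fun x => u x - ε * Q x) y := by
      filter_upwards [isOpen_ball.mem_nhds hyball] with z hz
      exact hmin (ball_subset_closedBall hz)
    have h1 := lap_nonneg_of_isLocalMin (hcd.sub hcd2) hlm
    rw [lap_sub' hcd hcd2, lap_const_mul' ε hQc.contDiffAt, hQlap] at h1
    have h2 := hu.eqn y hyΩ
    have h3 := hcs (u y) ⟨hupos.le, by
      rw [huy]
      have := hQ1 y hy
      nlinarith [hQ0 y]⟩
    -- combine
    have ht : ‖y - x₀‖ ^ 2 = R ^ 2 * (1 - τ) := by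
      rw [hτ]; field_simp; ring
    rw [ht] at h1
    have h4 : c * (ε * τ ^ 2) ≤ ε * ((4 * n + 8) * τ - 8) / R ^ 2 := by
      have e1 : f (u y) ≤ -(ε * (4 * (R ^ 2 * (1 - τ)) * (2 / R ^ 4)
          + 2 * n * (-2 * (1 - R ^ 2 * (1 - τ) / R ^ 2) / R ^ 2))) := by linarith
      have e2 : -(ε * (4 * (R ^ 2 * (1 - τ)) * (2 / R ^ 4)
          + 2 * n * (-2 * (1 - R ^ 2 * (1 - τ) / R ^ 2) / R ^ 2)))
          = ε * ((4 * n + 8) * τ - 8) / R ^ 2 := by
        field_simp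
        ring
      rw [← hQτ, ← huy]
      linarith
    rw [le_div_iff₀ (by positivity)] at h4
    have h5 : c * R ^ 2 * τ ^ 2 ≤ (4 * n + 8) * τ - 8 := by
      have : ε * (c * R ^ 2 * τ ^ 2) ≤ ε * ((4 * n + 8) * τ - 8) := by nlinarith
      exact le_of_mul_le_mul_left this hε0
    have h6 : (n + 2) ^ 2 / 2 * τ ^ 2 < c * R ^ 2 * τ ^ 2 := by gcongr
    nlinarith [sq_nonneg ((n + 2) * τ - 4)]
  have h7 := hε2 x₀ (mem_closedBall_self hR0.le)
  rw [hεhalf] at h7
  simpa [hQ, hφ] using h7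

/-- deep inside, solutions are close to one -/
theorem Sol.le_of_deep {f : ℝ → ℝ} {L κ δ : ℝ} (hf : RData f L κ δ) {σ : ℝ} (hσ : σ < 1) :
    ∃ R₁ : ℝ, 0 < R₁ ∧ ∀ (Ω : Set E) (u : E → ℝ), IsOpen Ω → Sol f Ω u →
      ∀ x₀, closedBall x₀ R₁ ⊆ Ω → σ ≤ u x₀ := by
  obtain ⟨R₀, hR₀, hhalf⟩ := Sol.half_le (E := E) hf
  obtain ⟨c, hc, hcs⟩ := hf.below σ hσ
  set n : ℝ := ((Module.finrank ℝ E : ℕ) : ℝ) with hn
  have hn0 : 0 ≤ n := Nat.cast_nonneg _
  set a := c / (8 * (n + 1)) with ha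
  have ha0 : 0 < a := by positivity
  have ha1 : 2 * a * n < c / 2 := by
    have : 8 * (n + 1) * a = c := by rw [ha]; field_simp
    nlinarith
  set r := Real.sqrt (1 / a) with hr
  have hr2 : a * r ^ 2 = 1 := by
    rw [hr, Real.sq_sqrt (by positivity)]; field_simp
  have hr0 : 0 < r := Real.sqrt_pos.mpr (by positivity)
  refine ⟨R₀ + r, by positivity, ?_⟩
  intro Ω u hΩ hu x₀ hs
  by_contra hcon
  push Not at hcon
  have hsr : closedBall x₀ r ⊆ Ω := (closedBall_subset_closedBall (by linarith)).trans hs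
  set w : E → ℝ := fun x => u x + a * ‖x - x₀‖ ^ 2 with hw
  have hwx : w x₀ = u x₀ := by simp [hw]
  obtain ⟨y, hy, hmin, hle⟩ := exists_localMin (w := w) (K := closedBall x₀ r)
    (U := ball x₀ r) (isCompact_closedBall x₀ r) isOpen_ball ball_subset_closedBall
    ((hu.c2.continuousOn.mono hsr).add (contDiff_sq a x₀ (n := 0)).continuous.continuousOn)
    (x₀ := x₀) (mem_closedBall_self hr0.le) (by
      intro z hz hzb
      rw [hwx]
      rw [mem_ball, not_lt, dist_eq_norm] at hzb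
      have h1 : r ^ 2 ≤ ‖z - x₀‖ ^ 2 := by gcongr
      have h2 : a * r ^ 2 ≤ a * ‖z - x₀‖ ^ 2 := by gcongr
      have h3 := hu.pos z (hsr hz)
      simp only [hw]
      linarith)
  have hyΩ : y ∈ Ω := hsr (ball_subset_closedBall hy)
  have hcd : ContDiffAt ℝ 2 u y := hu.c2.contDiffAt (hΩ.mem_nhds hyΩ)
  have h1 := lap_nonneg_of_isLocalMin (hcd.add (contDiff_sq a x₀).contDiffAt) hmin
  have h2 : (Δ w) y = (Δ u) y + 2 * a * n := by
    rw [hw, lap_add' hcd (contDiff_sq a x₀).contDiffAt, lap_sq]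
  have h2' : 0 ≤ (Δ w) y := h1
  rw [h2] at h2'
  have h3 : u y ≤ u x₀ := by
    have : 0 ≤ a * ‖y - x₀‖ ^ 2 := by positivity
    rw [hwx] at hle
    simp only [hw] at hle
    linarith
  have h4 : 1 / 2 ≤ u y := by
    apply hhalf Ω u hΩ hu
    refine (closedBall_subset_closedBall' ?_).trans hs
    rw [mem_ball] at hy
    linarith
  have h5 := hcs (u y) ⟨by linarith, by linarith⟩
  have h6 := hu.eqn y hyΩ
  nlinarith

end Pool.Agent.Lib.MP_437bdf_an
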