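import Pool.Agent.Lib.MP_437bdf_an.Chain

/-! Uniqueness of the positive bounded solution. -/

open Set Metric Filter Topology MeasureTheory
open InnerProductSpace Laplacian

namespace Pool.Agent.Lib.MP_437bdf_an

set_option linter.unusedSectionVars false
set_option linter.unusedVariables false

section general
variable {E : Type*} [NormedAddCommGroup E] [InnerProductSpace ℝ E]

theorem continuousAt_dil {Ω : Set E} (hΩ : IsOpen Ω) {v : E → ℝ} (hv : ContinuousOn v (closure Ω))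
    {x : E} {μ : ℝ} (h : μ • x ∈ Ω) : ContinuousAt (fun t : ℝ => v (t • x)) μ := by
  have h1 : ContinuousAt v (μ • x) :=
    (hv.mono subset_closure).continuousAt (hΩ.mem_nhds h)
  have h2 : ContinuousAt (fun t : ℝ => t • x) μ := by fun_prop
  exact ContinuousAt.comp (f := fun t : ℝ => t • x) (g := v) h1 h2

/-- set of dilation factors at which the comparison fails -/
def badSet (u v : E → ℝ) (δ : ℝ) (x : E) : Set ℝ := {μ | 1 ≤ μ ∧ v (μ • x) < min (u x) (1 - δ)}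

theorem sup_badSet_le {Ω : Set E} (hΩ : IsOpen Ω) {u v : E → ℝ}
    (hv : ContinuousOn v (closure Ω)) {δ : ℝ} {x : E}
    (hne : (badSet u v δ x).Nonempty) (hb : BddAbove (badSet u v δ x))
    (hmem : ∀ μ : ℝ, 1 ≤ μ → μ • x ∈ Ω) :
    v (sSup (badSet u v δ x) • x) ≤ min (u x) (1 - δ) := by
  by_contra hcon
  push Not at hcon
  have h1 : 1 ≤ sSup (badSet u v δ x) := by
    obtain ⟨μ, hμ⟩ := hne
    exact hμ.1.trans (le_csSup hb hμ)
  have hc := continuousAt_dil hΩ hv (hmem _ h1)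
  have hev : ∀ᶠ t in 𝓝 (sSup (badSet u v δ x)), min (u x) (1 - δ) < v (t • x) :=
    hc.eventually_const_lt hcon
  have hcl := csSup_mem_closure hne hb
  obtain ⟨t, ht1, ht2⟩ := ((mem_closure_iff_frequently.mp hcl).and_eventually hev).exists
  exact absurd ht1.2 (not_lt.mpr ht2.le)

variable [FiniteDimensional ℝ E] [MeasurableSpace E] [BorelSpace E]

theorem Sol.le_of_dilation {f : ℝ → ℝ} {L κ δ ρ : ℝ} (hf : RData f L κ δ) (hρ : 0 < ρ)
    {Ω : Set E} (hΩ : IsOpen Ω) (hne : (Ωᶜ).Nonempty) (hT : TwoSidedBall Ω ρ)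
    (hstar : ∀ x ∈ Ω, ∀ μ : ℝ, 1 ≤ μ → μ • x ∈ Ω) {u v : E → ℝ} (hu : Sol f Ω u)
    (hv : Sol f Ω v) : ∀ x ∈ Ω, u x ≤ v x := by
  by_contra hcon
  obtain ⟨r₁, d₀, hr₁, hd₀, hp1, hp2⟩ := small_error E hf hρ
  have hV : SuperSol f Ω v := by simpa using hv.superSol_smul hf hΩ hstar (le_refl 1)
  have hex : ∃ x₀ ∈ Ω, d₀ ≤ infDist x₀ Ωᶜ ∧ v x₀ < min (u x₀) (1 - δ) := by
    by_contra h
    push Not at h
    exact hcon (hp1 Ω u v hΩ hne hT hu hV (fun z hz hzd => h z hz hzd))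
  obtain ⟨x₀, hx₀, hx₀d, hx₀v⟩ := hex
  have hμ : ∃ μ₀ : ℝ, 1 < μ₀ ∧ v (μ₀ • x₀) < min (u x₀) (1 - δ) := by
    have hc := continuousAt_dil (μ := 1) hΩ hv.cont (by rwa [one_smul])
    have hev : ∀ᶠ t in 𝓝 (1 : ℝ), v (t • x₀) < min (u x₀) (1 - δ) :=
      hc.eventually_lt_const (by
        show v ((1 : ℝ) • x₀) < min (u x₀) (1 - δ)
        rwa [one_smul])
    obtain ⟨e, he, hball⟩ := Metric.eventually_nhds_iff.mp hev
    refine ⟨1 + e / 2, by linarith, hball ?_⟩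
    rw [Real.dist_eq, add_sub_cancel_left, abs_of_pos (by linarith)]
    linarith
  obtain ⟨μ₀, hμ₀, hμ₀v⟩ := hμ
  obtain ⟨R₁, hR₁, hdeep⟩ := Sol.le_of_deep (E := E) hf (σ := 1 - δ) (by linarith [hf.hδ])
  set T : Set E := {x | x ∈ Ω ∧ d₀ ≤ infDist x Ωᶜ} with hT'
  set B := R₁ / d₀ with hB
  have hB0 : 0 < B := by positivity
  have hbd : ∀ x ∈ T, ∀ μ ∈ badSet u v δ x, μ ≤ B := by
    rintro x ⟨hx, hxd⟩ μ ⟨hμ1, hμ2⟩
    by_contra hlt
    push Not at hlt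
    have h1 : R₁ < μ * d₀ := by rwa [hB, div_lt_iff₀ hd₀] at hlt
    have h2 : ball x d₀ ⊆ Ω := (ball_subset_ball hxd).trans ball_infDist_subset
    have h3 : closedBall (μ • x) R₁ ⊆ Ω :=
      (closedBall_subset_ball h1).trans (smul_ball_subset hstar h2 hμ1)
    have h4 := hdeep Ω v hΩ hv (μ • x) h3
    exact absurd (hμ2.trans_le (min_le_right _ _)) (not_lt.mpr h4)
  have hbdd : ∀ x ∈ T, BddAbove (badSet u v δ x) := fun x hx => ⟨B, fun μ h => hbd x hx μ h⟩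
  set G : E → ℝ := fun x => sSup (badSet u v δ x) with hG
  have hGB : ∀ x ∈ T, G x ≤ B := fun x hx => Real.sSup_le (hbd x hx) hB0.le
  have hP1 : ∀ x ∈ T, ∀ μ : ℝ, 1 ≤ μ → G x < μ → min (u x) (1 - δ) ≤ v (μ • x) := by
    intro x hx μ hμ1 hμ2
    by_contra h
    push Not at h
    exact absurd (le_csSup (hbdd x hx) ⟨hμ1, h⟩) (not_le.mpr hμ2)
  obtain ⟨η, ε, hη, hε, htouch⟩ := touching E (M := B + 1) hf hμ₀ (by linarith) hd₀ hr₁
  obtain ⟨k, hk⟩ := hp2 η hη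
  set e := min (ε / 2) (1 / 2) with he
  have he0 : 0 < e := by positivity
  have heε : 2 * e ≤ ε := by linarith [min_le_left (ε / 2) (1 / 2 : ℝ)]
  have he1 : 2 * e ≤ 1 := by linarith [min_le_right (ε / 2) (1 / 2 : ℝ)]
  have hx₀T : x₀ ∈ T := ⟨hx₀, hx₀d⟩
  obtain ⟨x₁, hx₁T, hGx₁, hchain⟩ := chain_lemma (T := T) (G := G) (B := B) (ℓ := k * r₁) (ε := e)
    hGB (R := fun x y => y ∈ reach Ω r₁ x k) (fun x y _ hy => dist_le_of_mem_reach k y hy)
    hx₀T he0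
  have hGx₀ : μ₀ ≤ G x₀ := le_csSup (hbdd x₀ hx₀T) ⟨hμ₀.le, hμ₀v⟩
  have hGμ : μ₀ ≤ G x₁ := hGx₀.trans hGx₁
  have hnon : (badSet u v δ x₁).Nonempty := by
    by_contra h
    rw [not_nonempty_iff_eq_empty] at h
    have : G x₁ = 0 := by rw [hG]; simp only [h, Real.sSup_empty]
    linarith
  have hPos : 0 < 1 + ‖x₁‖ := by positivity
  set μ' := G x₁ + 2 * e / (1 + ‖x₁‖) with hμ'
  have hfrac : 0 < e / (1 + ‖x₁‖) := by positivity
  have hfrac2 : 2 * e / (1 + ‖x₁‖) = 2 * (e / (1 + ‖x₁‖)) := by ring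
  have hfrac3 : 2 * e / (1 + ‖x₁‖) ≤ 1 := by
    rw [div_le_one hPos]
    linarith [norm_nonneg x₁]
  have hμ'1 : 1 ≤ μ' := by linarith
  have hsup := hv.superSol_smul hf hΩ hstar hμ'1
  have herr := hk Ω u (fun x => v (μ' • x)) hΩ hne hT hu hsup x₁ hx₁T.1 hx₁T.2 (by
    intro z hz hzd
    have hzΩ := reach_subset hx₁T.1 k hz
    have h1 := hchain z ⟨hzΩ, hzd⟩ hz
    exact hP1 z ⟨hzΩ, hzd⟩ μ' hμ'1 (by linarith))
  refine htouch Ω u v hΩ hstar hu hv x₁ (G x₁) μ' hx₁T.1 hx₁T.2 hGμ (by linarith) ?_ ?_ ?_ herr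
  · have := hGB x₁ hx₁T
    linarith
  · have h1 : μ' - G x₁ = 2 * e / (1 + ‖x₁‖) := by rw [hμ']; ring
    rw [h1, div_mul_eq_mul_div, div_le_iff₀ hPos]
    have : 2 * e * ‖x₁‖ ≤ ε * ‖x₁‖ := by gcongr
    nlinarith
  · exact sup_badSet_le hΩ hv.cont hnon (hbdd x₁ hx₁T) (fun μ hμ => hstar x₁ hx₁T.1 μ hμ)

/-- translation of solutions -/
theorem Sol.translate {f : ℝ → ℝ} {Ω : Set E} (hΩ : IsOpen Ω) {u : E → ℝ} (hu : Sol f Ω u)
    (c : E) : Sol f ((fun y => c + y) ⁻¹' Ω) (fun y => u (c + y)) := by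
  have hcl : closure ((fun y => c + y) ⁻¹' Ω) = (fun y => c + y) ⁻¹' closure Ω :=
    ((Homeomorph.addLeft c).preimage_closure Ω).symm
  have hfr : frontier ((fun y => c + y) ⁻¹' Ω) = (fun y => c + y) ⁻¹' frontier Ω :=
    ((Homeomorph.addLeft c).preimage_frontier Ω).symm
  refine ⟨?_, ?_, ?_, ?_, ?_, ?_⟩
  · exact hu.c2.comp (by fun_prop) (fun x hx => hx)
  · rw [hcl]
    exact hu.cont.comp (by fun_prop) (fun x hx => hx)
  · intro x hx
    have hcd : ContDiffAt ℝ 2 u (c + (1 : ℝ) • x) := by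
      rw [one_smul]; exact hu.c2.contDiffAt (hΩ.mem_nhds hx)
    have h1 := lap_affine hcd
    simp only [one_smul, one_pow, one_mul] at h1
    rw [h1]
    exact hu.eqn _ hx
  · intro x hx
    rw [hfr] at hx
    exact hu.bdry _ hx
  · intro x hx; exact hu.pos _ hx
  · intro x hx; exact hu.le_one _ hx

theorem TwoSidedBall.translate {Ω : Set E} {ρ : ℝ} (hT : TwoSidedBall Ω ρ) (c : E) :
    TwoSidedBall ((fun y => c + y) ⁻¹' Ω) ρ := by
  have hfr : frontier ((fun y => c + y) ⁻¹' Ω) = (fun y => c + y) ⁻¹' frontier Ω :=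
    ((Homeomorph.addLeft c).preimage_frontier Ω).symm
  intro p hp
  rw [hfr] at hp
  obtain ⟨N, hN, h1, h2⟩ := hT (c + p) hp
  refine ⟨N, hN, ?_, ?_⟩
  · intro y hy
    apply h1
    rw [mem_ball, dist_eq_norm] at hy ⊢
    rwa [show c + y - (c + p + ρ • N) = y - (p + ρ • N) by abel]
  · intro y hy
    apply h2
    rw [mem_ball, dist_eq_norm] at hy ⊢
    rwa [show c + y - (c + p - ρ • N) = y - (p - ρ • N) by abel]

theorem dilation_of_star {Ω : Set E} {c : E} (h : StarConvex ℝ c Ωᶜ) :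
    ∀ x ∈ (fun y => c + y) ⁻¹' Ω, ∀ μ : ℝ, 1 ≤ μ → μ • x ∈ (fun y => c + y) ⁻¹' Ω := by
  intro x hx μ hμ
  by_contra hcon
  have hμ0 : 0 < μ := by linarith
  have h1 : c + μ • x ∈ Ωᶜ := hcon
  have h2 := h h1 (a := 1 - μ⁻¹) (b := μ⁻¹) (by
    rw [sub_nonneg]; exact inv_le_one_of_one_le₀ hμ) (by positivity) (by ring)
  have h3 : (1 - μ⁻¹) • c + μ⁻¹ • (c + μ • x) = c + x := by
    rw [smul_add, smul_smul, inv_mul_cancel₀ hμ0.ne', one_smul, sub_smul, one_smul]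
    abel
  rw [h3] at h2
  exact h2 hx

theorem Sol.le_of_star {f : ℝ → ℝ} {L κ δ ρ : ℝ} (hf : RData f L κ δ) (hρ : 0 < ρ)
    {Ω : Set E} (hΩ : IsOpen Ω) (hT : TwoSidedBall Ω ρ) {c : E}
    (hstar : StarConvex ℝ c Ωᶜ) {u v : E → ℝ} (hu : Sol f Ω u)
    (hv : Sol f Ω v) : ∀ x ∈ Ω, u x ≤ v x := by
  intro x hx
  rcases (Ωᶜ).eq_empty_or_nonempty with hne | hne
  · have hone : 1 ≤ v x := by
      refine le_of_forall_lt_imp_le_of_dense fun σ hσ => ?_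
      obtain ⟨R₁, hR₁, hdeep⟩ := Sol.le_of_deep (E := E) hf hσ
      refine hdeep Ω v hΩ hv x ?_
      rw [compl_empty_iff] at hne
      rw [hne]; exact subset_univ _
    exact (hu.le_one x hx).trans hone
  · have hopen : IsOpen ((fun y => c + y) ⁻¹' Ω) := hΩ.preimage (by fun_prop)
    have hne' : (((fun y => c + y) ⁻¹' Ω)ᶜ).Nonempty := by
      obtain ⟨z, hz⟩ := hne
      refine ⟨z - c, ?_⟩
      rw [← preimage_compl, mem_preimage]
      rwa [add_sub_cancel]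
    have := Sol.le_of_dilation hf hρ hopen hne' (hT.translate c) (dilation_of_star hstar)
      (hu.translate hΩ c) (hv.translate hΩ c) (x - c) (by
        rw [mem_preimage]; rwa [add_sub_cancel])
    simpa using this

end general

theorem solution_le {d : ℕ} {γ : ℝ} {f : ℝ → ℝ} (hf : IsPositiveReaction γ f)
    {Ω : Set (EuclideanSpace ℝ (Fin d))} (hΩ : IsOpen Ω)
    {ρ : ℝ} (hρ : 0 < ρ) (hT : TwoSidedBall Ω ρ) {c : EuclideanSpace ℝ (Fin d)}
    (hstar : StarConvex ℝ c Ωᶜ) {u v : EuclideanSpace ℝ (Fin d) → ℝ}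
    (hu : IsSolution f Ω u) (hv : IsSolution f Ω v) : ∀ x ∈ Ω, u x ≤ v x := by
  obtain ⟨L, κ, δ, hR⟩ := hf.rdata
  exact Sol.le_of_star hR hρ hΩ hT hstar (hu.sol hR hΩ) (hv.sol hR hΩ)

end Pool.Agent.Lib.MP_437bdf_an
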